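import Pool.Agent.Q73.CM.Stm

/-!
# Project CM (helper73), job AS: big windows in long and thin cylinders (helper142)
-/

set_option autoImplicit false

open Set Filter Topology MeasureTheory

namespace Pool.Agent.Q73.CM

namespace AS

variable {m n : ℕ}

theorem wlen_append (a : Fin m → ℝ) (w w' : List (Fin m)) :
    wlen a (w ++ w') = wlen a w * wlen a w' := by
  induction w with
  | nil => simp [wlen]
  | cons j w ih => simp only [List.cons_append, wlen, ih, mul_assoc]

theorem wleft_append (u a : Fin m → ℝ) (w w' : List (Fin m)) :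
    wleft u a (w ++ w') = wleft u a w + wlen a w * wleft u a w' := by
  induction w with
  | nil => simp [wlen, wleft]
  | cons j w ih =>
    simp only [List.cons_append, wlen, wleft, ih]
    ring

theorem wlen_pos {u a : Fin m → ℝ} (h : Ints u a) (w : List (Fin m)) : 0 < wlen a w := by
  induction w with
  | nil => exact one_pos
  | cons j w ih => exact mul_pos (h.a_pos j) ih

theorem wlen_le_one {u a : Fin m → ℝ} (h : Ints u a) (w : List (Fin m)) : wlen a w ≤ 1 := by
  induction w with
  | nil => exact le_refl _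
  | cons j w ih => exact mul_le_one₀ (h.a_lt j).le (wlen_pos h w).le ih

theorem coord01 {u a : Fin m → ℝ} (h : Ints u a) (w : List (Fin m)) {x : ℝ}
    (hx : x ∈ Icc (0 : ℝ) 1) : wlen a w * x + wleft u a w ∈ Icc (0 : ℝ) 1 := by
  induction w with
  | nil => simpa [wlen, wleft] using hx
  | cons j w ih =>
    have e : wlen a (j :: w) * x + wleft u a (j :: w)
        = u j + a j * (wlen a w * x + wleft u a w) := by
      simp only [wlen, wleft]
      ring
    rw [e]
    have h1 := h.a_pos j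
    have h2 := mul_le_mul_of_nonneg_left ih.2 h1.le
    have h3 := mul_nonneg h1.le ih.1
    exact ⟨add_nonneg (h.u_nonneg j) h3, by linarith [h.u_le j]⟩

theorem wleft_nonneg {u a : Fin m → ℝ} (h : Ints u a) (w : List (Fin m)) :
    0 ≤ wleft u a w := by
  have := (coord01 h w (x := 0) ⟨le_refl _, zero_le_one⟩).1
  linarith

theorem wleft_add_le {u a : Fin m → ℝ} (h : Ints u a) (w : List (Fin m)) :
    wleft u a w + wlen a w ≤ 1 := by
  have := (coord01 h w (x := 1) ⟨zero_le_one, le_refl _⟩).2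
  linarith

theorem coord {u a : Fin m → ℝ} (h : Ints u a) (w0 w1 r : List (Fin m)) {x : ℝ}
    (hx : x ∈ Icc (0 : ℝ) 1) :
    wlen a (w0 ++ (w1 ++ r)) * x + wleft u a (w0 ++ (w1 ++ r)) ∈
      Icc (wleft u a w0 + wlen a w0 * wleft u a w1)
        (wleft u a w0 + wlen a w0 * (wleft u a w1 + wlen a w1)) := by
  have e : wlen a (w0 ++ (w1 ++ r)) * x + wleft u a (w0 ++ (w1 ++ r)) =
      wleft u a w0 + wlen a w0 * (wleft u a w1 + wlen a w1 * (wlen a r * x + wleft u a r)) := by
    rw [wlen_append, wlen_append, wleft_append, wleft_append]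
    ring
  have h1 := coord01 h r hx
  have p0 := wlen_pos h w0
  have p1 := wlen_pos h w1
  have h2 : 0 ≤ wlen a w1 * (wlen a r * x + wleft u a r) := mul_nonneg p1.le h1.1
  have h3 : wlen a w1 * (wlen a r * x + wleft u a r) ≤ wlen a w1 :=
    mul_le_of_le_one_right p1.le h1.2
  rw [e]
  refine ⟨?_, ?_⟩
  · have := mul_le_mul_of_nonneg_left (show wleft u a w1 ≤ wleft u a w1 +
      wlen a w1 * (wlen a r * x + wleft u a r) by linarith) p0.le
    linarith
  · have := mul_le_mul_of_nonneg_left (show wleft u a w1 +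
      wlen a w1 * (wlen a r * x + wleft u a r) ≤ wleft u a w1 + wlen a w1 by linarith) p0.le
    linarith

theorem wlen_replicate (a : Fin m → ℝ) (N : ℕ) (j : Fin m) :
    wlen a (List.replicate N j) = a j ^ N := by
  induction N with
  | zero => simp [wlen]
  | succ N ih =>
    rw [List.replicate_succ, wlen, ih]
    ring

/-- the map onto the cylinder of a word of cells -/
def cyl (G : Grid m n) (w : List (Fin m × Fin n)) (z : ℝ × ℝ) : ℝ × ℝ :=
  (wlen G.a (w.map Prod.fst) * z.1 + wleft G.u G.a (w.map Prod.fst),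
   wlen G.b (w.map Prod.snd) * z.2 + wleft G.v G.b (w.map Prod.snd))

theorem cyl_cons (G : Grid m n) (i : Fin m × Fin n) (w : List (Fin m × Fin n)) (z : ℝ × ℝ) :
    cyl G (i :: w) z = G.map i (cyl G w z) := by
  unfold cyl Grid.map
  simp only [List.map_cons, wlen, wleft]
  ext
  · ring
  · ring

theorem cyl_mem {G : Grid m n} {I : Finset (Fin m × Fin n)} {F : Set (ℝ × ℝ)}
    (hF : IsAttr G I F) (w : List (Fin m × Fin n)) (hw : ∀ i ∈ w, i ∈ I) {z : ℝ × ℝ}
    (hz : z ∈ F) : cyl G w z ∈ F := by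
  induction w with
  | nil =>
    have : cyl G [] z = z := by
      unfold cyl
      simp [wlen, wleft]
    rw [this]
    exact hz
  | cons i w ih =>
    rw [cyl_cons]
    have h1 := ih fun i hi => hw i (List.mem_cons_of_mem _ hi)
    have h2 : G.map i (cyl G w z) ∈ ⋃ i ∈ I, G.map i '' F :=
      mem_iUnion₂.2 ⟨i, hw i List.mem_cons_self, mem_image_of_mem _ h1⟩
    rw [← hF.2.2.2] at h2
    exact h2

theorem ints_a (G : Grid m n) : Ints G.u G.a :=
  ⟨G.a_pos, G.a_lt, G.u_nonneg, G.u_le, G.u_sep⟩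

theorem ints_b (G : Grid m n) : Ints G.v G.b :=
  ⟨G.b_pos, G.b_lt, G.v_nonneg, G.v_le, G.v_sep⟩

theorem exists_cover {X : Type} [PseudoMetricSpace X] {F E : Set X} (hF : IsCompact F)
    (hE : E ⊆ F) {r : ℝ} (hr : 0 < r) :
    {k : ℕ | ∃ t : Fin k → Set X, (∀ i, Metric.ediam (t i) ≤ ENNReal.ofReal r) ∧
      E ⊆ ⋃ i, t i}.Nonempty := by
  obtain ⟨T, hT, hfin, hcov⟩ := hF.finite_cover_balls (half_pos hr)
  refine ⟨hfin.toFinset.card, fun i => Metric.ball (hfin.toFinset.equivFin.symm i).1 (r / 2),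
    ?_, ?_⟩
  · intro i
    refine Metric.ediam_le_of_forall_dist_le fun x hx y hy => ?_
    have h1 := Metric.mem_ball.1 hx
    have h2 := Metric.mem_ball.1 hy
    have h3 := dist_triangle_right x y (hfin.toFinset.equivFin.symm i).1
    linarith
  · intro z hz
    obtain ⟨x, hx, hzx⟩ := mem_iUnion₂.1 (hcov (hE hz))
    refine mem_iUnion.2 ⟨hfin.toFinset.equivFin ⟨x, hfin.mem_toFinset.2 hx⟩, ?_⟩
    rw [Equiv.symm_apply_apply]
    exact hzx

theorem le_two {α : Type} [DecidableEq α] (S : Finset α) (l e : α → ℝ) (ρ : ℝ)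
    (hlen : ∀ w ∈ S, ρ < e w - l w)
    (hsep : ∀ w ∈ S, ∀ w' ∈ S, w ≠ w' → e w ≤ l w' ∨ e w' ≤ l w)
    (hp : ∀ w ∈ S, ∀ w' ∈ S, ∃ x ∈ Icc (l w) (e w), ∃ x' ∈ Icc (l w') (e w'), x' - x ≤ ρ) :
    S.card ≤ 2 := by
  have hp2 : ∀ w ∈ S, ∀ w' ∈ S, l w' - e w ≤ ρ := by
    intro w hw w' hw'
    obtain ⟨x, hx, x', hx', h⟩ := hp w hw w' hw'
    linarith [hx.2, hx'.1]
  by_contra hcon
  push Not at hcon
  obtain ⟨a, ha, b, hb, c, hc, hab, hac, hbc⟩ := Finset.two_lt_card.1 hcon
  have l1 := hlen a ha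
  have l2 := hlen b hb
  have l3 := hlen c hc
  have p1 := hp2 a ha b hb
  have p2 := hp2 a ha c hc
  have p3 := hp2 b hb a ha
  have p4 := hp2 b hb c hc
  have p5 := hp2 c hc a ha
  have p6 := hp2 c hc b hb
  rcases hsep a ha b hb hab with h1 | h1 <;> rcases hsep a ha c hc hac with h2 | h2 <;>
    rcases hsep b hb c hc hbc with h3 | h3 <;> linarith

theorem dist_le_of_ediam {X : Type} [PseudoMetricSpace X] {U : Set X} {r : ℝ} (hr : 0 ≤ r)
    (hU : Metric.ediam U ≤ ENNReal.ofReal r) {x y : X} (hx : x ∈ U) (hy : y ∈ U) :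
    dist x y ≤ r := by
  have h := (Metric.edist_le_ediam_of_mem hx hy).trans hU
  rw [edist_dist] at h
  exact (ENNReal.ofReal_le_ofReal_iff hr).1 h

end AS

open AS in
theorem t_AS : S_AS := by
  intro hcut m n G I F hF hI0 s t hs ht hsum k hk hsumt
  obtain ⟨i0, hi0, hab⟩ := hI0
  have hGa := ints_a G
  have hGb := ints_b G
  have hkk := hk
  unfold rows at hkk
  obtain ⟨⟨j0, k0⟩, hjk, hk0⟩ := Finset.mem_image.1 hkk
  simp only at hk0
  rw [hk0] at hjk
  have hj0 : j0 ∈ inRow I k := Finset.mem_filter.2 ⟨Finset.mem_univ _, hjk⟩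
  obtain ⟨c1, hc1, H1⟩ := hcut m G.u G.a hGa (inRow I k) ⟨j0, hj0⟩ t ht hsumt
  obtain ⟨c2, hc2, H2⟩ := hcut n G.v G.b hGb (rows I) ⟨k, hk⟩ s hs hsum
  have hbk := G.b_pos k
  have hbk1 := G.b_lt k
  obtain ⟨z0, hz0⟩ := hF.1
  have hz01 := hF.2.2.1 hz0
  have hcol : ∀ k' : Fin n, ∃ j : Fin m, k' ∈ rows I → (j, k') ∈ I := by
    intro k'
    by_cases hk' : k' ∈ rows I
    · obtain ⟨⟨j, k1⟩, h1, h2⟩ := Finset.mem_image.1 hk'
      simp only at h2
      rw [h2] at h1
      exact ⟨j, fun _ => h1⟩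
    · exact ⟨j0, fun h => absurd h hk'⟩
  choose col hcol using hcol
  obtain ⟨c', hc'⟩ : ∃ c', c' = min c1 (c2 * G.b k) := ⟨_, rfl⟩
  have hc'0 : 0 < c' := by
    rw [hc']
    exact lt_min hc1 (mul_pos hc2 hbk)
  refine ⟨(c' / 2) ^ (s + t) / 4, by positivity, ?_⟩
  intro δ hδ hδ1
  have hid : (c' / 2) ^ (s + t) / 4 * δ ^ (-(s + t)) = (2 * δ / c') ^ (-(s + t)) / 4 := by
    have e1 : (2 * δ / c') = δ / (c' / 2) := by
      field_simp
    rw [e1, Real.div_rpow hδ.le (by positivity), Real.rpow_neg (by positivity : 0 ≤ c' / 2)]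
    field_simp
  rw [hid]
  by_cases hcase : 2 * δ / c' ≤ 1
  · obtain ⟨δ', hδ'⟩ : ∃ δ', δ' = 2 * δ / c' := ⟨_, rfl⟩
    rw [← hδ'] at hcase ⊢
    have hδ'0 : 0 < δ' := by
      rw [hδ']
      positivity
    obtain ⟨W1, h11, h12, h13, h14, h15⟩ := H1 δ' hδ'0 hcase
    obtain ⟨W2, h21, h22, h23, h24, h25⟩ := H2 δ' hδ'0 hcase
    obtain ⟨Lk, hLk⟩ : ∃ Lk, Lk = W1.sup List.length := ⟨_, rfl⟩
    have ha0 := G.a_pos i0.1
    have hb0 := G.b_pos i0.2
    obtain ⟨N, hN⟩ := exists_pow_lt_of_lt_one (pow_pos hbk Lk) ((div_lt_one hb0).2 hab)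
    have hN2 : G.a i0.1 ^ N < G.b i0.2 ^ N * G.b k ^ Lk := by
      rw [div_pow, div_lt_iff₀ (pow_pos hb0 N)] at hN
      linarith
    obtain ⟨R, hR⟩ : ∃ R, R = G.a i0.1 ^ N := ⟨_, rfl⟩
    have hR0 : 0 < R := by
      rw [hR]
      positivity
    have hex : ∃ L : ℕ, G.b i0.2 ^ N * G.b k ^ L ≤ G.a i0.1 ^ N := by
      obtain ⟨L, hL⟩ := exists_pow_lt_of_lt_one (div_pos (pow_pos ha0 N) (pow_pos hb0 N)) hbk1
      refine ⟨L, ?_⟩
      rw [lt_div_iff₀ (pow_pos hb0 N)] at hL
      linarith
    obtain ⟨L', hL1, hL2⟩ : ∃ L' : ℕ, G.b i0.2 ^ N * G.b k ^ L' ≤ G.a i0.1 ^ N ∧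
        ∀ L < L', G.a i0.1 ^ N < G.b i0.2 ^ N * G.b k ^ L := by
      classical
      exact ⟨Nat.find hex, Nat.find_spec hex, fun L hL => not_le.1 (Nat.find_min hex hL)⟩
    have hLL : Lk < L' := by
      by_contra hcon
      push Not at hcon
      have h1 : G.b k ^ Lk ≤ G.b k ^ L' := pow_le_pow_of_le_one hbk.le hbk1.le hcon
      have h2 := mul_le_mul_of_nonneg_left h1 (pow_pos hb0 N).le
      linarith
    obtain ⟨h, hh⟩ : ∃ h, h = G.b i0.2 ^ N * G.b k ^ L' := ⟨_, rfl⟩
    have hh0 : 0 < h := by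
      rw [hh]
      positivity
    have hhR : h ≤ R := by
      rw [hh, hR]
      exact hL1
    have hhR2 : G.b k * R < h := by
      have h1 := hL2 (L' - 1) (by omega)
      have h2 : G.b k ^ L' = G.b k * G.b k ^ (L' - 1) := by
        rw [← pow_succ']
        congr 1
        omega
      rw [hh, hR, h2]
      have h3 := mul_lt_mul_of_pos_left h1 hbk
      linarith
    -- the words
    obtain ⟨Om, hOm⟩ : ∃ Om : List (Fin m) × List (Fin n) → List (Fin m × Fin n),
        ∀ p, Om p = List.replicate N i0 ++ (p.1.map (fun j => (j, k)) ++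
          (List.replicate (L' - p.1.length) (j0, k) ++ p.2.map (fun k' => (col k', k')))) :=
      ⟨_, fun _ => rfl⟩
    have hOm1 : ∀ p, (Om p).map Prod.fst = List.replicate N i0.1 ++ (p.1 ++
        (List.replicate (L' - p.1.length) j0 ++ p.2.map col)) := by
      intro p
      rw [hOm]
      simp [List.map_append, List.map_map, Function.comp_def]
    have hOm2 : ∀ p : List (Fin m) × List (Fin n), p.1.length ≤ L' →
        (Om p).map Prod.snd = (List.replicate N i0.2 ++ List.replicate L' k) ++ (p.2 ++ []) := by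
      intro p hp
      rw [hOm]
      have e : List.replicate L' k = List.replicate p.1.length k ++
          List.replicate (L' - p.1.length) k := by
        rw [List.replicate_append_replicate]
        congr 1
        omega
      rw [e]
      simp only [List.map_append, List.map_map, Function.comp_def, List.map_replicate,
        List.map_const', List.map_id', List.append_nil, List.append_assoc]
    have hOmI : ∀ p ∈ W1 ×ˢ W2, ∀ i ∈ Om p, i ∈ I := by
      intro p hp i hi
      rw [Finset.mem_product] at hp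
      rw [hOm, List.mem_append, List.mem_append, List.mem_append] at hi
      rcases hi with hi | hi | hi | hi
      · rw [List.eq_of_mem_replicate hi]
        exact hi0
      · obtain ⟨j, hj, rfl⟩ := List.mem_map.1 hi
        exact (Finset.mem_filter.1 ((h11 p.1 hp.1).1 j hj)).2
      · rw [List.eq_of_mem_replicate hi]
        exact hjk
      · obtain ⟨k', hk', rfl⟩ := List.mem_map.1 hi
        exact hcol k' ((h21 p.2 hp.2).1 k' hk')
    obtain ⟨P, hP⟩ : ∃ P : List (Fin m) × List (Fin n) → ℝ × ℝ, ∀ p, P p = cyl G (Om p) z0 :=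
      ⟨_, fun _ => rfl⟩
    have hPF : ∀ p ∈ W1 ×ˢ W2, P p ∈ F := by
      intro p hp
      rw [hP]
      exact cyl_mem hF _ (hOmI p hp) hz0
    obtain ⟨U0, hU0⟩ : ∃ U0, U0 = wleft G.u G.a (List.replicate N i0.1) := ⟨_, rfl⟩
    obtain ⟨V0, hV0⟩ : ∃ V0, V0 = wleft G.v G.b (List.replicate N i0.2 ++
      List.replicate L' k) := ⟨_, rfl⟩
    have hx : ∀ p ∈ W1 ×ˢ W2, (P p).1 ∈ Icc (U0 + R * wleft G.u G.a p.1)
        (U0 + R * (wleft G.u G.a p.1 + wlen G.a p.1)) := by
      intro p hp
      have h1 := coord hGa (List.replicate N i0.1) p.1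
        (List.replicate (L' - p.1.length) j0 ++ p.2.map col) hz01.1
      rw [wlen_replicate, ← hR, ← hU0] at h1
      have h2 : (P p).1 = wlen G.a ((Om p).map Prod.fst) * z0.1
          + wleft G.u G.a ((Om p).map Prod.fst) := by
        rw [hP]
        rfl
      rw [h2, hOm1]
      exact h1
    have hlenW1 : ∀ w ∈ W1, w.length ≤ L' := by
      intro w hw
      have : w.length ≤ Lk := by
        rw [hLk]
        exact Finset.le_sup hw
      omega
    have hy : ∀ p ∈ W1 ×ˢ W2, (P p).2 ∈ Icc (V0 + h * wleft G.v G.b p.2)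
        (V0 + h * (wleft G.v G.b p.2 + wlen G.b p.2)) := by
      intro p hp
      have h1 := coord hGb (List.replicate N i0.2 ++ List.replicate L' k) p.2 [] hz01.2
      rw [wlen_append, wlen_replicate, wlen_replicate, ← hh, ← hV0] at h1
      have h2 : (P p).2 = wlen G.b ((Om p).map Prod.snd) * z0.2
          + wleft G.v G.b ((Om p).map Prod.snd) := by
        rw [hP]
        rfl
      rw [h2, hOm2 p (hlenW1 p.1 (Finset.mem_product.1 hp).1)]
      exact h1
    -- a window
    have hW1 : W1.Nonempty := by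
      rw [← Finset.card_pos]
      have : (0 : ℝ) < W1.card := lt_of_lt_of_le (Real.rpow_pos_of_pos hδ'0 _) h13
      exact_mod_cast this
    have hW2 : W2.Nonempty := by
      rw [← Finset.card_pos]
      have : (0 : ℝ) < W2.card := lt_of_lt_of_le (Real.rpow_pos_of_pos hδ'0 _) h23
      exact_mod_cast this
    obtain ⟨p0, hp0⟩ := hW1.product hW2
    refine ⟨P p0, hPF p0 hp0, R, hR0, ?_⟩
    have hball : ∀ p ∈ W1 ×ˢ W2, P p ∈ Metric.closedBall (P p0) R ∩ F := by
      intro p hp
      refine ⟨?_, hPF p hp⟩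
      have a1 := hx p hp
      have a2 := hx p0 hp0
      have a3 := hy p hp
      have a4 := hy p0 hp0
      have b1 := mul_nonneg hR0.le (wleft_nonneg hGa p.1)
      have b2 := mul_nonneg hR0.le (wleft_nonneg hGa p0.1)
      have b3 := mul_nonneg hh0.le (wleft_nonneg hGb p.2)
      have b4 := mul_nonneg hh0.le (wleft_nonneg hGb p0.2)
      have d1 := mul_le_of_le_one_right hR0.le (wleft_add_le hGa p.1)
      have d2 := mul_le_of_le_one_right hR0.le (wleft_add_le hGa p0.1)
      have d3 := mul_le_of_le_one_right hh0.le (wleft_add_le hGb p.2)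
      have d4 := mul_le_of_le_one_right hh0.le (wleft_add_le hGb p0.2)
      rw [Metric.mem_closedBall, Prod.dist_eq, Real.dist_eq, Real.dist_eq]
      refine max_le ?_ ?_
      · rw [abs_le]
        constructor
        · linarith [a1.1, a2.2]
        · linarith [a1.2, a2.1]
      · rw [abs_le]
        constructor
        · linarith [a3.1, a4.2]
        · linarith [a3.2, a4.1]
    have hρ0 : 0 < δ * R := by positivity
    have hδc : c' * δ' = 2 * δ := by
      rw [hδ']
      field_simp
    have hρ1 : δ * R < R * (c1 * δ') := by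
      have h1 : c' ≤ c1 := by
        rw [hc']
        exact min_le_left _ _
      have h2 : 2 * δ ≤ c1 * δ' := by
        rw [← hδc]
        exact mul_le_mul_of_nonneg_right h1 hδ'0.le
      have h3 : δ * R < R * (2 * δ) := by nlinarith
      exact h3.trans_le (mul_le_mul_of_nonneg_left h2 hR0.le)
    have hρ2 : δ * R < h * (c2 * δ') := by
      have h1 : c' ≤ c2 * G.b k := by
        rw [hc']
        exact min_le_right _ _
      have h2 : 2 * δ ≤ c2 * G.b k * δ' := by
        rw [← hδc]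
        exact mul_le_mul_of_nonneg_right h1 hδ'0.le
      have h3 : δ * R < R * (2 * δ) := by nlinarith
      have h4 := mul_le_mul_of_nonneg_left h2 hR0.le
      have h5 : R * (c2 * G.b k * δ') = (G.b k * R) * (c2 * δ') := by ring
      have h6 := mul_lt_mul_of_pos_right hhR2 (mul_pos hc2 hδ'0)
      linarith
    have hmem : ∃ T : Fin (covN (δ * R) (Metric.closedBall (P p0) R ∩ F)) → Set (ℝ × ℝ),
        (∀ i, Metric.ediam (T i) ≤ ENNReal.ofReal (δ * R)) ∧
          Metric.closedBall (P p0) R ∩ F ⊆ ⋃ i, T i := Nat.sInf_mem (exists_cover hF.2.1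
      (E := Metric.closedBall (P p0) R ∩ F) inter_subset_right hρ0)
    obtain ⟨T, hT1, hT2⟩ := hmem
    have hch : ∀ p : List (Fin m) × List (Fin n), ∃ i, p ∈ W1 ×ˢ W2 → P p ∈ T i := by
      intro p
      by_cases hp : p ∈ W1 ×ˢ W2
      · obtain ⟨i, hi⟩ := mem_iUnion.1 (hT2 (hball p hp))
        exact ⟨i, fun _ => hi⟩
      · obtain ⟨i, hi⟩ := mem_iUnion.1 (hT2 (hball p0 hp0))
        exact ⟨i, fun h => absurd h hp⟩
    choose f hf using hch
    have hfib : ∀ b ∈ (Finset.univ : Finset (Fin (covN (δ * R)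
        (Metric.closedBall (P p0) R ∩ F)))), ((W1 ×ˢ W2).filter fun p => f p = b).card ≤ 4 := by
      intro b _
      obtain ⟨Tb, hTb⟩ : ∃ Tb, Tb = (W1 ×ˢ W2).filter fun p => f p = b := ⟨_, rfl⟩
      rw [← hTb]
      have hmemT : ∀ p ∈ Tb, p ∈ W1 ×ˢ W2 ∧ P p ∈ T b := by
        intro p hp
        rw [hTb, Finset.mem_filter] at hp
        refine ⟨hp.1, ?_⟩
        rw [← hp.2]
        exact hf p hp.1
      have hdist : ∀ p ∈ Tb, ∀ p' ∈ Tb, (P p').1 - (P p).1 ≤ δ * R ∧
          (P p').2 - (P p).2 ≤ δ * R := by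
        intro p hp p' hp'
        have h1 := dist_le_of_ediam hρ0.le (hT1 b) (hmemT p' hp').2 (hmemT p hp).2
        rw [Prod.dist_eq, Real.dist_eq, Real.dist_eq] at h1
        exact ⟨(le_abs_self _).trans ((le_max_left _ _).trans h1),
          (le_abs_self _).trans ((le_max_right _ _).trans h1)⟩
      have hc1' : (Tb.image Prod.fst).card ≤ 2 := by
        refine le_two _ (fun w => U0 + R * wleft G.u G.a w)
          (fun w => U0 + R * (wleft G.u G.a w + wlen G.a w)) (δ * R) ?_ ?_ ?_
        · intro w hw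
          obtain ⟨p, hp, rfl⟩ := Finset.mem_image.1 hw
          have h1 := (h11 p.1 (Finset.mem_product.1 (hmemT p hp).1).1).2.1
          have h2 := mul_le_mul_of_nonneg_left h1 hR0.le
          linarith
        · intro w hw w' hw' hne
          obtain ⟨p, hp, rfl⟩ := Finset.mem_image.1 hw
          obtain ⟨p', hp', rfl⟩ := Finset.mem_image.1 hw'
          rcases h12 p.1 (Finset.mem_product.1 (hmemT p hp).1).1 p'.1
            (Finset.mem_product.1 (hmemT p' hp').1).1 hne with h1 | h1
          · left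
            have := mul_le_mul_of_nonneg_left h1 hR0.le
            linarith
          · right
            have := mul_le_mul_of_nonneg_left h1 hR0.le
            linarith
        · intro w hw w' hw'
          obtain ⟨p, hp, rfl⟩ := Finset.mem_image.1 hw
          obtain ⟨p', hp', rfl⟩ := Finset.mem_image.1 hw'
          exact ⟨(P p).1, hx p (hmemT p hp).1, (P p').1, hx p' (hmemT p' hp').1,
            (hdist p hp p' hp').1⟩
      have hc2' : (Tb.image Prod.snd).card ≤ 2 := by
        refine le_two _ (fun w => V0 + h * wleft G.v G.b w)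
          (fun w => V0 + h * (wleft G.v G.b w + wlen G.b w)) (δ * R) ?_ ?_ ?_
        · intro w hw
          obtain ⟨p, hp, rfl⟩ := Finset.mem_image.1 hw
          have h1 := (h21 p.2 (Finset.mem_product.1 (hmemT p hp).1).2).2.1
          have h2 := mul_le_mul_of_nonneg_left h1 hh0.le
          linarith
        · intro w hw w' hw' hne
          obtain ⟨p, hp, rfl⟩ := Finset.mem_image.1 hw
          obtain ⟨p', hp', rfl⟩ := Finset.mem_image.1 hw'
          rcases h22 p.2 (Finset.mem_product.1 (hmemT p hp).1).2 p'.2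
            (Finset.mem_product.1 (hmemT p' hp').1).2 hne with h1 | h1
          · left
            have := mul_le_mul_of_nonneg_left h1 hh0.le
            linarith
          · right
            have := mul_le_mul_of_nonneg_left h1 hh0.le
            linarith
        · intro w hw w' hw'
          obtain ⟨p, hp, rfl⟩ := Finset.mem_image.1 hw
          obtain ⟨p', hp', rfl⟩ := Finset.mem_image.1 hw'
          exact ⟨(P p).2, hy p (hmemT p hp).1, (P p').2, hy p' (hmemT p' hp').1,
            (hdist p hp p' hp').2⟩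
      have hsub : Tb ⊆ (Tb.image Prod.fst) ×ˢ (Tb.image Prod.snd) := by
        intro p hp
        exact Finset.mem_product.2 ⟨Finset.mem_image_of_mem _ hp, Finset.mem_image_of_mem _ hp⟩
      have h1 := Finset.card_le_card hsub
      rw [Finset.card_product] at h1
      exact h1.trans (Nat.mul_le_mul hc1' hc2')
    have hcount := Finset.card_le_mul_card_image_of_maps_to (f := f) (s := W1 ×ˢ W2)
      (t := Finset.univ) (fun a _ => Finset.mem_univ _) 4 hfib
    rw [Finset.card_product, Finset.card_univ, Fintype.card_fin] at hcount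
    have hcount2 : (W1.card : ℝ) * W2.card ≤
        4 * (covN (δ * R) (Metric.closedBall (P p0) R ∩ F) : ℝ) := by exact_mod_cast hcount
    have hprod : δ' ^ (-t) * δ' ^ (-s) ≤ (W1.card : ℝ) * W2.card :=
      mul_le_mul h13 h23 (Real.rpow_nonneg hδ'0.le _) (Nat.cast_nonneg _)
    rw [← Real.rpow_add hδ'0] at hprod
    have e3 : -t + -s = -(s + t) := by ring
    rw [e3] at hprod
    linarith
  · push Not at hcase
    refine ⟨z0, hz0, 1, one_pos, ?_⟩
    have h1 : (2 * δ / c') ^ (-(s + t)) ≤ 1 :=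
      Real.rpow_le_one_of_one_le_of_nonpos hcase.le (by linarith)
    have h2 : (1 : ℝ) ≤ (covN (δ * 1) (Metric.closedBall z0 1 ∩ F) : ℝ) := by
      have h3 : covN (δ * 1) (Metric.closedBall z0 1 ∩ F) ≠ 0 := by
        intro h0
        have hmem := Nat.sInf_mem (exists_cover hF.2.1
          (E := Metric.closedBall z0 1 ∩ F) inter_subset_right (show 0 < δ * 1 by linarith))
        obtain ⟨T, hT1, hT2⟩ := hmem
        obtain ⟨i, hi⟩ := mem_iUnion.1 (hT2 ⟨Metric.mem_closedBall_self zero_le_one, hz0⟩)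
        exact absurd (lt_of_lt_of_eq i.2 h0) (Nat.not_lt_zero _)
      exact_mod_cast Nat.one_le_iff_ne_zero.2 h3
    linarith

end Pool.Agent.Q73.CM
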