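import Pool.Agent.Q73.CM.Carpet

/-!
# Mixed-type carpets: assembly (project CM, MP_0a98f6_an)
-/

set_option autoImplicit false

namespace Pool.Agent.Q73.CM

open Set Filter Topology MeasureTheory

namespace ASM

variable {m n : ℕ}

lemma toPair_map (C : Carpet m n) (i : Fin m × Fin n) (z : EuclideanSpace ℝ (Fin 2)) :
    toPair (C.map i z) = C.grid.map i (toPair z) := by
  simp [toPair, Carpet.map, Grid.map, Carpet.grid]

lemma isAttr_of (C : Carpet m n) (F : Set (EuclideanSpace ℝ (Fin 2))) (h0 : F.Nonempty)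
    (h1 : IsCompact F) (h2 : F ⊆ unitSquare) (h3 : F = ⋃ i ∈ C.I, C.map i '' F) :
    IsAttr C.grid C.I (toPair '' F) := by
  refine ⟨h0.image _, h1.image ?_, ?_, ?_⟩
  · unfold toPair
    fun_prop
  · rintro _ ⟨z, hz, rfl⟩
    exact ⟨⟨(h2 hz 0).1, (h2 hz 0).2⟩, ⟨(h2 hz 1).1, (h2 hz 1).2⟩⟩
  · conv_lhs => rw [h3]
    rw [image_iUnion₂]
    refine iUnion₂_congr fun i _ => ?_
    rw [image_image, image_image]
    exact image_congr fun z _ => toPair_map C i z

/-- Everything about one carpet. -/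
lemma dims_of (hH : S_H) (hC1 : S_C1) (hCUT : S_CUT) (hM1 : S_M1) (hM2 : S_M2) (hAS : S_AS)
    (hLO : S_LO) (hGA : S_GA) (hGL : S_GL) (hGP : S_GP) (hBH : S_BH) (hBU : S_BU) (hTR : S_TR)
    (hSW : S_SW) (G : Grid m n) (I : Finset (Fin m × Fin n))
    (F : Set (EuclideanSpace ℝ (Fin 2))) (hc : IsCompact F) (hA : IsAttr G I (toPair '' F))
    (s₁ s₂ τA τB : ℝ) (t : Fin m → ℝ) (t' : Fin n → ℝ) (hD : Dims I G.a G.b s₁ s₂ τA τB t t') :
    (∃ C : ℝ, 0 < C ∧ ∀ r : ℝ, 0 < r → r ≤ 1 →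
      (covN r F : ℝ) ≤ C * r ^ (-(max (s₁ + τA) (s₂ + τB)))) ∧
    (∀ D, IsBoxDim F D → HausLower I G.a G.b (dimH F).toReal) ∧
    ((∃ i ∈ I, G.a i.1 < G.b i.2) → ∀ k ∈ rows I, s₂ + t' k ≤ dimA F ∧
      (2 ≤ (cols I).card → 2 ≤ (rows I).card → dimL F ≤ s₂ + t' k)) ∧
    ((∃ i ∈ I, G.b i.2 < G.a i.1) → ∀ j ∈ cols I, s₁ + t j ≤ dimA F ∧
      (2 ≤ (cols I).card → 2 ≤ (rows I).card → dimL F ≤ s₁ + t j)) := by
  obtain ⟨tr1, tr2, tr3, tr4⟩ := hTR F hc
  obtain ⟨sw1, sw2, sw3, sw4, sw5, sw6, sw7, sw8, sw9⟩ := hSW m n G I (toPair '' F)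
  have hne : F.Nonempty := by
    obtain ⟨z, hz⟩ := hA.1
    obtain ⟨x, hx, _⟩ := hz
    exact ⟨x, hx⟩
  refine ⟨?_, ?_, ?_, ?_⟩
  · -- box dimension
    apply tr4 _ ((add_nonneg hD.s₁_nonneg hD.τA_nonneg).trans (le_max_left _ _))
    obtain ⟨C, hC0, hC⟩ := hM2 m n G I _ hA s₁ s₂ τA τB hD.s₁_nonneg hD.s₂_nonneg hD.τA_nonneg
      hD.τB_nonneg ((hM1 hC1 m n G I _ hA s₁ hD.s₁_nonneg).1 hD.hs₁)
      ((hM1 hC1 m n G I _ hA s₂ hD.s₂_nonneg).2 hD.hs₂) hD.hτA hD.hτB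
    refine ⟨C * 2, by positivity, fun x hx0 hx1 => ?_⟩
    obtain ⟨T, hT, hT'⟩ := hC x x hx0 hx1 hx0 hx1
    refine ⟨T, hT.trans ?_, hT'⟩
    rw [mul_assoc]
    apply mul_le_mul_of_nonneg_left _ hC0.le
    rw [← Real.rpow_add hx0, ← Real.rpow_add hx0, two_mul]
    apply add_le_add
    · apply Real.rpow_le_rpow_of_exponent_ge hx0 hx1
      have := le_max_left (s₁ + τA) (s₂ + τB)
      linarith
    · apply Real.rpow_le_rpow_of_exponent_ge hx0 hx1
      have := le_max_right (s₁ + τA) (s₂ + τB)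
      linarith
  · -- Hausdorff dimension
    intro D hBox q hq
    have hfin : dimH F ≠ ⊤ := ne_top_of_le_ne_top ENNReal.ofReal_ne_top (hBH _ F D hc hne hBox).2
    constructor
    · intro hw
      have h := hH m n G I _ hA q hq hw
      rw [← tr1] at h
      exact (ENNReal.ofReal_le_iff_le_toReal hfin).1 h
    · intro hw
      obtain ⟨q1, q2, q3, q4, q5⟩ := sw9 q hq
      have h := hH n m G.swap _ _ (sw1 hA) _ q1 (by rw [q2, q3]; exact hw)
      rw [q2, q3, q4, q5, sw2, ← tr1] at h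
      exact (ENNReal.ofReal_le_iff_le_toReal hfin).1 h
  · -- tall cells
    intro htall k hk
    refine ⟨?_, fun h1 h2 => ?_⟩
    · exact hGA _ F _ (hGP F hc) (tr2 _ (hAS hCUT m n G I _ hA htall s₂ (t' k) hD.s₂_nonneg
        (hD.t'_nonneg k hk) hD.hs₂ k hk (hD.ht' k hk)))
    · exact hGL _ F _ (add_nonneg hD.s₂_nonneg (hD.t'_nonneg k hk)) (tr3 _ (hLO hC1 m n G I _ hA h1 h2
        htall s₂ (t' k) hD.s₂_nonneg (hD.t'_nonneg k hk) hD.hs₂ k hk (hD.ht' k hk)))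
  · -- wide cells
    intro hwide j hj
    have htall : ∃ i ∈ I.image Prod.swap, G.swap.a i.1 < G.swap.b i.2 := by
      obtain ⟨i, hi, hi'⟩ := hwide
      exact ⟨i.swap, Finset.mem_image_of_mem _ hi, hi'⟩
    have e1 : ∑ k ∈ rows (I.image Prod.swap), G.swap.b k ^ s₁ = 1 := by
      rw [sw6]
      exact hD.hs₁
    have e2 : ∑ k ∈ inRow (I.image Prod.swap) j, G.swap.a k ^ t j = 1 := by
      rw [sw7]
      exact hD.ht j hj
    have e3 : j ∈ rows (I.image Prod.swap) := by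
      rw [sw6]
      exact hj
    refine ⟨?_, fun h1 h2 => ?_⟩
    · exact hGA _ F _ (hGP F hc) (tr2 _ (sw3 _ (hAS hCUT n m G.swap _ _ (sw1 hA) htall s₁ (t j)
        hD.s₁_nonneg (hD.t_nonneg j hj) e1 j e3 e2)))
    · exact hGL _ F _ (add_nonneg hD.s₁_nonneg (hD.t_nonneg j hj)) (tr3 _ (sw4 _ (hLO hC1 n m G.swap _ _
        (sw1 hA) (by rw [sw5]; exact h2) (by rw [sw6]; exact h1) htall s₁ (t j)
        hD.s₁_nonneg (hD.t_nonneg j hj) e1 j e3 e2)))

/-- The two implications. -/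
lemma general (hH : S_H) (hC1 : S_C1) (hCUT : S_CUT) (hM1 : S_M1) (hM2 : S_M2) (hAS : S_AS)
    (hLO : S_LO) (hGA : S_GA) (hGL : S_GL) (hGP : S_GP) (hBH : S_BH) (hBU : S_BU) (hTR : S_TR)
    (hSW : S_SW) (hEX : S_EX) (hF0 : S_FIN0) (hF1 : S_FIN1) (hF2 : S_FIN2)
    (F : Set (EuclideanSpace ℝ (Fin 2))) (hF : IsMixedCarpet F) (D : ℝ) (hBox : IsBoxDim F D) :
    (ENNReal.ofReal (dimL F) = dimH F → dimH F = ENNReal.ofReal D) ∧
    (D = dimA F → dimH F = ENNReal.ofReal D) := by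
  obtain ⟨m, n, C, h0, hc, hsq, hun, hwide, htall⟩ := hF
  have hA := isAttr_of C F h0 hc hsq hun
  have hIne : C.I.Nonempty := by
    obtain ⟨i, hi, _⟩ := hwide
    exact ⟨i, hi⟩
  obtain ⟨s₁, s₂, τA, τB, t, t', hD⟩ := hEX m n C.I C.grid.a C.grid.b hIne
    (fun j => ⟨C.grid.a_pos j, C.grid.a_lt j⟩) (fun k => ⟨C.grid.b_pos k, C.grid.b_lt k⟩)
  obtain ⟨g1, g2, g3, g4⟩ := dims_of hH hC1 hCUT hM1 hM2 hAS hLO hGA hGL hGP hBH hBU hTR hSW C.grid
    C.I F hc hA s₁ s₂ τA τB t t' hD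
  have hHL := g2 D hBox
  have hDle := (hBU _ F _ hc h0 g1).1 D hBox
  obtain ⟨hD0, hHD⟩ := hBH _ F D hc h0 hBox
  have hfin : dimH F ≠ ⊤ := ne_top_of_le_ne_top ENNReal.ofReal_ne_top hHD
  have key : D ≤ (dimH F).toReal → dimH F = ENNReal.ofReal D := by
    intro h
    apply le_antisymm hHD
    rw [← ENNReal.ofReal_toReal hfin]
    exact ENNReal.ofReal_le_ofReal h
  constructor
  · intro hL
    apply key
    have hL' : (dimH F).toReal = dimL F := by
      rw [← hL, ENNReal.toReal_ofReal]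
      exact Real.sSup_nonneg fun s hs => hs.1
    by_cases hcard : 2 ≤ (cols C.I).card ∧ 2 ≤ (rows C.I).card
    · obtain ⟨e1, e2⟩ := hF1 m n C.I C.grid.a C.grid.b s₁ s₂ τA τB t t' _ hD hHL
        (fun j hj => by rw [hL']; exact (g4 hwide j hj).2 hcard.1 hcard.2)
        (fun k hk => by rw [hL']; exact (g3 htall k hk).2 hcard.1 hcard.2)
      exact hDle.trans (max_le e1 e2)
    · have hc1 : 1 ≤ (cols C.I).card := Finset.card_pos.2 (hIne.image _)
      have hc2 : 1 ≤ (rows C.I).card := Finset.card_pos.2 (hIne.image _)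
      obtain ⟨e1, e2⟩ := hF0 m n C.I C.grid.a C.grid.b s₁ s₂ τA τB t t' _ hD hHL (by omega)
      exact hDle.trans (max_le e1 e2)
  · intro hDA
    apply key
    exact hF2 m n C.I C.grid.a C.grid.b s₁ s₂ τA τB t t' _ D hD hHL hDle
      (fun j hj => by rw [hDA]; exact (g4 hwide j hj).1)
      (fun k hk => by rw [hDA]; exact (g3 htall k hk).1)

/-- the carpet of the example -/
noncomputable def exC : Carpet 2 3 where
  x := ![0, 3 / 4, 1]
  y := ![0, 1 / 3, 2 / 3, 1]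
  x_mono := by
    rw [Fin.strictMono_iff_lt_succ]
    intro i
    fin_cases i <;> simp <;> norm_num
  y_mono := by
    rw [Fin.strictMono_iff_lt_succ]
    intro i
    fin_cases i <;> simp <;> norm_num
  x_zero := by simp
  y_zero := by simp
  x_last := by simp [Fin.last]
  y_last := by simp [Fin.last]
  two_le_m := le_rfl
  two_le_n := by norm_num
  I := exI
  two_le_card := by decide

lemma exC_a : exC.grid.a = exA := by
  funext j
  fin_cases j <;> simp [exC, Carpet.grid, Carpet.width, exA]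
  norm_num

lemma exC_b : exC.grid.b = exB := by
  funext j
  fin_cases j <;> simp [exC, Carpet.grid, Carpet.height, exB] <;> norm_num

lemma rpow_third {d : ℝ} (hd : d = Real.log 2 / Real.log 3) : (1 / 3 : ℝ) ^ d = 1 / 2 := by
  have h3 : Real.log 3 ≠ 0 := (Real.log_pos (by norm_num)).ne'
  rw [Real.rpow_def_of_pos (by norm_num), one_div, Real.log_inv, hd]
  have : -Real.log 3 * (Real.log 2 / Real.log 3) = -Real.log 2 := by
    field_simp
  rw [this, Real.exp_neg, Real.exp_log (by norm_num), one_div]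

/-- the exponents of the example -/
lemma exDims (hEXC : S_EXC) {d : ℝ} (hd : d = Real.log 2 / Real.log 3) :
    ∃ τB, τB ≤ d ∧ Dims exI exA exB 1 1 d τB (fun _ => d) ![0, 1, 0] := by
  obtain ⟨e1, e2, e3, ⟨τB, h0, h1, e4⟩, e5, e6, e7, e8, e9, e10, d0, d1, _⟩ := hEXC d hd
  have h3 := rpow_third hd
  refine ⟨τB, h1, ?_⟩
  refine ⟨⟨(0, 0), by decide⟩, ?_, ?_, ?_, ?_, zero_le_one, zero_le_one, d0.le, h0,
    fun _ _ => d0.le, ?_, e1, e2, e3, e4, ?_, ?_⟩
  · intro j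
    fin_cases j <;> simp [exA]
  · intro j
    fin_cases j <;> simp [exA] <;> norm_num
  · intro k
    simp [exB]
  · intro k
    simp only [exB]
    norm_num
  · intro k _
    fin_cases k <;> simp
  · intro j _
    have hc : (inCol exI j).card = 2 := by
      fin_cases j <;> decide
    have : ∀ k ∈ inCol exI j, exB k ^ d = 1 / 2 := fun k _ => h3
    rw [Finset.sum_congr rfl this, Finset.sum_const, hc]
    norm_num
  · intro k _
    fin_cases k
    · exact e6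
    · exact e5
    · have hc : inRow exI 2 = {1} := by decide
      simp [hc]

/-- The example. -/
lemma example_c (hH : S_H) (hC1 : S_C1) (hCUT : S_CUT) (hM1 : S_M1) (hM2 : S_M2) (hAS : S_AS)
    (hLO : S_LO) (hGA : S_GA) (hGL : S_GL) (hGP : S_GP) (hBH : S_BH) (hBU : S_BU) (hTR : S_TR)
    (hSW : S_SW) (hEXC : S_EXC)
    (hATT : ∀ (m n : ℕ) (G : Grid m n) (I : Finset (Fin m × Fin n)), I.Nonempty →
      ∃ F : Set (ℝ × ℝ), IsAttr G I F) :
    ∃ F : Set (EuclideanSpace ℝ (Fin 2)), IsMixedCarpet F ∧ ConfigC F := by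
  obtain ⟨F', hF'⟩ := hATT 2 3 exC.grid exI ⟨(0, 0), by decide⟩
  set F : Set (EuclideanSpace ℝ (Fin 2)) := {z | toPair z ∈ F'} with hFdef
  have hsurj : ∀ p : ℝ × ℝ, toPair (!₂[p.1, p.2]) = p := by
    intro p
    simp [toPair]
  have hinj : ∀ z : EuclideanSpace ℝ (Fin 2), !₂[(toPair z).1, (toPair z).2] = z := by
    intro z
    ext i
    fin_cases i <;> simp [toPair]
  have himg : toPair '' F = F' := by
    ext p
    constructor
    · rintro ⟨z, hz, rfl⟩
      exact hz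
    · intro hp
      exact ⟨_, by show toPair _ ∈ F'; rw [hsurj]; exact hp, hsurj p⟩
  have hFimg : F = (fun p : ℝ × ℝ => (!₂[p.1, p.2] : EuclideanSpace ℝ (Fin 2))) '' F' := by
    ext z
    constructor
    · intro hz
      exact ⟨toPair z, hz, hinj z⟩
    · rintro ⟨p, hp, rfl⟩
      show toPair _ ∈ F'
      rw [hsurj]
      exact hp
  have hcont : Continuous (fun p : ℝ × ℝ => (!₂[p.1, p.2] : EuclideanSpace ℝ (Fin 2))) := by
    apply (PiLp.continuous_toLp 2 _).comp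
    refine continuous_pi fun i => ?_
    fin_cases i
    · exact continuous_fst
    · exact continuous_snd
  have hc : IsCompact F := by
    rw [hFimg]
    exact hF'.2.1.image hcont
  have hne : F.Nonempty := by
    rw [hFimg]
    exact hF'.1.image _
  have hA : IsAttr exC.grid exI (toPair '' F) := by
    rw [himg]
    exact hF'
  have hmix : IsMixedCarpet F := by
    refine ⟨2, 3, exC, hne, hc, ?_, ?_, ⟨(0, 0), by decide, ?_⟩, ⟨(1, 1), by decide, ?_⟩⟩
    · intro z hz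
      have h := hF'.2.2.1 hz
      intro i
      fin_cases i
      · exact ⟨h.1.1, h.1.2⟩
      · exact ⟨h.2.1, h.2.2⟩
    · ext z
      constructor
      · intro hz
        have h1 : toPair z ∈ F' := hz
        rw [hF'.2.2.2] at h1
        obtain ⟨i, hi, p, hp, hpz⟩ := mem_iUnion₂.1 h1
        refine mem_iUnion₂.2 ⟨i, hi, !₂[p.1, p.2], ?_, ?_⟩
        · show toPair _ ∈ F'
          rw [hsurj]
          exact hp
        · rw [← hinj (exC.map i _), toPair_map, hsurj, hpz, hinj]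
      · intro hz
        obtain ⟨i, hi, w, hw, rfl⟩ := mem_iUnion₂.1 hz
        show toPair _ ∈ F'
        rw [toPair_map, hF'.2.2.2]
        exact mem_iUnion₂.2 ⟨i, hi, toPair w, hw, rfl⟩
    · have h1 := congrFun exC_a 0
      have h2 := congrFun exC_b 0
      change exC.width 0 = exA 0 at h1
      change exC.height 0 = exB 0 at h2
      show exC.height 0 < exC.width 0
      rw [h1, h2]
      simp [exA, exB]
      norm_num
    · have h1 := congrFun exC_a 1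
      have h2 := congrFun exC_b 1
      change exC.width 1 = exA 1 at h1
      change exC.height 1 = exB 1 at h2
      show exC.width 1 < exC.height 1
      rw [h1, h2]
      simp [exA, exB]
      norm_num
  refine ⟨F, hmix, ?_⟩
  set d : ℝ := Real.log 2 / Real.log 3 with hd
  obtain ⟨τB, hτ, hD⟩ := exDims hEXC hd
  obtain ⟨_, _, _, _, _, _, e7, e8, e9, e10, d0, d1, q, hq, hw, hq1⟩ := hEXC d hd
  rw [← exC_a, ← exC_b] at hD hw hq1
  obtain ⟨g1, g2, g3, g4⟩ := dims_of hH hC1 hCUT hM1 hM2 hAS hLO hGA hGL hGP hBH hBU hTR hSW exC.grid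
    exI F hc hA _ _ _ _ _ _ hD
  have hmax : max (1 + d) (1 + τB) = 1 + d := max_eq_left (by linarith)
  rw [hmax] at g1
  have hlow : ENNReal.ofReal (1 + d) ≤ dimH F := by
    have h := hH 2 3 exC.grid exI _ hA q hq hw
    rw [hq1] at h
    rwa [(hTR F hc).1]
  have hBox : IsBoxDim F (1 + d) := (hBU _ F _ hc hne g1).2 (by linarith) hlow
  have hup := (hBH _ F _ hc hne hBox).2
  have htall : ∃ i ∈ exI, exC.grid.a i.1 < exC.grid.b i.2 := by
    refine ⟨(1, 1), by decide, ?_⟩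
    rw [exC_a, exC_b]
    simp [exA, exB]
    norm_num
  refine ⟨1 + d, hBox, ?_, le_antisymm hup hlow, ?_⟩
  · refine lt_of_lt_of_le ?_ hlow
    have h1 := (g3 htall 0 e8).2 (by rw [e9]) (by rw [e10]; norm_num)
    have h2 : dimL F ≤ 1 := by simpa using h1
    rw [ENNReal.ofReal_lt_ofReal_iff (by linarith)]
    linarith
  · have h1 := (g3 htall 1 e7).1
    have h2 : (1 : ℝ) + 1 ≤ dimA F := by simpa using h1
    linarith

/-- The answer. -/
theorem main (hH : S_H) (hC1 : S_C1) (hCUT : S_CUT) (hM1 : S_M1) (hM2 : S_M2) (hAS : S_AS)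
    (hLO : S_LO) (hGA : S_GA) (hGL : S_GL) (hGP : S_GP) (hBH : S_BH) (hBU : S_BU) (hTR : S_TR)
    (hSW : S_SW) (hEX : S_EX) (hF0 : S_FIN0) (hF1 : S_FIN1) (hF2 : S_FIN2) (hEXC : S_EXC)
    (hATT : ∀ (m n : ℕ) (G : Grid m n) (I : Finset (Fin m × Fin n)), I.Nonempty →
      ∃ F : Set (ℝ × ℝ), IsAttr G I F) :
    (∀ F, IsMixedCarpet F → ¬ ConfigA F ∧ ¬ ConfigB F ∧ ¬ ConfigD F) ∧
    (∃ F, IsMixedCarpet F ∧ ConfigC F) ∧
    ∀ F, IsMixedCarpet F → ∀ D, IsBoxDim F D →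
      (ENNReal.ofReal (dimL F) = dimH F → dimH F = ENNReal.ofReal D) ∧
      (D = dimA F → dimH F = ENNReal.ofReal D) := by
  have hgen := general hH hC1 hCUT hM1 hM2 hAS hLO hGA hGL hGP hBH hBU hTR hSW hEX hF0 hF1 hF2
  refine ⟨fun F hF => ⟨?_, ?_, ?_⟩, example_c hH hC1 hCUT hM1 hM2 hAS hLO hGA hGL hGP hBH hBU hTR
    hSW hEXC hATT, hgen⟩
  · rintro ⟨D, h1, h2, h3, _⟩
    exact h3.ne ((hgen F hF D h1).1 h2)
  · rintro ⟨D, h1, h2, h3, _⟩
    exact h3.ne ((hgen F hF D h1).1 h2)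
  · rintro ⟨D, h1, _, h3, h4⟩
    exact h3.ne ((hgen F hF D h1).2 h4)

end ASM

end Pool.Agent.Q73.CM
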