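import Pool.Agent.Q73.CM.Stm

/-!
# Mixed-type carpets: existence of the attractor (project CM, MP_0a98f6_an; job CM-ATT, helper90)
-/

set_option autoImplicit false

namespace Pool.Agent.Q73.CM.ATT

open Set Filter Topology

variable {m n : ℕ}

/-- the decreasing sequence of compact sets -/
def K (G : Grid m n) (I : Finset (Fin m × Fin n)) : ℕ → Set (ℝ × ℝ)
  | 0 => Icc (0 : ℝ) 1 ×ˢ Icc (0 : ℝ) 1
  | k + 1 => ⋃ i ∈ I, G.map i '' K G I k

theorem map_cont (G : Grid m n) (i : Fin m × Fin n) : Continuous (G.map i) := by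
  unfold Grid.map
  fun_prop

theorem map_inj (G : Grid m n) (i : Fin m × Fin n) : Function.Injective (G.map i) := by
  intro z w h
  have h1 := congrArg Prod.fst h
  have h2 := congrArg Prod.snd h
  simp only [Grid.map] at h1 h2
  have ha := G.a_pos i.1
  have hb := G.b_pos i.2
  refine Prod.ext ?_ ?_
  · have h3 : G.a i.1 * z.1 = G.a i.1 * w.1 := by linarith
    exact mul_left_cancel₀ ha.ne' h3
  · have h3 : G.b i.2 * z.2 = G.b i.2 * w.2 := by linarith
    exact mul_left_cancel₀ hb.ne' h3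

theorem map_sq (G : Grid m n) (i : Fin m × Fin n) :
    G.map i '' (Icc (0 : ℝ) 1 ×ˢ Icc (0 : ℝ) 1) ⊆ Icc (0 : ℝ) 1 ×ˢ Icc (0 : ℝ) 1 := by
  rintro _ ⟨z, hz, rfl⟩
  obtain ⟨⟨h1, h2⟩, h3, h4⟩ := hz
  have ha := G.a_pos i.1
  have hu := G.u_nonneg i.1
  have hu1 := G.u_le i.1
  have hb := G.b_pos i.2
  have hv := G.v_nonneg i.2
  have hv1 := G.v_le i.2
  simp only [Grid.map, mem_prod, mem_Icc]
  refine ⟨⟨?_, ?_⟩, ?_, ?_⟩
  · have := mul_nonneg ha.le h1
    linarith
  · have := mul_le_mul_of_nonneg_left h2 ha.le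
    linarith
  · have := mul_nonneg hb.le h3
    linarith
  · have := mul_le_mul_of_nonneg_left h4 hb.le
    linarith

theorem K_compact (G : Grid m n) (I : Finset (Fin m × Fin n)) (k : ℕ) : IsCompact (K G I k) := by
  induction k with
  | zero => exact isCompact_Icc.prod isCompact_Icc
  | succ k ih =>
    show IsCompact (⋃ i ∈ I, G.map i '' K G I k)
    exact I.isCompact_biUnion fun i _ => ih.image (map_cont G i)

theorem K_nonempty (G : Grid m n) (I : Finset (Fin m × Fin n)) (hI : I.Nonempty) (k : ℕ) :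
    (K G I k).Nonempty := by
  induction k with
  | zero => exact ⟨(0, 0), ⟨⟨le_refl _, zero_le_one⟩, le_refl _, zero_le_one⟩⟩
  | succ k ih =>
    obtain ⟨i, hi⟩ := hI
    obtain ⟨z, hz⟩ := ih
    exact ⟨G.map i z, mem_iUnion₂.2 ⟨i, hi, mem_image_of_mem _ hz⟩⟩

theorem K_succ_sub (G : Grid m n) (I : Finset (Fin m × Fin n)) (k : ℕ) :
    K G I (k + 1) ⊆ K G I k := by
  induction k with
  | zero => exact iUnion₂_subset fun i _ => map_sq G i
  | succ k ih =>
    exact iUnion₂_mono fun i _ => image_mono ih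

theorem K_anti (G : Grid m n) (I : Finset (Fin m × Fin n)) : Antitone (K G I) :=
  antitone_nat_of_succ_le fun k => K_succ_sub G I k

theorem attr (G : Grid m n) (I : Finset (Fin m × Fin n)) (hI : I.Nonempty) :
    IsAttr G I (⋂ k, K G I k) := by
  have hcl : ∀ k, IsClosed (K G I k) := fun k => (K_compact G I k).isClosed
  refine ⟨?_, ?_, ?_, ?_⟩
  · exact IsCompact.nonempty_iInter_of_sequence_nonempty_isCompact_isClosed (K G I)
      (K_succ_sub G I) (K_nonempty G I hI) (K_compact G I 0) hcl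
  · exact (K_compact G I 0).of_isClosed_subset (isClosed_iInter hcl) (iInter_subset _ 0)
  · exact iInter_subset _ 0
  · refine Subset.antisymm ?_ ?_
    · intro z hz
      have hz' : ∀ k, z ∈ K G I k := fun k => mem_iInter.1 hz k
      have h1 : ∃ i ∈ I, ∀ k, z ∈ G.map i '' K G I k := by
        by_contra hcon
        push Not at hcon
        choose! κ hκ using hcon
        obtain ⟨i, hi, hzi⟩ := mem_iUnion₂.1 (hz' (I.sup κ + 1))
        exact hκ i hi (image_mono (K_anti G I (Finset.le_sup hi)) hzi)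
      obtain ⟨i, hi, hk⟩ := h1
      refine mem_iUnion₂.2 ⟨i, hi, ?_⟩
      obtain ⟨w, hw, hwz⟩ := hk 0
      refine ⟨w, mem_iInter.2 fun k => ?_, hwz⟩
      obtain ⟨w', hw', hwz'⟩ := hk k
      have h2 : w' = w := map_inj G i (hwz'.trans hwz.symm)
      rw [← h2]
      exact hw'
    · refine iUnion₂_subset fun i hi => ?_
      rintro _ ⟨z, hz, rfl⟩
      refine mem_iInter.2 fun k => ?_
      exact K_succ_sub G I k
        (mem_iUnion₂.2 ⟨i, hi, mem_image_of_mem _ (mem_iInter.1 hz k)⟩)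

end Pool.Agent.Q73.CM.ATT

namespace Pool.Agent.Q73.CM

/-- job CM-ATT -/
theorem t_ATT : ∀ (m n : ℕ) (G : Grid m n) (I : Finset (Fin m × Fin n)), I.Nonempty →
    ∃ F : Set (ℝ × ℝ), IsAttr G I F :=
  fun _ _ G I hI => ⟨_, ATT.attr G I hI⟩

end Pool.Agent.Q73.CM
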