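import Pool.Agent.Q73.CM.Stm

/-!
# Mixed-type carpets: the Hausdorff dimension is at most the box dimension (job CM-BH)
-/

set_option autoImplicit false

open Set Filter Topology MeasureTheory

namespace Pool.Agent.Q73.CM.BH

open Pool.Agent.Q73.CM

theorem cov_ne {X : Type} [MetricSpace X] {F : Set X} (hF : IsCompact F) {r : ℝ} (hr : 0 < r) :
    {k : ℕ | ∃ t : Fin k → Set X, (∀ i, Metric.ediam (t i) ≤ ENNReal.ofReal r) ∧
      F ⊆ ⋃ i, t i}.Nonempty := by
  obtain ⟨s, hs, hcov⟩ := Metric.totallyBounded_iff.1 hF.totallyBounded (r / 2) (by linarith)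
  let e := hs.toFinset.equivFin
  refine ⟨hs.toFinset.card, fun i => Metric.ball ((e.symm i : hs.toFinset) : X) (r / 2), ?_, ?_⟩
  · intro i
    show Metric.ediam (Metric.ball ((e.symm i : hs.toFinset) : X) (r / 2)) ≤ ENNReal.ofReal r
    rw [← Metric.eball_ofReal]
    refine Metric.ediam_eball_le.trans ?_
    have : (2 : ENNReal) = ENNReal.ofReal 2 := by simp
    rw [this, ← ENNReal.ofReal_mul (by norm_num)]
    apply ENNReal.ofReal_le_ofReal
    linarith
  · intro x hx
    obtain ⟨y, hy, hxy⟩ := mem_iUnion₂.1 (hcov hx)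
    refine mem_iUnion.2 ⟨e ⟨y, hs.mem_toFinset.2 hy⟩, ?_⟩
    simpa using hxy

theorem cov_spec {X : Type} [MetricSpace X] {F : Set X} (hF : IsCompact F) {r : ℝ} (hr : 0 < r) :
    ∃ t : Fin (covN r F) → Set X, (∀ i, Metric.ediam (t i) ≤ ENNReal.ofReal r) ∧ F ⊆ ⋃ i, t i :=
  Nat.sInf_mem (cov_ne hF hr)

theorem cov_pos {X : Type} [MetricSpace X] {F : Set X} (hF : IsCompact F) (hne : F.Nonempty)
    {r : ℝ} (hr : 0 < r) : 0 < covN r F := by
  rcases Nat.eq_zero_or_pos (covN r F) with h | h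
  · exfalso
    obtain ⟨t, -, ht⟩ := cov_spec hF hr
    obtain ⟨x, hx⟩ := hne
    obtain ⟨i, -⟩ := mem_iUnion.1 (ht hx)
    have := i.2
    omega
  · exact h

theorem dim_le {X : Type} [MetricSpace X] {F : Set X} (hF : IsCompact F) {t : ℝ} (ht : 0 ≤ t)
    (h : ∃ᶠ r in 𝓝[>] (0 : ℝ), (covN r F : ℝ) ≤ r ^ (-t)) : dimH F ≤ ENNReal.ofReal t := by
  borelize X
  have h' := h.and_eventually (self_mem_nhdsWithin : Ioi (0 : ℝ) ∈ 𝓝[>] (0 : ℝ))
  obtain ⟨ns, hns, hp⟩ := exists_seq_forall_of_frequently h'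
  have hcov := fun n => cov_spec hF (hp n).2
  choose T hT1 hT2 using hcov
  have hr0 : Tendsto (fun n => ENNReal.ofReal (ns n)) atTop (𝓝 0) := by
    have := ENNReal.tendsto_ofReal (tendsto_nhds_of_tendsto_nhdsWithin hns)
    simpa using this
  have key := Measure.hausdorffMeasure_le_liminf_sum t F _ hr0 T (Eventually.of_forall hT1)
    (Eventually.of_forall hT2)
  have hle : liminf (fun n => ∑ i, Metric.ediam (T n i) ^ t) atTop ≤ (1 : ENNReal) := by
    have h1 : liminf (fun n => ∑ i, Metric.ediam (T n i) ^ t) atTop ≤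
        liminf (fun _ : ℕ => (1 : ENNReal)) atTop := by
      refine liminf_le_liminf (Eventually.of_forall fun n => ?_) (by isBoundedDefault)
        (by isBoundedDefault)
      have hpos : 0 < ns n := (hp n).2
      calc ∑ i, Metric.ediam (T n i) ^ t
          ≤ ∑ _i : Fin (covN (ns n) F), (ENNReal.ofReal (ns n)) ^ t :=
            Finset.sum_le_sum fun i _ => ENNReal.rpow_le_rpow (hT1 n i) ht
        _ = (covN (ns n) F : ENNReal) * ENNReal.ofReal (ns n ^ t) := by
            rw [Finset.sum_const, Finset.card_univ, Fintype.card_fin, nsmul_eq_mul,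
              ENNReal.ofReal_rpow_of_pos hpos]
        _ = ENNReal.ofReal ((covN (ns n) F : ℝ) * ns n ^ t) := by
            rw [ENNReal.ofReal_mul (Nat.cast_nonneg _), ENNReal.ofReal_natCast]
        _ ≤ ENNReal.ofReal 1 := by
            apply ENNReal.ofReal_le_ofReal
            calc (covN (ns n) F : ℝ) * ns n ^ t ≤ ns n ^ (-t) * ns n ^ t :=
                  mul_le_mul_of_nonneg_right (hp n).1 (Real.rpow_nonneg hpos.le _)
              _ = 1 := by rw [← Real.rpow_add hpos, neg_add_cancel, Real.rpow_zero]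
        _ = 1 := ENNReal.ofReal_one
    simpa using h1
  have hne : Measure.hausdorffMeasure t F ≠ ⊤ :=
    ne_top_of_le_ne_top ENNReal.one_ne_top (key.trans hle)
  have h2 : dimH F ≤ ((t.toNNReal : NNReal) : ENNReal) :=
    dimH_le_of_hausdorffMeasure_ne_top (by rwa [Real.coe_toNNReal t ht])
  exact h2

theorem small : ∀ᶠ r in 𝓝[>] (0 : ℝ), 0 < r ∧ r < 1 := by
  have h1 : ∀ᶠ r in 𝓝[>] (0 : ℝ), r < 1 :=
    nhdsWithin_le_nhds (Iio_mem_nhds one_pos)
  filter_upwards [self_mem_nhdsWithin, h1] with r h0 h1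
  exact ⟨h0, h1⟩

theorem cov_le_of {X : Type} [MetricSpace X] {F : Set X} (hF : IsCompact F) (hne : F.Nonempty)
    {r τ : ℝ} (hr : 0 < r) (hr1 : r < 1)
    (h : Real.log (covN r F : ℝ) / (-Real.log r) < τ) : (covN r F : ℝ) ≤ r ^ (-τ) := by
  have hL : 0 < -Real.log r := neg_pos.2 (Real.log_neg hr hr1)
  rw [div_lt_iff₀ hL] at h
  have hc : (0 : ℝ) < (covN r F : ℝ) := by exact_mod_cast cov_pos hF hne hr
  rw [Real.rpow_def_of_pos hr, ← Real.exp_log hc]
  apply Real.exp_le_exp.2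
  linarith

end Pool.Agent.Q73.CM.BH

namespace Pool.Agent.Q73.CM

open BH in
theorem t_BH : S_BH := by
  intro X _ F D hF hne hD
  have hD' : Tendsto (fun r : ℝ => Real.log (covN r F : ℝ) / (-Real.log r)) (𝓝[>] 0) (𝓝 D) := hD
  have h0D : 0 ≤ D := by
    refine ge_of_tendsto hD' ?_
    filter_upwards [small] with r hr
    exact div_nonneg (Real.log_natCast_nonneg _) (neg_nonneg.2 (Real.log_nonpos hr.1.le hr.2.le))
  refine ⟨h0D, ?_⟩
  have h1 : Tendsto (fun t : ℝ => ENNReal.ofReal t) (𝓝[>] D) (𝓝 (ENNReal.ofReal D)) :=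
    (ENNReal.continuous_ofReal.tendsto D).mono_left nhdsWithin_le_nhds
  refine ge_of_tendsto h1 ?_
  filter_upwards [self_mem_nhdsWithin] with t ht
  have ht' : D < t := ht
  apply dim_le hF (h0D.trans ht'.le)
  apply Eventually.frequently
  filter_upwards [small, hD'.eventually_lt_const ht'] with r hr h2
  exact cov_le_of hF hne hr.1 hr.2 h2

end Pool.Agent.Q73.CM
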