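import Pool.Agent.Q73.CM.Stm
import Pool.Agent.Q73.CM.BH

/-!
# Mixed-type carpets: the box dimension from upper bounds (job CM-BU)
-/

set_option autoImplicit false

open Set Filter Topology MeasureTheory

namespace Pool.Agent.Q73.CM

open BH in
theorem t_BU : S_BU := by
  intro X _ F s hF hne hC
  obtain ⟨C, hC0, hC⟩ := hC
  have hL : Tendsto (fun r : ℝ => -Real.log r) (𝓝[>] 0) atTop :=
    tendsto_neg_atBot_atTop.comp Real.tendsto_log_nhdsGT_zero
  have hup : Tendsto (fun r : ℝ => s + Real.log C / (-Real.log r)) (𝓝[>] 0) (𝓝 s) := by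
    have h1 : Tendsto (fun r : ℝ => Real.log C / (-Real.log r)) (𝓝[>] 0) (𝓝 0) :=
      Tendsto.div_atTop tendsto_const_nhds hL
    have h2 := h1.const_add s
    simpa using h2
  have hle : ∀ᶠ r in 𝓝[>] (0 : ℝ), Real.log (covN r F : ℝ) / (-Real.log r) ≤
      s + Real.log C / (-Real.log r) := by
    filter_upwards [small] with r hr
    have hLr : 0 < -Real.log r := neg_pos.2 (Real.log_neg hr.1 hr.2)
    rw [div_le_iff₀ hLr, add_mul, div_mul_cancel₀ _ hLr.ne']
    have hc : (0 : ℝ) < (covN r F : ℝ) := by exact_mod_cast cov_pos hF hne hr.1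
    have h1 := Real.log_le_log hc (hC r hr.1 hr.2.le)
    rw [Real.log_mul hC0.ne' (Real.rpow_pos_of_pos hr.1 _).ne', Real.log_rpow hr.1] at h1
    linarith
  refine ⟨fun D hD => le_of_tendsto_of_tendsto hD hup hle, fun hs hdim => ?_⟩
  refine tendsto_order.2 ⟨fun a ha => ?_, fun a ha => ?_⟩
  · by_contra hcon
    rw [not_eventually] at hcon
    have hcon' : ∃ᶠ r in 𝓝[>] (0 : ℝ),
        Real.log (covN r F : ℝ) / (-Real.log r) ≤ a ∧ 0 < r ∧ r < 1 := by
      refine (hcon.and_eventually small).mono fun r hr => ⟨not_lt.1 hr.1, hr.2⟩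
    have ha0 : 0 ≤ a := by
      obtain ⟨r, hr, h0, h1⟩ := hcon'.exists
      refine le_trans ?_ hr
      exact div_nonneg (Real.log_natCast_nonneg _) (neg_nonneg.2 (Real.log_nonpos h0.le h1.le))
    have h2 : dimH F ≤ ENNReal.ofReal ((a + s) / 2) := by
      apply dim_le hF (by linarith)
      refine hcon'.mono fun r hr => ?_
      exact cov_le_of hF hne hr.2.1 hr.2.2 (by linarith [hr.1])
    have h3 := hdim.trans h2
    rw [ENNReal.ofReal_le_ofReal_iff (by linarith)] at h3
    linarith
  · have h1 := hup.eventually_lt_const ha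
    filter_upwards [hle, h1] with r h2 h3
    exact h2.trans_lt h3

end Pool.Agent.Q73.CM
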