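import Pool.Agent.Q73.CM.Stm

/-!
# Project CM, C1A: covering by intervals from the cut sets
-/

set_option autoImplicit false

namespace Pool.Agent.Q73.CM

open Set

namespace C1A

variable {m : ℕ} {u a : Fin m → ℝ}

lemma wlen_append (w v : List (Fin m)) : wlen a (w ++ v) = wlen a w * wlen a v := by
  induction w with
  | nil => simp [wlen]
  | cons j w ih => simp only [List.cons_append, wlen, ih]; ring

lemma wleft_append (w v : List (Fin m)) :
    wleft u a (w ++ v) = wleft u a w + wlen a w * wleft u a v := by
  induction w with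
  | nil => simp [wlen, wleft]
  | cons j w ih => simp only [List.cons_append, wlen, wleft, ih]; ring

lemma wlen_pos (h : Ints u a) (w : List (Fin m)) : 0 < wlen a w := by
  induction w with
  | nil => simp [wlen]
  | cons j w ih => exact mul_pos (h.a_pos j) ih

lemma wleft_mem (h : Ints u a) (w : List (Fin m)) :
    0 ≤ wleft u a w ∧ wleft u a w + wlen a w ≤ 1 := by
  induction w with
  | nil => simp [wlen, wleft]
  | cons j w ih =>
    simp only [wlen, wleft]
    have h1 := h.a_pos j
    have h2 := h.u_nonneg j
    have h3 := h.u_le j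
    constructor
    · have := mul_nonneg h1.le ih.1
      linarith
    · have := mul_le_mul_of_nonneg_left ih.2 h1.le
      nlinarith

end C1A

open C1A in
theorem t_C1A : S_C1A := by
  classical
  intro hcut m u a hI J hJ s hs hsum
  obtain ⟨c, hc, h⟩ := hcut m u a hI J hJ s hs hsum
  refine ⟨c ^ (-s), Real.rpow_pos_of_pos hc _, fun δ hδ0 hδ1 => ?_⟩
  obtain ⟨W, h1, _, _, h4, h5⟩ := h δ hδ0 hδ1
  refine ⟨W.image (wleft u a), ?_, ?_⟩
  · have hcard : ((W.image (wleft u a)).card : ℝ) ≤ (W.card : ℝ) := by
      exact_mod_cast Finset.card_image_le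
    refine hcard.trans (h4.trans (le_of_eq ?_))
    rw [Real.mul_rpow hc.le hδ0.le]
  · intro w hw hwd
    obtain ⟨w', hw', v, rfl⟩ := h5 w hw hwd
    refine ⟨wleft u a w', Finset.mem_image_of_mem _ hw', ?_⟩
    rw [wleft_append, wlen_append]
    have p1 := wlen_pos hI w'
    obtain ⟨p2, p3⟩ := wleft_mem hI v
    have p4 := (h1 w' hw').2.2
    apply Icc_subset_Icc
    · have := mul_nonneg p1.le p2
      linarith
    · have := mul_le_mul_of_nonneg_left p3 p1.le
      nlinarith

end Pool.Agent.Q73.CM
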