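import Pool.Agent.Q73.CM.Stm

/-!
# Mixed-type carpets: approximate squares near a small set (job CNT)
-/

set_option autoImplicit false

namespace Pool.Agent.Q73.CM.CNT

open Set Filter Topology MeasureTheory Pool.Agent.Q73.CM

section one

variable {m : ℕ} (u a : Fin m → ℝ)

/-- product of the first ratios -/
def P (σ : ℕ → Fin m) (N : ℕ) : ℝ := ∏ t ∈ Finset.range N, a (σ t)

/-- left end -/
def L (σ : ℕ → Fin m) (N : ℕ) : ℝ := ∑ t ∈ Finset.range N, P a σ t * u (σ t)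

/-- the stopping time -/
noncomputable def ks (r : ℝ) (σ : ℕ → Fin m) : ℕ := sInf {N | P a σ N ≤ r}

/-- the digits before the stopping time -/
noncomputable def H (r : ℝ) (σ : ℕ → Fin m) : List (Fin m) := (List.range (ks a r σ)).map σ

variable {u a}

theorem P_succ (σ : ℕ → Fin m) (N : ℕ) : P a σ (N + 1) = P a σ N * a (σ N) :=
  Finset.prod_range_succ _ _

theorem L_succ (σ : ℕ → Fin m) (N : ℕ) : L u a σ (N + 1) = L u a σ N + P a σ N * u (σ N) :=
  Finset.sum_range_succ _ _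

theorem P_pos (ha : ∀ j, 0 < a j) (σ : ℕ → Fin m) (N : ℕ) : 0 < P a σ N :=
  Finset.prod_pos fun _ _ => ha _

theorem nest (ha : ∀ j, 0 < a j) (hu : ∀ j, 0 ≤ u j) (hua : ∀ j, u j + a j ≤ 1)
    (σ : ℕ → Fin m) (N k : ℕ) : L u a σ N ≤ L u a σ (N + k) ∧
      L u a σ (N + k) + P a σ (N + k) ≤ L u a σ N + P a σ N := by
  induction k with
  | zero => exact ⟨le_rfl, le_rfl⟩
  | succ k ih =>
    rw [← add_assoc, L_succ, P_succ]
    have h1 := P_pos ha σ (N + k)
    have h2 := hu (σ (N + k))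
    have h3 := hua (σ (N + k))
    constructor
    · nlinarith [ih.1, mul_nonneg h1.le h2]
    · nlinarith [ih.2]

theorem P_congr {σ σ' : ℕ → Fin m} {N : ℕ} (h : ∀ t < N, σ t = σ' t) : P a σ N = P a σ' N :=
  Finset.prod_congr rfl fun t ht => by rw [h t (Finset.mem_range.1 ht)]

theorem L_congr {σ σ' : ℕ → Fin m} {N : ℕ} (h : ∀ t < N, σ t = σ' t) : L u a σ N = L u a σ' N :=
  Finset.sum_congr rfl fun t ht => by
    rw [h t (Finset.mem_range.1 ht), P_congr fun s hs => h s (hs.trans (Finset.mem_range.1 ht))]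

theorem exists_bd (ha : ∀ j, 0 < a j) (hl : ∀ j, a j < 1) :
    ∃ c0 c1 : ℝ, 0 < c0 ∧ c1 < 1 ∧ 0 ≤ c1 ∧ ∀ j, c0 ≤ a j ∧ a j ≤ c1 := by
  rcases isEmpty_or_nonempty (Fin m) with h | h
  · exact ⟨1, 0, one_pos, one_pos.trans_le le_rfl, le_rfl, fun j => (h.false j).elim⟩
  · obtain ⟨j0, h0⟩ := Finite.exists_min a
    obtain ⟨j1, h1⟩ := Finite.exists_max a
    exact ⟨a j0, a j1, ha j0, hl j1, (ha j1).le, fun j => ⟨h0 j, h1 j⟩⟩

theorem ks_spec (ha : ∀ j, 0 < a j) (hl : ∀ j, a j < 1) {r : ℝ} (hr : 0 < r)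
    (σ : ℕ → Fin m) : P a σ (ks a r σ) ≤ r := by
  obtain ⟨c0, c1, -, h1, h1', hc⟩ := exists_bd ha hl
  have hle : ∀ N, P a σ N ≤ c1 ^ N := by
    intro N
    unfold P
    calc ∏ t ∈ Finset.range N, a (σ t) ≤ ∏ _t ∈ Finset.range N, c1 :=
          Finset.prod_le_prod (fun t _ => (ha _).le) fun t _ => (hc _).2
      _ = c1 ^ N := by rw [Finset.prod_const, Finset.card_range]
  have hne : {N | P a σ N ≤ r}.Nonempty := by
    obtain ⟨N, hN⟩ := exists_pow_lt_of_lt_one hr h1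
    exact ⟨N, (hle N).trans hN.le⟩
  exact Nat.sInf_mem hne

theorem ks_le {r : ℝ} {σ : ℕ → Fin m} {N : ℕ} (h : P a σ N ≤ r) : ks a r σ ≤ N := Nat.sInf_le h

theorem P_ks_gt (ha : ∀ j, 0 < a j) (hl : ∀ j, a j < 1) {c0 : ℝ}
    (hc0 : 0 < c0) (hc : ∀ j, c0 ≤ a j) {r : ℝ} (hr : 0 < r) (hr1 : r < 1) (σ : ℕ → Fin m) :
    c0 * r ≤ P a σ (ks a r σ) := by
  have h0 : ks a r σ ≠ 0 := by
    intro h
    have := ks_spec ha hl hr σ
    rw [h] at this
    simp only [P, Finset.range_zero, Finset.prod_empty] at this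
    linarith
  obtain ⟨k, hk⟩ := Nat.exists_eq_succ_of_ne_zero h0
  rw [hk, Nat.succ_eq_add_one, P_succ]
  have h1 : r < P a σ k := by
    by_contra h
    have := ks_le (not_lt.1 h)
    omega
  have h2 := hc (σ k)
  nlinarith

/-- different prefixes have disjoint intervals -/
theorem disj (ha : ∀ j, 0 < a j) (hl : ∀ j, a j < 1) (hu : ∀ j, 0 ≤ u j) (hua : ∀ j, u j + a j ≤ 1)
    (hsep : ∀ j j', j < j' → u j + a j ≤ u j') {r : ℝ} (hr : 0 < r) (σ σ' : ℕ → Fin m)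
    (hne : H a r σ ≠ H a r σ') :
    Disjoint (Ioo (L u a σ (ks a r σ)) (L u a σ (ks a r σ) + P a σ (ks a r σ)))
      (Ioo (L u a σ' (ks a r σ')) (L u a σ' (ks a r σ') + P a σ' (ks a r σ'))) := by
  classical
  have hex : ∃ t, t < ks a r σ ∧ t < ks a r σ' ∧ σ t ≠ σ' t := by
    by_contra hno
    push Not at hno
    apply hne
    have hk : ks a r σ = ks a r σ' := by
      rcases le_total (ks a r σ) (ks a r σ') with h | h
      · refine le_antisymm h ?_
        apply ks_le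
        rw [← P_congr (σ := σ) (fun t ht => hno t ht (lt_of_lt_of_le ht h))]
        exact ks_spec ha hl hr σ
      · refine le_antisymm ?_ h
        apply ks_le
        rw [P_congr (σ' := σ') (fun t ht => hno t (lt_of_lt_of_le ht h) ht)]
        exact ks_spec ha hl hr σ'
    unfold H
    rw [← hk]
    apply List.map_congr_left
    intro t ht
    rw [List.mem_range] at ht
    exact hno t ht (hk ▸ ht)
  obtain ⟨t, ⟨ht1, ht2, ht3⟩, hmin⟩ :=
    (⟨Nat.find hex, Nat.find_spec hex, fun s hs => Nat.find_min hex hs⟩ :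
      ∃ t, (t < ks a r σ ∧ t < ks a r σ' ∧ σ t ≠ σ' t) ∧
        ∀ s < t, ¬ (s < ks a r σ ∧ s < ks a r σ' ∧ σ s ≠ σ' s))
  have hag : ∀ s < t, σ s = σ' s := by
    intro s hs
    by_contra h
    exact hmin s hs ⟨hs.trans ht1, hs.trans ht2, h⟩
  have hP := P_congr (a := a) hag
  have hL := L_congr (u := u) (a := a) hag
  have hn1 := nest ha hu hua σ (t + 1) (ks a r σ - (t + 1))
  have hn2 := nest ha hu hua σ' (t + 1) (ks a r σ' - (t + 1))
  rw [Nat.add_sub_cancel' ht1, L_succ, P_succ] at hn1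
  rw [Nat.add_sub_cancel' ht2, L_succ, P_succ, ← hP, ← hL] at hn2
  have hp := P_pos ha σ t
  rw [Set.disjoint_left]
  rintro y ⟨h1, h2⟩ ⟨h3, h4⟩
  rcases lt_or_gt_of_ne ht3 with h | h
  · have := hsep _ _ h
    nlinarith [hn1.2, hn2.1]
  · have := hsep _ _ h
    nlinarith [hn1.1, hn2.2]

theorem one_dim (ha : ∀ j, 0 < a j) (hl : ∀ j, a j < 1) (hu : ∀ j, 0 ≤ u j)
    (hua : ∀ j, u j + a j ≤ 1) (hsep : ∀ j j', j < j' → u j + a j ≤ u j') :
    ∃ K : ℕ, ∀ r : ℝ, 0 < r → r < 1 → ∀ {ι : Type} (T : Finset ι) (σ : ι → ℕ → Fin m)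
      (x : ι → ℝ), (∀ i ∈ T, ∀ N, x i ∈ Icc (L u a (σ i) N) (L u a (σ i) N + P a (σ i) N)) →
      (∀ i ∈ T, ∀ j ∈ T, |x i - x j| ≤ r) →
      ∀ S : Finset (List (Fin m)), (∀ s ∈ S, ∃ i ∈ T, H a r (σ i) = s) → S.card ≤ K := by
  classical
  obtain ⟨c0, c1, h0, -, -, hc⟩ := exists_bd ha hl
  refine ⟨⌈4 / c0⌉₊, ?_⟩
  intro r hr hr1 ι T σ x hx hxx S hS
  rcases S.eq_empty_or_nonempty with rfl | ⟨s0, hs0⟩
  · simp
  have hne : Nonempty ι := ⟨(hS s0 hs0).choose⟩
  choose! g hgT hgH using hS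
  set x0 := x (g s0) with hx0
  let J : List (Fin m) → Set ℝ := fun s => Ioo (L u a (σ (g s)) (ks a r (σ (g s))))
    (L u a (σ (g s)) (ks a r (σ (g s))) + P a (σ (g s)) (ks a r (σ (g s))))
  have hJd : ∀ s ∈ S, ∀ s' ∈ S, s ≠ s' → Disjoint (J s) (J s') := by
    intro s hs s' hs' hne
    apply disj ha hl hu hua hsep hr
    rw [hgH s hs, hgH s' hs']
    exact hne
  have hJs : ∀ s ∈ S, J s ⊆ Icc (x0 - 2 * r) (x0 + 2 * r) := by
    rintro s hs y ⟨h1, h2⟩
    have h3 := hx (g s) (hgT s hs) (ks a r (σ (g s)))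
    have h4 := ks_spec ha hl hr (σ (g s))
    have h5 := abs_le.1 (hxx (g s) (hgT s hs) (g s0) (hgT s0 hs0))
    constructor
    · linarith [h3.1, h3.2, h5.1]
    · linarith [h3.1, h3.2, h5.2]
  have hvol : ∑ s ∈ S, volume (J s) ≤ ENNReal.ofReal (4 * r) := by
    rw [← measure_biUnion_finset (fun s hs s' hs' hne => hJd s hs s' hs' hne)
      (fun s _ => measurableSet_Ioo)]
    refine (measure_mono (Set.iUnion₂_subset hJs)).trans ?_
    rw [Real.volume_Icc]
    apply le_of_eq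
    congr 1
    ring
  have hlow : ∀ s ∈ S, ENNReal.ofReal (c0 * r) ≤ volume (J s) := by
    intro s _
    rw [Real.volume_Ioo]
    apply ENNReal.ofReal_le_ofReal
    have := P_ks_gt ha hl h0 (fun j => (hc j).1) hr hr1 (σ (g s))
    linarith
  have h1 : (S.card : ENNReal) * ENNReal.ofReal (c0 * r) ≤ ENNReal.ofReal (4 * r) := by
    refine le_trans ?_ hvol
    rw [← nsmul_eq_mul, ← Finset.sum_const]
    exact Finset.sum_le_sum hlow
  have h2 : (S.card : ℝ) * (c0 * r) ≤ 4 * r := by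
    rw [← ENNReal.ofReal_natCast, ← ENNReal.ofReal_mul (by positivity)] at h1
    exact (ENNReal.ofReal_le_ofReal_iff (by positivity)).1 h1
  have h3 : (S.card : ℝ) ≤ 4 / c0 := by
    rw [le_div_iff₀ h0]
    have h4 : ((S.card : ℝ) * c0) * r ≤ 4 * r := by linarith
    exact le_of_mul_le_mul_right h4 hr
  exact_mod_cast h3.trans (Nat.le_ceil _)

theorem same_of_H {r : ℝ} {σ σ' : ℕ → Fin m} (h : H a r σ = H a r σ') :
    ∀ t < ks a r σ, σ' t = σ t := by
  have hk : ks a r σ = ks a r σ' := by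
    have := congrArg List.length h
    simpa [H] using this
  intro t ht
  unfold H at h
  rw [← hk] at h
  have h1 := List.map_inj_left.1 h t (List.mem_range.2 ht)
  exact h1.symm

end one

end Pool.Agent.Q73.CM.CNT

namespace Pool.Agent.Q73.CM

open Set Filter Topology MeasureTheory

theorem t_CNT : S_CNT := by
  classical
  intro m n G I F π hπ
  obtain ⟨K1, h1⟩ := CNT.one_dim G.a_pos G.a_lt G.u_nonneg G.u_le G.u_sep
  obtain ⟨K2, h2⟩ := CNT.one_dim G.b_pos G.b_lt G.v_nonneg G.v_le G.v_sep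
  refine ⟨K1 * K2, ?_⟩
  intro r hr hr1 U hU T hT hTT
  let f1 : (ℕ → Fin m × Fin n) → List (Fin m) := fun ω => CNT.H G.a r fun t => (ω t).1
  let f2 : (ℕ → Fin m × Fin n) → List (Fin n) := fun ω => CNT.H G.b r fun t => (ω t).2
  have hd : ∀ ω ∈ T, ∀ ω' ∈ T, dist (π ω) (π ω') ≤ r := by
    intro ω hω ω' hω'
    have h3 := (Metric.edist_le_ediam_of_mem (hT ω hω) (hT ω' hω')).trans hU
    rw [edist_dist] at h3
    exact (ENNReal.ofReal_le_ofReal_iff hr.le).1 h3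
  have hc1 : (T.image f1).card ≤ K1 := by
    refine h1 r hr hr1 T (fun ω t => (ω t).1) (fun ω => (π ω).1) ?_ ?_ _ ?_
    · intro ω _ N
      exact hπ.fst_mem ω N
    · intro ω hω ω' hω'
      rw [← Real.dist_eq]
      exact (le_max_left _ _).trans (hd ω hω ω' hω')
    · intro s hs
      exact Finset.mem_image.1 hs
  have hc2 : (T.image f2).card ≤ K2 := by
    refine h2 r hr hr1 T (fun ω t => (ω t).2) (fun ω => (π ω).2) ?_ ?_ _ ?_
    · intro ω _ N
      exact hπ.snd_mem ω N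
    · intro ω hω ω' hω'
      rw [← Real.dist_eq]
      exact (le_max_right _ _).trans (hd ω hω ω' hω')
    · intro s hs
      exact Finset.mem_image.1 hs
  have hle : T.card ≤ (T.image f1 ×ˢ T.image f2).card := by
    refine Finset.card_le_card_of_injOn (fun ω => (f1 ω, f2 ω)) ?_ ?_
    · intro ω hω
      exact Finset.mem_product.2 ⟨Finset.mem_image_of_mem _ hω, Finset.mem_image_of_mem _ hω⟩
    · intro ω hω ω' hω' h
      by_contra hne
      apply hTT ω hω ω' hω' hne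
      obtain ⟨h3, h4⟩ := Prod.mk.inj h
      exact ⟨CNT.same_of_H h3, CNT.same_of_H h4⟩
  rw [Finset.card_product] at hle
  exact hle.trans (Nat.mul_le_mul hc1 hc2)

end Pool.Agent.Q73.CM
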