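import Pool.Agent.Q73.CM.Stm

/-!
# Mixed-type carpets: the coding map (project CM, MP_0a98f6_an)
-/

set_option autoImplicit false

namespace Pool.Agent.Q73.CM

open Set Filter Topology MeasureTheory

namespace COD

/-- product of the first `N` ratios -/
def P {X : Type} (a : X → ℝ) (ω : ℕ → X) (N : ℕ) : ℝ := ∏ t ∈ Finset.range N, a (ω t)

/-- left end -/
def L {X : Type} (a u : X → ℝ) (ω : ℕ → X) (N : ℕ) : ℝ := ∑ t ∈ Finset.range N, P a ω t * u (ω t)

lemma P_pos {X : Type} (a : X → ℝ) (ha : ∀ x, 0 < a x) (ω : ℕ → X) (N : ℕ) : 0 < P a ω N :=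
  Finset.prod_pos fun t _ => ha (ω t)

lemma P_succ {X : Type} (a : X → ℝ) (ω : ℕ → X) (N : ℕ) : P a ω (N + 1) = P a ω N * a (ω N) :=
  Finset.prod_range_succ _ _

lemma L_succ {X : Type} (a u : X → ℝ) (ω : ℕ → X) (N : ℕ) :
    L a u ω (N + 1) = L a u ω N + P a ω N * u (ω N) :=
  Finset.sum_range_succ _ _

lemma exists_bound {X : Type} [Finite X] (a : X → ℝ) (ha : ∀ x, 0 < a x) (ha1 : ∀ x, a x < 1) :
    ∃ A : ℝ, 0 ≤ A ∧ A < 1 ∧ ∀ x, a x ≤ A := by
  rcases isEmpty_or_nonempty X with h | h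
  · exact ⟨0, le_refl 0, one_pos, fun x => (h.false x).elim⟩
  · obtain ⟨x₀, hx₀⟩ := Finite.exists_max a
    exact ⟨a x₀, (ha x₀).le, ha1 x₀, hx₀⟩

lemma P_tendsto {X : Type} [Finite X] (a : X → ℝ) (ha : ∀ x, 0 < a x) (ha1 : ∀ x, a x < 1)
    (ω : ℕ → X) : Tendsto (fun N => P a ω N) atTop (𝓝 0) := by
  obtain ⟨A, hA0, hA1, hA⟩ := exists_bound a ha ha1
  refine squeeze_zero (fun N => (P_pos a ha ω N).le) (fun N => ?_)
    (tendsto_pow_atTop_nhds_zero_of_lt_one hA0 hA1)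
  calc P a ω N ≤ ∏ _t ∈ Finset.range N, A :=
        Finset.prod_le_prod (fun t _ => (ha (ω t)).le) (fun t _ => hA (ω t))
    _ = A ^ N := by simp

lemma L_mono {X : Type} (a u : X → ℝ) (ha : ∀ x, 0 < a x) (hu : ∀ x, 0 ≤ u x) (ω : ℕ → X) :
    Monotone (fun N => L a u ω N) := by
  refine monotone_nat_of_le_succ fun N => ?_
  show L a u ω N ≤ L a u ω (N + 1)
  rw [L_succ]
  have := mul_nonneg (P_pos a ha ω N).le (hu (ω N))
  linarith

lemma R_anti {X : Type} (a u : X → ℝ) (ha : ∀ x, 0 < a x) (hua : ∀ x, u x + a x ≤ 1)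
    (ω : ℕ → X) : Antitone (fun N => L a u ω N + P a ω N) := by
  refine antitone_nat_of_succ_le fun N => ?_
  show L a u ω (N + 1) + P a ω (N + 1) ≤ L a u ω N + P a ω N
  rw [L_succ, P_succ]
  have := mul_le_mul_of_nonneg_left (hua (ω N)) (P_pos a ha ω N).le
  linarith

/-- the limit point -/
noncomputable def pt {X : Type} (a u : X → ℝ) (ω : ℕ → X) : ℝ := ⨆ N, L a u ω N

lemma L_bdd {X : Type} (a u : X → ℝ) (ha : ∀ x, 0 < a x) (hua : ∀ x, u x + a x ≤ 1)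
    (ω : ℕ → X) (M : ℕ) (hu : ∀ x, 0 ≤ u x) (N : ℕ) : L a u ω N ≤ L a u ω M + P a ω M := by
  have h1 := L_mono a u ha hu ω (le_max_left N M)
  have h2 := R_anti a u ha hua ω (le_max_right N M)
  have h3 := P_pos a ha ω (max N M)
  simp only at h1 h2
  linarith

lemma pt_mem {X : Type} (a u : X → ℝ) (ha : ∀ x, 0 < a x) (hu : ∀ x, 0 ≤ u x)
    (hua : ∀ x, u x + a x ≤ 1) (ω : ℕ → X) (N : ℕ) :
    pt a u ω ∈ Icc (L a u ω N) (L a u ω N + P a ω N) := by
  refine ⟨?_, ?_⟩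
  · refine le_ciSup (f := fun N => L a u ω N) ⟨L a u ω N + P a ω N, ?_⟩ N
    rintro _ ⟨M, rfl⟩
    exact L_bdd a u ha hua ω N hu M
  · exact ciSup_le fun M => L_bdd a u ha hua ω N hu M

lemma L_tendsto {X : Type} (a u : X → ℝ) (ha : ∀ x, 0 < a x) (hu : ∀ x, 0 ≤ u x)
    (hua : ∀ x, u x + a x ≤ 1) (ω : ℕ → X) :
    Tendsto (fun N => L a u ω N) atTop (𝓝 (pt a u ω)) := by
  refine tendsto_atTop_ciSup (L_mono a u ha hu ω) ⟨L a u ω 0 + P a ω 0, ?_⟩
  rintro _ ⟨M, rfl⟩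
  exact L_bdd a u ha hua ω 0 hu M

lemma L_meas {X : Type} [MeasurableSpace X] [MeasurableSingletonClass X] [Countable X]
    (a u : X → ℝ) (N : ℕ) : Measurable (fun ω : ℕ → X => L a u ω N) := by
  have hf : ∀ (f : X → ℝ) (t : ℕ), Measurable (fun ω : ℕ → X => f (ω t)) := fun f t =>
    (measurable_of_countable f).comp (measurable_pi_apply t)
  refine Finset.measurable_sum _ fun t _ => ?_
  refine Measurable.mul ?_ (hf u t)
  exact Finset.measurable_prod _ fun s _ => hf a s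

lemma pt_meas {X : Type} [MeasurableSpace X] [MeasurableSingletonClass X] [Countable X]
    (a u : X → ℝ) (ha : ∀ x, 0 < a x) (hu : ∀ x, 0 ≤ u x)
    (hua : ∀ x, u x + a x ≤ 1) : Measurable (fun ω : ℕ → X => pt a u ω) := by
  refine measurable_of_tendsto_metrizable (f := fun N (ω : ℕ → X) => L a u ω N)
    (fun N => L_meas a u N) ?_
  rw [tendsto_pi_nhds]
  exact fun ω => L_tendsto a u ha hu hua ω

lemma pts_mem {m n : ℕ} (G : Grid m n) (I : Finset (Fin m × Fin n)) (F : Set (ℝ × ℝ))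
    (hF : F = ⋃ i ∈ I, G.map i '' F) (ω : ℕ → Fin m × Fin n) (hω : ∀ t, ω t ∈ I) (N : ℕ) :
    ∀ z ∈ F, (pu G ω N + pa G ω N * z.1, pv G ω N + pb G ω N * z.2) ∈ F := by
  induction N with
  | zero =>
    intro z hz
    simpa [pu, pa, pv, pb] using hz
  | succ N ih =>
    intro z hz
    have h1 : G.map (ω N) z ∈ F := by
      rw [hF]
      exact mem_iUnion₂.2 ⟨ω N, hω N, z, hz, rfl⟩
    have h2 := ih _ h1
    have e1 : pu G ω N + pa G ω N * (G.map (ω N) z).1 =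
        pu G ω (N + 1) + pa G ω (N + 1) * z.1 := by
      simp only [Grid.map, pu, pa, Finset.sum_range_succ, Finset.prod_range_succ]
      ring
    have e2 : pv G ω N + pb G ω N * (G.map (ω N) z).2 =
        pv G ω (N + 1) + pb G ω (N + 1) * z.2 := by
      simp only [Grid.map, pv, pb, Finset.sum_range_succ, Finset.prod_range_succ]
      ring
    rw [e1, e2] at h2
    exact h2

end COD

theorem t_COD : S_COD := by
  intro m n G I F hF
  obtain ⟨⟨z, hz⟩, hcpt, hsub, hatt⟩ := hF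
  have ha : ∀ x : Fin m × Fin n, 0 < G.a x.1 := fun x => G.a_pos x.1
  have ha1 : ∀ x : Fin m × Fin n, G.a x.1 < 1 := fun x => G.a_lt x.1
  have hu : ∀ x : Fin m × Fin n, 0 ≤ G.u x.1 := fun x => G.u_nonneg x.1
  have hua : ∀ x : Fin m × Fin n, G.u x.1 + G.a x.1 ≤ 1 := fun x => G.u_le x.1
  have hb : ∀ x : Fin m × Fin n, 0 < G.b x.2 := fun x => G.b_pos x.2
  have hb1 : ∀ x : Fin m × Fin n, G.b x.2 < 1 := fun x => G.b_lt x.2
  have hv : ∀ x : Fin m × Fin n, 0 ≤ G.v x.2 := fun x => G.v_nonneg x.2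
  have hvb : ∀ x : Fin m × Fin n, G.v x.2 + G.b x.2 ≤ 1 := fun x => G.v_le x.2
  refine ⟨fun ω => (COD.pt (fun x : Fin m × Fin n => G.a x.1) (fun x => G.u x.1) ω,
    COD.pt (fun x : Fin m × Fin n => G.b x.2) (fun x => G.v x.2) ω), ?_, ?_, ?_, ?_⟩
  · exact Measurable.prodMk (COD.pt_meas _ _ ha hu hua) (COD.pt_meas _ _ hb hv hvb)
  · intro ω hω
    have h1 : Tendsto (fun N => pu G ω N) atTop
        (𝓝 (COD.pt (fun x : Fin m × Fin n => G.a x.1) (fun x => G.u x.1) ω)) :=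
      COD.L_tendsto _ _ ha hu hua ω
    have h2 : Tendsto (fun N => pv G ω N) atTop
        (𝓝 (COD.pt (fun x : Fin m × Fin n => G.b x.2) (fun x => G.v x.2) ω)) :=
      COD.L_tendsto _ _ hb hv hvb ω
    have h3 : Tendsto (fun N => pa G ω N) atTop (𝓝 0) := COD.P_tendsto _ ha ha1 ω
    have h4 : Tendsto (fun N => pb G ω N) atTop (𝓝 0) := COD.P_tendsto _ hb hb1 ω
    have h5 := h1.add (h3.mul_const z.1)
    have h6 := h2.add (h4.mul_const z.2)
    rw [zero_mul, add_zero] at h5 h6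
    exact hcpt.isClosed.mem_of_tendsto (h5.prodMk_nhds h6)
      (Eventually.of_forall fun N => COD.pts_mem G I F hatt ω hω N z hz)
  · intro ω N
    exact COD.pt_mem _ _ ha hu hua ω N
  · intro ω N
    exact COD.pt_mem _ _ hb hv hvb ω N

end Pool.Agent.Q73.CM
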