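import Pool.Agent.Q73.CM.Defs

/-!
# Mixed-type carpets: statements of the parts (project CM, MP_0a98f6_an)
-/

set_option autoImplicit false

namespace Pool.Agent.Q73.CM

open Set Filter Topology MeasureTheory

/-! ### Hausdorff dimension from below -/

/-- COD: the coding map -/
def S_COD : Prop := ∀ (m n : ℕ) (G : Grid m n) (I : Finset (Fin m × Fin n)) (F : Set (ℝ × ℝ)),
  IsAttr G I F → ∃ π : (ℕ → Fin m × Fin n) → ℝ × ℝ, IsCoding G I F π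

/-- CNT: a set of diameter at most `r` meets boundedly many approximate squares -/
def S_CNT : Prop := ∀ (m n : ℕ) (G : Grid m n) (I : Finset (Fin m × Fin n)) (F : Set (ℝ × ℝ))
  (π : (ℕ → Fin m × Fin n) → ℝ × ℝ), IsCoding G I F π →
  ∃ K : ℕ, ∀ r : ℝ, 0 < r → r < 1 → ∀ U : Set (ℝ × ℝ), Metric.ediam U ≤ ENNReal.ofReal r →
    ∀ T : Finset (ℕ → Fin m × Fin n), (∀ ω ∈ T, π ω ∈ U) →
      (∀ ω ∈ T, ∀ ω' ∈ T, ω ≠ ω' → ¬ SameSq G r ω ω') → T.card ≤ K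

/-- CYL: the measure of an approximate square -/
def S_CYL : Prop := ∀ (m n : ℕ) (G : Grid m n) (I : Finset (Fin m × Fin n))
  (q : Fin m × Fin n → ℝ), IsProb I q → ∀ r : ℝ, 0 < r → r < 1 → ∀ ω : ℕ → Fin m × Fin n,
    bern q {ω' | SameSq G r ω ω'} ≤ ENNReal.ofReal
      ((∏ t ∈ Finset.range (min (ka G r ω) (kb G r ω)), q (ω t)) *
        ∏ t ∈ Finset.Ico (min (ka G r ω) (kb G r ω)) (ka G r ω), qcol q (ω t).1)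

/-- LLN -/
def S_LLN : Prop := ∀ (m n : ℕ) (I : Finset (Fin m × Fin n)) (q : Fin m × Fin n → ℝ), IsProb I q →
  IsProbabilityMeasure (wt q) ∧ (∀ᵐ ω ∂(bern q), ∀ t, ω t ∈ I) ∧
  ∀ f : Fin m × Fin n → ℝ, ∀ᵐ ω ∂(bern q), Tendsto (fun N : ℕ =>
    (∑ t ∈ Finset.range N, f (ω t)) / (N : ℝ)) atTop (𝓝 (∑ i, q i * f i))

/-- LOC: the weights of the approximate squares of a typical point -/
def S_LOC : Prop := ∀ (m n : ℕ) (G : Grid m n) (I : Finset (Fin m × Fin n))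
  (q : Fin m × Fin n → ℝ), IsProb I q → lamA I G.a q ≤ lamB I G.b q →
  ∀ ω : ℕ → Fin m × Fin n, (∀ t, ω t ∈ I) →
    (∀ f : Fin m × Fin n → ℝ, Tendsto (fun N : ℕ =>
      (∑ t ∈ Finset.range N, f (ω t)) / (N : ℝ)) atTop (𝓝 (∑ i, q i * f i))) →
    ∀ s : ℝ, s < entA q / lamA I G.a q + (ent I q - entA q) / lamB I G.b q →
      ∀ᶠ r in 𝓝[>] (0 : ℝ),
        (∏ t ∈ Finset.range (min (ka G r ω) (kb G r ω)), q (ω t)) *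
          ∏ t ∈ Finset.Ico (min (ka G r ω) (kb G r ω)) (ka G r ω), qcol q (ω t).1 ≤ r ^ s

/-- MD: mass distribution -/
def S_MD : Prop := S_CNT → ∀ (m n : ℕ) (G : Grid m n) (I : Finset (Fin m × Fin n))
  (F : Set (ℝ × ℝ)) (π : (ℕ → Fin m × Fin n) → ℝ × ℝ), IsCoding G I F π →
  ∀ μ : Measure (ℕ → Fin m × Fin n), IsProbabilityMeasure μ → ∀ s : ℝ, 0 < s →
    (∀ᵐ ω ∂μ, (∀ t, ω t ∈ I) ∧
      ∀ᶠ r in 𝓝[>] (0 : ℝ), μ {ω' | SameSq G r ω ω'} ≤ ENNReal.ofReal (r ^ s)) →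
    ENNReal.ofReal s ≤ dimH F

/-- H: dimensions of Bernoulli measures -/
def S_H : Prop := ∀ (m n : ℕ) (G : Grid m n) (I : Finset (Fin m × Fin n)) (F : Set (ℝ × ℝ)),
  IsAttr G I F → ∀ q : Fin m × Fin n → ℝ, IsProb I q → lamA I G.a q ≤ lamB I G.b q →
    ENNReal.ofReal (entA q / lamA I G.a q + (ent I q - entA q) / lamB I G.b q) ≤ dimH F

/-- H assembly -/
def S_HA : Prop := S_COD → S_CNT → S_CYL → S_LLN → S_LOC → S_MD → S_H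

/-! ### Systems of intervals -/

/-- length of the interval of a word -/
def wlen {m : ℕ} (a : Fin m → ℝ) : List (Fin m) → ℝ
  | [] => 1
  | j :: w => a j * wlen a w

/-- left end of the interval of a word -/
def wleft {m : ℕ} (u a : Fin m → ℝ) : List (Fin m) → ℝ
  | [] => 0
  | j :: w => u j + a j * wleft u a w

/-- the hypotheses on the intervals `[u j, u j + a j]` -/
structure Ints {m : ℕ} (u a : Fin m → ℝ) : Prop where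
  a_pos : ∀ j, 0 < a j
  a_lt : ∀ j, a j < 1
  u_nonneg : ∀ j, 0 ≤ u j
  u_le : ∀ j, u j + a j ≤ 1
  u_sep : ∀ j j', j < j' → u j + a j ≤ u j'

/-- CUT: the words of length about `δ` -/
def S_CUT : Prop := ∀ (m : ℕ) (u a : Fin m → ℝ), Ints u a → ∀ J : Finset (Fin m), J.Nonempty →
  ∀ s : ℝ, 0 ≤ s → ∑ j ∈ J, a j ^ s = 1 →
  ∃ c : ℝ, 0 < c ∧ ∀ δ : ℝ, 0 < δ → δ ≤ 1 → ∃ W : Finset (List (Fin m)),
    (∀ w ∈ W, (∀ j ∈ w, j ∈ J) ∧ c * δ ≤ wlen a w ∧ wlen a w ≤ δ) ∧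
    (∀ w ∈ W, ∀ w' ∈ W, w ≠ w' →
      wleft u a w + wlen a w ≤ wleft u a w' ∨ wleft u a w' + wlen a w' ≤ wleft u a w) ∧
    δ ^ (-s) ≤ (W.card : ℝ) ∧ (W.card : ℝ) ≤ (c * δ) ^ (-s) ∧
    ∀ w : List (Fin m), (∀ j ∈ w, j ∈ J) → wlen a w ≤ δ → ∃ w' ∈ W, w' <+: w

/-- C1: covering by intervals -/
def S_C1 : Prop := ∀ (m : ℕ) (u a : Fin m → ℝ), Ints u a → ∀ J : Finset (Fin m), J.Nonempty →
  ∀ s : ℝ, 0 ≤ s → ∑ j ∈ J, a j ^ s = 1 →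
  ∃ C : ℝ, 0 < C ∧ ∀ δ : ℝ, 0 < δ → δ ≤ 1 → ∃ T : Finset ℝ, (T.card : ℝ) ≤ C * δ ^ (-s) ∧
    ∀ w : List (Fin m), (∀ j ∈ w, j ∈ J) → wlen a w ≤ δ →
      ∃ x ∈ T, Icc (wleft u a w) (wleft u a w + wlen a w) ⊆ Icc x (x + δ)

/-- C1 from CUT -/
def S_C1A : Prop := S_CUT → S_C1

/-! ### Box dimension from above -/

/-- the first coordinates of the points of `F` can be covered by `C r^(-s)` intervals of length `r` -/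
def CovFst (F : Set (ℝ × ℝ)) (s : ℝ) : Prop :=
  ∃ C : ℝ, 0 < C ∧ ∀ r : ℝ, 0 < r → r ≤ 1 → ∃ T : Finset ℝ, (T.card : ℝ) ≤ C * r ^ (-s) ∧
    ∀ z ∈ F, ∃ x ∈ T, z.1 ∈ Icc x (x + r)

/-- the same for the second coordinates -/
def CovSnd (F : Set (ℝ × ℝ)) (s : ℝ) : Prop :=
  ∃ C : ℝ, 0 < C ∧ ∀ r : ℝ, 0 < r → r ≤ 1 → ∃ T : Finset ℝ, (T.card : ℝ) ≤ C * r ^ (-s) ∧
    ∀ z ∈ F, ∃ x ∈ T, z.2 ∈ Icc x (x + r)

/-- M1 -/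
def S_M1 : Prop := S_C1 → ∀ (m n : ℕ) (G : Grid m n) (I : Finset (Fin m × Fin n))
  (F : Set (ℝ × ℝ)), IsAttr G I F → ∀ s : ℝ, 0 ≤ s →
    (∑ j ∈ cols I, G.a j ^ s = 1 → CovFst F s) ∧ (∑ k ∈ rows I, G.b k ^ s = 1 → CovSnd F s)

/-- M2: covering by rectangles of width `x` and height `y` -/
def S_M2 : Prop := ∀ (m n : ℕ) (G : Grid m n) (I : Finset (Fin m × Fin n))
  (F : Set (ℝ × ℝ)), IsAttr G I F → ∀ s₁ s₂ τA τB : ℝ, 0 ≤ s₁ → 0 ≤ s₂ → 0 ≤ τA → 0 ≤ τB →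
    CovFst F s₁ → CovSnd F s₂ → ∑ i ∈ I, G.a i.1 ^ s₁ * G.b i.2 ^ τA = 1 →
    ∑ i ∈ I, G.b i.2 ^ s₂ * G.a i.1 ^ τB = 1 →
    ∃ C : ℝ, 0 < C ∧ ∀ x y : ℝ, 0 < x → x ≤ 1 → 0 < y → y ≤ 1 → ∃ T : Finset (ℝ × ℝ),
      (T.card : ℝ) ≤ C * (x ^ (-s₁) * y ^ (-τA) + y ^ (-s₂) * x ^ (-τB)) ∧
      ∀ z ∈ F, ∃ p ∈ T, z.1 ∈ Icc p.1 (p.1 + x) ∧ z.2 ∈ Icc p.2 (p.2 + y)

/-! ### Windows in long and thin cylinders -/

/-- the hypothesis giving `s ≤ dimA` -/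
def BigWindows {X : Type} [PseudoMetricSpace X] (F : Set X) (s : ℝ) : Prop :=
  ∃ c : ℝ, 0 < c ∧ ∀ δ : ℝ, 0 < δ → δ < 1 → ∃ x ∈ F, ∃ R : ℝ, 0 < R ∧
    c * δ ^ (-s) ≤ (covN (δ * R) (Metric.closedBall x R ∩ F) : ℝ)

/-- the hypothesis giving `dimL ≤ s` -/
def SmallWindows {X : Type} [PseudoMetricSpace X] (F : Set X) (s : ℝ) : Prop :=
  ∃ C : ℝ, 0 < C ∧ ∀ δ : ℝ, 0 < δ → δ < 1 → ∃ x ∈ F, ∃ R : ℝ, 0 < R ∧ R ≤ Metric.diam F ∧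
    (covN (δ * R) (Metric.closedBall x R ∩ F) : ℝ) ≤ C * δ ^ (-s)

/-- AS -/
def S_AS : Prop := S_CUT → ∀ (m n : ℕ) (G : Grid m n) (I : Finset (Fin m × Fin n))
  (F : Set (ℝ × ℝ)), IsAttr G I F → (∃ i ∈ I, G.a i.1 < G.b i.2) → ∀ s t : ℝ, 0 ≤ s → 0 ≤ t →
    ∑ k ∈ rows I, G.b k ^ s = 1 → ∀ k ∈ rows I, ∑ j ∈ inRow I k, G.a j ^ t = 1 →
    BigWindows F (s + t)

/-- LO -/
def S_LO : Prop := S_C1 → ∀ (m n : ℕ) (G : Grid m n) (I : Finset (Fin m × Fin n))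
  (F : Set (ℝ × ℝ)), IsAttr G I F → 2 ≤ (cols I).card → 2 ≤ (rows I).card →
    (∃ i ∈ I, G.a i.1 < G.b i.2) → ∀ s t : ℝ, 0 ≤ s → 0 ≤ t →
    ∑ k ∈ rows I, G.b k ^ s = 1 → ∀ k ∈ rows I, ∑ j ∈ inRow I k, G.a j ^ t = 1 →
    SmallWindows F (s + t)

/-! ### Generalities -/

/-- GA -/
def S_GA : Prop := ∀ (X : Type) [PseudoMetricSpace X] (F : Set X) (s : ℝ),
  (assouadSet F).Nonempty → BigWindows F s → s ≤ dimA F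

/-- GL -/
def S_GL : Prop := ∀ (X : Type) [PseudoMetricSpace X] (F : Set X) (s : ℝ), 0 ≤ s →
  SmallWindows F s → dimL F ≤ s

/-- GP -/
def S_GP : Prop := ∀ F : Set (EuclideanSpace ℝ (Fin 2)), IsCompact F → (assouadSet F).Nonempty

/-- BH -/
def S_BH : Prop := ∀ (X : Type) [MetricSpace X] (F : Set X) (D : ℝ), IsCompact F → F.Nonempty →
  IsBoxDim F D → 0 ≤ D ∧ dimH F ≤ ENNReal.ofReal D

/-- BU -/
def S_BU : Prop := ∀ (X : Type) [MetricSpace X] (F : Set X) (s : ℝ), IsCompact F → F.Nonempty →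
  (∃ C : ℝ, 0 < C ∧ ∀ r : ℝ, 0 < r → r ≤ 1 → (covN r F : ℝ) ≤ C * r ^ (-s)) →
  (∀ D : ℝ, IsBoxDim F D → D ≤ s) ∧ (0 ≤ s → ENNReal.ofReal s ≤ dimH F → IsBoxDim F s)

/-- the coordinates -/
def toPair (x : EuclideanSpace ℝ (Fin 2)) : ℝ × ℝ := (x 0, x 1)

/-- TR: from the maximum metric to the Euclidean metric -/
def S_TR : Prop := ∀ F : Set (EuclideanSpace ℝ (Fin 2)), IsCompact F →
  dimH F = dimH (toPair '' F) ∧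
  (∀ s : ℝ, BigWindows (toPair '' F) s → BigWindows F s) ∧
  (∀ s : ℝ, SmallWindows (toPair '' F) s → SmallWindows F s) ∧
  ∀ s : ℝ, 0 ≤ s → (∃ C : ℝ, 0 < C ∧ ∀ x : ℝ, 0 < x → x ≤ 1 → ∃ T : Finset (ℝ × ℝ),
      (T.card : ℝ) ≤ C * x ^ (-s) ∧
      ∀ z ∈ toPair '' F, ∃ p ∈ T, z.1 ∈ Icc p.1 (p.1 + x) ∧ z.2 ∈ Icc p.2 (p.2 + x)) →
    ∃ C : ℝ, 0 < C ∧ ∀ r : ℝ, 0 < r → r ≤ 1 → (covN r F : ℝ) ≤ C * r ^ (-s)

/-- SW: exchange of the coordinates -/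
def S_SW : Prop := ∀ (m n : ℕ) (G : Grid m n) (I : Finset (Fin m × Fin n)) (F : Set (ℝ × ℝ)),
  (IsAttr G I F → IsAttr G.swap (I.image Prod.swap) (Prod.swap '' F)) ∧
  dimH (Prod.swap '' F) = dimH F ∧
  (∀ s : ℝ, BigWindows (Prod.swap '' F) s → BigWindows F s) ∧
  (∀ s : ℝ, SmallWindows (Prod.swap '' F) s → SmallWindows F s) ∧
  cols (I.image Prod.swap) = rows I ∧ rows (I.image Prod.swap) = cols I ∧
  (∀ j, inRow (I.image Prod.swap) j = inCol I j) ∧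
  (∀ k, inCol (I.image Prod.swap) k = inRow I k) ∧
  ∀ q : Fin m × Fin n → ℝ, IsProb I q → IsProb (I.image Prod.swap) (q ∘ Prod.swap) ∧
    lamA (I.image Prod.swap) G.swap.a (q ∘ Prod.swap) = lamB I G.b q ∧
    lamB (I.image Prod.swap) G.swap.b (q ∘ Prod.swap) = lamA I G.a q ∧
    entA (q ∘ Prod.swap) = entB q ∧ ent (I.image Prod.swap) (q ∘ Prod.swap) = ent I q

/-! ### The exponents -/

/-- the lower bounds by Bernoulli measures -/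
def HausLower {m n : ℕ} (I : Finset (Fin m × Fin n)) (a : Fin m → ℝ) (b : Fin n → ℝ) (dH : ℝ) :
    Prop :=
  ∀ q : Fin m × Fin n → ℝ, IsProb I q →
    (lamA I a q ≤ lamB I b q → entA q / lamA I a q + (ent I q - entA q) / lamB I b q ≤ dH) ∧
    (lamB I b q ≤ lamA I a q → entB q / lamB I b q + (ent I q - entB q) / lamA I a q ≤ dH)

/-- the exponents: `s₁`, `s₂` of the projections, `t j`, `t' k` of the columns and rows,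
`s₁ + τA`, `s₂ + τB` -/
structure Dims {m n : ℕ} (I : Finset (Fin m × Fin n)) (a : Fin m → ℝ) (b : Fin n → ℝ)
    (s₁ s₂ τA τB : ℝ) (t : Fin m → ℝ) (t' : Fin n → ℝ) : Prop where
  ne : I.Nonempty
  a_pos : ∀ j, 0 < a j
  a_lt : ∀ j, a j < 1
  b_pos : ∀ k, 0 < b k
  b_lt : ∀ k, b k < 1
  s₁_nonneg : 0 ≤ s₁
  s₂_nonneg : 0 ≤ s₂
  τA_nonneg : 0 ≤ τA
  τB_nonneg : 0 ≤ τB
  t_nonneg : ∀ j ∈ cols I, 0 ≤ t j
  t'_nonneg : ∀ k ∈ rows I, 0 ≤ t' k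
  hs₁ : ∑ j ∈ cols I, a j ^ s₁ = 1
  hs₂ : ∑ k ∈ rows I, b k ^ s₂ = 1
  hτA : ∑ i ∈ I, a i.1 ^ s₁ * b i.2 ^ τA = 1
  hτB : ∑ i ∈ I, b i.2 ^ s₂ * a i.1 ^ τB = 1
  ht : ∀ j ∈ cols I, ∑ k ∈ inCol I j, b k ^ t j = 1
  ht' : ∀ k ∈ rows I, ∑ j ∈ inRow I k, a j ^ t' k = 1

/-- EX -/
def S_EX : Prop := ∀ (m n : ℕ) (I : Finset (Fin m × Fin n)) (a : Fin m → ℝ) (b : Fin n → ℝ),
  I.Nonempty → (∀ j, 0 < a j ∧ a j < 1) → (∀ k, 0 < b k ∧ b k < 1) →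
  ∃ (s₁ s₂ τA τB : ℝ) (t : Fin m → ℝ) (t' : Fin n → ℝ), Dims I a b s₁ s₂ τA τB t t'

/-- FIN0 -/
def S_FIN0 : Prop := ∀ (m n : ℕ) (I : Finset (Fin m × Fin n)) (a : Fin m → ℝ) (b : Fin n → ℝ)
  (s₁ s₂ τA τB : ℝ) (t : Fin m → ℝ) (t' : Fin n → ℝ) (dH : ℝ), Dims I a b s₁ s₂ τA τB t t' →
  HausLower I a b dH → (cols I).card = 1 ∨ (rows I).card = 1 → s₁ + τA ≤ dH ∧ s₂ + τB ≤ dH

/-- FIN1 -/
def S_FIN1 : Prop := ∀ (m n : ℕ) (I : Finset (Fin m × Fin n)) (a : Fin m → ℝ) (b : Fin n → ℝ)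
  (s₁ s₂ τA τB : ℝ) (t : Fin m → ℝ) (t' : Fin n → ℝ) (dH : ℝ), Dims I a b s₁ s₂ τA τB t t' →
  HausLower I a b dH → (∀ j ∈ cols I, dH ≤ s₁ + t j) → (∀ k ∈ rows I, dH ≤ s₂ + t' k) →
  s₁ + τA ≤ dH ∧ s₂ + τB ≤ dH

/-- FIN2 -/
def S_FIN2 : Prop := ∀ (m n : ℕ) (I : Finset (Fin m × Fin n)) (a : Fin m → ℝ) (b : Fin n → ℝ)
  (s₁ s₂ τA τB : ℝ) (t : Fin m → ℝ) (t' : Fin n → ℝ) (dH D : ℝ), Dims I a b s₁ s₂ τA τB t t' →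
  HausLower I a b dH → D ≤ max (s₁ + τA) (s₂ + τB) → (∀ j ∈ cols I, s₁ + t j ≤ D) →
  (∀ k ∈ rows I, s₂ + t' k ≤ D) → D ≤ dH

/-! ### The example -/

/-- the cells of the example: two columns of widths `3/4` and `1/4`, three rows of height `1/3` -/
def exI : Finset (Fin 2 × Fin 3) := {(0, 0), (0, 1), (1, 1), (1, 2)}

/-- widths -/
noncomputable def exA : Fin 2 → ℝ := ![3 / 4, 1 / 4]

/-- heights -/
noncomputable def exB : Fin 3 → ℝ := fun _ => 1 / 3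

/-- EXC: the exponents of the example; `d = log 2 / log 3` -/
def S_EXC : Prop := ∀ d : ℝ, d = Real.log 2 / Real.log 3 →
  (∑ j ∈ cols exI, exA j ^ (1 : ℝ) = 1) ∧ (∑ k ∈ rows exI, exB k ^ (1 : ℝ) = 1) ∧
  (∑ i ∈ exI, exA i.1 ^ (1 : ℝ) * exB i.2 ^ d = 1) ∧
  (∃ τB : ℝ, 0 ≤ τB ∧ τB ≤ d ∧ ∑ i ∈ exI, exB i.2 ^ (1 : ℝ) * exA i.1 ^ τB = 1) ∧
  (∑ j ∈ inRow exI 1, exA j ^ (1 : ℝ) = 1) ∧ (∑ j ∈ inRow exI 0, exA j ^ (0 : ℝ) = 1) ∧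
  (1 : Fin 3) ∈ rows exI ∧ (0 : Fin 3) ∈ rows exI ∧ (cols exI).card = 2 ∧ (rows exI).card = 3 ∧
  0 < d ∧ d < 1 ∧
  ∃ q : Fin 2 × Fin 3 → ℝ, IsProb exI q ∧ lamA exI exA q ≤ lamB exI exB q ∧
    entA q / lamA exI exA q + (ent exI q - entA q) / lamB exI exB q = 1 + d

end Pool.Agent.Q73.CM
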