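import Mathlib
import Pool.Agent.Q73.CM.Stm

set_option autoImplicit false

/-! Project CM: the words of length about `δ`. -/

namespace Pool.Agent.Q73.CM.CUT

open Set Filter Topology MeasureTheory

variable {m : ℕ} {u a : Fin m → ℝ}

theorem wlen_pos (h : Ints u a) : ∀ w : List (Fin m), 0 < wlen a w
  | [] => one_pos
  | j :: w => mul_pos (h.a_pos j) (wlen_pos h w)

theorem wleft_nonneg (h : Ints u a) : ∀ w : List (Fin m), 0 ≤ wleft u a w
  | [] => le_rfl
  | j :: w => add_nonneg (h.u_nonneg j) (mul_nonneg (h.a_pos j).le (wleft_nonneg h w))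

theorem wleft_le (h : Ints u a) : ∀ w : List (Fin m), wleft u a w + wlen a w ≤ 1
  | [] => by simp [wleft, wlen]
  | j :: w => by
    have ih := wleft_le h w
    have h1 := h.u_le j
    have h2 := (h.a_pos j).le
    show u j + a j * wleft u a w + a j * wlen a w ≤ 1
    nlinarith

/-- the properties of the cut set -/
structure Cut (u a : Fin m → ℝ) (J : Finset (Fin m)) (s c δ : ℝ) (W : Finset (List (Fin m))) :
    Prop where
  mem : ∀ w ∈ W, ∀ j ∈ w, j ∈ J
  le : ∀ w ∈ W, wlen a w ≤ δ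
  ge : ∀ w ∈ W, c * δ ≤ wlen a w ∨ w = []
  sep : ∀ w ∈ W, ∀ w' ∈ W, w ≠ w' →
      wleft u a w + wlen a w ≤ wleft u a w' ∨ wleft u a w' + wlen a w' ≤ wleft u a w
  sum : ∑ w ∈ W, wlen a w ^ s = 1
  pre : ∀ w : List (Fin m), (∀ j ∈ w, j ∈ J) → wlen a w ≤ δ → ∃ w' ∈ W, w' <+: w

theorem cut_one (J : Finset (Fin m)) (s c δ : ℝ) (hδ : 1 ≤ δ) :
    Cut u a J s c δ {[]} where
  mem := by intro w hw j hj; rw [Finset.mem_singleton] at hw; subst hw; simp at hj
  le := by intro w hw; rw [Finset.mem_singleton] at hw; subst hw; exact hδ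
  ge := by intro w hw; rw [Finset.mem_singleton] at hw; exact Or.inr hw
  sep := by
    intro w hw w' hw' hne
    rw [Finset.mem_singleton] at hw hw'
    exact absurd (hw.trans hw'.symm) hne
  sum := by simp [wlen]
  pre := fun w _ _ => ⟨[], Finset.mem_singleton_self _, List.nil_prefix⟩

theorem cut_step (h : Ints u a) (J : Finset (Fin m)) (s c δ : ℝ) 
    (hsum : ∑ j ∈ J, a j ^ s = 1) (hc0 : 0 < c) (hc : ∀ j, c ≤ a j) (hδ : 0 < δ) (hδ1 : δ < 1)
    (W : Fin m → Finset (List (Fin m))) (hW : ∀ j, Cut u a J s c (δ / a j) (W j)) :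
    Cut u a J s c δ (J.biUnion fun j => (W j).image (List.cons j)) where
  mem := by
    intro w hw j hj
    simp only [Finset.mem_biUnion, Finset.mem_image] at hw
    obtain ⟨i, hi, v, hv, rfl⟩ := hw
    rcases List.mem_cons.1 hj with rfl | hj
    · exact hi
    · exact (hW i).mem v hv j hj
  le := by
    intro w hw
    simp only [Finset.mem_biUnion, Finset.mem_image] at hw
    obtain ⟨i, hi, v, hv, rfl⟩ := hw
    have h1 := (hW i).le v hv
    rw [le_div_iff₀ (h.a_pos i)] at h1
    show a i * wlen a v ≤ δ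
    linarith
  ge := by
    intro w hw
    simp only [Finset.mem_biUnion, Finset.mem_image] at hw
    obtain ⟨i, hi, v, hv, rfl⟩ := hw
    left
    show c * δ ≤ a i * wlen a v
    rcases (hW i).ge v hv with h1 | h1
    · have h2 := mul_le_mul_of_nonneg_left h1 (h.a_pos i).le
      have h3 : a i * (c * (δ / a i)) = c * δ := by
        have := (h.a_pos i).ne'
        field_simp
      rw [h3] at h2
      exact h2
    · subst h1
      show c * δ ≤ a i * 1
      have := hc i
      nlinarith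
  sep := by
    intro w hw w' hw' hne
    simp only [Finset.mem_biUnion, Finset.mem_image] at hw hw'
    obtain ⟨i, hi, v, hv, rfl⟩ := hw
    obtain ⟨i', hi', v', hv', rfl⟩ := hw'
    show u i + a i * wleft u a v + a i * wlen a v ≤ u i' + a i' * wleft u a v' ∨
      u i' + a i' * wleft u a v' + a i' * wlen a v' ≤ u i + a i * wleft u a v
    have e1 := wleft_le h v
    have e2 := wleft_le h v'
    have e3 := wleft_nonneg h v
    have e4 := wleft_nonneg h v'
    have p1 := h.a_pos i
    have p2 := h.a_pos i'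
    rcases lt_trichotomy i i' with hlt | heq | hlt
    · left
      have := h.u_sep i i' hlt
      nlinarith [mul_nonneg p2.le e4]
    · subst heq
      have hvv : v ≠ v' := fun hvv => hne (by rw [hvv])
      rcases (hW i).sep v hv v' hv' hvv with h1 | h1
      · left; nlinarith
      · right; nlinarith
    · right
      have := h.u_sep i' i hlt
      nlinarith [mul_nonneg p1.le e3]
  sum := by
    rw [Finset.sum_biUnion]
    · rw [← hsum]
      refine Finset.sum_congr rfl fun j _ => ?_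
      rw [Finset.sum_image (fun x _ y _ hxy => (List.cons.inj hxy).2)]
      have e : ∀ v ∈ W j, wlen a (j :: v) ^ s = a j ^ s * wlen a v ^ s := fun v _ => by
        show (a j * wlen a v) ^ s = _
        rw [Real.mul_rpow (h.a_pos j).le (wlen_pos h v).le]
      rw [Finset.sum_congr rfl e, ← Finset.mul_sum, (hW j).sum, mul_one]
    · intro i _ j _ hij
      rw [Function.onFun, Finset.disjoint_left]
      intro x hx hx'
      rw [Finset.mem_image] at hx hx'
      obtain ⟨v, _, rfl⟩ := hx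
      obtain ⟨v', _, hv'⟩ := hx'
      exact hij (List.cons.inj hv').1.symm
  pre := by
    intro w hw hle
    cases w with
    | nil =>
      exact absurd hle (not_le.2 hδ1)
    | cons j v =>
      have hj : j ∈ J := hw j List.mem_cons_self
      have h1 : a j * wlen a v ≤ δ := hle
      have h2 : wlen a v ≤ δ / a j := by
        rw [le_div_iff₀ (h.a_pos j)]; linarith
      obtain ⟨w', hw', hp⟩ := (hW j).pre v (fun i hi => hw i (List.mem_cons_of_mem _ hi)) h2
      refine ⟨j :: w', ?_, List.cons_prefix_cons.2 ⟨rfl, hp⟩⟩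
      simp only [Finset.mem_biUnion, Finset.mem_image]
      exact ⟨j, hj, w', hw', rfl⟩

theorem cut_exists (h : Ints u a) (J : Finset (Fin m)) (s c A : ℝ)
    (hsum : ∑ j ∈ J, a j ^ s = 1) (hc0 : 0 < c) (hc : ∀ j, c ≤ a j) (hA0 : 0 < A)
    (hA : ∀ j, a j ≤ A) :
    ∀ (k : ℕ) (δ : ℝ), A ^ k ≤ δ → ∃ W, Cut u a J s c δ W := by
  intro k
  induction k with
  | zero =>
    intro δ hδ
    exact ⟨_, cut_one J s c δ (by simpa using hδ)⟩
  | succ k ih =>
    intro δ hδ
    by_cases hδ1 : 1 ≤ δ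
    · exact ⟨_, cut_one J s c δ hδ1⟩
    · have hδ0 : 0 < δ := lt_of_lt_of_le (by positivity) hδ
      have h1 : ∀ j, A ^ k ≤ δ / a j := by
        intro j
        rw [le_div_iff₀ (h.a_pos j)]
        refine le_trans ?_ hδ
        rw [pow_succ]
        exact mul_le_mul_of_nonneg_left (hA j) (by positivity)
      choose W hW using fun j => ih (δ / a j) (h1 j)
      exact ⟨_, cut_step h J s c δ hsum hc0 hc hδ0 (not_le.1 hδ1) W hW⟩

end Pool.Agent.Q73.CM.CUT

namespace Pool.Agent.Q73.CM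

open CUT

theorem t_CUT : S_CUT := by
  intro m u a h J hJ s hs hsum
  have hne : Nonempty (Fin m) := ⟨hJ.choose⟩
  obtain ⟨j0, hj0⟩ := Finite.exists_min a
  obtain ⟨j1, hj1⟩ := Finite.exists_max a
  refine ⟨a j0, h.a_pos j0, fun δ hδ hδ1 => ?_⟩
  obtain ⟨k, hk⟩ := exists_pow_lt_of_lt_one hδ (h.a_lt j1)
  obtain ⟨W, hW⟩ := cut_exists h J s (a j0) (a j1) hsum (h.a_pos j0) hj0 (h.a_pos j1) hj1 k δ hk.le
  have hge : ∀ w ∈ W, a j0 * δ ≤ wlen a w := by
    intro w hw
    rcases hW.ge w hw with h1 | h1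
    · exact h1
    · subst h1
      show a j0 * δ ≤ 1
      have h2 := h.a_lt j0
      have h3 := h.a_pos j0
      nlinarith
  refine ⟨W, fun w hw => ⟨hW.mem w hw, hge w hw, hW.le w hw⟩, hW.sep, ?_, ?_, hW.pre⟩
  · have h1 : ∑ w ∈ W, wlen a w ^ s ≤ ∑ w ∈ W, δ ^ s :=
      Finset.sum_le_sum fun w hw =>
        Real.rpow_le_rpow (wlen_pos h w).le (hW.le w hw) hs
    rw [hW.sum, Finset.sum_const, nsmul_eq_mul] at h1
    rw [Real.rpow_neg hδ.le, inv_le_iff_one_le_mul₀ (Real.rpow_pos_of_pos hδ s)]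
    exact h1
  · have hcd : 0 < a j0 * δ := mul_pos (h.a_pos j0) hδ
    have h1 : ∑ w ∈ W, (a j0 * δ) ^ s ≤ ∑ w ∈ W, wlen a w ^ s :=
      Finset.sum_le_sum fun w hw => Real.rpow_le_rpow hcd.le (hge w hw) hs
    rw [hW.sum, Finset.sum_const, nsmul_eq_mul] at h1
    rw [Real.rpow_neg hcd.le, ← one_div, le_div_iff₀ (Real.rpow_pos_of_pos hcd s)]
    exact h1

end Pool.Agent.Q73.CM
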