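import Pool.Agent.Q73.CM.Stm

/-!
# Mixed-type carpets: the definitions of the final statement (MP_0a98f6_an)
-/

set_option autoImplicit false

namespace Pool.Agent.Q73.CM

open Set Filter Topology MeasureTheory

/-- The unit square is cut by the vertical lines `x = x j`, `0 < j < m`, and the horizontal lines
`y = y k`, `0 < k < n`, at least one of each kind, and `I` is a set of at least two of the cells
`[x j, x (j+1)] × [y k, y (k+1)]`. -/
structure Carpet (m n : ℕ) where
  x : Fin (m + 1) → ℝ
  y : Fin (n + 1) → ℝ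
  x_mono : StrictMono x
  y_mono : StrictMono y
  x_zero : x 0 = 0
  y_zero : y 0 = 0
  x_last : x (Fin.last m) = 1
  y_last : y (Fin.last n) = 1
  two_le_m : 2 ≤ m
  two_le_n : 2 ≤ n
  I : Finset (Fin m × Fin n)
  two_le_card : 2 ≤ I.card

variable {m n : ℕ}

/-- the width of a column -/
def Carpet.width (C : Carpet m n) (j : Fin m) : ℝ := C.x j.succ - C.x j.castSucc

/-- the height of a row -/
def Carpet.height (C : Carpet m n) (k : Fin n) : ℝ := C.y k.succ - C.y k.castSucc

/-- the orientation preserving affine map of the unit square onto the cell `i`, with diagonal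
linear part -/
noncomputable def Carpet.map (C : Carpet m n) (i : Fin m × Fin n)
    (z : EuclideanSpace ℝ (Fin 2)) : EuclideanSpace ℝ (Fin 2) :=
  !₂[C.width i.1 * z 0 + C.x i.1.castSucc, C.height i.2 * z 1 + C.y i.2.castSucc]

/-- the unit square of the Euclidean plane -/
def unitSquare : Set (EuclideanSpace ℝ (Fin 2)) := {z | ∀ i, 0 ≤ z i ∧ z i ≤ 1}

/-- `F` is a mixed-type carpet. -/
def IsMixedCarpet (F : Set (EuclideanSpace ℝ (Fin 2))) : Prop :=
  ∃ (m n : ℕ) (C : Carpet m n), F.Nonempty ∧ IsCompact F ∧ F ⊆ unitSquare ∧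
    F = ⋃ i ∈ C.I, C.map i '' F ∧ (∃ i ∈ C.I, C.height i.2 < C.width i.1) ∧
    ∃ i ∈ C.I, C.width i.1 < C.height i.2

/-- the grid of a carpet -/
def Carpet.grid (C : Carpet m n) : Grid m n where
  u := fun j => C.x j.castSucc
  a := C.width
  v := fun k => C.y k.castSucc
  b := C.height
  a_pos := fun j => sub_pos.2 (C.x_mono (Fin.castSucc_lt_succ))
  b_pos := fun k => sub_pos.2 (C.y_mono (Fin.castSucc_lt_succ))
  a_lt := by
    intro j
    have h0 : C.x 0 ≤ C.x j.castSucc := C.x_mono.monotone (Fin.zero_le _)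
    have h1 : C.x j.succ ≤ C.x (Fin.last m) := C.x_mono.monotone (Fin.le_last _)
    rw [C.x_zero] at h0
    rw [C.x_last] at h1
    have hm := C.two_le_m
    unfold Carpet.width
    by_cases hj : (j : ℕ) = 0
    · have h2 : C.x j.succ < C.x (Fin.last m) := by
        apply C.x_mono
        rw [Fin.lt_def]
        simp [Fin.val_succ, hj]
        omega
      rw [C.x_last] at h2
      linarith
    · have h2 : C.x 0 < C.x j.castSucc := by
        apply C.x_mono
        rw [Fin.lt_def]
        simp
        omega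
      rw [C.x_zero] at h2
      linarith
  b_lt := by
    intro j
    have h0 : C.y 0 ≤ C.y j.castSucc := C.y_mono.monotone (Fin.zero_le _)
    have h1 : C.y j.succ ≤ C.y (Fin.last n) := C.y_mono.monotone (Fin.le_last _)
    rw [C.y_zero] at h0
    rw [C.y_last] at h1
    have hm := C.two_le_n
    unfold Carpet.height
    by_cases hj : (j : ℕ) = 0
    · have h2 : C.y j.succ < C.y (Fin.last n) := by
        apply C.y_mono
        rw [Fin.lt_def]
        simp [Fin.val_succ, hj]
        omega
      rw [C.y_last] at h2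
      linarith
    · have h2 : C.y 0 < C.y j.castSucc := by
        apply C.y_mono
        rw [Fin.lt_def]
        simp
        omega
      rw [C.y_zero] at h2
      linarith
  u_nonneg := fun j => by
    have h0 : C.x 0 ≤ C.x j.castSucc := C.x_mono.monotone (Fin.zero_le _)
    rwa [C.x_zero] at h0
  v_nonneg := fun j => by
    have h0 : C.y 0 ≤ C.y j.castSucc := C.y_mono.monotone (Fin.zero_le _)
    rwa [C.y_zero] at h0
  u_le := fun j => by
    have h1 : C.x j.succ ≤ C.x (Fin.last m) := C.x_mono.monotone (Fin.le_last _)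
    rw [C.x_last] at h1
    unfold Carpet.width
    linarith
  v_le := fun j => by
    have h1 : C.y j.succ ≤ C.y (Fin.last n) := C.y_mono.monotone (Fin.le_last _)
    rw [C.y_last] at h1
    unfold Carpet.height
    linarith
  u_sep := fun j j' h => by
    have h1 : C.x j.succ ≤ C.x j'.castSucc := by
      apply C.x_mono.monotone
      rw [Fin.le_def]
      simpa using h
    unfold Carpet.width
    linarith
  v_sep := fun j j' h => by
    have h1 : C.y j.succ ≤ C.y j'.castSucc := by
      apply C.y_mono.monotone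
      rw [Fin.le_def]
      simpa using h
    unfold Carpet.height
    linarith

/-! ### The four configurations -/

/-- `dim_L = dim_H < dim_B = dim_A` -/
def ConfigA (F : Set (EuclideanSpace ℝ (Fin 2))) : Prop :=
  ∃ D : ℝ, IsBoxDim F D ∧ ENNReal.ofReal (dimL F) = dimH F ∧ dimH F < ENNReal.ofReal D ∧ D = dimA F

/-- `dim_L = dim_H < dim_B < dim_A` -/
def ConfigB (F : Set (EuclideanSpace ℝ (Fin 2))) : Prop :=
  ∃ D : ℝ, IsBoxDim F D ∧ ENNReal.ofReal (dimL F) = dimH F ∧ dimH F < ENNReal.ofReal D ∧ D < dimA F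

/-- `dim_L < dim_H = dim_B < dim_A` -/
def ConfigC (F : Set (EuclideanSpace ℝ (Fin 2))) : Prop :=
  ∃ D : ℝ, IsBoxDim F D ∧ ENNReal.ofReal (dimL F) < dimH F ∧ dimH F = ENNReal.ofReal D ∧ D < dimA F

/-- `dim_L < dim_H < dim_B = dim_A` -/
def ConfigD (F : Set (EuclideanSpace ℝ (Fin 2))) : Prop :=
  ∃ D : ℝ, IsBoxDim F D ∧ ENNReal.ofReal (dimL F) < dimH F ∧ dimH F < ENNReal.ofReal D ∧ D = dimA F

end Pool.Agent.Q73.CM
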