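import Mathlib

/-!
# Mixed-type carpets: definitions (project CM, MP_0a98f6_an)
-/

set_option autoImplicit false

namespace Pool.Agent.Q73.CM

open Set Filter Topology MeasureTheory

/-- `N_r(E)`: the least number of sets of diameter at most `r` needed to cover `E`. -/
noncomputable def covN {X : Type} [PseudoEMetricSpace X] (r : ℝ) (E : Set X) : ℕ :=
  sInf {k : ℕ | ∃ t : Fin k → Set X, (∀ i, Metric.ediam (t i) ≤ ENNReal.ofReal r) ∧ E ⊆ ⋃ i, t i}

/-- the set of exponents in the definition of the Assouad dimension -/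
def assouadSet {X : Type} [PseudoMetricSpace X] (F : Set X) : Set ℝ :=
  {s : ℝ | 0 ≤ s ∧ ∃ C : ℝ, 0 < C ∧ ∀ r R : ℝ, 0 < r → r < R → ∀ x ∈ F,
    (covN r (Metric.closedBall x R ∩ F) : ℝ) ≤ C * (R / r) ^ s}

/-- the Assouad dimension -/
noncomputable def dimA {X : Type} [PseudoMetricSpace X] (F : Set X) : ℝ := sInf (assouadSet F)

/-- the set of exponents in the definition of the lower dimension -/
def lowerSet {X : Type} [PseudoMetricSpace X] (F : Set X) : Set ℝ :=
  {s : ℝ | 0 ≤ s ∧ ∃ C : ℝ, 0 < C ∧ ∀ r R : ℝ, 0 < r → r < R → R ≤ Metric.diam F → ∀ x ∈ F,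
    C * (R / r) ^ s ≤ (covN r (Metric.closedBall x R ∩ F) : ℝ)}

/-- the lower dimension -/
noncomputable def dimL {X : Type} [PseudoMetricSpace X] (F : Set X) : ℝ := sSup (lowerSet F)

/-- `D` is the box dimension of `F`. -/
def IsBoxDim {X : Type} [PseudoEMetricSpace X] (F : Set X) (D : ℝ) : Prop :=
  Tendsto (fun r : ℝ => Real.log (covN r F : ℝ) / (-Real.log r)) (𝓝[>] 0) (𝓝 D)

/-- Columns `[u j, u j + a j]` and rows `[v k, v k + b k]` of `[0,1]` with disjoint interiors. -/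
structure Grid (m n : ℕ) where
  u : Fin m → ℝ
  a : Fin m → ℝ
  v : Fin n → ℝ
  b : Fin n → ℝ
  a_pos : ∀ j, 0 < a j
  a_lt : ∀ j, a j < 1
  b_pos : ∀ k, 0 < b k
  b_lt : ∀ k, b k < 1
  u_nonneg : ∀ j, 0 ≤ u j
  u_le : ∀ j, u j + a j ≤ 1
  v_nonneg : ∀ k, 0 ≤ v k
  v_le : ∀ k, v k + b k ≤ 1
  u_sep : ∀ j j', j < j' → u j + a j ≤ u j'
  v_sep : ∀ k k', k < k' → v k + b k ≤ v k'

variable {m n : ℕ}

/-- the affine map of the unit square onto the cell `i` -/
def Grid.map (G : Grid m n) (i : Fin m × Fin n) (z : ℝ × ℝ) : ℝ × ℝ :=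
  (G.a i.1 * z.1 + G.u i.1, G.b i.2 * z.2 + G.v i.2)

/-- `F` is the attractor of the maps of the cells in `I`. -/
def IsAttr (G : Grid m n) (I : Finset (Fin m × Fin n)) (F : Set (ℝ × ℝ)) : Prop :=
  F.Nonempty ∧ IsCompact F ∧ F ⊆ Icc (0 : ℝ) 1 ×ˢ Icc (0 : ℝ) 1 ∧ F = ⋃ i ∈ I, G.map i '' F

/-- the grid with columns and rows exchanged -/
def Grid.swap (G : Grid m n) : Grid n m where
  u := G.v
  a := G.b
  v := G.u
  b := G.a
  a_pos := G.b_pos
  a_lt := G.b_lt
  b_pos := G.a_pos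
  b_lt := G.a_lt
  u_nonneg := G.v_nonneg
  u_le := G.v_le
  v_nonneg := G.u_nonneg
  v_le := G.u_le
  u_sep := G.v_sep
  v_sep := G.u_sep

/-- columns used -/
def cols (I : Finset (Fin m × Fin n)) : Finset (Fin m) := I.image Prod.fst

/-- rows used -/
def rows (I : Finset (Fin m × Fin n)) : Finset (Fin n) := I.image Prod.snd

/-- the rows of the cells in column `j` -/
def inCol (I : Finset (Fin m × Fin n)) (j : Fin m) : Finset (Fin n) :=
  Finset.univ.filter fun k => (j, k) ∈ I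

/-- the columns of the cells in row `k` -/
def inRow (I : Finset (Fin m × Fin n)) (k : Fin n) : Finset (Fin m) :=
  Finset.univ.filter fun j => (j, k) ∈ I

/-- `q` is a probability vector, positive exactly on `I`. -/
structure IsProb (I : Finset (Fin m × Fin n)) (q : Fin m × Fin n → ℝ) : Prop where
  pos : ∀ i ∈ I, 0 < q i
  zero : ∀ i, i ∉ I → q i = 0
  sum : ∑ i ∈ I, q i = 1

/-- column marginal -/
def qcol (q : Fin m × Fin n → ℝ) (j : Fin m) : ℝ := ∑ k, q (j, k)

/-- row marginal -/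
def qrow (q : Fin m × Fin n → ℝ) (k : Fin n) : ℝ := ∑ j, q (j, k)

/-- horizontal Lyapunov exponent for the widths `a` -/
noncomputable def lamA (I : Finset (Fin m × Fin n)) (a : Fin m → ℝ) (q : Fin m × Fin n → ℝ) : ℝ :=
  ∑ i ∈ I, q i * (-Real.log (a i.1))

/-- vertical Lyapunov exponent for the heights `b` -/
noncomputable def lamB (I : Finset (Fin m × Fin n)) (b : Fin n → ℝ) (q : Fin m × Fin n → ℝ) : ℝ :=
  ∑ i ∈ I, q i * (-Real.log (b i.2))

/-- entropy -/
noncomputable def ent (I : Finset (Fin m × Fin n)) (q : Fin m × Fin n → ℝ) : ℝ :=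
  ∑ i ∈ I, Real.negMulLog (q i)

/-- entropy of the column marginal -/
noncomputable def entA (q : Fin m × Fin n → ℝ) : ℝ := ∑ j : Fin m, Real.negMulLog (qcol q j)

/-- entropy of the row marginal -/
noncomputable def entB (q : Fin m × Fin n → ℝ) : ℝ := ∑ k : Fin n, Real.negMulLog (qrow q k)

/-! ### Codings -/

/-- product of the first `N` widths -/
def pa (G : Grid m n) (ω : ℕ → Fin m × Fin n) (N : ℕ) : ℝ := ∏ t ∈ Finset.range N, G.a (ω t).1

/-- product of the first `N` heights -/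
def pb (G : Grid m n) (ω : ℕ → Fin m × Fin n) (N : ℕ) : ℝ := ∏ t ∈ Finset.range N, G.b (ω t).2

/-- left end of the column interval of the first `N` digits -/
def pu (G : Grid m n) (ω : ℕ → Fin m × Fin n) (N : ℕ) : ℝ :=
  ∑ t ∈ Finset.range N, pa G ω t * G.u (ω t).1

/-- lower end of the row interval of the first `N` digits -/
def pv (G : Grid m n) (ω : ℕ → Fin m × Fin n) (N : ℕ) : ℝ :=
  ∑ t ∈ Finset.range N, pb G ω t * G.v (ω t).2

/-- the first time at which the width is at most `r` -/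
noncomputable def ka (G : Grid m n) (r : ℝ) (ω : ℕ → Fin m × Fin n) : ℕ := sInf {N | pa G ω N ≤ r}

/-- the first time at which the height is at most `r` -/
noncomputable def kb (G : Grid m n) (r : ℝ) (ω : ℕ → Fin m × Fin n) : ℕ := sInf {N | pb G ω N ≤ r}

/-- `ω` and `ω'` are in the same approximate square of side `r`. -/
def SameSq (G : Grid m n) (r : ℝ) (ω ω' : ℕ → Fin m × Fin n) : Prop :=
  (∀ t < ka G r ω, (ω' t).1 = (ω t).1) ∧ ∀ t < kb G r ω, (ω' t).2 = (ω t).2

/-- `π` is a coding of the attractor. -/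
structure IsCoding (G : Grid m n) (I : Finset (Fin m × Fin n)) (F : Set (ℝ × ℝ))
    (π : (ℕ → Fin m × Fin n) → ℝ × ℝ) : Prop where
  meas : Measurable π
  mem : ∀ ω, (∀ t, ω t ∈ I) → π ω ∈ F
  fst_mem : ∀ ω N, (π ω).1 ∈ Icc (pu G ω N) (pu G ω N + pa G ω N)
  snd_mem : ∀ ω N, (π ω).2 ∈ Icc (pv G ω N) (pv G ω N + pb G ω N)

/-- the measure with the weights `q` on the cells -/
noncomputable def wt (q : Fin m × Fin n → ℝ) : Measure (Fin m × Fin n) :=
  ∑ i, ENNReal.ofReal (q i) • Measure.dirac i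

/-- the Bernoulli measure on the codes -/
noncomputable def bern (q : Fin m × Fin n → ℝ) : Measure (ℕ → Fin m × Fin n) :=
  Measure.infinitePi fun _ : ℕ => wt q

end Pool.Agent.Q73.CM
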