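import Pool.Agent.H801R2.CX.Borsuk

/-!
# A union of disjoint closed discs accumulating at a point has connected complement
-/

set_option autoImplicit false

open Filter Topology Set Metric Complex

namespace Q73.CM

/-- there is a continuous logarithm of `z - q` on `K` -/
def HasLog (q : ℂ) (K : Set ℂ) : Prop := ∃ l : ℂ → ℂ, ContinuousOn l K ∧ ∀ z ∈ K, exp (l z) = z - q

lemma HasLog.mono {q : ℂ} {K K' : Set ℂ} (h : HasLog q K) (hK : K' ⊆ K) : HasLog q K' := by
  obtain ⟨l, h1, h2⟩ := h
  exact ⟨l, h1.mono hK, fun z hz => h2 z (hK hz)⟩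

lemma hasLog_ball {q c : ℂ} (hc : c ≠ q) : HasLog q (ball c ‖c - q‖) := by
  have hc0 : c - q ≠ 0 := sub_ne_zero.2 hc
  have hn : 0 < ‖c - q‖ := norm_pos_iff.2 hc0
  have hs : ∀ z ∈ ball c ‖c - q‖, 1 + (z - c) / (c - q) ∈ slitPlane := by
    intro z hz
    rw [mem_ball, dist_eq_norm] at hz
    have h1 : ‖(z - c) / (c - q)‖ < 1 := by
      rw [norm_div, div_lt_one hn]
      exact hz
    left
    have h2 := abs_re_le_norm ((z - c) / (c - q))
    have h3 := neg_abs_le ((z - c) / (c - q)).re
    rw [add_re, one_re]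
    linarith
  refine ⟨fun z => log (c - q) + log (1 + (z - c) / (c - q)), ?_, ?_⟩
  · refine continuousOn_const.add (ContinuousOn.clog ?_ hs)
    fun_prop
  · intro z hz
    rw [exp_add, exp_log hc0, exp_log (slitPlane_ne_zero (hs z hz))]
    field_simp
    ring

lemma HasLog.union {q P : ℂ} {A B : Set ℂ} (hA : IsClosed A) (hB : IsClosed B)
    (hAB : A ∩ B ⊆ {P}) (h1 : HasLog q A) (h2 : HasLog q B) : HasLog q (A ∪ B) := by
  classical
  obtain ⟨l, hl, hl'⟩ := h1
  obtain ⟨m, hm, hm'⟩ := h2
  obtain ⟨m, hm, hm', hag⟩ : ∃ m : ℂ → ℂ, ContinuousOn m B ∧ (∀ z ∈ B, exp (m z) = z - q) ∧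
      ∀ z ∈ A ∩ B, m z = l z := by
    by_cases hP : P ∈ A ∩ B
    · refine ⟨fun z => m z + (l P - m P), hm.add continuousOn_const, fun z hz => ?_,
        fun z hz => ?_⟩
      · have hPq : P - q ≠ 0 := by
          rw [← hl' P hP.1]
          exact exp_ne_zero _
        rw [exp_add, exp_sub, hm' z hz, hl' P hP.1, hm' P hP.2, div_self hPq, mul_one]
      · have : z = P := hAB hz
        subst this
        ring
    · refine ⟨m, hm, hm', fun z hz => ?_⟩
      have : z = P := hAB hz
      subst this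
      exact absurd hz hP
  refine ⟨fun z => if z ∈ A then l z else m z, ?_, ?_⟩
  · refine ContinuousOn.union_of_isClosed ?_ ?_ hA hB
    · exact hl.congr fun z hz => if_pos hz
    · refine hm.congr fun z hz => ?_
      by_cases hzA : z ∈ A
      · simp only [hzA, if_true]
        exact (hag z ⟨hzA, hz⟩).symm
      · simp only [hzA, if_false]
  · rintro z (hz | hz)
    · simp only [hz, if_true]
      exact hl' z hz
    · by_cases hzA : z ∈ A
      · simp only [hzA, if_true]
        exact hl' z hzA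
      · simp only [hzA, if_false]
        exact hm' z hz

variable (c : ℕ → ℂ) (r : ℕ → ℝ) (P : ℂ)

/-- the point and the discs with index at least `n` -/
def tl (n : ℕ) : Set ℂ := {P} ∪ ⋃ m ∈ Ici n, closedBall (c m) (r m)

lemma tl_succ (n : ℕ) : tl c r P n = closedBall (c n) (r n) ∪ tl c r P (n + 1) := by
  ext z
  simp only [tl, mem_union, mem_singleton_iff, mem_iUnion, mem_Ici, exists_prop]
  constructor
  · rintro (h | ⟨m, hm, hz⟩)
    · exact Or.inr (Or.inl h)
    · rcases eq_or_lt_of_le hm with h | h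
      · subst h
        exact Or.inl hz
      · exact Or.inr (Or.inr ⟨m, h, hz⟩)
  · rintro (h | h | ⟨m, hm, hz⟩)
    · exact Or.inr ⟨n, le_rfl, h⟩
    · exact Or.inl h
    · exact Or.inr ⟨m, (Nat.le_succ n).trans hm, hz⟩

variable {c r P}

lemma tl_sub {ε : ℝ} (hε : 0 ≤ ε) {n : ℕ} (h : ∀ m ≥ n, ∀ z ∈ closedBall (c m) (r m), dist z P ≤ ε) :
    tl c r P n ⊆ closedBall P ε := by
  rintro z (hz | hz)
  · rw [mem_singleton_iff.1 hz]
    exact mem_closedBall_self hε
  · simp only [mem_iUnion, mem_Ici, exists_prop] at hz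
    obtain ⟨m, hm, hz⟩ := hz
    exact h m hm z hz

lemma tl_closed (hP : ∀ ε : ℝ, 0 < ε → ∃ N : ℕ, ∀ n ≥ N, ∀ z ∈ closedBall (c n) (r n),
    dist z P < ε) (n : ℕ) : IsClosed (tl c r P n) := by
  have key : ∀ N n : ℕ, tl c r P n ⊆ (⋃ m ∈ Finset.range N, closedBall (c m) (r m)) ∪
      tl c r P (max N n) := by
    intro N n z hz
    rcases hz with hz | hz
    · exact Or.inr (Or.inl hz)
    · simp only [mem_iUnion, mem_Ici, exists_prop] at hz
      obtain ⟨m, hm, hz⟩ := hz
      by_cases hmN : m < N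
      · left
        simp only [mem_iUnion, Finset.mem_range, exists_prop]
        exact ⟨m, hmN, hz⟩
      · right
        right
        simp only [mem_iUnion, mem_Ici, exists_prop]
        exact ⟨m, max_le (not_lt.1 hmN) hm, hz⟩
  rw [← isOpen_compl_iff, isOpen_iff_mem_nhds]
  intro x hx
  have hxP : x ≠ P := fun h => hx (Or.inl h)
  have hd : 0 < dist x P := dist_pos.2 hxP
  obtain ⟨N, hN⟩ := hP (dist x P / 2) (by positivity)
  set F : Set ℂ := (⋃ m ∈ (Finset.range N).filter (fun m => n ≤ m), closedBall (c m) (r m)) ∪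
    closedBall P (dist x P / 2) with hF
  have hFc : IsClosed F := by
    refine IsClosed.union ?_ isClosed_closedBall
    exact Set.Finite.isClosed_biUnion (Finset.finite_toSet _) fun m _ => isClosed_closedBall
  have hxF : x ∉ F := by
    rintro (h | h)
    · simp only [mem_iUnion, Finset.mem_filter, Finset.mem_range, exists_prop] at h
      obtain ⟨m, ⟨_, hm⟩, hz⟩ := h
      apply hx
      right
      simp only [mem_iUnion, mem_Ici, exists_prop]
      exact ⟨m, hm, hz⟩
    · rw [mem_closedBall] at h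
      linarith
  refine mem_of_superset (hFc.isOpen_compl.mem_nhds hxF) (compl_subset_compl.2 ?_)
  rintro z (hz | hz)
  · right
    rw [mem_singleton_iff.1 hz]
    exact mem_closedBall_self (by positivity)
  · simp only [mem_iUnion, mem_Ici, exists_prop] at hz
    obtain ⟨m, hm, hz⟩ := hz
    by_cases hmN : m < N
    · left
      simp only [mem_iUnion, Finset.mem_filter, Finset.mem_range, exists_prop]
      exact ⟨m, ⟨hmN, hm⟩, hz⟩
    · right
      rw [mem_closedBall]
      exact (hN m (not_lt.1 hmN) z hz).le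

lemma tl_bdd (hP : ∀ ε : ℝ, 0 < ε → ∃ N : ℕ, ∀ n ≥ N, ∀ z ∈ closedBall (c n) (r n),
    dist z P < ε) : Bornology.IsBounded (tl c r P 0) := by
  obtain ⟨N, hN⟩ := hP 1 one_pos
  have h1 : ∀ n : ℕ, Bornology.IsBounded (tl c r P n) → Bornology.IsBounded (tl c r P 0) := by
    intro n
    induction n with
    | zero => exact id
    | succ n ih =>
      intro h
      apply ih
      rw [tl_succ]
      exact isBounded_closedBall.union h
  refine h1 N (isBounded_closedBall.subset (tl_sub (zero_le_one) fun m hm z hz => (hN m hm z hz).le))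

theorem tl_compact (hP : ∀ ε : ℝ, 0 < ε → ∃ N : ℕ, ∀ n ≥ N, ∀ z ∈ closedBall (c n) (r n),
    dist z P < ε) : IsCompact (tl c r P 0) :=
  isCompact_of_isClosed_isBounded (tl_closed hP 0) (tl_bdd hP)

theorem tl_conn (hr : ∀ n, 0 < r n)
    (hd : ∀ m n, m ≠ n → Disjoint (closedBall (c m) (r m)) (closedBall (c n) (r n)))
    (hP : ∀ ε : ℝ, 0 < ε → ∃ N : ℕ, ∀ n ≥ N, ∀ z ∈ closedBall (c n) (r n), dist z P < ε) :
    IsConnected (tl c r P 0)ᶜ := by
  refine Pool.Agent.H801R2.CX.borsuk (tl_compact hP) fun q hq => ?_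
  show HasLog q (tl c r P 0)
  have hPq : P ≠ q := fun h => hq (Or.inl h.symm)
  have hn : 0 < ‖P - q‖ := norm_pos_iff.2 (sub_ne_zero.2 hPq)
  obtain ⟨N, hN⟩ := hP (‖P - q‖ / 2) (by positivity)
  have h0 : HasLog q (tl c r P N) := by
    refine (hasLog_ball hPq).mono ((tl_sub (by positivity) fun m hm z hz =>
      (hN m hm z hz).le).trans (closedBall_subset_ball (by linarith)))
  have h1 : ∀ n : ℕ, HasLog q (tl c r P n) → HasLog q (tl c r P 0) := by
    intro n
    induction n with
    | zero => exact id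
    | succ n ih =>
      intro h
      apply ih
      have hqn : q ∉ closedBall (c n) (r n) := by
        intro h2
        apply hq
        right
        simp only [mem_iUnion, mem_Ici, exists_prop]
        exact ⟨n, Nat.zero_le n, h2⟩
      rw [mem_closedBall, not_le, dist_comm, dist_eq_norm] at hqn
      have hcq : c n ≠ q := by
        intro h2
        rw [h2, sub_self, norm_zero] at hqn
        exact absurd (hr n) (not_lt.2 hqn.le)
      rw [tl_succ]
      refine HasLog.union (P := P) isClosed_closedBall (tl_closed hP (n + 1)) ?_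
        ((hasLog_ball hcq).mono (closedBall_subset_ball hqn)) h
      rintro z ⟨hz1, hz2⟩
      rcases hz2 with hz2 | hz2
      · exact hz2
      · simp only [mem_iUnion, mem_Ici, exists_prop] at hz2
        obtain ⟨m, hm, hz2⟩ := hz2
        exact absurd hz2 (Set.disjoint_left.1 (hd n m (by omega)) hz1)
  exact h1 N h0

end Q73.CM
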