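import Pool.Agent.Q73.CM.Stm

/-! JOB CM-EX (helper278). -/

set_option autoImplicit false

namespace Pool.Agent.Q73.CM

open Set Filter Topology MeasureTheory

namespace EX

theorem root {ι : Type} (J : Finset ι) (c w : ι → ℝ) (hw : ∀ i ∈ J, 0 < w i ∧ w i < 1)
    (h1 : 1 ≤ ∑ i ∈ J, c i) : ∃ s : ℝ, 0 ≤ s ∧ ∑ i ∈ J, c i * w i ^ s = 1 := by
  have hc : ContinuousOn (fun s : ℝ => ∑ i ∈ J, c i * w i ^ s) univ := by
    apply continuousOn_finset_sum
    intro i hi
    exact (continuous_const.mul (Real.continuous_const_rpow (hw i hi).1.ne')).continuousOn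
  have ht : Tendsto (fun s : ℝ => ∑ i ∈ J, c i * w i ^ s) atTop (𝓝 0) := by
    have : (0 : ℝ) = ∑ i ∈ J, c i * 0 := by simp
    rw [this]
    apply tendsto_finset_sum
    intro i hi
    apply Tendsto.const_mul
    exact tendsto_rpow_atTop_of_base_lt_one (w i) (by linarith [(hw i hi).1]) (hw i hi).2
  have hev : ∀ᶠ s : ℝ in atTop, ∑ i ∈ J, c i * w i ^ s < 1 :=
    ht.eventually_lt_const one_pos
  obtain ⟨s₁, hs₁, hs₁'⟩ := (hev.and (eventually_ge_atTop 0)).exists
  have hiv := intermediate_value_Icc' hs₁' (hc.mono (subset_univ _))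
  have hmem : (1 : ℝ) ∈ Icc ((fun s : ℝ => ∑ i ∈ J, c i * w i ^ s) s₁)
      ((fun s : ℝ => ∑ i ∈ J, c i * w i ^ s) 0) := by
    refine ⟨hs₁.le, ?_⟩
    simp only [Real.rpow_zero, mul_one]
    exact h1
  obtain ⟨s, hs, hs'⟩ := hiv hmem
  exact ⟨s, hs.1, hs'⟩

theorem root1 {ι : Type} (J : Finset ι) (w : ι → ℝ) (hw : ∀ i ∈ J, 0 < w i ∧ w i < 1)
    (h1 : J.Nonempty) : ∃ s : ℝ, 0 ≤ s ∧ ∑ i ∈ J, w i ^ s = 1 := by
  obtain ⟨s, hs, hs'⟩ := root J (fun _ => 1) w hw (by
    simp only [Finset.sum_const, nsmul_eq_mul, mul_one]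
    have := h1.card_pos
    exact_mod_cast this)
  exact ⟨s, hs, by simpa using hs'⟩

theorem sum_image_le {ι κ : Type} [DecidableEq κ] (I : Finset ι) (g : ι → κ) (f : κ → ℝ)
    (hf : ∀ k, 0 ≤ f k) : ∑ k ∈ I.image g, f k ≤ ∑ i ∈ I, f (g i) := by
  rw [← Finset.sum_fiberwise_of_maps_to (s := I) (t := I.image g) (g := g)
    (fun i hi => Finset.mem_image_of_mem g hi) (fun i => f (g i))]
  refine Finset.sum_le_sum fun k hk => ?_
  obtain ⟨i, hi, rfl⟩ := Finset.mem_image.1 hk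
  have hmem : i ∈ I.filter (fun x => g x = g i) := Finset.mem_filter.2 ⟨hi, rfl⟩
  exact Finset.single_le_sum (f := fun x => f (g x)) (fun x _ => hf _) hmem

end EX

open EX in
theorem t_EX : S_EX := by
  intro m n I a b hI ha hb
  have hcols : (cols I).Nonempty := hI.image _
  have hrows : (rows I).Nonempty := hI.image _
  obtain ⟨s₁, h1, h1'⟩ := root1 (cols I) a (fun j _ => ha j) hcols
  obtain ⟨s₂, h2, h2'⟩ := root1 (rows I) b (fun j _ => hb j) hrows
  obtain ⟨τA, h3, h3'⟩ := root I (fun i => a i.1 ^ s₁) (fun i => b i.2) (fun i _ => hb i.2) (by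
    rw [← h1']
    exact sum_image_le I Prod.fst (fun j => a j ^ s₁) (fun j => Real.rpow_nonneg (ha j).1.le _))
  obtain ⟨τB, h4, h4'⟩ := root I (fun i => b i.2 ^ s₂) (fun i => a i.1) (fun i _ => ha i.1) (by
    rw [← h2']
    exact sum_image_le I Prod.snd (fun j => b j ^ s₂) (fun j => Real.rpow_nonneg (hb j).1.le _))
  have h5 : ∀ j, ∃ t : ℝ, j ∈ cols I → 0 ≤ t ∧ ∑ k ∈ inCol I j, b k ^ t = 1 := by
    intro j
    by_cases hj : j ∈ cols I
    · obtain ⟨i, hi, hij⟩ := Finset.mem_image.1 hj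
      have hne : (inCol I j).Nonempty := ⟨i.2, by
        unfold inCol
        rw [Finset.mem_filter]
        refine ⟨Finset.mem_univ _, ?_⟩
        rw [← hij]
        exact hi⟩
      obtain ⟨t, ht, ht'⟩ := root1 (inCol I j) b (fun k _ => hb k) hne
      exact ⟨t, fun _ => ⟨ht, ht'⟩⟩
    · exact ⟨0, fun h => absurd h hj⟩
  have h6 : ∀ k, ∃ t : ℝ, k ∈ rows I → 0 ≤ t ∧ ∑ j ∈ inRow I k, a j ^ t = 1 := by
    intro k
    by_cases hk : k ∈ rows I
    · obtain ⟨i, hi, hik⟩ := Finset.mem_image.1 hk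
      have hne : (inRow I k).Nonempty := ⟨i.1, by
        unfold inRow
        rw [Finset.mem_filter]
        refine ⟨Finset.mem_univ _, ?_⟩
        rw [← hik]
        exact hi⟩
      obtain ⟨t, ht, ht'⟩ := root1 (inRow I k) a (fun j _ => ha j) hne
      exact ⟨t, fun _ => ⟨ht, ht'⟩⟩
    · exact ⟨0, fun h => absurd h hk⟩
  choose t ht using h5
  choose t' ht' using h6
  exact ⟨s₁, s₂, τA, τB, t, t',
    { ne := hI
      a_pos := fun j => (ha j).1
      a_lt := fun j => (ha j).2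
      b_pos := fun j => (hb j).1
      b_lt := fun j => (hb j).2
      s₁_nonneg := h1
      s₂_nonneg := h2
      τA_nonneg := h3
      τB_nonneg := h4
      t_nonneg := fun j hj => (ht j hj).1
      t'_nonneg := fun k hk => (ht' k hk).1
      hs₁ := h1'
      hs₂ := h2'
      hτA := h3'
      hτB := h4'
      ht := fun j hj => (ht j hj).2
      ht' := fun k hk => (ht' k hk).2 }⟩

end Pool.Agent.Q73.CM
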