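import Pool.Agent.Q73.CM.Stm

/-! JOB CM-EXC (helper278). -/

set_option autoImplicit false

namespace Pool.Agent.Q73.CM

open Set Filter Topology MeasureTheory

namespace EXC

theorem cols_ex : cols exI = {0, 1} := by decide
theorem rows_ex : rows exI = {0, 1, 2} := by decide
theorem inRow1 : inRow exI 1 = {0, 1} := by decide
theorem inRow0 : inRow exI 0 = {0} := by decide

theorem A0 : exA 0 = 3 / 4 := rfl
theorem A1 : exA 1 = 1 / 4 := rfl
theorem B_ (k : Fin 3) : exB k = 1 / 3 := rfl

theorem sum_ex (f : Fin 2 × Fin 3 → ℝ) :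
    ∑ i ∈ exI, f i = f (0, 0) + (f (0, 1) + (f (1, 1) + f (1, 2))) := by
  unfold exI
  rw [Finset.sum_insert (by decide), Finset.sum_insert (by decide), Finset.sum_insert (by decide),
    Finset.sum_singleton]

noncomputable def q (i : Fin 2 × Fin 3) : ℝ := if i ∈ exI then exA i.1 / 2 else 0

theorem q00 : q (0, 0) = 3 / 8 := by
  unfold q; rw [if_pos (by decide), A0]; norm_num
theorem q01 : q (0, 1) = 3 / 8 := by
  unfold q; rw [if_pos (by decide), A0]; norm_num
theorem q02 : q (0, 2) = 0 := by
  unfold q; rw [if_neg (by decide)]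
theorem q10 : q (1, 0) = 0 := by
  unfold q; rw [if_neg (by decide)]
theorem q11 : q (1, 1) = 1 / 8 := by
  unfold q; rw [if_pos (by decide), A1]; norm_num
theorem q12 : q (1, 2) = 1 / 8 := by
  unfold q; rw [if_pos (by decide), A1]; norm_num

theorem l3pos : 0 < Real.log 3 := Real.log_pos (by norm_num)
theorem l2pos : 0 < Real.log 2 := Real.log_pos (by norm_num)

theorem l23 : 3 * Real.log 2 ≤ 2 * Real.log 3 := by
  have h1 : 3 * Real.log 2 = Real.log 8 := by
    rw [show (8 : ℝ) = 2 ^ 3 by norm_num, Real.log_pow]; norm_num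
  have h2 : 2 * Real.log 3 = Real.log 9 := by
    rw [show (9 : ℝ) = 3 ^ 2 by norm_num, Real.log_pow]; norm_num
  rw [h1, h2]
  exact Real.log_le_log (by norm_num) (by norm_num)

theorem l32 : Real.log 3 ≤ 2 * Real.log 2 := by
  have h2 : 2 * Real.log 2 = Real.log 4 := by
    rw [show (4 : ℝ) = 2 ^ 2 by norm_num, Real.log_pow]; norm_num
  rw [h2]
  exact Real.log_le_log (by norm_num) (by norm_num)

theorem l34 : Real.log (3 / 4) = Real.log 3 - 2 * Real.log 2 := by
  rw [Real.log_div (by norm_num) (by norm_num), show (4 : ℝ) = 2 ^ 2 by norm_num, Real.log_pow]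
  norm_num

theorem l14 : Real.log (1 / 4) = - (2 * Real.log 2) := by
  rw [Real.log_div (by norm_num) (by norm_num), show (4 : ℝ) = 2 ^ 2 by norm_num, Real.log_pow]
  norm_num

theorem l38 : Real.log (3 / 8) = Real.log 3 - 3 * Real.log 2 := by
  rw [Real.log_div (by norm_num) (by norm_num), show (8 : ℝ) = 2 ^ 3 by norm_num, Real.log_pow]
  norm_num

theorem l18 : Real.log (1 / 8) = - (3 * Real.log 2) := by
  rw [Real.log_div (by norm_num) (by norm_num), show (8 : ℝ) = 2 ^ 3 by norm_num, Real.log_pow]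
  norm_num

theorem l13 : Real.log (1 / 3) = - Real.log 3 := by
  rw [Real.log_div (by norm_num) (by norm_num)]
  norm_num

end EXC

open EXC in
theorem t_EXC : S_EXC := by
  intro d hd
  have h3 := l3pos
  have h2 := l2pos
  have d0 : 0 < d := by rw [hd]; exact div_pos h2 h3
  have d1 : d < 1 := by
    rw [hd, div_lt_one h3]
    exact Real.log_lt_log (by norm_num) (by norm_num)
  have dh : 1 / 2 ≤ d := by
    rw [hd, le_div_iff₀ h3]
    have := l32
    linarith
  have hd3 : d * Real.log 3 = Real.log 2 := by rw [hd]; field_simp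
  have hpow : (1 / 3 : ℝ) ^ d = 1 / 2 := by
    rw [Real.rpow_def_of_pos (by norm_num), l13]
    have : -Real.log 3 * d = - Real.log 2 := by linarith
    rw [this, Real.exp_neg, Real.exp_log (by norm_num)]
    norm_num
  refine ⟨?_, ?_, ?_, ?_, ?_, ?_, ?_, ?_, ?_, ?_, d0, d1, ?_⟩
  · rw [cols_ex, Finset.sum_insert (by decide), Finset.sum_singleton, A0, A1]
    norm_num
  · rw [rows_ex, Finset.sum_insert (by decide), Finset.sum_insert (by decide),
      Finset.sum_singleton, B_, B_, B_]
    norm_num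
  · rw [sum_ex]
    simp only [A0, A1, B_, hpow, Real.rpow_one]
    norm_num
  · -- the intermediate value theorem
    have hc : ContinuousOn (fun τ : ℝ => ∑ i ∈ exI, exB i.2 ^ (1 : ℝ) * exA i.1 ^ τ) (Icc 0 d) := by
      have e : (fun τ : ℝ => ∑ i ∈ exI, exB i.2 ^ (1 : ℝ) * exA i.1 ^ τ) =
          fun τ : ℝ => 1 / 3 * (3 / 4 : ℝ) ^ τ + (1 / 3 * (3 / 4 : ℝ) ^ τ +
            (1 / 3 * (1 / 4 : ℝ) ^ τ + 1 / 3 * (1 / 4 : ℝ) ^ τ)) := by
        funext τ
        rw [sum_ex]
        simp only [A0, A1, B_, Real.rpow_one]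
      rw [e]
      apply Continuous.continuousOn
      have c1 : Continuous fun τ : ℝ => (3 / 4 : ℝ) ^ τ :=
        Real.continuous_const_rpow (by norm_num)
      have c2 : Continuous fun τ : ℝ => (1 / 4 : ℝ) ^ τ :=
        Real.continuous_const_rpow (by norm_num)
      fun_prop
    have hiv := intermediate_value_Icc' d0.le hc
    have hmem : (1 : ℝ) ∈ Icc ((fun τ : ℝ => ∑ i ∈ exI, exB i.2 ^ (1 : ℝ) * exA i.1 ^ τ) d)
        ((fun τ : ℝ => ∑ i ∈ exI, exB i.2 ^ (1 : ℝ) * exA i.1 ^ τ) 0) := by
      constructor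
      · simp only []
        rw [sum_ex]
        simp only [A0, A1, B_, Real.rpow_one]
        have e1 : (3 / 4 : ℝ) ^ d ≤ 9 / 10 := by
          have q1 : (3 / 4 : ℝ) ^ d ≤ (3 / 4 : ℝ) ^ (1 / 2 : ℝ) :=
            Real.rpow_le_rpow_of_exponent_ge (by norm_num) (by norm_num) dh
          have q2 : (3 / 4 : ℝ) ^ (1 / 2 : ℝ) ≤ 9 / 10 := by
            rw [← Real.sqrt_eq_rpow]
            rw [Real.sqrt_le_left (by norm_num)]
            norm_num
          linarith
        have e2 : (1 / 4 : ℝ) ^ d ≤ 1 / 2 := by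
          have q1 : (1 / 4 : ℝ) ^ d ≤ (1 / 4 : ℝ) ^ (1 / 2 : ℝ) :=
            Real.rpow_le_rpow_of_exponent_ge (by norm_num) (by norm_num) dh
          have q2 : (1 / 4 : ℝ) ^ (1 / 2 : ℝ) ≤ 1 / 2 := by
            rw [← Real.sqrt_eq_rpow]
            rw [Real.sqrt_le_left (by norm_num)]
            norm_num
          linarith
        linarith
      · simp only []
        rw [sum_ex]
        simp only [A0, A1, B_, Real.rpow_one, Real.rpow_zero]
        norm_num
    obtain ⟨τ, hτ, hτ'⟩ := hiv hmem
    exact ⟨τ, hτ.1, hτ.2, hτ'⟩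
  · rw [inRow1, Finset.sum_insert (by decide), Finset.sum_singleton, A0, A1]
    norm_num
  · rw [inRow0, Finset.sum_singleton, Real.rpow_zero]
  · rw [rows_ex]; decide
  · rw [rows_ex]; decide
  · rw [cols_ex]; decide
  · rw [rows_ex]; decide
  · have hA : lamA exI exA q = 2 * Real.log 2 - 3 / 4 * Real.log 3 := by
      unfold lamA
      rw [sum_ex]
      simp only [A0, A1, q00, q01, q11, q12, l34, l14]
      ring
    have hB : lamB exI exB q = Real.log 3 := by
      unfold lamB
      rw [sum_ex]
      simp only [B_, q00, q01, q11, q12, l13]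
      ring
    have hcol0 : qcol q 0 = 3 / 4 := by
      unfold qcol
      rw [Fin.sum_univ_three, q00, q01, q02]
      norm_num
    have hcol1 : qcol q 1 = 1 / 4 := by
      unfold qcol
      rw [Fin.sum_univ_three, q10, q11, q12]
      norm_num
    have hEA : entA q = 2 * Real.log 2 - 3 / 4 * Real.log 3 := by
      unfold entA
      rw [Fin.sum_univ_two, hcol0, hcol1]
      unfold Real.negMulLog
      rw [l34, l14]
      ring
    have hE : ent exI q = 3 * Real.log 2 - 3 / 4 * Real.log 3 := by
      unfold ent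
      rw [sum_ex]
      simp only [q00, q01, q11, q12]
      unfold Real.negMulLog
      rw [l38, l18]
      ring
    have hpos : 0 < 2 * Real.log 2 - 3 / 4 * Real.log 3 := by
      have := l32
      linarith
    refine ⟨q, ⟨?_, ?_, ?_⟩, ?_, ?_⟩
    · intro i hi
      unfold q
      rw [if_pos hi]
      have : 0 < exA i.1 := by
        obtain ⟨j, k⟩ := i
        fin_cases j
        · change 0 < exA 0
          rw [A0]; norm_num
        · change 0 < exA 1
          rw [A1]; norm_num
      linarith
    · intro i hi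
      unfold q
      rw [if_neg hi]
    · rw [sum_ex, q00, q01, q11, q12]
      norm_num
    · rw [hA, hB]
      have := l23
      linarith
    · rw [hEA, hA, hB, hE, div_self hpos.ne']
      rw [hd]
      congr 1
      congr 1
      ring

end Pool.Agent.Q73.CM
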