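import Pool.Agent.Q73.CM.FIN2

set_option autoImplicit false

namespace Pool.Agent.Q73.CM

open Set Filter Topology MeasureTheory

namespace FIN0

open FIN2

variable {m n : ℕ} {I : Finset (Fin m × Fin n)} {a : Fin m → ℝ} {b : Fin n → ℝ}

theorem pow_eq_one {x s : ℝ} (h0 : 0 < x) (h1 : x < 1) (hs : 0 ≤ s) (h : x ^ s = 1) : s = 0 := by
  by_contra hne
  have h2 : 0 < s := lt_of_le_of_ne hs (Ne.symm hne)
  have h3 := Real.rpow_lt_one h0.le h1 h2
  rw [h] at h3
  exact lt_irrefl _ h3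

theorem core {s₁ s₂ τA τB : ℝ} {t : Fin m → ℝ} {t' : Fin n → ℝ} {dH : ℝ}
    (hd : Dims I a b s₁ s₂ τA τB t t') (hH : HausLower I a b dH) (hcard : (cols I).card = 1) :
    s₁ + τA ≤ dH ∧ s₂ + τB ≤ dH := by
  have ha : ∀ j, 0 < a j ∧ a j < 1 := fun j => ⟨hd.a_pos j, hd.a_lt j⟩
  have hb : ∀ k, 0 < b k ∧ b k < 1 := fun k => ⟨hd.b_pos k, hd.b_lt k⟩
  obtain ⟨j₀, hj₀⟩ := Finset.card_eq_one.mp hcard
  have hcol : ∀ j k, (j, k) ∈ I → j = j₀ := by
    intro j k h
    have h1 : j ∈ cols I := mem_cols.mpr ⟨k, h⟩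
    rw [hj₀] at h1
    exact Finset.mem_singleton.mp h1
  have hs1 : s₁ = 0 := by
    have h1 := hd.hs₁
    rw [hj₀, Finset.sum_singleton] at h1
    exact pow_eq_one (ha _).1 (ha _).2 hd.s₁_nonneg h1
  have hinCol : inCol I j₀ = rows I := by
    ext k
    rw [mem_inCol, mem_rows]
    constructor
    · intro h
      exact ⟨j₀, h⟩
    · rintro ⟨j, h⟩
      have h1 := hcol j k h
      rwa [h1] at h
  have hinRow : ∀ k ∈ rows I, inRow I k = {j₀} := by
    intro k hk
    ext j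
    rw [mem_inRow, Finset.mem_singleton]
    constructor
    · intro h
      exact hcol j k h
    · rintro rfl
      obtain ⟨j', h⟩ := mem_rows.mp hk
      have h1 := hcol j' k h
      rwa [h1] at h
  have hrne : (rows I).Nonempty := by
    obtain ⟨⟨j, k⟩, h⟩ := hd.ne
    exact ⟨k, mem_rows.mpr ⟨j, h⟩⟩
  have hτA : τA = s₂ := by
    have h1 := hd.hτA
    rw [sum_cols, hj₀, Finset.sum_singleton, hinCol] at h1
    have h2 : ∑ k ∈ rows I, b k ^ τA = 1 := by
      rw [← h1]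
      refine Finset.sum_congr rfl fun k _ => ?_
      rw [hs1, Real.rpow_zero, one_mul]
    rcases lt_trichotomy τA s₂ with h | h | h
    · have h3 := sum_pow_lt (rows I) hrne b hb h
      rw [h2, hd.hs₂] at h3
      exact absurd h3 (lt_irrefl _)
    · exact h
    · have h3 := sum_pow_lt (rows I) hrne b hb h
      rw [h2, hd.hs₂] at h3
      exact absurd h3 (lt_irrefl _)
  have hτB : τB = 0 := by
    have h1 := hd.hτB
    rw [sum_rows] at h1
    have h2 : ∑ k ∈ rows I, ∑ j ∈ inRow I k, b (j, k).2 ^ s₂ * a (j, k).1 ^ τB =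
        (∑ k ∈ rows I, b k ^ s₂) * a j₀ ^ τB := by
      rw [Finset.sum_mul]
      refine Finset.sum_congr rfl fun k hk => ?_
      rw [hinRow k hk, Finset.sum_singleton]
    rw [h2, hd.hs₂, one_mul] at h1
    exact pow_eq_one (ha _).1 (ha _).2 hd.τB_nonneg h1
  have hF : ∀ k ∈ rows I, ∑ j ∈ inRow I k, a j ^ τB = 1 := by
    intro k hk
    rw [hinRow k hk, Finset.sum_singleton, hτB, Real.rpow_zero]
  have hG : ∀ j ∈ cols I, ∑ k ∈ inCol I j, b k ^ s₂ = 1 := by
    intro j hj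
    rw [hj₀, Finset.mem_singleton] at hj
    rw [hj, hinCol, hd.hs₂]
  have hlow : s₂ + τB ≤ dH := by
    apply low hd.ne ha hb hd.hτB hF hH
    rcases le_total (lamB I b (qq I a b s₂ τB)) (lamA I a (qq I a b s₂ τB)) with h | h
    · exact Or.inl h
    · exact Or.inr ⟨h, hG⟩
  refine ⟨?_, hlow⟩
  rw [hs1, hτA]
  rw [hτB] at hlow
  linarith

end FIN0

theorem t_FIN0 : S_FIN0 := by
  intro m n I a b s₁ s₂ τA τB t t' dH hd hH hcard
  rcases hcard with h | h
  · exact FIN0.core hd hH h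
  · have h1 := FIN0.core (FIN2.dims_swap hd) (FIN2.haus_swap hH) (by rw [FIN2.cols_swap]; exact h)
    exact ⟨h1.2, h1.1⟩

end Pool.Agent.Q73.CM
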