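import Pool.Agent.Q73.CM.Stm

/-!
# Mixed-type carpets: job FIN1 (project CM, MP_0a98f6_an)
-/

set_option autoImplicit false

namespace Pool.Agent.Q73.CM.FIN1

open Set Filter Topology MeasureTheory

variable {m n : ℕ}

lemma mem_cols {I : Finset (Fin m × Fin n)} {i : Fin m × Fin n} (h : i ∈ I) : i.1 ∈ cols I :=
  Finset.mem_image_of_mem _ h

lemma mem_rows {I : Finset (Fin m × Fin n)} {i : Fin m × Fin n} (h : i ∈ I) : i.2 ∈ rows I :=
  Finset.mem_image_of_mem _ h

lemma sum_col (I : Finset (Fin m × Fin n)) (f : Fin m × Fin n → ℝ) :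
    ∑ i ∈ I, f i = ∑ j ∈ cols I, ∑ k ∈ inCol I j, f (j, k) := by
  apply Finset.sum_finset_product
  intro p
  constructor
  · intro h
    exact ⟨mem_cols h, by simp [inCol, h]⟩
  · rintro ⟨_, h⟩
    simpa [inCol] using h

lemma sum_row (I : Finset (Fin m × Fin n)) (f : Fin m × Fin n → ℝ) :
    ∑ i ∈ I, f i = ∑ k ∈ rows I, ∑ j ∈ inRow I k, f (j, k) := by
  apply Finset.sum_finset_product_right
  intro p
  constructor
  · intro h
    exact ⟨mem_rows h, by simp [inRow, h]⟩
  · rintro ⟨_, h⟩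
    simpa [inRow] using h

/-- the measure of the columns -/
noncomputable def pw (I : Finset (Fin m × Fin n)) (a : Fin m → ℝ) (b : Fin n → ℝ) (s : ℝ)
    (t : Fin m → ℝ) : Fin m × Fin n → ℝ :=
  fun i => if i ∈ I then a i.1 ^ s * b i.2 ^ t i.1 else 0

/-- the measure of the rows -/
noncomputable def pw' (I : Finset (Fin m × Fin n)) (a : Fin m → ℝ) (b : Fin n → ℝ) (s : ℝ)
    (t : Fin n → ℝ) : Fin m × Fin n → ℝ :=
  fun i => if i ∈ I then b i.2 ^ s * a i.1 ^ t i.2 else 0

lemma pw_prob (I : Finset (Fin m × Fin n)) (a : Fin m → ℝ) (b : Fin n → ℝ) (s : ℝ)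
    (t : Fin m → ℝ) (ha : ∀ j, 0 < a j) (hb : ∀ k, 0 < b k) (hs : ∑ j ∈ cols I, a j ^ s = 1)
    (ht : ∀ j ∈ cols I, ∑ k ∈ inCol I j, b k ^ t j = 1) : IsProb I (pw I a b s t) := by
  refine ⟨fun i hi => ?_, fun i hi => ?_, ?_⟩
  · simp only [pw, if_pos hi]
    exact mul_pos (Real.rpow_pos_of_pos (ha _) _) (Real.rpow_pos_of_pos (hb _) _)
  · simp only [pw, if_neg hi]
  · have h1 : ∑ i ∈ I, pw I a b s t i = ∑ i ∈ I, a i.1 ^ s * b i.2 ^ t i.1 :=
      Finset.sum_congr rfl fun i hi => by simp only [pw, if_pos hi]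
    rw [h1, sum_col, ← hs]
    refine Finset.sum_congr rfl fun j hj => ?_
    dsimp only
    rw [← Finset.mul_sum, ht j hj, mul_one]

lemma pw'_prob (I : Finset (Fin m × Fin n)) (a : Fin m → ℝ) (b : Fin n → ℝ) (s : ℝ)
    (t : Fin n → ℝ) (ha : ∀ j, 0 < a j) (hb : ∀ k, 0 < b k) (hs : ∑ k ∈ rows I, b k ^ s = 1)
    (ht : ∀ k ∈ rows I, ∑ j ∈ inRow I k, a j ^ t k = 1) : IsProb I (pw' I a b s t) := by
  refine ⟨fun i hi => ?_, fun i hi => ?_, ?_⟩
  · simp only [pw', if_pos hi]
    exact mul_pos (Real.rpow_pos_of_pos (hb _) _) (Real.rpow_pos_of_pos (ha _) _)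
  · simp only [pw', if_neg hi]
  · have h1 : ∑ i ∈ I, pw' I a b s t i = ∑ i ∈ I, b i.2 ^ s * a i.1 ^ t i.2 :=
      Finset.sum_congr rfl fun i hi => by simp only [pw', if_pos hi]
    rw [h1, sum_row, ← hs]
    refine Finset.sum_congr rfl fun j hj => ?_
    dsimp only
    rw [← Finset.mul_sum, ht j hj, mul_one]

lemma qcol_pw (I : Finset (Fin m × Fin n)) (a : Fin m → ℝ) (b : Fin n → ℝ) (s : ℝ)
    (t : Fin m → ℝ) (ht : ∀ j ∈ cols I, ∑ k ∈ inCol I j, b k ^ t j = 1) (j : Fin m) :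
    qcol (pw I a b s t) j = if j ∈ cols I then a j ^ s else 0 := by
  unfold qcol
  by_cases hj : j ∈ cols I
  · rw [if_pos hj]
    have h1 : ∑ k, pw I a b s t (j, k) = ∑ k ∈ inCol I j, a j ^ s * b k ^ t j := by
      simp only [pw, inCol, Finset.sum_filter]
    rw [h1, ← Finset.mul_sum, ht j hj, mul_one]
  · rw [if_neg hj]
    refine Finset.sum_eq_zero fun k _ => ?_
    have : (j, k) ∉ I := fun h => hj (mem_cols h)
    simp only [pw, if_neg this]

lemma qrow_pw (I : Finset (Fin m × Fin n)) (a : Fin m → ℝ) (b : Fin n → ℝ) (s : ℝ)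
    (t : Fin n → ℝ) (ht : ∀ k ∈ rows I, ∑ j ∈ inRow I k, a j ^ t k = 1) (k : Fin n) :
    qrow (pw' I a b s t) k = if k ∈ rows I then b k ^ s else 0 := by
  unfold qrow
  by_cases hk : k ∈ rows I
  · rw [if_pos hk]
    have h1 : ∑ j, pw' I a b s t (j, k) = ∑ j ∈ inRow I k, b k ^ s * a j ^ t k := by
      simp only [pw', inRow, Finset.sum_filter]
    rw [h1, ← Finset.mul_sum, ht k hk, mul_one]
  · rw [if_neg hk]
    refine Finset.sum_eq_zero fun j _ => ?_
    have : (j, k) ∉ I := fun h => hk (mem_rows h)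
    simp only [pw', if_neg this]

lemma entA_pw (I : Finset (Fin m × Fin n)) (a : Fin m → ℝ) (b : Fin n → ℝ) (s : ℝ)
    (t : Fin m → ℝ) (ha : ∀ j, 0 < a j)
    (ht : ∀ j ∈ cols I, ∑ k ∈ inCol I j, b k ^ t j = 1) :
    entA (pw I a b s t) = s * lamA I a (pw I a b s t) := by
  have h1 : entA (pw I a b s t) = ∑ j ∈ cols I, a j ^ s * (s * (-Real.log (a j))) := by
    unfold entA
    have : ∀ j : Fin m, Real.negMulLog (qcol (pw I a b s t) j)
        = if j ∈ cols I then a j ^ s * (s * (-Real.log (a j))) else 0 := by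
      intro j
      rw [qcol_pw I a b s t ht j]
      split_ifs
      · rw [Real.negMulLog, Real.log_rpow (ha j)]
        ring
      · simp
    simp only [this]
    rw [Finset.sum_ite_mem, Finset.univ_inter]
  have h2 : lamA I a (pw I a b s t) = ∑ j ∈ cols I, a j ^ s * (-Real.log (a j)) := by
    unfold lamA
    have : ∑ i ∈ I, pw I a b s t i * (-Real.log (a i.1))
        = ∑ i ∈ I, (a i.1 ^ s * (-Real.log (a i.1))) * b i.2 ^ t i.1 :=
      Finset.sum_congr rfl fun i hi => by simp only [pw, if_pos hi]; ring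
    rw [this, sum_col]
    refine Finset.sum_congr rfl fun j hj => ?_
    dsimp only
    rw [← Finset.mul_sum, ht j hj, mul_one]
  rw [h1, h2, Finset.mul_sum]
  exact Finset.sum_congr rfl fun j _ => by ring

lemma entB_pw (I : Finset (Fin m × Fin n)) (a : Fin m → ℝ) (b : Fin n → ℝ) (s : ℝ)
    (t : Fin n → ℝ) (hb : ∀ k, 0 < b k)
    (ht : ∀ k ∈ rows I, ∑ j ∈ inRow I k, a j ^ t k = 1) :
    entB (pw' I a b s t) = s * lamB I b (pw' I a b s t) := by
  have h1 : entB (pw' I a b s t) = ∑ k ∈ rows I, b k ^ s * (s * (-Real.log (b k))) := by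
    unfold entB
    have : ∀ k : Fin n, Real.negMulLog (qrow (pw' I a b s t) k)
        = if k ∈ rows I then b k ^ s * (s * (-Real.log (b k))) else 0 := by
      intro k
      rw [qrow_pw I a b s t ht k]
      split_ifs
      · rw [Real.negMulLog, Real.log_rpow (hb k)]
        ring
      · simp
    simp only [this]
    rw [Finset.sum_ite_mem, Finset.univ_inter]
  have h2 : lamB I b (pw' I a b s t) = ∑ k ∈ rows I, b k ^ s * (-Real.log (b k)) := by
    unfold lamB
    have : ∑ i ∈ I, pw' I a b s t i * (-Real.log (b i.2))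
        = ∑ i ∈ I, (b i.2 ^ s * (-Real.log (b i.2))) * a i.1 ^ t i.2 :=
      Finset.sum_congr rfl fun i hi => by simp only [pw', if_pos hi]; ring
    rw [this, sum_row]
    refine Finset.sum_congr rfl fun k hk => ?_
    dsimp only
    rw [← Finset.mul_sum, ht k hk, mul_one]
  rw [h1, h2, Finset.mul_sum]
  exact Finset.sum_congr rfl fun j _ => by ring

lemma ent_pw (I : Finset (Fin m × Fin n)) (a : Fin m → ℝ) (b : Fin n → ℝ) (s : ℝ)
    (t : Fin m → ℝ) (ha : ∀ j, 0 < a j) (hb : ∀ k, 0 < b k) :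
    ent I (pw I a b s t) = s * lamA I a (pw I a b s t)
      + ∑ i ∈ I, (pw I a b s t i * (-Real.log (b i.2))) * t i.1 := by
  unfold ent lamA
  rw [Finset.mul_sum, ← Finset.sum_add_distrib]
  refine Finset.sum_congr rfl fun i hi => ?_
  simp only [pw, if_pos hi]
  rw [Real.negMulLog, Real.log_mul (Real.rpow_pos_of_pos (ha _) _).ne'
    (Real.rpow_pos_of_pos (hb _) _).ne', Real.log_rpow (ha _), Real.log_rpow (hb _)]
  ring

lemma ent_pw' (I : Finset (Fin m × Fin n)) (a : Fin m → ℝ) (b : Fin n → ℝ) (s : ℝ)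
    (t : Fin n → ℝ) (ha : ∀ j, 0 < a j) (hb : ∀ k, 0 < b k) :
    ent I (pw' I a b s t) = s * lamB I b (pw' I a b s t)
      + ∑ i ∈ I, (pw' I a b s t i * (-Real.log (a i.1))) * t i.2 := by
  unfold ent lamB
  rw [Finset.mul_sum, ← Finset.sum_add_distrib]
  refine Finset.sum_congr rfl fun i hi => ?_
  simp only [pw', if_pos hi]
  rw [Real.negMulLog, Real.log_mul (Real.rpow_pos_of_pos (hb _) _).ne'
    (Real.rpow_pos_of_pos (ha _) _).ne', Real.log_rpow (ha _), Real.log_rpow (hb _)]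
  ring

/-- Gibbs' inequality -/
lemma gibbs (I : Finset (Fin m × Fin n)) (p q : Fin m × Fin n → ℝ) (hp : IsProb I p)
    (hq : IsProb I q) : ent I q ≤ ∑ i ∈ I, q i * (-Real.log (p i)) := by
  have h1 : ∀ i ∈ I, Real.negMulLog (q i) ≤ q i * (-Real.log (p i)) + (p i - q i) := by
    intro i hi
    have hpi := hp.pos i hi
    have hqi := hq.pos i hi
    have h2 := Real.log_le_sub_one_of_pos (div_pos hpi hqi)
    rw [Real.log_div hpi.ne' hqi.ne'] at h2
    have h3 := mul_le_mul_of_nonneg_left h2 hqi.le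
    have h4 : q i * (p i / q i - 1) = p i - q i := by
      field_simp
    rw [h4] at h3
    rw [Real.negMulLog]
    linarith
  have h5 := Finset.sum_le_sum h1
  rw [Finset.sum_add_distrib, Finset.sum_sub_distrib, hp.sum, hq.sum] at h5
  unfold ent
  linarith

lemma lamA_pos (I : Finset (Fin m × Fin n)) (a : Fin m → ℝ) (q : Fin m × Fin n → ℝ)
    (hI : I.Nonempty) (hq : IsProb I q) (ha : ∀ j, 0 < a j) (ha1 : ∀ j, a j < 1) :
    0 < lamA I a q :=
  Finset.sum_pos (fun i hi => mul_pos (hq.pos i hi)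
    (neg_pos.2 (Real.log_neg (ha _) (ha1 _)))) hI

lemma lamB_pos (I : Finset (Fin m × Fin n)) (b : Fin n → ℝ) (q : Fin m × Fin n → ℝ)
    (hI : I.Nonempty) (hq : IsProb I q) (hb : ∀ j, 0 < b j) (hb1 : ∀ j, b j < 1) :
    0 < lamB I b q :=
  Finset.sum_pos (fun i hi => mul_pos (hq.pos i hi)
    (neg_pos.2 (Real.log_neg (hb _) (hb1 _)))) hI

/-- a sum over the cells is at most the sum over the full product -/
lemma sum_le_one (I : Finset (Fin m × Fin n)) (x : Fin m → ℝ) (y : Fin n → ℝ)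
    (hx : ∀ j, 0 < x j) (hy : ∀ k, 0 < y k) (h1 : ∑ j ∈ cols I, x j = 1)
    (h2 : ∑ k ∈ rows I, y k = 1) : ∑ i ∈ I, x i.1 * y i.2 ≤ 1 := by
  have h3 : ∑ i ∈ I, x i.1 * y i.2 ≤ ∑ i ∈ cols I ×ˢ rows I, x i.1 * y i.2 := by
    refine Finset.sum_le_sum_of_subset_of_nonneg (fun i hi => ?_)
      fun i _ _ => (mul_pos (hx _) (hy _)).le
    exact Finset.mem_product.2 ⟨mem_cols hi, mem_rows hi⟩
  refine h3.trans ?_
  rw [Finset.sum_product, ← Finset.sum_mul_sum, h1, h2, mul_one]

/-- `τA ≤ s₂` and `τB ≤ s₁` -/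
lemma tau_le {I : Finset (Fin m × Fin n)} {a : Fin m → ℝ} {b : Fin n → ℝ}
    {s₁ s₂ τA τB : ℝ} {t : Fin m → ℝ} {t' : Fin n → ℝ} (h : Dims I a b s₁ s₂ τA τB t t') :
    τA ≤ s₂ ∧ τB ≤ s₁ := by
  have hx : ∀ j, 0 < a j ^ s₁ := fun j => Real.rpow_pos_of_pos (h.a_pos j) _
  have hy : ∀ k, 0 < b k ^ s₂ := fun k => Real.rpow_pos_of_pos (h.b_pos k) _
  have h0 := sum_le_one I (fun j => a j ^ s₁) (fun k => b k ^ s₂) hx hy h.hs₁ h.hs₂
  constructor
  · by_contra hc
    push Not at hc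
    have h1 : ∑ i ∈ I, a i.1 ^ s₁ * b i.2 ^ τA < ∑ i ∈ I, a i.1 ^ s₁ * b i.2 ^ s₂ :=
      Finset.sum_lt_sum_of_nonempty h.ne fun i _ =>
        mul_lt_mul_of_pos_left
          (Real.rpow_lt_rpow_of_exponent_gt (h.b_pos _) (h.b_lt _) hc) (hx _)
    rw [h.hτA] at h1
    linarith
  · by_contra hc
    push Not at hc
    have h1 : ∑ i ∈ I, b i.2 ^ s₂ * a i.1 ^ τB < ∑ i ∈ I, a i.1 ^ s₁ * b i.2 ^ s₂ :=
      Finset.sum_lt_sum_of_nonempty h.ne fun i _ => by
        rw [mul_comm (a i.1 ^ s₁)]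
        exact mul_lt_mul_of_pos_left
          (Real.rpow_lt_rpow_of_exponent_gt (h.a_pos _) (h.a_lt _) hc) (hy _)
    rw [h.hτB] at h1
    linarith

/-- a weighted sum of numbers at least `c` which is at most `c` times the weights -/
lemma all_eq {ι : Type*} (I : Finset ι) (w x : ι → ℝ) (c : ℝ) (hw : ∀ i ∈ I, 0 < w i)
    (hx : ∀ i ∈ I, c ≤ x i) (h : ∑ i ∈ I, w i * x i ≤ c * ∑ i ∈ I, w i) :
    ∀ i ∈ I, x i = c := by
  have h1 : ∑ i ∈ I, w i * (x i - c) ≤ 0 := by
    have : ∑ i ∈ I, w i * (x i - c) = ∑ i ∈ I, w i * x i - c * ∑ i ∈ I, w i := by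
      rw [Finset.mul_sum, ← Finset.sum_sub_distrib]
      exact Finset.sum_congr rfl fun i _ => by ring
    rw [this]
    linarith
  have h2 : ∀ i ∈ I, 0 ≤ w i * (x i - c) := fun i hi =>
    mul_nonneg (hw i hi).le (sub_nonneg.2 (hx i hi))
  have h3 := (Finset.sum_eq_zero_iff_of_nonneg h2).1 (le_antisymm h1 (Finset.sum_nonneg h2))
  intro i hi
  have h4 := h3 i hi
  rcases mul_eq_zero.1 h4 with h5 | h5
  · exact absurd h5 (hw i hi).ne'
  · linarith

/-- lower bound of a weighted sum -/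
lemma sum_ge {ι : Type*} (I : Finset ι) (w x : ι → ℝ) (c : ℝ) (hw : ∀ i ∈ I, 0 < w i)
    (hx : ∀ i ∈ I, c ≤ x i) : c * ∑ i ∈ I, w i ≤ ∑ i ∈ I, w i * x i := by
  rw [Finset.mul_sum]
  refine Finset.sum_le_sum fun i hi => ?_
  rw [mul_comm]
  exact mul_le_mul_of_nonneg_left (hx i hi) (hw i hi).le

end Pool.Agent.Q73.CM.FIN1

namespace Pool.Agent.Q73.CM

open FIN1

theorem t_FIN1 : S_FIN1 := by
  intro m n I a b s₁ s₂ τA τB t t' dH hD hH hc1 hc2
  obtain ⟨hτ1, hτ2⟩ := tau_le hD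
  -- the two measures
  have hp := pw_prob I a b s₁ t hD.a_pos hD.b_pos hD.hs₁ hD.ht
  have hp' := pw'_prob I a b s₂ t' hD.a_pos hD.b_pos hD.hs₂ hD.ht'
  have hEA := entA_pw I a b s₁ t hD.a_pos hD.ht
  have hEB := entB_pw I a b s₂ t' hD.b_pos hD.ht'
  have hE := ent_pw I a b s₁ t hD.a_pos hD.b_pos
  have hE' := ent_pw' I a b s₂ t' hD.a_pos hD.b_pos
  have hHp := hH _ hp
  have hHp' := hH _ hp'
  have hgib := gibbs I _ _ hp hp'
  have hgib' := gibbs I _ _ hp' hp
  have hlogp : ∀ i ∈ I, Real.log (pw I a b s₁ t i)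
      = s₁ * Real.log (a i.1) + t i.1 * Real.log (b i.2) := by
    intro i hi
    simp only [pw, if_pos hi]
    rw [Real.log_mul (Real.rpow_pos_of_pos (hD.a_pos _) _).ne'
      (Real.rpow_pos_of_pos (hD.b_pos _) _).ne', Real.log_rpow (hD.a_pos _),
      Real.log_rpow (hD.b_pos _)]
  have hlogp' : ∀ i ∈ I, Real.log (pw' I a b s₂ t' i)
      = s₂ * Real.log (b i.2) + t' i.2 * Real.log (a i.1) := by
    intro i hi
    simp only [pw', if_pos hi]
    rw [Real.log_mul (Real.rpow_pos_of_pos (hD.b_pos _) _).ne'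
      (Real.rpow_pos_of_pos (hD.a_pos _) _).ne', Real.log_rpow (hD.b_pos _),
      Real.log_rpow (hD.a_pos _)]
  generalize hpdef : pw I a b s₁ t = p at *
  generalize hpdef' : pw' I a b s₂ t' = p' at *
  have hwb : ∀ i ∈ I, 0 < p i * (-Real.log (b i.2)) := fun i hi =>
    mul_pos (hp.pos i hi) (neg_pos.2 (Real.log_neg (hD.b_pos _) (hD.b_lt _)))
  have hwa : ∀ i ∈ I, 0 < p' i * (-Real.log (a i.1)) := fun i hi =>
    mul_pos (hp'.pos i hi) (neg_pos.2 (Real.log_neg (hD.a_pos _) (hD.a_lt _)))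
  have hxt : ∀ i ∈ I, dH - s₁ ≤ t i.1 := fun i hi => by
    have := hc1 _ (mem_cols hi)
    linarith
  have hxt' : ∀ i ∈ I, dH - s₂ ≤ t' i.2 := fun i hi => by
    have := hc2 _ (mem_rows hi)
    linarith
  have hge := sum_ge I (fun i => p i * (-Real.log (b i.2))) (fun i => t i.1) (dH - s₁) hwb hxt
  have hge' := sum_ge I (fun i => p' i * (-Real.log (a i.1))) (fun i => t' i.2) (dH - s₂)
    hwa hxt'
  have hBdef : ∑ i ∈ I, p i * (-Real.log (b i.2)) = lamB I b p := rfl
  have hAdef' : ∑ i ∈ I, p' i * (-Real.log (a i.1)) = lamA I a p' := rfl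
  rw [hBdef] at hge
  rw [hAdef'] at hge'
  have hLA := lamA_pos I a p hD.ne hp hD.a_pos hD.a_lt
  have hLB := lamB_pos I b p hD.ne hp hD.b_pos hD.b_lt
  have hLA' := lamA_pos I a p' hD.ne hp' hD.a_pos hD.a_lt
  have hLB' := lamB_pos I b p' hD.ne hp' hD.b_pos hD.b_lt
  -- case A
  have hA : lamA I a p ≤ lamB I b p → (∀ i ∈ I, t i.1 = dH - s₁) ∧ s₁ + τA ≤ dH := by
    intro hle
    have h1 := hHp.1 hle
    rw [hEA, hE, mul_div_assoc, div_self hLA.ne', mul_one, add_sub_cancel_left] at h1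
    have h2 : (∑ i ∈ I, p i * (-Real.log (b i.2)) * t i.1) / lamB I b p ≤ dH - s₁ := by
      linarith
    rw [div_le_iff₀ hLB] at h2
    have h3 := all_eq I (fun i => p i * (-Real.log (b i.2))) (fun i => t i.1) (dH - s₁)
      hwb hxt h2
    refine ⟨h3, ?_⟩
    by_contra hc
    push Not at hc
    have h4 : dH - s₁ < τA := by linarith
    have h5 : ∑ i ∈ I, a i.1 ^ s₁ * b i.2 ^ τA < ∑ i ∈ I, p i := by
      refine Finset.sum_lt_sum_of_nonempty hD.ne fun i hi => ?_
      rw [← hpdef]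
      simp only [pw, if_pos hi]
      rw [h3 i hi]
      exact mul_lt_mul_of_pos_left
          (Real.rpow_lt_rpow_of_exponent_gt (hD.b_pos _) (hD.b_lt _) h4)
          (Real.rpow_pos_of_pos (hD.a_pos _) _)
    rw [hD.hτA, hp.sum] at h5
    exact lt_irrefl _ h5
  have hA' : lamB I b p' ≤ lamA I a p' → (∀ i ∈ I, t' i.2 = dH - s₂) ∧ s₂ + τB ≤ dH := by
    intro hle
    have h1 := hHp'.2 hle
    rw [hEB, hE', mul_div_assoc, div_self hLB'.ne', mul_one, add_sub_cancel_left] at h1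
    have h2 : (∑ i ∈ I, p' i * (-Real.log (a i.1)) * t' i.2) / lamA I a p' ≤ dH - s₂ := by
      linarith
    rw [div_le_iff₀ hLA'] at h2
    have h3 := all_eq I (fun i => p' i * (-Real.log (a i.1))) (fun i => t' i.2) (dH - s₂)
      hwa hxt' h2
    refine ⟨h3, ?_⟩
    by_contra hc
    push Not at hc
    have h4 : dH - s₂ < τB := by linarith
    have h5 : ∑ i ∈ I, b i.2 ^ s₂ * a i.1 ^ τB < ∑ i ∈ I, p' i := by
      refine Finset.sum_lt_sum_of_nonempty hD.ne fun i hi => ?_
      rw [← hpdef']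
      simp only [pw', if_pos hi]
      rw [h3 i hi]
      exact mul_lt_mul_of_pos_left
          (Real.rpow_lt_rpow_of_exponent_gt (hD.a_pos _) (hD.a_lt _) h4)
          (Real.rpow_pos_of_pos (hD.b_pos _) _)
    rw [hD.hτB, hp'.sum] at h5
    exact lt_irrefl _ h5
  by_cases c1 : lamA I a p ≤ lamB I b p
  · by_cases c2 : lamB I b p' ≤ lamA I a p'
    · exact ⟨(hA c1).2, (hA' c2).2⟩
    · push Not at c2
      have h3 := (hA c1).1
      have h4 : ∑ i ∈ I, p' i * (-Real.log (p i))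
          = s₁ * lamA I a p' + (dH - s₁) * lamB I b p' := by
        unfold lamA lamB
        rw [Finset.mul_sum, Finset.mul_sum, ← Finset.sum_add_distrib]
        refine Finset.sum_congr rfl fun i hi => ?_
        rw [hlogp i hi, h3 i hi]
        ring
      rw [h4, hE'] at hgib
      have h5 : (s₁ + s₂ - dH) * (lamB I b p' - lamA I a p') ≤ 0 := by nlinarith
      have h6 : s₁ + s₂ - dH ≤ 0 := by
        by_contra hc
        push Not at hc
        have := mul_pos hc (sub_pos.2 c2)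
        linarith
      exact ⟨by linarith, by linarith⟩
  · push Not at c1
    by_cases c2 : lamB I b p' ≤ lamA I a p'
    · have h3 := (hA' c2).1
      have h4 : ∑ i ∈ I, p i * (-Real.log (p' i))
          = s₂ * lamB I b p + (dH - s₂) * lamA I a p := by
        unfold lamA lamB
        rw [Finset.mul_sum, Finset.mul_sum, ← Finset.sum_add_distrib]
        refine Finset.sum_congr rfl fun i hi => ?_
        rw [hlogp' i hi, h3 i hi]
        ring
      rw [h4, hE] at hgib'
      have h5 : (s₁ + s₂ - dH) * (lamA I a p - lamB I b p) ≤ 0 := by nlinarith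
      have h6 : s₁ + s₂ - dH ≤ 0 := by
        by_contra hc
        push Not at hc
        have := mul_pos hc (sub_pos.2 c1)
        linarith
      exact ⟨by linarith, by linarith⟩
    · push Not at c2
      -- the mixture
      have hd : 0 < lamA I a p - lamB I b p := sub_pos.2 c1
      have hd' : 0 < lamB I b p' - lamA I a p' := sub_pos.2 c2
      obtain ⟨α, hα⟩ : ∃ α : ℝ, α = (lamB I b p' - lamA I a p')
        / ((lamA I a p - lamB I b p) + (lamB I b p' - lamA I a p')) := ⟨_, rfl⟩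
      obtain ⟨β, hβ⟩ : ∃ β : ℝ, β = (lamA I a p - lamB I b p)
        / ((lamA I a p - lamB I b p) + (lamB I b p' - lamA I a p')) := ⟨_, rfl⟩
      have hα0 : 0 < α := by rw [hα]; positivity
      have hβ0 : 0 < β := by rw [hβ]; positivity
      have hαβ : α + β = 1 := by
        rw [hα, hβ, ← add_div, add_comm]
        exact div_self (by positivity)
      have hbal : α * (lamA I a p - lamB I b p) = β * (lamB I b p' - lamA I a p') := by
        rw [hα, hβ]
        ring
      obtain ⟨q, hqdef⟩ : ∃ q : Fin m × Fin n → ℝ, q = fun i => α * p i + β * p' i := ⟨_, rfl⟩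
      have hq : IsProb I q := by
        refine ⟨fun i hi => ?_, fun i hi => ?_, ?_⟩
        · rw [hqdef]
          exact add_pos (mul_pos hα0 (hp.pos i hi)) (mul_pos hβ0 (hp'.pos i hi))
        · rw [hqdef]
          dsimp only
          rw [hp.zero i hi, hp'.zero i hi]
          ring
        · rw [hqdef]
          dsimp only
          rw [Finset.sum_add_distrib, ← Finset.mul_sum, ← Finset.mul_sum, hp.sum, hp'.sum]
          linarith
      have hqA : lamA I a q = α * lamA I a p + β * lamA I a p' := by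
        unfold lamA
        rw [hqdef, Finset.mul_sum, Finset.mul_sum, ← Finset.sum_add_distrib]
        exact Finset.sum_congr rfl fun i _ => by ring
      have hqB : lamB I b q = α * lamB I b p + β * lamB I b p' := by
        unfold lamB
        rw [hqdef, Finset.mul_sum, Finset.mul_sum, ← Finset.sum_add_distrib]
        exact Finset.sum_congr rfl fun i _ => by ring
      have hqAB : lamA I a q = lamB I b q := by
        rw [hqA, hqB]
        linarith
      have hqE : α * ent I p + β * ent I p' ≤ ent I q := by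
        unfold ent
        rw [Finset.mul_sum, Finset.mul_sum, ← Finset.sum_add_distrib]
        refine Finset.sum_le_sum fun i hi => ?_
        have := Real.concaveOn_negMulLog.2 (hp.pos i hi).le (hp'.pos i hi).le hα0.le hβ0.le hαβ
        rw [hqdef]
        simpa [smul_eq_mul] using this
      have hLq := lamA_pos I a q hD.ne hq hD.a_pos hD.a_lt
      have h1 := (hH q hq).1 hqAB.le
      rw [← hqAB, ← add_div, add_sub_cancel, div_le_iff₀ hLq] at h1
      rw [hE, hE'] at hqE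
      have h2 := mul_le_mul_of_nonneg_left hge hα0.le
      have h3 := mul_le_mul_of_nonneg_left hge' hβ0.le
      have h5 : (s₁ + s₂ - dH) * (α * (lamA I a p - lamB I b p)) ≤ 0 := by
        rw [hqA] at h1
        have e1 : (s₁ + s₂ - dH) * (α * (lamA I a p - lamB I b p))
            = s₁ * (α * (lamA I a p - lamB I b p)) + s₂ * (β * (lamB I b p' - lamA I a p'))
              - dH * (α * (lamA I a p - lamB I b p)) := by
          rw [← hbal]
          ring
        rw [e1]
        linarith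
      have h6 : s₁ + s₂ - dH ≤ 0 := by
        by_contra hc
        push Not at hc
        have := mul_pos hc (mul_pos hα0 hd)
        linarith
      exact ⟨by linarith, by linarith⟩

end Pool.Agent.Q73.CM
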