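import Pool.Agent.Q73.CM.Stm

set_option autoImplicit false

namespace Pool.Agent.Q73.CM

open Set Filter Topology MeasureTheory

namespace FIN2

variable {m n : ℕ} {I : Finset (Fin m × Fin n)} {a : Fin m → ℝ} {b : Fin n → ℝ}

theorem mem_inRow {j : Fin m} {k : Fin n} : j ∈ inRow I k ↔ (j, k) ∈ I := by
  simp [inRow]

theorem mem_inCol {j : Fin m} {k : Fin n} : k ∈ inCol I j ↔ (j, k) ∈ I := by
  simp [inCol]

theorem mem_rows {k : Fin n} : k ∈ rows I ↔ ∃ j, (j, k) ∈ I := by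
  simp [rows]

theorem mem_cols {j : Fin m} : j ∈ cols I ↔ ∃ k, (j, k) ∈ I := by
  simp [cols]

theorem sum_rows (I : Finset (Fin m × Fin n)) (f : Fin m × Fin n → ℝ) :
    ∑ i ∈ I, f i = ∑ k ∈ rows I, ∑ j ∈ inRow I k, f (j, k) := by
  have h1 : ∑ i ∈ I, f i = ∑ i, if i ∈ I then f i else 0 := by
    rw [Finset.sum_ite_mem, Finset.univ_inter]
  rw [h1, Fintype.sum_prod_type_right]
  have h2 : ∀ k, (∑ j, if (j, k) ∈ I then f (j, k) else 0) = ∑ j ∈ inRow I k, f (j, k) := by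
    intro k
    rw [inRow, Finset.sum_filter]
  rw [Finset.sum_congr rfl fun k _ => h2 k]
  symm
  apply Finset.sum_subset (Finset.subset_univ _)
  intro k _ hk
  apply Finset.sum_eq_zero
  intro j hj
  exact absurd (mem_rows.mpr ⟨j, mem_inRow.mp hj⟩) hk

theorem sum_cols (I : Finset (Fin m × Fin n)) (f : Fin m × Fin n → ℝ) :
    ∑ i ∈ I, f i = ∑ j ∈ cols I, ∑ k ∈ inCol I j, f (j, k) := by
  have h1 : ∑ i ∈ I, f i = ∑ i, if i ∈ I then f i else 0 := by
    rw [Finset.sum_ite_mem, Finset.univ_inter]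
  rw [h1, Fintype.sum_prod_type]
  have h2 : ∀ j, (∑ k, if (j, k) ∈ I then f (j, k) else 0) = ∑ k ∈ inCol I j, f (j, k) := by
    intro j
    rw [inCol, Finset.sum_filter]
  rw [Finset.sum_congr rfl fun j _ => h2 j]
  symm
  apply Finset.sum_subset (Finset.subset_univ _)
  intro j _ hj
  apply Finset.sum_eq_zero
  intro k hk
  exact absurd (mem_cols.mpr ⟨k, mem_inCol.mp hk⟩) hj

theorem sum_pow_lt {ι : Type} (S : Finset ι) (hS : S.Nonempty) (x : ι → ℝ)
    (hx : ∀ i, 0 < x i ∧ x i < 1) {s t : ℝ} (h : s < t) :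
    ∑ i ∈ S, x i ^ t < ∑ i ∈ S, x i ^ s :=
  Finset.sum_lt_sum_of_nonempty hS fun i _ =>
    Real.rpow_lt_rpow_of_exponent_gt (hx i).1 (hx i).2 h

theorem sum_pow_le {ι : Type} (S : Finset ι) (x : ι → ℝ)
    (hx : ∀ i, 0 < x i ∧ x i < 1) {s t : ℝ} (h : s ≤ t) :
    ∑ i ∈ S, x i ^ t ≤ ∑ i ∈ S, x i ^ s :=
  Finset.sum_le_sum fun i _ => Real.rpow_le_rpow_of_exponent_ge (hx i).1 (hx i).2.le h

theorem avg {ι : Type} (R : Finset ι) (w F : ι → ℝ) (hw : ∀ i ∈ R, 0 < w i)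
    (hF : ∀ i ∈ R, F i ≤ 1) (h : ∑ i ∈ R, w i * F i = ∑ i ∈ R, w i) : ∀ i ∈ R, F i = 1 := by
  have h1 : ∀ i ∈ R, w i * F i ≤ w i := fun i hi => by
    have := mul_le_mul_of_nonneg_left (hF i hi) (hw i hi).le
    rwa [mul_one] at this
  have h2 := (Finset.sum_eq_sum_iff_of_le h1).mp h
  intro i hi
  exact mul_left_cancel₀ (hw i hi).ne' (by rw [h2 i hi, mul_one])

theorem gibbs {ι : Type} (S : Finset ι) (q p : ι → ℝ) (hq : ∀ i ∈ S, 0 < q i)
    (hp : ∀ i ∈ S, 0 < p i) (hqs : ∑ i ∈ S, q i = 1) (hps : ∑ i ∈ S, p i = 1) :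
    ∑ i ∈ S, Real.negMulLog (q i) ≤ ∑ i ∈ S, q i * (-Real.log (p i)) := by
  have h1 : ∀ i ∈ S, Real.negMulLog (q i) ≤ q i * (-Real.log (p i)) + (p i - q i) := by
    intro i hi
    have hqi := hq i hi
    have hpi := hp i hi
    have h2 := Real.log_le_sub_one_of_pos (div_pos hpi hqi)
    rw [Real.log_div hpi.ne' hqi.ne'] at h2
    have h3 := mul_le_mul_of_nonneg_left h2 hqi.le
    have h4 : q i * (p i / q i - 1) = p i - q i := by
      rw [mul_sub, mul_div_cancel₀ _ hqi.ne', mul_one]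
    rw [h4] at h3
    unfold Real.negMulLog
    linarith
  calc ∑ i ∈ S, Real.negMulLog (q i) ≤ ∑ i ∈ S, (q i * (-Real.log (p i)) + (p i - q i)) :=
        Finset.sum_le_sum h1
    _ = ∑ i ∈ S, q i * (-Real.log (p i)) := by
        rw [Finset.sum_add_distrib, Finset.sum_sub_distrib, hqs, hps]; ring

/-- the weights `b^s a^τ` on `I` -/
noncomputable def qq (I : Finset (Fin m × Fin n)) (a : Fin m → ℝ) (b : Fin n → ℝ) (s τ : ℝ)
    (i : Fin m × Fin n) : ℝ := if i ∈ I then b i.2 ^ s * a i.1 ^ τ else 0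

theorem qq_in {s τ : ℝ} {i : Fin m × Fin n} (hi : i ∈ I) :
    qq I a b s τ i = b i.2 ^ s * a i.1 ^ τ := by
  rw [qq, if_pos hi]

theorem qq_prob (ha : ∀ j, 0 < a j ∧ a j < 1) (hb : ∀ k, 0 < b k ∧ b k < 1) {s τ : ℝ}
    (hsum : ∑ i ∈ I, b i.2 ^ s * a i.1 ^ τ = 1) : IsProb I (qq I a b s τ) where
  pos i hi := by
    rw [qq_in hi]
    exact mul_pos (Real.rpow_pos_of_pos (hb _).1 _) (Real.rpow_pos_of_pos (ha _).1 _)
  zero i hi := by rw [qq, if_neg hi]
  sum := by
    rw [← hsum]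
    exact Finset.sum_congr rfl fun i hi => qq_in hi

theorem ent_qq (ha : ∀ j, 0 < a j ∧ a j < 1) (hb : ∀ k, 0 < b k ∧ b k < 1) (s τ : ℝ) :
    ent I (qq I a b s τ) = s * lamB I b (qq I a b s τ) + τ * lamA I a (qq I a b s τ) := by
  unfold ent lamA lamB
  rw [Finset.mul_sum, Finset.mul_sum, ← Finset.sum_add_distrib]
  refine Finset.sum_congr rfl fun i hi => ?_
  rw [qq_in hi]
  unfold Real.negMulLog
  rw [Real.log_mul (Real.rpow_pos_of_pos (hb _).1 _).ne' (Real.rpow_pos_of_pos (ha _).1 _).ne',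
    Real.log_rpow (hb _).1, Real.log_rpow (ha _).1]
  ring

theorem entB_qq (hb : ∀ k, 0 < b k ∧ b k < 1) {s τ : ℝ}
    (hF : ∀ k ∈ rows I, ∑ j ∈ inRow I k, a j ^ τ = 1) :
    entB (qq I a b s τ) = s * lamB I b (qq I a b s τ) := by
  have h1 : ∀ k, qrow (qq I a b s τ) k = ∑ j ∈ inRow I k, b k ^ s * a j ^ τ := by
    intro k
    unfold qrow qq inRow
    rw [Finset.sum_filter]
  have h2 : ∀ k ∈ rows I, qrow (qq I a b s τ) k = b k ^ s := by
    intro k hk
    rw [h1, ← Finset.mul_sum, hF k hk, mul_one]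
  have h3 : ∀ k ∉ rows I, qrow (qq I a b s τ) k = 0 := by
    intro k hk
    rw [h1]
    exact Finset.sum_eq_zero fun j hj => absurd (mem_rows.mpr ⟨j, mem_inRow.mp hj⟩) hk
  have h4 : entB (qq I a b s τ) = ∑ k ∈ rows I, Real.negMulLog (b k ^ s) := by
    unfold entB
    rw [← Finset.sum_subset (Finset.subset_univ (rows I))]
    · exact Finset.sum_congr rfl fun k hk => by rw [h2 k hk]
    · intro k _ hk
      rw [h3 k hk, Real.negMulLog_zero]
  have h5 : lamB I b (qq I a b s τ) = ∑ k ∈ rows I, b k ^ s * (-Real.log (b k)) := by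
    unfold lamB
    rw [sum_rows]
    refine Finset.sum_congr rfl fun k hk => ?_
    have h6 : ∀ j ∈ inRow I k, qq I a b s τ (j, k) * (-Real.log (b (j, k).2)) =
        (b k ^ s * (-Real.log (b k))) * a j ^ τ := by
      intro j hj
      rw [qq_in (mem_inRow.mp hj)]
      ring
    rw [Finset.sum_congr rfl h6, ← Finset.mul_sum, hF k hk, mul_one]
  rw [h4, h5, Finset.mul_sum]
  refine Finset.sum_congr rfl fun k _ => ?_
  unfold Real.negMulLog
  rw [Real.log_rpow (hb k).1]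
  ring

theorem entA_qq (ha : ∀ j, 0 < a j ∧ a j < 1) {s τ : ℝ}
    (hG : ∀ j ∈ cols I, ∑ k ∈ inCol I j, b k ^ s = 1) :
    entA (qq I a b s τ) = τ * lamA I a (qq I a b s τ) := by
  have h1 : ∀ j, qcol (qq I a b s τ) j = ∑ k ∈ inCol I j, b k ^ s * a j ^ τ := by
    intro j
    unfold qcol qq inCol
    rw [Finset.sum_filter]
  have h2 : ∀ j ∈ cols I, qcol (qq I a b s τ) j = a j ^ τ := by
    intro j hj
    rw [h1, ← Finset.sum_mul, hG j hj, one_mul]
  have h3 : ∀ j ∉ cols I, qcol (qq I a b s τ) j = 0 := by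
    intro j hj
    rw [h1]
    exact Finset.sum_eq_zero fun k hk => absurd (mem_cols.mpr ⟨k, mem_inCol.mp hk⟩) hj
  have h4 : entA (qq I a b s τ) = ∑ j ∈ cols I, Real.negMulLog (a j ^ τ) := by
    unfold entA
    rw [← Finset.sum_subset (Finset.subset_univ (cols I))]
    · exact Finset.sum_congr rfl fun j hj => by rw [h2 j hj]
    · intro j _ hj
      rw [h3 j hj, Real.negMulLog_zero]
  have h5 : lamA I a (qq I a b s τ) = ∑ j ∈ cols I, a j ^ τ * (-Real.log (a j)) := by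
    unfold lamA
    rw [sum_cols]
    refine Finset.sum_congr rfl fun j hj => ?_
    have h6 : ∀ k ∈ inCol I j, qq I a b s τ (j, k) * (-Real.log (a (j, k).1)) =
        b k ^ s * (a j ^ τ * (-Real.log (a j))) := by
      intro k hk
      rw [qq_in (mem_inCol.mp hk)]
      ring
    rw [Finset.sum_congr rfl h6, ← Finset.sum_mul, hG j hj, one_mul]
  rw [h4, h5, Finset.mul_sum]
  refine Finset.sum_congr rfl fun j _ => ?_
  unfold Real.negMulLog
  rw [Real.log_rpow (ha j).1]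
  ring

theorem lamA_pos {q : Fin m × Fin n → ℝ} (hI : I.Nonempty) (hq : IsProb I q)
    (ha : ∀ j, 0 < a j ∧ a j < 1) : 0 < lamA I a q :=
  Finset.sum_pos (fun i hi => mul_pos (hq.pos i hi)
    (neg_pos.mpr (Real.log_neg (ha _).1 (ha _).2))) hI

theorem lamB_pos {q : Fin m × Fin n → ℝ} (hI : I.Nonempty) (hq : IsProb I q)
    (hb : ∀ k, 0 < b k ∧ b k < 1) : 0 < lamB I b q :=
  Finset.sum_pos (fun i hi => mul_pos (hq.pos i hi)
    (neg_pos.mpr (Real.log_neg (hb _).1 (hb _).2))) hI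

/-- the lower bound if the row marginal is the natural one, and either `lamB ≤ lamA` or the column
marginal is natural too -/
theorem low {s τ dH : ℝ} (hI : I.Nonempty) (ha : ∀ j, 0 < a j ∧ a j < 1)
    (hb : ∀ k, 0 < b k ∧ b k < 1) (hsum : ∑ i ∈ I, b i.2 ^ s * a i.1 ^ τ = 1)
    (hF : ∀ k ∈ rows I, ∑ j ∈ inRow I k, a j ^ τ = 1) (hH : HausLower I a b dH)
    (h : lamB I b (qq I a b s τ) ≤ lamA I a (qq I a b s τ) ∨
      (lamA I a (qq I a b s τ) ≤ lamB I b (qq I a b s τ) ∧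
        ∀ j ∈ cols I, ∑ k ∈ inCol I j, b k ^ s = 1)) : s + τ ≤ dH := by
  have hq := qq_prob ha hb hsum
  have hA := lamA_pos hI hq ha
  have hB := lamB_pos hI hq hb
  obtain ⟨h1, h2⟩ := hH _ hq
  have he := ent_qq (I := I) ha hb s τ
  rcases h with h | ⟨h, hG⟩
  · have h3 := h2 h
    rw [entB_qq hb hF, he] at h3
    have h4 : s * lamB I b (qq I a b s τ) / lamB I b (qq I a b s τ) = s :=
      mul_div_cancel_right₀ _ hB.ne'
    have h5 : (s * lamB I b (qq I a b s τ) + τ * lamA I a (qq I a b s τ) -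
        s * lamB I b (qq I a b s τ)) / lamA I a (qq I a b s τ) = τ := by
      rw [add_sub_cancel_left]
      exact mul_div_cancel_right₀ _ hA.ne'
    rw [h4, h5] at h3
    exact h3
  · have h3 := h1 h
    rw [entA_qq ha hG, he] at h3
    have h4 : τ * lamA I a (qq I a b s τ) / lamA I a (qq I a b s τ) = τ :=
      mul_div_cancel_right₀ _ hA.ne'
    have h5 : (s * lamB I b (qq I a b s τ) + τ * lamA I a (qq I a b s τ) -
        τ * lamA I a (qq I a b s τ)) / lamB I b (qq I a b s τ) = s := by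
      rw [add_sub_cancel_right]
      exact mul_div_cancel_right₀ _ hB.ne'
    rw [h4, h5] at h3
    linarith

/-! ### exchange of rows and columns -/

theorem sum_swap (I : Finset (Fin m × Fin n)) (f : Fin n × Fin m → ℝ) :
    ∑ i ∈ I.image Prod.swap, f i = ∑ i ∈ I, f i.swap :=
  Finset.sum_image fun _ _ _ _ h => Prod.swap_injective h

theorem mem_swap {i : Fin n × Fin m} : i ∈ I.image Prod.swap ↔ i.swap ∈ I := by
  rw [Finset.mem_image]
  constructor
  · rintro ⟨x, hx, rfl⟩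
    rwa [Prod.swap_swap]
  · intro h
    exact ⟨i.swap, h, Prod.swap_swap i⟩

theorem cols_swap : cols (I.image Prod.swap) = rows I := by
  ext k
  rw [mem_cols, mem_rows]
  exact exists_congr fun j => mem_swap

theorem rows_swap : rows (I.image Prod.swap) = cols I := by
  ext j
  rw [mem_cols, mem_rows]
  exact exists_congr fun k => mem_swap

theorem inRow_swap (j : Fin m) : inRow (I.image Prod.swap) j = inCol I j := by
  ext k
  rw [mem_inRow, mem_inCol]
  exact mem_swap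

theorem inCol_swap (k : Fin n) : inCol (I.image Prod.swap) k = inRow I k := by
  ext j
  rw [mem_inRow, mem_inCol]
  exact mem_swap

theorem dims_swap {s₁ s₂ τA τB : ℝ} {t : Fin m → ℝ} {t' : Fin n → ℝ}
    (h : Dims I a b s₁ s₂ τA τB t t') :
    Dims (I.image Prod.swap) b a s₂ s₁ τB τA t' t where
  ne := h.ne.image _
  a_pos := h.b_pos
  a_lt := h.b_lt
  b_pos := h.a_pos
  b_lt := h.a_lt
  s₁_nonneg := h.s₂_nonneg
  s₂_nonneg := h.s₁_nonneg
  τA_nonneg := h.τB_nonneg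
  τB_nonneg := h.τA_nonneg
  t_nonneg := by rw [cols_swap]; exact h.t'_nonneg
  t'_nonneg := by rw [rows_swap]; exact h.t_nonneg
  hs₁ := by rw [cols_swap]; exact h.hs₂
  hs₂ := by rw [rows_swap]; exact h.hs₁
  hτA := by rw [sum_swap]; exact h.hτB
  hτB := by rw [sum_swap]; exact h.hτA
  ht := by
    rw [cols_swap]
    intro k hk
    rw [inCol_swap]
    exact h.ht' k hk
  ht' := by
    rw [rows_swap]
    intro j hj
    rw [inRow_swap]
    exact h.ht j hj

theorem haus_swap {dH : ℝ} (h : HausLower I a b dH) : HausLower (I.image Prod.swap) b a dH := by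
  intro q hq
  have hq' : IsProb I (q ∘ Prod.swap) := by
    refine ⟨fun i hi => ?_, fun i hi => ?_, ?_⟩
    · exact hq.pos i.swap (mem_swap.mpr (by rwa [Prod.swap_swap]))
    · exact hq.zero i.swap fun h' => hi (by rw [mem_swap, Prod.swap_swap] at h'; exact h')
    · have := hq.sum
      rwa [sum_swap] at this
  have h1 : lamA (I.image Prod.swap) b q = lamB I b (q ∘ Prod.swap) := by
    unfold lamA lamB
    rw [sum_swap]
    rfl
  have h2 : lamB (I.image Prod.swap) a q = lamA I a (q ∘ Prod.swap) := by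
    unfold lamA lamB
    rw [sum_swap]
    rfl
  have h3 : ent (I.image Prod.swap) q = ent I (q ∘ Prod.swap) := by
    unfold ent
    rw [sum_swap]
    rfl
  have h4 : entA q = entB (q ∘ Prod.swap) := rfl
  have h5 : entB q = entA (q ∘ Prod.swap) := rfl
  rw [h1, h2, h3, h4, h5]
  exact ⟨(h _ hq').2, (h _ hq').1⟩

theorem core {s₁ s₂ τA τB : ℝ} {t : Fin m → ℝ} {t' : Fin n → ℝ} {dH D : ℝ}
    (hd : Dims I a b s₁ s₂ τA τB t t') (hH : HausLower I a b dH) (hD : D ≤ s₂ + τB)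
    (hc : ∀ j ∈ cols I, s₁ + t j ≤ D) (hr : ∀ k ∈ rows I, s₂ + t' k ≤ D) : D ≤ dH := by
  have ha : ∀ j, 0 < a j ∧ a j < 1 := fun j => ⟨hd.a_pos j, hd.a_lt j⟩
  have hb : ∀ k, 0 < b k ∧ b k < 1 := fun k => ⟨hd.b_pos k, hd.b_lt k⟩
  obtain ⟨⟨j₀, k₀⟩, hi₀⟩ := hd.ne
  have hk₀ : k₀ ∈ rows I := mem_rows.mpr ⟨j₀, hi₀⟩
  have hj₀ : j₀ ∈ cols I := mem_cols.mpr ⟨k₀, hi₀⟩
  have hrne : ∀ k ∈ rows I, (inRow I k).Nonempty := fun k hk => by
    obtain ⟨j, hj⟩ := mem_rows.mp hk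
    exact ⟨j, mem_inRow.mpr hj⟩
  have hcne : ∀ j ∈ cols I, (inCol I j).Nonempty := fun j hj => by
    obtain ⟨k, hk⟩ := mem_cols.mp hj
    exact ⟨k, mem_inCol.mpr hk⟩
  -- the rows
  have hF : ∀ k ∈ rows I, ∑ j ∈ inRow I k, a j ^ τB = 1 := by
    apply avg (rows I) (fun k => b k ^ s₂) (fun k => ∑ j ∈ inRow I k, a j ^ τB)
    · intro k _
      exact Real.rpow_pos_of_pos (hb k).1 _
    · intro k hk
      rw [← hd.ht' k hk]
      exact sum_pow_le _ _ ha (by linarith [hr k hk])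
    · rw [hd.hs₂, ← hd.hτB, sum_rows]
      refine Finset.sum_congr rfl fun k _ => ?_
      rw [Finset.mul_sum]
  have hDeq : D = s₂ + τB := by
    have h1 : τB ≤ t' k₀ := by
      by_contra hlt
      push Not at hlt
      have h2 := sum_pow_lt (inRow I k₀) (hrne k₀ hk₀) a ha hlt
      rw [hd.ht' k₀ hk₀, hF k₀ hk₀] at h2
      exact lt_irrefl _ h2
    linarith [hr k₀ hk₀]
  rw [hDeq]
  apply low hd.ne ha hb hd.hτB hF hH
  set q := qq I a b s₂ τB with hqdef
  by_cases hAB : lamB I b q ≤ lamA I a q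
  · exact Or.inl hAB
  · right
    push Not at hAB
    refine ⟨hAB.le, ?_⟩
    have hq : IsProb I q := qq_prob ha hb hd.hτB
    have hA := lamA_pos hd.ne hq ha
    -- Gibbs
    have hgibbs : s₂ * lamB I b q + τB * lamA I a q ≤ s₁ * lamA I a q + τA * lamB I b q := by
      rw [← ent_qq ha hb s₂ τB]
      have h1 := gibbs I q (fun i => a i.1 ^ s₁ * b i.2 ^ τA) hq.pos
        (fun i _ => mul_pos (Real.rpow_pos_of_pos (ha _).1 _) (Real.rpow_pos_of_pos (hb _).1 _))
        hq.sum hd.hτA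
      refine h1.trans (le_of_eq ?_)
      unfold lamA lamB
      rw [Finset.mul_sum, Finset.mul_sum, ← Finset.sum_add_distrib]
      refine Finset.sum_congr rfl fun i _ => ?_
      rw [Real.log_mul (Real.rpow_pos_of_pos (ha _).1 _).ne'
        (Real.rpow_pos_of_pos (hb _).1 _).ne', Real.log_rpow (hb _).1, Real.log_rpow (ha _).1]
      ring
    -- `s₁ + τA ≤ D`
    have h1 : s₁ + τA ≤ s₂ + τB := by
      by_contra hlt
      push Not at hlt
      have h2 : ∑ j ∈ cols I, a j ^ s₁ * ∑ k ∈ inCol I j, b k ^ τA < ∑ j ∈ cols I, a j ^ s₁ := by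
        apply Finset.sum_lt_sum_of_nonempty ⟨j₀, hj₀⟩
        intro j hj
        have h3 : t j < τA := by linarith [hc j hj]
        have h4 := sum_pow_lt (inCol I j) (hcne j hj) b hb h3
        rw [hd.ht j hj] at h4
        have h5 := mul_lt_mul_of_pos_left h4 (Real.rpow_pos_of_pos (ha j).1 s₁)
        rwa [mul_one] at h5
      rw [hd.hs₁] at h2
      have h3 := hd.hτA
      rw [sum_cols] at h3
      have h4 : ∑ j ∈ cols I, ∑ k ∈ inCol I j, a (j, k).1 ^ s₁ * b (j, k).2 ^ τA =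
          ∑ j ∈ cols I, a j ^ s₁ * ∑ k ∈ inCol I j, b k ^ τA :=
        Finset.sum_congr rfl fun j _ => by rw [Finset.mul_sum]
      rw [h4] at h3
      linarith
    -- column sums
    have hG1 : ∀ j ∈ cols I, ∑ k ∈ inCol I j, b k ^ s₂ ≤ 1 := by
      intro j _
      rw [← hd.hs₂]
      apply Finset.sum_le_sum_of_subset_of_nonneg
      · intro k hk
        exact mem_rows.mpr ⟨j, mem_inCol.mp hk⟩
      · intro k _ _
        exact (Real.rpow_pos_of_pos (hb k).1 _).le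
    have hGs : ∑ i ∈ I, a i.1 ^ s₁ * b i.2 ^ s₂ =
        ∑ j ∈ cols I, a j ^ s₁ * ∑ k ∈ inCol I j, b k ^ s₂ := by
      rw [sum_cols]
      exact Finset.sum_congr rfl fun j _ => by rw [Finset.mul_sum]
    have hGle : ∑ i ∈ I, a i.1 ^ s₁ * b i.2 ^ s₂ ≤ 1 := by
      rw [hGs, ← hd.hs₁]
      refine Finset.sum_le_sum fun j hj => ?_
      have h5 := mul_le_mul_of_nonneg_left (hG1 j hj) (Real.rpow_pos_of_pos (ha j).1 s₁).le
      rwa [mul_one] at h5
    have hτ : τA ≤ s₂ := by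
      by_contra hlt
      push Not at hlt
      have h2 : ∑ i ∈ I, a i.1 ^ s₁ * b i.2 ^ τA < ∑ i ∈ I, a i.1 ^ s₁ * b i.2 ^ s₂ := by
        apply Finset.sum_lt_sum_of_nonempty hd.ne
        intro i _
        exact mul_lt_mul_of_pos_left (Real.rpow_lt_rpow_of_exponent_gt (hb _).1 (hb _).2 hlt)
          (Real.rpow_pos_of_pos (ha _).1 _)
      rw [hd.hτA] at h2
      linarith
    rcases hτ.lt_or_eq with hlt | heq
    · exfalso
      have h2 : (s₁ - τB) * lamA I a q ≤ (s₂ - τA) * lamA I a q :=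
        mul_le_mul_of_nonneg_right (by linarith) hA.le
      have h3 : (s₂ - τA) * lamA I a q < (s₂ - τA) * lamB I b q :=
        mul_lt_mul_of_pos_left hAB (by linarith)
      nlinarith
    · apply avg (cols I) (fun j => a j ^ s₁) (fun j => ∑ k ∈ inCol I j, b k ^ s₂)
      · intro j _
        exact Real.rpow_pos_of_pos (ha j).1 _
      · exact hG1
      · rw [hd.hs₁, ← hGs, ← heq, hd.hτA]

end FIN2

theorem t_FIN2 : S_FIN2 := by
  intro m n I a b s₁ s₂ τA τB t t' dH D hd hH hD hc hr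
  rcases le_max_iff.mp hD with h | h
  · apply FIN2.core (FIN2.dims_swap hd) (FIN2.haus_swap hH) h
    · rw [FIN2.cols_swap]; exact hr
    · rw [FIN2.rows_swap]; exact hc
  · exact FIN2.core hd hH h hc hr

end Pool.Agent.Q73.CM
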