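import Pool.Agent.Q73.CM.Prep

/-!
# Approximation of the functions in `M(L)`
-/

set_option autoImplicit false

open Filter Topology Set OnePoint

namespace Q73.CM

/-- bounded continuous extension -/
lemma ext_small {K : Set ℂ} (hK : IsCompact K) {g : ℂ → ℂ} (hg : ContinuousOn g K) {κ : ℝ}
    (hκ : 0 < κ) (hb : ∀ z ∈ K, ‖g z‖ ≤ κ) :
    ∃ G : ℂ → ℂ, Continuous G ∧ (∀ z, ‖G z‖ ≤ κ) ∧ EqOn G g K := by
  obtain ⟨F, hF, -, hFK⟩ := ZFM.J_q5b.mg_ext hK g hg
  have hpos : ∀ z, 0 < max 1 (‖F z‖ / κ) := fun z => lt_of_lt_of_le one_pos (le_max_left _ _)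
  refine ⟨fun z => F z / ((max 1 (‖F z‖ / κ) : ℝ) : ℂ), ?_, ?_, ?_⟩
  · refine hF.div (Complex.continuous_ofReal.comp (continuous_const.max
      (hF.norm.div_const κ))) fun z => ?_
    exact_mod_cast (hpos z).ne'
  · intro z
    rw [norm_div, Complex.norm_real, Real.norm_of_nonneg (hpos z).le, div_le_iff₀ (hpos z)]
    have := le_max_right 1 (‖F z‖ / κ)
    calc ‖F z‖ = κ * (‖F z‖ / κ) := by field_simp
      _ ≤ κ * max 1 (‖F z‖ / κ) := mul_le_mul_of_nonneg_left this hκ.le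
  · intro z hz
    have h1 := hb z hz
    have h2 : F z = g z := hFK hz
    have h3 : ‖F z‖ / κ ≤ 1 := by
      rw [div_le_one hκ, h2]
      exact h1
    show F z / ((max 1 (‖F z‖ / κ) : ℝ) : ℂ) = g z
    rw [max_eq_left h3, h2]
    simp

lemma chord_le_norm (a b : ℂ) : chord (a : OnePoint ℂ) (b : OnePoint ℂ) ≤ ‖a - b‖ := by
  rw [chord_coe]
  have h1 : (1 : ℝ) ≤ √(1 + ‖a‖ ^ 2) := by
    rw [Real.one_le_sqrt]
    nlinarith [sq_nonneg ‖a‖]
  have h2 : (1 : ℝ) ≤ √(1 + ‖b‖ ^ 2) := by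
    rw [Real.one_le_sqrt]
    nlinarith [sq_nonneg ‖b‖]
  exact div_le_self (norm_nonneg _) (by nlinarith)

lemma norm_le_sqrt (a : ℂ) : ‖a‖ ≤ √(1 + ‖a‖ ^ 2) :=
  Real.le_sqrt_of_sq_le (by linarith)

/-- the estimate near the poles -/
lemma chord_near {a q e : ℂ} {x : OnePoint ℂ} (hx : x ≠ ((0 : ℂ) : OnePoint ℂ)) (hq : q ≠ 0)
    (ha : a = q⁻¹ + e) (heq : ‖e‖ * ‖q‖ ≤ 1 / 2) :
    chord (a : OnePoint ℂ) x ≤ ‖e‖ + 2 * ‖q - rcp x‖ := by
  have hq0 : 0 < ‖q‖ := norm_pos_iff.2 hq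
  have h1 : 1 / 2 ≤ ‖a‖ * ‖q‖ := by
    rw [ha, ← norm_mul, add_mul, inv_mul_cancel₀ hq]
    have := norm_sub_le (1 + e * q) (e * q)
    rw [add_sub_cancel_right, norm_one, norm_mul e q] at this
    linarith
  have hs := norm_le_sqrt a
  have hs0 : 0 < √(1 + ‖a‖ ^ 2) := by positivity
  have h2 : 1 / √(1 + ‖a‖ ^ 2) ≤ 2 * ‖q‖ := by
    rw [div_le_iff₀ hs0]
    have : ‖a‖ * ‖q‖ ≤ √(1 + ‖a‖ ^ 2) * ‖q‖ := mul_le_mul_of_nonneg_right hs hq0.le
    nlinarith
  induction x using OnePoint.rec with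
  | infty =>
    rw [chord_coe_infty, rcp_infty, sub_zero]
    have := norm_nonneg e
    linarith
  | coe b =>
    have hb : b ≠ 0 := fun h => hx (congrArg _ h)
    have hb0 : 0 < ‖b‖ := norm_pos_iff.2 hb
    rw [chord_coe, rcp_coe]
    have hsb := norm_le_sqrt b
    have hsb0 : 0 < √(1 + ‖b‖ ^ 2) := by positivity
    have hs1 : (1 : ℝ) ≤ √(1 + ‖a‖ ^ 2) := by
      rw [Real.one_le_sqrt]
      nlinarith [sq_nonneg ‖a‖]
    have hs2 : (1 : ℝ) ≤ √(1 + ‖b‖ ^ 2) := by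
      rw [Real.one_le_sqrt]
      nlinarith [sq_nonneg ‖b‖]
    have e1 : a - b = e + (b⁻¹ - q) * b * q⁻¹ := by
      rw [ha]
      field_simp
      ring
    have h3 : ‖a - b‖ ≤ ‖e‖ + ‖q - b⁻¹‖ * ‖b‖ * ‖q‖⁻¹ := by
      rw [e1]
      refine (norm_add_le _ _).trans ?_
      rw [norm_mul, norm_mul, norm_inv, norm_sub_rev]
    rw [div_le_iff₀ (by positivity)]
    refine h3.trans ?_
    rw [add_mul]
    have hn := norm_nonneg (q - b⁻¹)
    have hone : (1:ℝ) ≤ √(1 + ‖a‖ ^ 2) * √(1 + ‖b‖ ^ 2) := by nlinarith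
    have h4 : ‖e‖ ≤ ‖e‖ * (√(1 + ‖a‖ ^ 2) * √(1 + ‖b‖ ^ 2)) :=
      le_mul_of_one_le_right (norm_nonneg e) hone
    have h5 : ‖q - b⁻¹‖ * ‖b‖ * ‖q‖⁻¹ ≤
        2 * ‖q - b⁻¹‖ * (√(1 + ‖a‖ ^ 2) * √(1 + ‖b‖ ^ 2)) := by
      have h6 : ‖q‖⁻¹ ≤ 2 * √(1 + ‖a‖ ^ 2) := by
        rw [inv_le_iff_one_le_mul₀ hq0]
        rw [div_le_iff₀ hs0] at h2
        nlinarith
      calc ‖q - b⁻¹‖ * ‖b‖ * ‖q‖⁻¹ ≤ ‖q - b⁻¹‖ * √(1 + ‖b‖ ^ 2) * (2 * √(1 + ‖a‖ ^ 2)) := by
            gcongr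
        _ = _ := by ring
    linarith

/-- the difference `1 / q - φ` is small -/
lemma diff_small {q : ℂ} {x : OnePoint ℂ} {M η : ℝ} (hM : 1 ≤ M)
    (hx : x ≠ ((0 : ℂ) : OnePoint ℂ)) (hxi : x ≠ ∞) (hxM : ‖fin x‖ ≤ M)
    (hη : η ≤ 1 / (2 * M)) (hq : q ≠ 0) (h : ‖q - rcp x‖ ≤ η) :
    ‖q⁻¹ - fin x‖ ≤ 2 * M ^ 2 * η := by
  have hM0 : 0 < M := by linarith
  rw [rcp_eq_inv] at h
  have hb : fin x ≠ 0 := by
    intro h0
    apply hx
    rw [← coe_fin hxi, h0]
  set b := fin x with hbdef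
  have hb0 : 0 < ‖b‖ := norm_pos_iff.2 hb
  have hq0 : 0 < ‖q‖ := norm_pos_iff.2 hq
  have h1 : 1 / M ≤ ‖b⁻¹‖ := by
    rw [norm_inv, one_div]
    exact inv_anti₀ hb0 hxM
  have h2 : 1 / (2 * M) ≤ ‖q‖ := by
    have h3 : ‖b⁻¹‖ ≤ ‖q‖ + ‖q - b⁻¹‖ := by
      have := norm_sub_le q (q - b⁻¹)
      rwa [sub_sub_cancel] at this
    have h4 : 1 / M = 1 / (2 * M) + 1 / (2 * M) := by field_simp; norm_num
    linarith
  have h5 : ‖q‖⁻¹ ≤ 2 * M := by
    rw [inv_le_iff_one_le_mul₀ hq0]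
    rw [div_le_iff₀ (by positivity)] at h2
    nlinarith
  have e1 : q⁻¹ - b = -((q - b⁻¹) * b * q⁻¹) := by
    field_simp
    ring
  rw [e1, norm_neg, norm_mul, norm_mul, norm_inv]
  have hη0 : 0 ≤ η := (norm_nonneg _).trans h
  calc ‖q - b⁻¹‖ * ‖b‖ * ‖q‖⁻¹ ≤ η * M * (2 * M) := by gcongr
    _ = 2 * M ^ 2 * η := by ring


theorem approx {L : Set ℂ} (hL : IsCompact L) (hLc : IsConnected Lᶜ) {f : ℂ → OnePoint ℂ}
    (hf : InM L f) {ε : ℝ} (hε : 0 < ε) :
    ∃ p : Polynomial ℂ, ∀ z ∈ L, chord ((p.eval z : ℂ) : OnePoint ℂ) (f z) < ε := by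
  obtain ⟨A, B, P, hA, hB, hP, hSA, hAB, hBP, hK1c, hK1⟩ := sets hL hLc hf
  obtain ⟨τ, hτ, hτA, hτB, hτ01⟩ := cutoff hA hAB
  have hτ' : ContDiff ℝ ((⊤ : ℕ∞) : WithTop ℕ∞) (fun z => ((τ z : ℝ) : ℂ)) :=
    Complex.ofRealCLM.contDiff.comp hτ
  have hτc : HasCompactSupport (fun z => ((τ z : ℝ) : ℂ)) :=
    HasCompactSupport.intro hB fun z hz => by rw [hτB z hz, Complex.ofReal_zero]
  obtain ⟨C, hC0, hC⟩ := cor_bound hτ' hτc
  have hK : IsCompact (L ∩ P) := hL.inter hP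
  -- the transition region
  set E : Set ℂ := (L ∩ P) \ interior A with hE
  have hEc : IsCompact E := hK.diff isOpen_interior
  have hEi : ∀ z ∈ E, f z ≠ ∞ := fun z hz h => hz.2 (hSA ⟨hz.1.1, h⟩)
  have hEL : E ⊆ L := fun z hz => hz.1.1
  have hfc : ContinuousOn (fun z => fin (f z)) E := fun z hz =>
    (fin_continuousAt (hEi z hz)).comp_continuousWithinAt ((hf.cont z (hEL hz)).mono hEL)
  obtain ⟨M0, hM0⟩ := hEc.exists_bound_of_continuousOn hfc
  set M : ℝ := max M0 1 with hM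
  have hM1 : 1 ≤ M := le_max_right _ _
  have hMb : ∀ z ∈ E, ‖fin (f z)‖ ≤ M := fun z hz => (hM0 z hz).trans (le_max_left _ _)
  have hrc : ContinuousOn (fun z => rcp (f z)) (L ∩ P) := fun z hz =>
    (rcp_continuousAt (hK1 z hz)).comp_continuousWithinAt
      ((hf.cont z hz.1).mono inter_subset_left)
  obtain ⟨B0, hB0⟩ := hK.exists_bound_of_continuousOn hrc
  set B1 : ℝ := max B0 0 with hB1
  have hB10 : 0 ≤ B1 := le_max_right _ _
  have hB1b : ∀ z ∈ L ∩ P, ‖rcp (f z)‖ ≤ B1 := fun z hz => (hB0 z hz).trans (le_max_left _ _)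
  -- the small parameter
  set T : ℝ := ((C + 1) * (2 * M ^ 2) + 3) * (B1 + 2) * 2 with hT
  have hMsq : M ≤ M ^ 2 := by nlinarith
  have hCM : 2 * M ^ 2 ≤ (C + 1) * (2 * M ^ 2) := by nlinarith [mul_nonneg hC0 (sq_nonneg M)]
  have hT0 : 0 < T := by positivity
  have hT1 : ((C + 1) * (2 * M ^ 2) + 3) * (B1 + 2) * 2 ≤ T := le_rfl
  obtain ⟨η, hη, hηε, hη1⟩ : ∃ η : ℝ, 0 < η ∧ T * η < ε ∧ T * η ≤ 1 / 2 := by
    refine ⟨min ε (1 / 2) / (2 * T), by positivity, ?_, ?_⟩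
    · have : T * (min ε (1 / 2) / (2 * T)) = min ε (1 / 2) / 2 := by field_simp
      rw [this]
      have := min_le_left ε (1 / 2)
      linarith [lt_min hε (by norm_num : (0:ℝ) < 1 / 2)]
    · have : T * (min ε (1 / 2) / (2 * T)) = min ε (1 / 2) / 2 := by field_simp
      rw [this]
      have := min_le_right ε (1 / 2)
      linarith
  have hQ0 : 0 < (C + 1) * (2 * M ^ 2) + 3 := by positivity
  have hTa : (C + 1) * (2 * M ^ 2) + 3 ≤ T := by
    rw [hT]
    nlinarith [mul_nonneg hQ0.le hB10]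
  have hTb : ((C + 1) * (2 * M ^ 2) + 3) * (B1 + 1) ≤ T := by
    rw [hT]
    nlinarith [mul_nonneg hQ0.le hB10]
  have hTc : 2 * M ≤ T := by linarith
  have hη2 : ((C + 1) * (2 * M ^ 2) + 3) * η < ε :=
    lt_of_le_of_lt (mul_le_mul_of_nonneg_right hTa hη.le) hηε
  have hη3 : ((C + 1) * (2 * M ^ 2) + 3) * (B1 + 1) * η ≤ 1 / 2 :=
    (mul_le_mul_of_nonneg_right hTb hη.le).trans hη1
  have hη4 : η ≤ 1 / (2 * M) := by
    rw [le_div_iff₀ (by positivity)]
    nlinarith [mul_le_mul_of_nonneg_right hTc hη.le]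
  have hη5 : η ≤ 1 := by
    have : 1 / (2 * M) ≤ 1 := by
      rw [div_le_one (by positivity)]
      linarith
    linarith
  -- approximation near the poles
  obtain ⟨q, hq0, hq⟩ := approx_rcp hf hK hK1c inter_subset_left hK1 hη
  set κ : ℝ := 2 * M ^ 2 * η with hκ
  have hκ0 : 0 < κ := by positivity
  have hDc : ContinuousOn (fun z => (q.eval z)⁻¹ - fin (f z)) E := by
    refine ContinuousOn.sub ?_ hfc
    exact q.continuous.continuousOn.inv₀ fun z hz => hq0 z hz.1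
  have hDb : ∀ z ∈ E, ‖(q.eval z)⁻¹ - fin (f z)‖ ≤ κ := fun z hz =>
    diff_small hM1 (hK1 z hz.1) (hEi z hz) (hMb z hz) hη4 (hq0 z hz.1) (hq z hz.1).le
  obtain ⟨D, hD, hDκ, hDE⟩ := ext_small hEc hDc hκ0 hDb
  -- the function
  set u : ℂ → ℂ := cor (fun z => ((τ z : ℝ) : ℂ)) D with hu
  have huc : Continuous u := cor_cont hτ' hτc hD
  have hub : ∀ z, ‖u z‖ ≤ C * κ := hC D κ hD hDκ
  set h : ℂ → ℂ := fun z => ((τ z : ℝ) : ℂ) * (q.eval z)⁻¹ + (1 - ((τ z : ℝ) : ℂ)) * fin (f z) - u z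
    with hh
  have hBo : ∀ z, z ∉ B → ∀ᶠ w in 𝓝 z, τ w = 0 := by
    intro z hz
    filter_upwards [hB.isClosed.isOpen_compl.mem_nhds hz] with w hw
    exact hτB w hw
  have hAL : ∀ z ∈ A, z ∈ L → z ∈ L ∩ P := fun z hz hzL =>
    ⟨hzL, interior_subset (hBP (interior_subset (hAB hz)))⟩
  have hnear : ∀ z ∈ A, h =ᶠ[𝓝 z] fun w => (q.eval w)⁻¹ - u w := by
    intro z hz
    filter_upwards [hτA z hz] with w hw
    rw [hh]
    simp only
    rw [hw]
    simp
  have hfar : ∀ z, z ∉ B → h =ᶠ[𝓝 z] fun w => fin (f w) - u w := by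
    intro z hz
    filter_upwards [hBo z hz] with w hw
    rw [hh]
    simp only
    rw [hw]
    simp
  have hqd : Differentiable ℂ fun w => q.eval w := q.differentiable
  have hcont : ContinuousOn h L := by
    intro z hz
    by_cases hzA : z ∈ A
    · have h1 : ContinuousAt (fun w => (q.eval w)⁻¹ - u w) z :=
        (q.continuous.continuousAt.inv₀ (hq0 z (hAL z hzA hz))).sub huc.continuousAt
      exact (h1.congr_of_eventuallyEq (hnear z hzA)).continuousWithinAt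
    · have hzi : f z ≠ ∞ := fun h0 => hzA (interior_subset (hSA ⟨hz, h0⟩))
      have h1 : ContinuousWithinAt (fun z => fin (f z)) L z :=
        (fin_continuousAt hzi).comp_continuousWithinAt (hf.cont z hz)
      by_cases hzP : z ∈ P
      · have h2 : ContinuousAt (fun w => (q.eval w)⁻¹) z :=
          q.continuous.continuousAt.inv₀ (hq0 z ⟨hz, hzP⟩)
        have h3 : ContinuousAt (fun w => ((τ w : ℝ) : ℂ)) z := hτ'.continuous.continuousAt
        exact (((h3.mul h2).continuousWithinAt).add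
          ((continuousWithinAt_const.sub h3.continuousWithinAt).mul h1)).sub
          huc.continuousAt.continuousWithinAt
      · have hzB : z ∉ B := fun h0 => hzP (interior_subset (hBP h0))
        have h2 : ContinuousWithinAt (fun w => fin (f w) - u w) L z :=
          h1.sub huc.continuousAt.continuousWithinAt
        exact h2.congr_of_eventuallyEq (mem_nhdsWithin_of_mem_nhds (hfar z hzB))
          (hfar z hzB).self_of_nhds
  have hdiff : DifferentiableOn ℂ h (interior L) := by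
    intro z hz
    apply DifferentiableAt.differentiableWithinAt
    have hzL : z ∈ L := interior_subset hz
    by_cases hzA : z ∈ A
    · have hud : DifferentiableAt ℂ u z := by
        refine cor_diff_off hτ' hτc hD ?_
        have := eventually_eventually_nhds.2 (hτA z hzA)
        filter_upwards [this] with w hw
        have h1 : (fun z => ((τ z : ℝ) : ℂ)) =ᶠ[𝓝 w] fun _ => 1 := by
          filter_upwards [hw] with v hv
          rw [hv, Complex.ofReal_one]
        rw [Pool.Agent.H761R2.SV.dbar_congr h1, Pool.Agent.H761R2.SV.dbar_const]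
      have h1 : DifferentiableAt ℂ (fun w => (q.eval w)⁻¹ - u w) z :=
        ((hqd z).inv (hq0 z (hAL z hzA hzL))).sub hud
      exact h1.congr_of_eventuallyEq (hnear z hzA)
    · have hzi : f z ≠ ∞ := fun h0 => hzA (interior_subset (hSA ⟨hzL, h0⟩))
      have hfd := hf.fin_diffAt hz hzi
      by_cases hzB : z ∈ B
      · -- the transition region
        set O : Set ℂ := (interior L ∩ interior P) ∩ Aᶜ with hO
        have hOo : IsOpen O := (isOpen_interior.inter isOpen_interior).inter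
          hA.isClosed.isOpen_compl
        have hzO : z ∈ O := ⟨⟨hz, hBP hzB⟩, hzA⟩
        have hOE : O ⊆ E := fun w hw => ⟨⟨interior_subset hw.1.1, interior_subset hw.1.2⟩,
          fun h0 => hw.2 (interior_subset h0)⟩
        have hDd : DifferentiableOn ℂ D O := by
          intro w hw
          apply DifferentiableAt.differentiableWithinAt
          have h1 : DifferentiableAt ℂ (fun z => (q.eval z)⁻¹ - fin (f z)) w :=
            ((hqd w).inv (hq0 w (hOE hw).1)).sub (hf.fin_diffAt hw.1.1 (hEi w (hOE hw)))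
          refine h1.congr_of_eventuallyEq ?_
          filter_upwards [hOo.mem_nhds hw] with v hv
          exact hDE (hOE hv)
        have h1 := cor_diff_on hτ' hτc hD hOo hDd hzO
        refine (hfd.add h1).congr_of_eventuallyEq ?_
        filter_upwards [hOo.mem_nhds hzO] with v hv
        show ((τ v : ℝ) : ℂ) * (q.eval v)⁻¹ + (1 - ((τ v : ℝ) : ℂ)) * fin (f v) - u v =
          fin (f v) + (((τ v : ℝ) : ℂ) * D v - u v)
        rw [hDE (hOE hv)]
        ring
      · have hud : DifferentiableAt ℂ u z := by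
          refine cor_diff_off hτ' hτc hD ?_
          have := eventually_eventually_nhds.2 (hBo z hzB)
          filter_upwards [this] with w hw
          have h1 : (fun z => ((τ z : ℝ) : ℂ)) =ᶠ[𝓝 w] fun _ => 0 := by
            filter_upwards [hw] with v hv
            rw [hv, Complex.ofReal_zero]
          rw [Pool.Agent.H761R2.SV.dbar_congr h1, Pool.Agent.H761R2.SV.dbar_const]
        exact (hfd.sub hud).congr_of_eventuallyEq (hfar z hzB)
  obtain ⟨p, hp⟩ := ZFM.mergelyan hL hLc h hcont hdiff η hη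
  refine ⟨p, fun z hz => ?_⟩
  have hpz := hp z hz
  by_cases hzA : z ∈ A
  · have hzK := hAL z hzA hz
    have h1 : h z = (q.eval z)⁻¹ - u z := (hnear z hzA).self_of_nhds
    have he : p.eval z = (q.eval z)⁻¹ + (p.eval z - h z - u z) := by
      rw [h1]; ring
    have hen : ‖p.eval z - h z - u z‖ ≤ η + C * κ := by
      refine (norm_sub_le _ _).trans ?_
      have := hub z
      linarith
    have hqn : ‖q.eval z‖ ≤ B1 + 1 := by
      have h2 := hq z hzK
      have h3 := hB1b z hzK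
      have h4 : ‖q.eval z‖ ≤ ‖q.eval z - rcp (f z)‖ + ‖rcp (f z)‖ := by
        have := norm_add_le (q.eval z - rcp (f z)) (rcp (f z))
        rwa [sub_add_cancel] at this
      linarith
    have h5 : ‖p.eval z - h z - u z‖ * ‖q.eval z‖ ≤ 1 / 2 := by
      calc ‖p.eval z - h z - u z‖ * ‖q.eval z‖ ≤ (η + C * κ) * (B1 + 1) := by
            have : 0 ≤ η + C * κ := by positivity
            gcongr
        _ ≤ ((C + 1) * (2 * M ^ 2) + 3) * (B1 + 1) * η := by
            rw [hκ]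
            have h6 : 0 ≤ (2 * M ^ 2 + 2) * (B1 + 1) * η := by positivity
            nlinarith
        _ ≤ 1 / 2 := hη3
    refine (chord_near (hK1 z hzK) (hq0 z hzK) he h5).trans_lt ?_
    have h6 := hq z hzK
    calc ‖p.eval z - h z - u z‖ + 2 * ‖q.eval z - rcp (f z)‖ ≤ (η + C * κ) + 2 * η := by linarith
      _ ≤ ((C + 1) * (2 * M ^ 2) + 3) * η := by
          rw [hκ]
          have : 0 ≤ 2 * M ^ 2 * η := by positivity
          nlinarith
      _ < ε := hη2
  · have hzi : f z ≠ ∞ := fun h0 => hzA (interior_subset (hSA ⟨hz, h0⟩))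
    rw [← coe_fin hzi]
    refine (chord_le_norm _ _).trans_lt ?_
    have h1 : ‖h z - fin (f z)‖ ≤ κ + C * κ := by
      have h2 : h z - fin (f z) = ((τ z : ℝ) : ℂ) * ((q.eval z)⁻¹ - fin (f z)) - u z := by
        rw [hh]
        simp only
        ring
      rw [h2]
      refine (norm_sub_le _ _).trans (add_le_add ?_ (hub z))
      by_cases hzP : z ∈ P
      · have hzE : z ∈ E := ⟨⟨hz, hzP⟩, fun h0 => hzA (interior_subset h0)⟩
        rw [norm_mul, Complex.norm_real, Real.norm_of_nonneg (hτ01 z).1]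
        calc τ z * ‖(q.eval z)⁻¹ - fin (f z)‖ ≤ 1 * κ :=
              mul_le_mul (hτ01 z).2 (hDb z hzE) (norm_nonneg _) (by norm_num)
          _ = κ := one_mul κ
      · have hzB : z ∉ B := fun h0 => hzP (interior_subset (hBP h0))
        rw [hτB z hzB]
        simp [hκ0.le]
    calc ‖p.eval z - fin (f z)‖ ≤ ‖p.eval z - h z‖ + ‖h z - fin (f z)‖ := by
          have := norm_add_le (p.eval z - h z) (h z - fin (f z))
          rwa [sub_add_sub_cancel] at this
      _ ≤ η + (κ + C * κ) := by linarith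
      _ ≤ ((C + 1) * (2 * M ^ 2) + 3) * η := by
          rw [hκ]
          nlinarith
      _ < ε := hη2

end Q73.CM
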