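import Pool.Agent.Q73.CM.Stm

/-!
# Project CM, job GA (helper65): windows with many pieces bound the Assouad dimension from below
-/

set_option autoImplicit false

namespace Pool.Agent.Q73.CM

open Set Filter Topology MeasureTheory

namespace GA

/-- comparison of exponents -/
theorem exp_le {c C s s' : ℝ} (hc : 0 < c) (hC : 0 < C)
    (h : ∀ δ : ℝ, 0 < δ → δ < 1 → c * δ ^ (-s) ≤ C * δ ^ (-s')) : s ≤ s' := by
  by_contra hlt
  rw [not_le] at hlt
  obtain ⟨e, he⟩ : ∃ e : ℝ, e = s - s' := ⟨_, rfl⟩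
  have he0 : 0 < e := by rw [he]; linarith
  obtain ⟨A, hA⟩ : ∃ A : ℝ, A = C / c + 2 := ⟨_, rfl⟩
  have hA1 : 1 < A := by
    rw [hA]
    have := div_pos hC hc
    linarith
  have hA0 : 0 < A := by linarith
  have hd0 : 0 < A ^ (-(1 / e)) := Real.rpow_pos_of_pos hA0 _
  have hd1 : A ^ (-(1 / e)) < 1 :=
    Real.rpow_lt_one_of_one_lt_of_neg hA1 (by have := one_div_pos.2 he0; linarith)
  have h1 := h _ hd0 hd1
  have h2 : (A ^ (-(1 / e))) ^ (-s) = (A ^ (-(1 / e))) ^ (-s') * A := by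
    have e1 : -s = -s' + -e := by rw [he]; ring
    rw [e1, Real.rpow_add hd0, ← Real.rpow_mul hA0.le (-(1 / e)) (-e)]
    have e2 : -(1 / e) * -e = 1 := by field_simp
    rw [e2, Real.rpow_one]
  rw [h2] at h1
  have h3 : 0 < (A ^ (-(1 / e))) ^ (-s') := Real.rpow_pos_of_pos hd0 _
  have h4 : c * ((A ^ (-(1 / e))) ^ (-s') * A) =
      (C + 2 * c) * (A ^ (-(1 / e))) ^ (-s') := by
    have : c * A = C + 2 * c := by
      rw [hA]
      field_simp
    rw [← this]
    ring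
  rw [h4] at h1
  have h5 := le_of_mul_le_mul_right h1 h3
  linarith

end GA

theorem t_GA : S_GA := by
  intro X _ F s hne hB
  obtain ⟨c, hc, hw⟩ := hB
  refine le_csInf hne ?_
  rintro s' ⟨_, C, hC, hA⟩
  refine GA.exp_le hc hC fun δ hδ hδ1 => ?_
  obtain ⟨x, hx, R, hR, hle⟩ := hw δ hδ hδ1
  refine hle.trans ?_
  have h1 := hA (δ * R) R (by positivity) (by nlinarith) x hx
  refine h1.trans (le_of_eq ?_)
  have h2 : R / (δ * R) = δ⁻¹ := by field_simp
  rw [h2, Real.inv_rpow hδ.le, Real.rpow_neg hδ.le]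

end Pool.Agent.Q73.CM
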