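import Pool.Agent.Q73.CM.GA

/-!
# Project CM, job GL (helper65): windows with few pieces bound the lower dimension from above
-/

set_option autoImplicit false

namespace Pool.Agent.Q73.CM

open Set Filter Topology MeasureTheory

theorem t_GL : S_GL := by
  intro X _ F s hs hS
  obtain ⟨C, hC, hw⟩ := hS
  refine Real.sSup_le ?_ hs
  rintro s' ⟨_, c, hc, hA⟩
  refine GA.exp_le hc hC fun δ hδ hδ1 => ?_
  obtain ⟨x, hx, R, hR, hRd, hle⟩ := hw δ hδ hδ1
  refine le_trans ?_ hle
  have h1 := hA (δ * R) R (by positivity) (by nlinarith) hRd x hx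
  refine le_trans (le_of_eq ?_) h1
  have h2 : R / (δ * R) = δ⁻¹ := by field_simp
  rw [h2, Real.inv_rpow hδ.le, Real.rpow_neg hδ.le]

end Pool.Agent.Q73.CM
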