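import Pool.Agent.Q73.CM.Stm

/-!
# Project CM, job GP (helper65): planar sets have finite Assouad dimension
-/

set_option autoImplicit false

namespace Pool.Agent.Q73.CM

open Set Filter Topology MeasureTheory

namespace GP

/-- a grid cell -/
def cell (x : EuclideanSpace ℝ (Fin 2)) (R h : ℝ) (i j : ℕ) : Set (EuclideanSpace ℝ (Fin 2)) :=
  {y | x 0 - R + i * h ≤ y 0 ∧ y 0 ≤ x 0 - R + (i + 1) * h ∧
    x 1 - R + j * h ≤ y 1 ∧ y 1 ≤ x 1 - R + (j + 1) * h}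

theorem cell_ediam (x : EuclideanSpace ℝ (Fin 2)) (R : ℝ) {h : ℝ} (hh : 0 < h) (i j : ℕ) :
    Metric.ediam (cell x R h i j) ≤ ENNReal.ofReal (2 * h) := by
  refine Metric.ediam_le fun y hy z hz => ?_
  obtain ⟨a1, a2, a3, a4⟩ := hy
  obtain ⟨b1, b2, b3, b4⟩ := hz
  rw [edist_dist]
  refine ENNReal.ofReal_le_ofReal ?_
  rw [EuclideanSpace.dist_eq, Fin.sum_univ_two]
  refine Real.sqrt_le_iff.2 ⟨by positivity, ?_⟩
  have h1 : |y 0 - z 0| ≤ h := abs_le.2 ⟨by nlinarith, by nlinarith⟩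
  have h2 : |y 1 - z 1| ≤ h := abs_le.2 ⟨by nlinarith, by nlinarith⟩
  rw [Real.dist_eq, Real.dist_eq, sq_abs, sq_abs]
  have e1 : (y 0 - z 0) ^ 2 ≤ h ^ 2 := by
    rw [← sq_abs]
    exact pow_le_pow_left₀ (abs_nonneg _) h1 2
  have e2 : (y 1 - z 1) ^ 2 ≤ h ^ 2 := by
    rw [← sq_abs]
    exact pow_le_pow_left₀ (abs_nonneg _) h2 2
  nlinarith

theorem index {t R h : ℝ} (hh : 0 < h) (ht : |t| ≤ R) :
    ∃ i : ℕ, i < ⌊2 * R / h⌋₊ + 1 ∧ -R + i * h ≤ t ∧ t ≤ -R + (i + 1) * h := by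
  obtain ⟨h1, h2⟩ := abs_le.1 ht
  have h0 : 0 ≤ (t + R) / h := div_nonneg (by linarith) hh.le
  refine ⟨⌊(t + R) / h⌋₊, ?_, ?_, ?_⟩
  · refine Nat.lt_succ_of_le (Nat.floor_le_floor (div_le_div_of_nonneg_right (by linarith) hh.le))
  · have := Nat.floor_le h0
    rw [le_div_iff₀ hh] at this
    linarith
  · have := Nat.lt_floor_add_one ((t + R) / h)
    rw [div_lt_iff₀ hh] at this
    linarith

theorem cover (x : EuclideanSpace ℝ (Fin 2)) {R h : ℝ} (hh : 0 < h) :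
    Metric.closedBall x R ⊆ ⋃ p : Fin ((⌊2 * R / h⌋₊ + 1) * (⌊2 * R / h⌋₊ + 1)),
      cell x R h (finProdFinEquiv.symm p).1 (finProdFinEquiv.symm p).2 := by
  intro y hy
  rw [Metric.mem_closedBall, dist_eq_norm] at hy
  have h0 : |y 0 - x 0| ≤ R := (PiLp.norm_apply_le (y - x) 0).trans hy
  have h1 : |y 1 - x 1| ≤ R := (PiLp.norm_apply_le (y - x) 1).trans hy
  obtain ⟨i, hi, hi1, hi2⟩ := index hh h0
  obtain ⟨j, hj, hj1, hj2⟩ := index hh h1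
  rw [mem_iUnion]
  refine ⟨finProdFinEquiv (⟨i, hi⟩, ⟨j, hj⟩), ?_⟩
  rw [Equiv.symm_apply_apply]
  refine ⟨?_, ?_, ?_, ?_⟩
  · simp only
    linarith
  · simp only
    linarith
  · simp only
    linarith
  · simp only
    linarith

end GP

theorem t_GP : S_GP := by
  intro F _
  refine ⟨2, by norm_num, 25, by norm_num, fun r R hr hrR x _ => ?_⟩
  have hh : 0 < r / 2 := by positivity
  have h1 : covN r (Metric.closedBall x R ∩ F) ≤
      (⌊2 * R / (r / 2)⌋₊ + 1) * (⌊2 * R / (r / 2)⌋₊ + 1) := by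
    unfold covN
    refine Nat.sInf_le ⟨fun p => GP.cell x R (r / 2) (finProdFinEquiv.symm p).1 (finProdFinEquiv.symm p).2,
      fun p => ?_, inter_subset_left.trans (GP.cover x hh)⟩
    have := GP.cell_ediam x R hh (finProdFinEquiv.symm p).1 (finProdFinEquiv.symm p).2
    rwa [show 2 * (r / 2) = r by ring] at this
  have h2 : (covN r (Metric.closedBall x R ∩ F) : ℝ) ≤
      ((⌊2 * R / (r / 2)⌋₊ : ℝ) + 1) * ((⌊2 * R / (r / 2)⌋₊ : ℝ) + 1) := by exact_mod_cast h1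
  have h3 : (⌊2 * R / (r / 2)⌋₊ : ℝ) ≤ 2 * R / (r / 2) :=
    Nat.floor_le (div_nonneg (by linarith) hh.le)
  have h4 : 2 * R / (r / 2) = 4 * (R / r) := by
    field_simp
    ring
  have h5 : 1 ≤ R / r := (one_le_div hr).2 hrR.le
  have h3' := h3.trans_eq h4
  rw [Real.rpow_two]
  refine h2.trans ?_
  have h6 : (⌊2 * R / (r / 2)⌋₊ : ℝ) + 1 ≤ 5 * (R / r) := by linarith
  have h7 : 0 ≤ (⌊2 * R / (r / 2)⌋₊ : ℝ) + 1 := by positivity
  nlinarith [mul_le_mul h6 h6 h7 (by positivity)]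

end Pool.Agent.Q73.CM
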