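import Pool.Agent.Q73.CM.Stm

/-!
# Mixed-type carpets: job HA (project CM, MP_0a98f6_an)
-/

set_option autoImplicit false

namespace Pool.Agent.Q73.CM.HA

open Set Filter Topology MeasureTheory

/-- convergence of the means of all functions from that of the indicator functions -/
lemma all_of_single {ι : Type*} [Fintype ι] [DecidableEq ι] (ω : ℕ → ι) (q : ι → ℝ)
    (h : ∀ i : ι, Tendsto (fun N : ℕ =>
      (∑ t ∈ Finset.range N, (Pi.single i (1 : ℝ) : ι → ℝ) (ω t)) / (N : ℝ)) atTop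
      (𝓝 (∑ i', q i' * (Pi.single i (1 : ℝ) : ι → ℝ) i'))) (f : ι → ℝ) :
    Tendsto (fun N : ℕ => (∑ t ∈ Finset.range N, f (ω t)) / (N : ℝ)) atTop
      (𝓝 (∑ i, q i * f i)) := by
  have hf : ∀ x, f x = ∑ i, f i * (Pi.single i (1 : ℝ) : ι → ℝ) x := by
    intro x
    rw [Finset.sum_eq_single x]
    · simp
    · intro b _ hb
      rw [Pi.single_eq_of_ne (Ne.symm hb), mul_zero]
    · intro hx
      exact absurd (Finset.mem_univ x) hx
  have h1 := tendsto_finset_sum (Finset.univ : Finset ι) fun i _ => (h i).const_mul (f i)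
  have h2 : (fun N : ℕ => ∑ i, f i *
      ((∑ t ∈ Finset.range N, (Pi.single i (1 : ℝ) : ι → ℝ) (ω t)) / (N : ℝ)))
      = fun N : ℕ => (∑ t ∈ Finset.range N, f (ω t)) / (N : ℝ) := by
    funext N
    have : ∑ t ∈ Finset.range N, f (ω t)
        = ∑ t ∈ Finset.range N, ∑ i, f i * (Pi.single i (1 : ℝ) : ι → ℝ) (ω t) :=
      Finset.sum_congr rfl fun t _ => hf (ω t)
    rw [this, Finset.sum_comm, Finset.sum_div]
    refine Finset.sum_congr rfl fun i _ => ?_
    rw [← Finset.mul_sum]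
    ring
  have h3 : ∑ i, f i * ∑ i', q i' * (Pi.single i (1 : ℝ) : ι → ℝ) i' = ∑ i, q i * f i := by
    refine Finset.sum_congr rfl fun i _ => ?_
    rw [Finset.sum_eq_single i]
    · rw [Pi.single_eq_same]
      ring
    · intro b _ hb
      rw [Pi.single_eq_of_ne hb, mul_zero]
    · intro hx
      exact absurd (Finset.mem_univ i) hx
  rw [h2, h3] at h1
  exact h1

end Pool.Agent.Q73.CM.HA

namespace Pool.Agent.Q73.CM

open Set Filter Topology MeasureTheory

theorem t_HA : S_HA := by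
  intro hCOD hCNT hCYL hLLN hLOC hMD m n G I F hF q hq hle
  obtain ⟨π, hπ⟩ := hCOD m n G I F hF
  obtain ⟨hP, hmemI, hlln⟩ := hLLN m n I q hq
  haveI : IsProbabilityMeasure (bern q) := by
    unfold bern
    infer_instance
  have key : ∀ s : ℝ, 0 < s →
      s < entA q / lamA I G.a q + (ent I q - entA q) / lamB I G.b q →
      ENNReal.ofReal s ≤ dimH F := by
    intro s hs hsD
    refine hMD hCNT m n G I F π hπ (bern q) inferInstance s hs ?_
    have hb : ∀ᵐ ω ∂(bern q), ∀ i : Fin m × Fin n, Tendsto (fun N : ℕ =>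
        (∑ t ∈ Finset.range N, (Pi.single i (1 : ℝ) : Fin m × Fin n → ℝ) (ω t)) / (N : ℝ))
        atTop (𝓝 (∑ i', q i' * (Pi.single i (1 : ℝ) : Fin m × Fin n → ℝ) i')) :=
      ae_all_iff.2 fun i => hlln _
    filter_upwards [hmemI, hb] with ω h1 h2
    refine ⟨h1, ?_⟩
    have h3 := hLOC m n G I q hq hle ω h1 (HA.all_of_single ω q h2) s hsD
    filter_upwards [h3, Ioo_mem_nhdsGT (zero_lt_one (α := ℝ))] with r hr hr1
    exact (hCYL m n G I q hq r hr1.1 hr1.2 ω).trans (ENNReal.ofReal_le_ofReal hr)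
  refine ENNReal.le_of_forall_nnreal_lt fun r hr => ?_
  rcases eq_or_ne r 0 with h0 | h0
  · rw [h0]
    simp
  · have hr0 : 0 < (r : ℝ) := NNReal.coe_pos.2 (pos_iff_ne_zero.2 h0)
    rw [← ENNReal.ofReal_coe_nnreal] at hr ⊢
    exact key r hr0 ((ENNReal.ofReal_lt_ofReal_iff_of_nonneg hr0.le).1 hr)

end Pool.Agent.Q73.CM
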