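import Pool.Agent.Q73.CM.AS

/-!
# Project CM (helper73), job LO: small windows in long and thin cylinders (helper142)
-/

set_option autoImplicit false

open Set Filter Topology MeasureTheory

namespace Pool.Agent.Q73.CM

namespace LO

open AS

variable {m n : ℕ}

theorem sep {u a : Fin m → ℝ} (h : Ints u a) (w : List (Fin m)) :
    ∀ w' : List (Fin m), w.length = w'.length → w ≠ w' →
      wleft u a w + wlen a w ≤ wleft u a w' ∨ wleft u a w' + wlen a w' ≤ wleft u a w := by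
  induction w with
  | nil =>
    intro w' h1 h2
    exact absurd (List.length_eq_zero_iff.1 h1.symm).symm h2
  | cons j v ih =>
    intro w' h1 h2
    cases w' with
    | nil => simp at h1
    | cons j' v' =>
      have hlen : v.length = v'.length := by simpa using h1
      simp only [wleft, wlen]
      have aj := h.a_pos j
      have aj' := h.a_pos j'
      have n1 := mul_nonneg aj.le (wleft_nonneg h v)
      have n2 := mul_nonneg aj'.le (wleft_nonneg h v')
      have m1 := mul_le_mul_of_nonneg_left (wleft_add_le h v) aj.le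
      have m2 := mul_le_mul_of_nonneg_left (wleft_add_le h v') aj'.le
      rcases lt_trichotomy j j' with hj | hj | hj
      · left
        have := h.u_sep j j' hj
        linarith
      · have hv : v ≠ v' := by
          intro hv
          exact h2 (by rw [hj, hv])
        rw [← hj]
        rcases ih v' hlen hv with h3 | h3
        · left
          have := mul_le_mul_of_nonneg_left h3 aj.le
          linarith
        · right
          have := mul_le_mul_of_nonneg_left h3 aj.le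
          linarith
      · right
        have := h.u_sep j' j hj
        linarith

/-- A point of the open interval of `w` which is in the interval of `w'`. -/
theorem eq_of_mem {u a : Fin m → ℝ} (h : Ints u a) {w w' : List (Fin m)}
    (hl : w'.length = w.length) {x : ℝ} (h1 : wleft u a w < x) (h2 : x < wleft u a w + wlen a w)
    {y : ℝ} (hy : y ∈ Icc (0 : ℝ) 1) (hx : x = wlen a w' * y + wleft u a w') : w' = w := by
  by_contra hne
  have p := wlen_pos h w'
  have q1 := mul_nonneg p.le hy.1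
  have q2 := mul_le_of_le_one_right p.le hy.2
  rcases sep h w' w hl hne with h3 | h3 <;> linarith

theorem mid {u a : Fin m → ℝ} (h : Ints u a) {j j' : Fin m} (hj : j < j') :
    0 < wleft u a [j', j] ∧ wleft u a [j', j] + wlen a [j', j] < 1 := by
  simp only [wleft, wlen, mul_zero, add_zero, mul_one]
  have h1 := h.a_pos j
  have h2 := h.a_pos j'
  have h3 := h.u_nonneg j
  have h4 := h.u_sep j j' hj
  have h5 := h.u_le j'
  have h6 := mul_nonneg h2.le h3
  have h7 : a j' * (u j + a j) < a j' * 1 := mul_lt_mul_of_pos_left (by linarith) h2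
  constructor
  · linarith
  · linarith

theorem exists_pair (S : Finset (Fin m)) (hS : 2 ≤ S.card) : ∃ j ∈ S, ∃ j' ∈ S, j < j' := by
  obtain ⟨a, ha, b, hb, hab⟩ := Finset.one_lt_card.1 hS
  rcases lt_or_gt_of_ne hab with h | h
  · exact ⟨a, ha, b, hb, h⟩
  · exact ⟨b, hb, a, ha, h⟩

theorem small {u a : Fin m → ℝ} (h : Ints u a) (j0 : Fin m) {ε : ℝ} (hε : 0 < ε) :
    ∃ M : ℕ, ∀ w : List (Fin m), M ≤ w.length → wlen a w ≤ ε := by
  have : Nonempty (Fin m) := ⟨j0⟩
  obtain ⟨j1, hj1⟩ := Finite.exists_max a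
  obtain ⟨M, hM⟩ := exists_pow_lt_of_lt_one hε (h.a_lt j1)
  refine ⟨M, fun w hw => ?_⟩
  have h1 : wlen a w ≤ a j1 ^ w.length := by
    clear hw
    induction w with
    | nil => simp [wlen]
    | cons j w ih =>
      rw [wlen, List.length_cons, pow_succ']
      exact mul_le_mul (hj1 j) ih (wlen_pos h w).le (h.a_pos j1).le
  exact h1.trans ((pow_le_pow_of_le_one (h.a_pos j1).le (h.a_lt j1).le hw).trans hM.le)

theorem cyl_append (G : Grid m n) (w w' : List (Fin m × Fin n)) (z : ℝ × ℝ) :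
    cyl G (w ++ w') z = cyl G w (cyl G w' z) := by
  unfold cyl
  simp only [List.map_append, wlen_append, wleft_append]
  ext
  · ring
  · ring

theorem decomp {G : Grid m n} {I : Finset (Fin m × Fin n)} {F : Set (ℝ × ℝ)}
    (hF : IsAttr G I F) (M : ℕ) : ∀ z ∈ F, ∃ w : List (Fin m × Fin n), w.length = M ∧
      (∀ i ∈ w, i ∈ I) ∧ ∃ z' ∈ F, z = cyl G w z' := by
  induction M with
  | zero =>
    intro z hz
    refine ⟨[], rfl, by simp, z, hz, ?_⟩
    unfold cyl
    simp [wlen, wleft]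
  | succ M ih =>
    intro z hz
    have h1 : z ∈ ⋃ i ∈ I, G.map i '' F := by
      rw [← hF.2.2.2]
      exact hz
    obtain ⟨i, hi, z1, hz1, rfl⟩ := mem_iUnion₂.1 h1
    obtain ⟨w, hw, hwI, z', hz', rfl⟩ := ih z1 hz1
    refine ⟨i :: w, by simp [hw], ?_, z', hz', (cyl_cons G i w z').symm⟩
    intro i' hi'
    rcases List.mem_cons.1 hi' with rfl | h
    · exact hi
    · exact hwI i' h

theorem covN_le {X α : Type} [PseudoEMetricSpace X] (E : Set X) (r : ℝ) (S : Finset α)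
    (t : α → Set X) (h1 : ∀ a ∈ S, Metric.ediam (t a) ≤ ENNReal.ofReal r)
    (h2 : ∀ x ∈ E, ∃ a ∈ S, x ∈ t a) : covN r E ≤ S.card := by
  refine Nat.sInf_le ⟨fun i => t (S.equivFin.symm i).1, fun i => h1 _ (S.equivFin.symm i).2, ?_⟩
  intro x hx
  obtain ⟨a, ha, hxa⟩ := h2 x hx
  refine mem_iUnion.2 ⟨S.equivFin ⟨a, ha⟩, ?_⟩
  rw [Equiv.symm_apply_apply]
  exact hxa

theorem diam_pos {G : Grid m n} {I : Finset (Fin m × Fin n)} {F : Set (ℝ × ℝ)}
    (hF : IsAttr G I F) {i i' : Fin m × Fin n} (hi : i ∈ I) (hi' : i' ∈ I) (h : i.1 < i'.1) :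
    0 < Metric.diam F := by
  obtain ⟨z, hz⟩ := hF.1
  have m1 : G.map i z ∈ F := by
    have h2 : G.map i z ∈ ⋃ i ∈ I, G.map i '' F := mem_iUnion₂.2 ⟨i, hi, mem_image_of_mem _ hz⟩
    rw [← hF.2.2.2] at h2
    exact h2
  have m2 : G.map i' z ∈ F := by
    have h2 : G.map i' z ∈ ⋃ i ∈ I, G.map i '' F := mem_iUnion₂.2 ⟨i', hi', mem_image_of_mem _ hz⟩
    rw [← hF.2.2.2] at h2
    exact h2
  have hz1 := (hF.2.2.1 hz).1
  have hlt : (G.map i z).1 < (G.map i' z).1 := by
    show G.a i.1 * z.1 + G.u i.1 < G.a i'.1 * z.1 + G.u i'.1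
    have h1 := G.u_sep i.1 i'.1 h
    have h2 := G.a_pos i.1
    have h3 := G.a_pos i'.1
    rcases hz1.2.lt_or_eq with h4 | h4
    · have h5 : G.a i.1 * z.1 < G.a i.1 * 1 := mul_lt_mul_of_pos_left h4 h2
      have h6 : 0 ≤ G.a i'.1 * z.1 := mul_nonneg h3.le hz1.1
      linarith
    · rw [h4]
      linarith
  have hne : G.map i z ≠ G.map i' z := fun h => absurd (congrArg Prod.fst h) hlt.ne
  exact (dist_pos.2 hne).trans_le (Metric.dist_le_diam_of_mem hF.2.1.isBounded m1 m2)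

theorem ediam_rect (x0 y0 c d r : ℝ) (hc : c ≤ r) (hd : d ≤ r) :
    Metric.ediam (Icc x0 (x0 + c) ×ˢ Icc y0 (y0 + d)) ≤ ENNReal.ofReal r := by
  refine Metric.ediam_le_of_forall_dist_le fun p hp q hq => ?_
  rw [Prod.dist_eq, Real.dist_eq, Real.dist_eq]
  refine max_le ?_ ?_
  · rw [abs_le]
    constructor <;> linarith [hp.1.1, hp.1.2, hq.1.1, hq.1.2]
  · rw [abs_le]
    constructor <;> linarith [hp.2.1, hp.2.2, hq.2.1, hq.2.2]

end LO

open AS LO in
theorem t_LO : S_LO := by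
  intro hC1 m n G I F hF hcols hrows hI0 s t hs ht hsum k hk hsumt
  obtain ⟨i0, hi0, hab⟩ := hI0
  have hGa := ints_a G
  have hGb := ints_b G
  have hkk := hk
  unfold rows at hkk
  obtain ⟨⟨j0, k0⟩, hjk, hk0⟩ := Finset.mem_image.1 hkk
  simp only at hk0
  rw [hk0] at hjk
  have hj0 : j0 ∈ inRow I k := Finset.mem_filter.2 ⟨Finset.mem_univ _, hjk⟩
  obtain ⟨C1, hC1p, H1⟩ := hC1 m G.u G.a hGa (inRow I k) ⟨j0, hj0⟩ t ht hsumt
  obtain ⟨C2, hC2p, H2⟩ := hC1 n G.v G.b hGb (rows I) ⟨k, hk⟩ s hs hsum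
  have hbk := G.b_pos k
  have hbk1 := G.b_lt k
  obtain ⟨z0, hz0⟩ := hF.1
  have hz01 := hF.2.2.1 hz0
  -- the words e and f
  obtain ⟨j1, hj1, j2, hj2, hj12⟩ := exists_pair _ hcols
  obtain ⟨k1, hk1, k2, hk2, hk12⟩ := exists_pair _ hrows
  obtain ⟨e1, he1, rfl⟩ := Finset.mem_image.1 hj1
  obtain ⟨e2, he2, rfl⟩ := Finset.mem_image.1 hj2
  obtain ⟨f1, hf1, rfl⟩ := Finset.mem_image.1 hk1
  obtain ⟨f2, hf2, rfl⟩ := Finset.mem_image.1 hk2
  obtain ⟨mc1, mc2⟩ := mid hGa hj12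
  obtain ⟨mf1, mf2⟩ := mid hGb hk12
  have hdiam := diam_pos hF he1 he2 hj12
  obtain ⟨ρ, hρ⟩ : ∃ ρ, ρ = min (min (wleft G.u G.a [e2.1, e1.1])
    (1 - (wleft G.u G.a [e2.1, e1.1] + wlen G.a [e2.1, e1.1])))
    (G.b k * min (wleft G.v G.b [f2.2, f1.2])
    (1 - (wleft G.v G.b [f2.2, f1.2] + wlen G.b [f2.2, f1.2]))) / 2 := ⟨_, rfl⟩
  have hρ0 : 0 < ρ := by
    rw [hρ]
    exact half_pos (lt_min (lt_min mc1 (by linarith)) (mul_pos hbk (lt_min mf1 (by linarith))))
  have r1 : 2 * ρ ≤ wleft G.u G.a [e2.1, e1.1] := by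
    rw [hρ, mul_div_cancel₀ _ two_ne_zero]
    exact (min_le_left _ _).trans (min_le_left _ _)
  have r2 : 2 * ρ ≤ 1 - (wleft G.u G.a [e2.1, e1.1] + wlen G.a [e2.1, e1.1]) := by
    rw [hρ, mul_div_cancel₀ _ two_ne_zero]
    exact (min_le_left _ _).trans (min_le_right _ _)
  have r3 : 2 * ρ ≤ G.b k * wleft G.v G.b [f2.2, f1.2] := by
    rw [hρ, mul_div_cancel₀ _ two_ne_zero]
    exact (min_le_right _ _).trans (mul_le_mul_of_nonneg_left (min_le_left _ _) hbk.le)
  have r4 : 2 * ρ ≤ G.b k * (1 - (wleft G.v G.b [f2.2, f1.2] + wlen G.b [f2.2, f1.2])) := by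
    rw [hρ, mul_div_cancel₀ _ two_ne_zero]
    exact (min_le_right _ _).trans (mul_le_mul_of_nonneg_left (min_le_right _ _) hbk.le)
  have hρ1 : ρ ≤ 1 := by
    have := wlen_pos hGa [e2.1, e1.1]
    linarith
  refine ⟨(m ^ 2 + 1) * (C1 * C2 * ρ ^ (-(s + t))), by positivity, ?_⟩
  intro δ hδ hδ1
  have hρδ : 0 < ρ * δ := mul_pos hρ0 hδ
  have hρδ1 : ρ * δ ≤ 1 := mul_le_one₀ hρ1 hδ.le hδ1.le
  obtain ⟨T1, hT1, hT1c⟩ := H1 (ρ * δ) hρδ hρδ1
  obtain ⟨T2, hT2, hT2c⟩ := H2 (ρ * δ) hρδ hρδ1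
  obtain ⟨Lk, hLk⟩ := small hGa j0 hρδ
  obtain ⟨Mb, hMb⟩ := small hGb k hρδ
  have ha0 := G.a_pos i0.1
  have ha1 := G.a_lt i0.1
  have hb0 := G.b_pos i0.2
  obtain ⟨be, hbe⟩ : ∃ be, be = wlen G.b [e2.2, e1.2] := ⟨_, rfl⟩
  have hbe0 : 0 < be := by
    rw [hbe]
    exact wlen_pos hGb _
  have hN : ∃ N : ℕ, (G.a i0.1 / G.b i0.2) ^ N < be * G.b k ^ Lk ∧
      G.a i0.1 ^ N < Metric.diam F := by
    have t1 := tendsto_pow_atTop_nhds_zero_of_lt_one (div_pos ha0 hb0).le ((div_lt_one hb0).2 hab)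
    have t2 := tendsto_pow_atTop_nhds_zero_of_lt_one ha0.le ha1
    exact ((t1.eventually_lt_const (mul_pos hbe0 (pow_pos hbk Lk))).and
      (t2.eventually_lt_const hdiam)).exists
  obtain ⟨N, hN, hND⟩ := hN
  have hN2 : G.a i0.1 ^ N < G.b i0.2 ^ N * (be * G.b k ^ Lk) := by
    rw [div_pow, div_lt_iff₀ (pow_pos hb0 N)] at hN
    linarith
  obtain ⟨R, hR⟩ : ∃ R, R = G.a i0.1 ^ N := ⟨_, rfl⟩
  have hR0 : 0 < R := by
    rw [hR]
    positivity
  have hex : ∃ L : ℕ, G.b i0.2 ^ N * (be * G.b k ^ L) ≤ G.a i0.1 ^ N := by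
    obtain ⟨L, hL⟩ := exists_pow_lt_of_lt_one
      (div_pos (pow_pos ha0 N) (mul_pos (pow_pos hb0 N) hbe0)) hbk1
    refine ⟨L, ?_⟩
    rw [lt_div_iff₀ (mul_pos (pow_pos hb0 N) hbe0)] at hL
    linarith
  obtain ⟨L', hL1, hL2⟩ : ∃ L' : ℕ, G.b i0.2 ^ N * (be * G.b k ^ L') ≤ G.a i0.1 ^ N ∧
      ∀ L < L', G.a i0.1 ^ N < G.b i0.2 ^ N * (be * G.b k ^ L) := by
    classical
    exact ⟨Nat.find hex, Nat.find_spec hex, fun L hL => not_le.1 (Nat.find_min hex hL)⟩
  have hLL : Lk < L' := by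
    by_contra hcon
    push Not at hcon
    have h1 : G.b k ^ Lk ≤ G.b k ^ L' := pow_le_pow_of_le_one hbk.le hbk1.le hcon
    have h2 := mul_le_mul_of_nonneg_left (mul_le_mul_of_nonneg_left h1 hbe0.le)
      (pow_pos hb0 N).le
    linarith
  obtain ⟨rw0, hrw0⟩ : ∃ rw0, rw0 = List.replicate N i0.2 ++ ([e2.2, e1.2] ++
    List.replicate L' k) := ⟨_, rfl⟩
  obtain ⟨h, hh⟩ : ∃ h, h = wlen G.b rw0 := ⟨_, rfl⟩
  have hh2 : h = G.b i0.2 ^ N * (be * G.b k ^ L') := by
    rw [hh, hrw0, wlen_append, wlen_append, wlen_replicate, wlen_replicate, hbe]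
  have hh0 : 0 < h := by
    rw [hh2]
    positivity
  have hhR : h ≤ R := by
    rw [hh2, hR]
    exact hL1
  have hhR2 : G.b k * R < h := by
    have h1 := hL2 (L' - 1) (by omega)
    have h2 : G.b k ^ L' = G.b k * G.b k ^ (L' - 1) := by
      rw [← pow_succ']
      congr 1
      omega
    rw [hh2, hR, h2]
    have h3 := mul_lt_mul_of_pos_left h1 hbk
    linarith
  obtain ⟨U0, hU0⟩ : ∃ U0, U0 = wleft G.u G.a (List.replicate N i0.1) := ⟨_, rfl⟩
  obtain ⟨V0, hV0⟩ : ∃ V0, V0 = wleft G.v G.b rw0 := ⟨_, rfl⟩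
  -- the centre
  obtain ⟨Om, hOm⟩ : ∃ Om : List (Fin m × Fin n), Om = List.replicate N i0 ++ ([e2, e1] ++
      (List.replicate L' (j0, k) ++ [f2, f1])) := ⟨_, rfl⟩
  have hOm1 : Om.map Prod.fst = List.replicate N i0.1 ++ ([e2.1, e1.1] ++
      (List.replicate L' j0 ++ [f2.1, f1.1])) := by
    rw [hOm]
    simp [List.map_append]
  have hOm2 : Om.map Prod.snd = rw0 ++ ([f2.2, f1.2] ++ []) := by
    rw [hOm, hrw0]
    simp [List.map_append]
  have hOmI : ∀ i ∈ Om, i ∈ I := by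
    intro i hi
    rw [hOm, List.mem_append, List.mem_append, List.mem_append] at hi
    rcases hi with hi | hi | hi | hi
    · rw [List.eq_of_mem_replicate hi]
      exact hi0
    · simp only [List.mem_cons, List.not_mem_nil, or_false] at hi
      rcases hi with rfl | rfl
      · exact he2
      · exact he1
    · rw [List.eq_of_mem_replicate hi]
      exact hjk
    · simp only [List.mem_cons, List.not_mem_nil, or_false] at hi
      rcases hi with rfl | rfl
      · exact hf2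
      · exact hf1
  obtain ⟨c, hc⟩ : ∃ c, c = cyl G Om z0 := ⟨_, rfl⟩
  have hcF : c ∈ F := by
    rw [hc]
    exact cyl_mem hF _ hOmI hz0
  have hcx : c.1 ∈ Icc (U0 + R * wleft G.u G.a [e2.1, e1.1])
      (U0 + R * (wleft G.u G.a [e2.1, e1.1] + wlen G.a [e2.1, e1.1])) := by
    have h1 := coord hGa (List.replicate N i0.1) [e2.1, e1.1]
      (List.replicate L' j0 ++ [f2.1, f1.1]) hz01.1
    rw [wlen_replicate, ← hR, ← hU0] at h1
    have h2 : c.1 = wlen G.a (Om.map Prod.fst) * z0.1 + wleft G.u G.a (Om.map Prod.fst) := by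
      rw [hc]
      rfl
    rw [h2, hOm1]
    exact h1
  have hcy : c.2 ∈ Icc (V0 + h * wleft G.v G.b [f2.2, f1.2])
      (V0 + h * (wleft G.v G.b [f2.2, f1.2] + wlen G.b [f2.2, f1.2])) := by
    have h1 := coord hGb rw0 [f2.2, f1.2] [] hz01.2
    rw [← hh, ← hV0] at h1
    have h2 : c.2 = wlen G.b (Om.map Prod.snd) * z0.2 + wleft G.v G.b (Om.map Prod.snd) := by
      rw [hc]
      rfl
    rw [h2, hOm2]
    exact h1
  refine ⟨c, hcF, ρ * R, mul_pos hρ0 hR0, ?_, ?_⟩
  · have h1 : ρ * R ≤ 1 * R := mul_le_mul_of_nonneg_right hρ1 hR0.le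
    rw [one_mul] at h1
    exact h1.trans (hR ▸ hND.le)
  -- the cover
  obtain ⟨tt, htt⟩ : ∃ tt : (Fin m × Fin m) × (ℝ × ℝ) → Set (ℝ × ℝ), ∀ q, tt q =
      Icc (U0 + R * (wleft G.u G.a [q.1.1, q.1.2] + wlen G.a [q.1.1, q.1.2] * q.2.1))
        (U0 + R * (wleft G.u G.a [q.1.1, q.1.2] + wlen G.a [q.1.1, q.1.2] * q.2.1)
          + R * wlen G.a [q.1.1, q.1.2] * (ρ * δ)) ×ˢ
      Icc (V0 + h * q.2.2) (V0 + h * q.2.2 + h * (ρ * δ)) := ⟨_, fun _ => rfl⟩
  have hcov := covN_le (Metric.closedBall c (ρ * R) ∩ F) (δ * (ρ * R))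
    ((Finset.univ : Finset (Fin m × Fin m)) ×ˢ (T1 ×ˢ T2)) tt
    (fun q _ => by
      rw [htt]
      refine ediam_rect _ _ _ _ _ ?_ ?_
      · have h1 := mul_le_mul_of_nonneg_left (wlen_le_one hGa [q.1.1, q.1.2]) hR0.le
        have h2 := mul_le_mul_of_nonneg_right h1 hρδ.le
        linarith
      · have h2 := mul_le_mul_of_nonneg_right hhR hρδ.le
        linarith)
    (fun z hz => by
      obtain ⟨hzb, hzF⟩ := hz
      rw [Metric.mem_closedBall, Prod.dist_eq, Real.dist_eq, Real.dist_eq] at hzb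
      have b1 := abs_le.1 ((le_max_left _ _).trans hzb)
      have b2 := abs_le.1 ((le_max_right _ _).trans hzb)
      obtain ⟨w0, hw0, hw0I, z1, hz1, rfl⟩ := decomp hF N z hzF
      obtain ⟨w1, hw1, hw1I, z2, hz2, rfl⟩ := decomp hF 2 z1 hz1
      obtain ⟨w2, hw2, hw2I, z3, hz3, rfl⟩ := decomp hF L' z2 hz2
      have hz11 := (hF.2.2.1 hz1).1
      have hz31 := hF.2.2.1 hz3
      -- first coordinates
      obtain ⟨X, hX⟩ : ∃ X, X = (cyl G w0 (cyl G w1 (cyl G w2 z3))).1 := ⟨_, rfl⟩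
      obtain ⟨Y, hY⟩ : ∃ Y, Y = (cyl G w0 (cyl G w1 (cyl G w2 z3))).2 := ⟨_, rfl⟩
      rw [← hX] at b1
      rw [← hY] at b2
      have hw0c : w0.map Prod.fst = List.replicate N i0.1 := by
        refine eq_of_mem hGa (by simp [hw0]) (x := X) ?_ ?_ hz11 hX
        · rw [← hU0]
          have h1 := mul_le_mul_of_nonneg_left r1 hR0.le
          have h2 := mul_pos hρ0 hR0
          linarith [hcx.1]
        · rw [← hU0, wlen_replicate, ← hR]
          have h1 := mul_le_mul_of_nonneg_left r2 hR0.le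
          have h2 := mul_pos hρ0 hR0
          linarith [hcx.2]
      have hYe : Y = wlen G.b ((w0 ++ (w1 ++ w2)).map Prod.snd) * z3.2 +
          wleft G.v G.b ((w0 ++ (w1 ++ w2)).map Prod.snd) := by
        rw [hY, ← cyl_append G w1 w2, ← cyl_append G w0]
        rfl
      have hrows : (w0 ++ (w1 ++ w2)).map Prod.snd = rw0 := by
        refine eq_of_mem hGb (by rw [hrw0]; simp [hw0, hw1, hw2]; omega) (x := Y) ?_ ?_ hz31.2 hYe
        · rw [← hV0]
          have h0 := wleft_nonneg hGb [f2.2, f1.2]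
          have h1 := mul_le_mul_of_nonneg_left r3 hR0.le
          have h2 := mul_pos hρ0 hR0
          have h3 := mul_le_mul_of_nonneg_right hhR2.le h0
          linarith [hcy.1]
        · rw [← hV0, ← hh]
          have h0 : 0 ≤ 1 - (wleft G.v G.b [f2.2, f1.2] + wlen G.b [f2.2, f1.2]) := by linarith
          have h1 := mul_le_mul_of_nonneg_left r4 hR0.le
          have h2 := mul_pos hρ0 hR0
          have h3 := mul_le_mul_of_nonneg_right hhR2.le h0
          linarith [hcy.2]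
      have hw2r : w2.map Prod.snd = List.replicate L' k := by
        rw [hrw0, List.map_append, List.map_append] at hrows
        have h1 := List.append_inj_right hrows (by simp [hw0])
        exact List.append_inj_right h1 (by simp [hw1])
      have hw2c : ∀ j ∈ w2.map Prod.fst, j ∈ inRow I k := by
        intro j hj
        obtain ⟨i, hi, rfl⟩ := List.mem_map.1 hj
        have h1 : i.2 ∈ w2.map Prod.snd := List.mem_map_of_mem hi
        rw [hw2r] at h1
        have h2 := List.eq_of_mem_replicate h1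
        refine Finset.mem_filter.2 ⟨Finset.mem_univ _, ?_⟩
        rw [← h2]
        exact hw2I i hi
      obtain ⟨x, hxT, hx⟩ := hT1c (w2.map Prod.fst) hw2c (hLk _ (by simp [hw2, hLL.le]))
      -- second coordinates
      obtain ⟨w3, hw3, hw3I, z4, hz4, hz34⟩ := decomp hF Mb z3 hz3
      have hz41 := hF.2.2.1 hz4
      have hw3c : ∀ j ∈ w3.map Prod.snd, j ∈ rows I := by
        intro j hj
        obtain ⟨i, hi, rfl⟩ := List.mem_map.1 hj
        exact Finset.mem_image_of_mem _ (hw3I i hi)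
      obtain ⟨y, hyT, hy⟩ := hT2c (w3.map Prod.snd) hw3c (hMb _ (by simp [hw3]))
      -- the column word of w1
      obtain ⟨g1, g2, hg⟩ := List.length_eq_two.1 (show (w1.map Prod.fst).length = 2 by simp [hw1])
      refine ⟨((g1, g2), (x, y)), Finset.mem_product.2 ⟨Finset.mem_univ _,
        Finset.mem_product.2 ⟨hxT, hyT⟩⟩, ?_⟩
      rw [htt]
      have hXe : X = R * (wlen G.a [g1, g2] * (cyl G w2 z3).1 + wleft G.u G.a [g1, g2]) + U0 := by
        rw [hX, hU0, hR, ← wlen_replicate, ← hw0c, ← hg]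
        rfl
      have hx2 : (cyl G w2 z3).1 ∈ Icc x (x + ρ * δ) := by
        apply hx
        have p := wlen_pos hGa (w2.map Prod.fst)
        have q1 := mul_nonneg p.le hz31.1.1
        have q2 := mul_le_of_le_one_right p.le hz31.1.2
        show wlen G.a (w2.map Prod.fst) * z3.1 + wleft G.u G.a (w2.map Prod.fst) ∈ _
        exact ⟨by linarith, by linarith⟩
      have hy2 : z3.2 ∈ Icc y (y + ρ * δ) := by
        apply hy
        have p := wlen_pos hGb (w3.map Prod.snd)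
        have q1 := mul_nonneg p.le hz41.2.1
        have q2 := mul_le_of_le_one_right p.le hz41.2.2
        have h1 : z3.2 = wlen G.b (w3.map Prod.snd) * z4.2 + wleft G.v G.b (w3.map Prod.snd) := by
          rw [hz34]
          rfl
        rw [h1]
        exact ⟨by linarith, by linarith⟩
      rw [hrows, ← hh, ← hV0] at hYe
      have p12 := wlen_pos hGa [g1, g2]
      refine mem_prod.2 ⟨?_, ?_⟩
      · rw [← hX, hXe]
        have q1 := mul_le_mul_of_nonneg_left (mul_le_mul_of_nonneg_left hx2.1 p12.le) hR0.le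
        have q2 := mul_le_mul_of_nonneg_left (mul_le_mul_of_nonneg_left hx2.2 p12.le) hR0.le
        constructor
        · linarith
        · linarith
      · rw [← hY, hYe]
        have q1 := mul_le_mul_of_nonneg_left hy2.1 hh0.le
        have q2 := mul_le_mul_of_nonneg_left hy2.2 hh0.le
        constructor
        · linarith
        · linarith)
  rw [Finset.card_product, Finset.card_product, Finset.card_univ, Fintype.card_prod,
    Fintype.card_fin] at hcov
  have hcov2 : (covN (δ * (ρ * R)) (Metric.closedBall c (ρ * R) ∩ F) : ℝ) ≤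
      (m * m) * ((T1.card : ℝ) * T2.card) := by exact_mod_cast hcov
  refine hcov2.trans ?_
  have e1 : (T1.card : ℝ) * T2.card ≤ (C1 * (ρ * δ) ^ (-t)) * (C2 * (ρ * δ) ^ (-s)) :=
    mul_le_mul hT1 hT2 (Nat.cast_nonneg _) (by positivity)
  have e2 : (C1 * (ρ * δ) ^ (-t)) * (C2 * (ρ * δ) ^ (-s)) =
      C1 * C2 * ρ ^ (-(s + t)) * δ ^ (-(s + t)) := by
    have e3 : (ρ * δ) ^ (-t) * (ρ * δ) ^ (-s) = ρ ^ (-(s + t)) * δ ^ (-(s + t)) := by
      rw [← Real.rpow_add hρδ, ← Real.mul_rpow hρ0.le hδ.le]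
      congr 1
      ring
    calc (C1 * (ρ * δ) ^ (-t)) * (C2 * (ρ * δ) ^ (-s))
        = C1 * C2 * ((ρ * δ) ^ (-t) * (ρ * δ) ^ (-s)) := by ring
      _ = _ := by rw [e3]; ring
  rw [e2] at e1
  have e4 : 0 ≤ C1 * C2 * ρ ^ (-(s + t)) * δ ^ (-(s + t)) := by positivity
  have e5 : ((m : ℝ) * m) * ((T1.card : ℝ) * T2.card) ≤
      ((m : ℝ) * m) * (C1 * C2 * ρ ^ (-(s + t)) * δ ^ (-(s + t))) :=
    mul_le_mul_of_nonneg_left e1 (by positivity)
  refine e5.trans ?_
  have e6 : ((m : ℝ) ^ 2 + 1) * (C1 * C2 * ρ ^ (-(s + t))) * δ ^ (-(s + t)) =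
      ((m : ℝ) * m) * (C1 * C2 * ρ ^ (-(s + t)) * δ ^ (-(s + t))) +
        C1 * C2 * ρ ^ (-(s + t)) * δ ^ (-(s + t)) := by ring
  rw [e6]
  linarith

end Pool.Agent.Q73.CM
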