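import Mathlib
import Pool.Agent.Q73.CM.Stm

set_option autoImplicit false

/-! Project CM: the weights of the approximate squares of a typical point. -/

namespace Pool.Agent.Q73.CM.LOC

open Set Filter Topology MeasureTheory

/-- the first `N` with `p N ≤ r` -/
noncomputable def kap (p : ℕ → ℝ) (r : ℝ) : ℕ := sInf {N | p N ≤ r}

theorem neg_log_tendsto : Tendsto (fun r : ℝ => -Real.log r) (𝓝[>] 0) atTop :=
  tendsto_neg_atBot_atTop.comp Real.tendsto_log_nhdsGT_zero

theorem p_tendsto {p : ℕ → ℝ} (hp : ∀ N, 0 < p N) {lam : ℝ} (hlam : 0 < lam)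
    (h : Tendsto (fun N : ℕ => (-Real.log (p N)) / (N : ℝ)) atTop (𝓝 lam)) (r : ℝ) (hr : 0 < r) :
    ∃ N, p N ≤ r := by
  have h1 : Tendsto (fun N : ℕ => ((-Real.log (p N)) / (N : ℝ)) * (N : ℝ)) atTop atTop :=
    h.pos_mul_atTop hlam tendsto_natCast_atTop_atTop
  have h2 := (h1.eventually_ge_atTop (-Real.log r)).and (eventually_gt_atTop 0)
  obtain ⟨N, hN, hN0⟩ := h2.exists
  refine ⟨N, ?_⟩
  have hN' : (N : ℝ) ≠ 0 := by exact_mod_cast hN0.ne'
  rw [div_mul_cancel₀ _ hN'] at hN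
  exact (Real.log_le_log_iff (hp N) hr).1 (by linarith)

theorem kap_atTop {p : ℕ → ℝ} (hp : ∀ N, 0 < p N) {lam : ℝ} (hlam : 0 < lam)
    (h : Tendsto (fun N : ℕ => (-Real.log (p N)) / (N : ℝ)) atTop (𝓝 lam)) :
    Tendsto (kap p) (𝓝[>] 0) atTop := by
  rw [tendsto_atTop]
  intro b
  have h1 : ∀ᶠ r in 𝓝[>] (0 : ℝ), ∀ N ∈ Finset.range b, r < p N := by
    rw [Filter.eventually_all_finset]
    intro N _
    exact mem_nhdsWithin_of_mem_nhds (Iio_mem_nhds (hp N))
  filter_upwards [h1, self_mem_nhdsWithin] with r hr hr0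
  by_contra hlt
  rw [not_le] at hlt
  have h2 : kap p r ∈ {N | p N ≤ r} := Nat.sInf_mem (p_tendsto hp hlam h r hr0)
  exact absurd (hr _ (Finset.mem_range.2 hlt)) (not_lt.2 h2)

theorem kap_div {p : ℕ → ℝ} (hp : ∀ N, 0 < p N) {lam : ℝ} (hlam : 0 < lam)
    (h : Tendsto (fun N : ℕ => (-Real.log (p N)) / (N : ℝ)) atTop (𝓝 lam)) :
    Tendsto (fun r => (kap p r : ℝ) / (-Real.log r)) (𝓝[>] 0) (𝓝 lam⁻¹) := by
  have hk := kap_atTop hp hlam h
  have h1 : Tendsto (fun r => (-Real.log (p (kap p r))) / (kap p r : ℝ)) (𝓝[>] 0) (𝓝 lam) :=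
    h.comp hk
  have h2 : Tendsto (fun N : ℕ => (-Real.log (p (N - 1))) / (N : ℝ)) atTop (𝓝 lam) := by
    rw [← tendsto_add_atTop_iff_nat 1]
    have h3 : Tendsto (fun N : ℕ => (-Real.log (p N)) / (N : ℝ) * ((N : ℝ) / ((N : ℝ) + 1))) atTop
        (𝓝 (lam * 1)) := h.mul (tendsto_natCast_div_add_atTop (1 : ℝ))
    rw [mul_one] at h3
    refine h3.congr' ?_
    filter_upwards [eventually_gt_atTop 0] with N hN
    have hN' : (N : ℝ) ≠ 0 := by exact_mod_cast hN.ne'
    have hN1 : (N : ℝ) + 1 ≠ 0 := by positivity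
    rw [Nat.add_sub_cancel, Nat.cast_add, Nat.cast_one]
    field_simp
  have h3 : Tendsto (fun r => (-Real.log (p (kap p r - 1))) / (kap p r : ℝ)) (𝓝[>] 0) (𝓝 lam) :=
    h2.comp hk
  have h4 : Tendsto (fun r => (-Real.log r) / (kap p r : ℝ)) (𝓝[>] 0) (𝓝 lam) := by
    refine tendsto_of_tendsto_of_tendsto_of_le_of_le' h3 h1 ?_ ?_
    · filter_upwards [self_mem_nhdsWithin, hk.eventually_gt_atTop 0] with r hr hk0
      have hr' : (0 : ℝ) < r := hr
      have h5 : kap p r - 1 < sInf {N | p N ≤ r} := by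
        show kap p r - 1 < kap p r
        omega
      have h6 : r < p (kap p r - 1) := not_le.1 (Nat.notMem_of_lt_sInf h5)
      have h7 := Real.log_le_log hr' h6.le
      have hkp : (0 : ℝ) < kap p r := by exact_mod_cast hk0
      gcongr
    · filter_upwards [self_mem_nhdsWithin, hk.eventually_gt_atTop 0] with r hr hk0
      have hr' : (0 : ℝ) < r := hr
      have h6 : p (kap p r) ≤ r := Nat.sInf_mem (p_tendsto hp hlam h r hr)
      have h7 := Real.log_le_log (hp _) h6
      have hkp : (0 : ℝ) < kap p r := by exact_mod_cast hk0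
      gcongr
  have h5 := h4.inv₀ hlam.ne'
  refine h5.congr fun r => ?_
  rw [inv_div]

end Pool.Agent.Q73.CM.LOC

namespace Pool.Agent.Q73.CM

open LOC Set Filter Topology

theorem t_LOC : S_LOC := by
  intro m n G I q hq hle ω hω hll s hs
  have hne : I.Nonempty := by
    rw [Finset.nonempty_iff_ne_empty]
    intro h
    have := hq.sum
    rw [h, Finset.sum_empty] at this
    exact zero_ne_one this
  have hpos : ∀ f : Fin m × Fin n → ℝ, (∀ i, 0 < f i) → 0 < ∑ i ∈ I, q i * f i := fun f hf =>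
    Finset.sum_pos (fun i hi => mul_pos (hq.pos i hi) (hf i)) hne
  have hsub : ∀ f : Fin m × Fin n → ℝ, ∑ i, q i * f i = ∑ i ∈ I, q i * f i := fun f => by
    symm
    apply Finset.sum_subset (Finset.subset_univ I)
    intro i _ hi
    rw [hq.zero i hi, zero_mul]
  have hA : 0 < lamA I G.a q := hpos (fun i => -Real.log (G.a i.1)) fun i => by
    have := Real.log_neg (G.a_pos i.1) (G.a_lt i.1)
    linarith
  have hB : 0 < lamB I G.b q := hpos (fun i => -Real.log (G.b i.2)) fun i => by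
    have := Real.log_neg (G.b_pos i.2) (G.b_lt i.2)
    linarith
  -- products
  have hpa : ∀ N, 0 < pa G ω N := fun N => Finset.prod_pos fun t _ => G.a_pos _
  have hpb : ∀ N, 0 < pb G ω N := fun N => Finset.prod_pos fun t _ => G.b_pos _
  have hlima : Tendsto (fun N : ℕ => (-Real.log (pa G ω N)) / (N : ℝ)) atTop
      (𝓝 (lamA I G.a q)) := by
    have h1 := hll fun i => -Real.log (G.a i.1)
    rw [hsub] at h1
    refine h1.congr fun N => ?_
    unfold pa
    rw [Real.log_prod (fun t _ => (G.a_pos _).ne'), Finset.sum_neg_distrib]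
  have hlimb : Tendsto (fun N : ℕ => (-Real.log (pb G ω N)) / (N : ℝ)) atTop
      (𝓝 (lamB I G.b q)) := by
    have h1 := hll fun i => -Real.log (G.b i.2)
    rw [hsub] at h1
    refine h1.congr fun N => ?_
    unfold pb
    rw [Real.log_prod (fun t _ => (G.b_pos _).ne'), Finset.sum_neg_distrib]
  have ka1 : Tendsto (fun r => ka G r ω) (𝓝[>] (0 : ℝ)) atTop := kap_atTop hpa hA hlima
  have kb1 : Tendsto (fun r => kb G r ω) (𝓝[>] (0 : ℝ)) atTop := kap_atTop hpb hB hlimb
  have ka2 : Tendsto (fun r => (ka G r ω : ℝ) / (-Real.log r)) (𝓝[>] 0)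
      (𝓝 (lamA I G.a q)⁻¹) := kap_div hpa hA hlima
  have kb2 : Tendsto (fun r => (kb G r ω : ℝ) / (-Real.log r)) (𝓝[>] 0)
      (𝓝 (lamB I G.b q)⁻¹) := kap_div hpb hB hlimb
  set M : ℝ → ℕ := fun r => min (ka G r ω) (kb G r ω) with hM
  have M1 : Tendsto M (𝓝[>] (0 : ℝ)) atTop := by
    rw [tendsto_atTop]
    intro b
    filter_upwards [ka1.eventually_ge_atTop b, kb1.eventually_ge_atTop b] with r h1 h2
    exact le_min h1 h2
  have hL1 : ∀ᶠ r in 𝓝[>] (0 : ℝ), 0 < -Real.log r := neg_log_tendsto.eventually_gt_atTop 0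
  have M2 : Tendsto (fun r => (M r : ℝ) / (-Real.log r)) (𝓝[>] 0) (𝓝 (lamB I G.b q)⁻¹) := by
    have h1 := ka2.min kb2
    have h2 : min (lamA I G.a q)⁻¹ (lamB I G.b q)⁻¹ = (lamB I G.b q)⁻¹ :=
      min_eq_right (inv_anti₀ hA hle)
    rw [h2] at h1
    refine h1.congr' ?_
    filter_upwards [hL1] with r hr
    rw [min_div_div_right hr.le, hM]
    simp only [Nat.cast_min]
  -- the two sequences
  have hqc : ∀ i ∈ I, 0 < qcol q i.1 := by
    intro i hi
    unfold qcol
    have h1 : q (i.1, i.2) ≤ ∑ k, q (i.1, k) :=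
      Finset.single_le_sum (f := fun k => q (i.1, k)) (fun k _ => by
        by_cases hk : (i.1, k) ∈ I
        · exact (hq.pos _ hk).le
        · exact (hq.zero _ hk).ge) (Finset.mem_univ i.2)
    exact lt_of_lt_of_le (hq.pos i hi) h1
  have e1 : ∑ i, q i * (-Real.log (q i)) = ent I q := by
    rw [hsub fun i => -Real.log (q i)]
    unfold ent
    refine Finset.sum_congr rfl fun i _ => ?_
    unfold Real.negMulLog
    ring
  have e2 : ∑ i : Fin m × Fin n, q i * (-Real.log (qcol q i.1)) = entA q := by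
    rw [Fintype.sum_prod_type]
    unfold entA
    refine Finset.sum_congr rfl fun j _ => ?_
    show ∑ k, q (j, k) * (-Real.log (qcol q j)) = _
    rw [← Finset.sum_mul]
    unfold Real.negMulLog
    show qcol q j * _ = _
    ring
  have s1 := hll fun i => -Real.log (q i)
  rw [e1] at s1
  have s2 := hll fun i => -Real.log (qcol q i.1)
  rw [e2] at s2
  have t1 := (s1.comp M1).mul M2
  have t2 := (s2.comp ka1).mul ka2
  have t3 := (s2.comp M1).mul M2
  have t4 := (t1.add t2).sub t3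
  have hlt : s < ent I q * (lamB I G.b q)⁻¹ + entA q * (lamA I G.a q)⁻¹ -
      entA q * (lamB I G.b q)⁻¹ := by
    refine lt_of_lt_of_eq hs ?_
    rw [div_eq_mul_inv, div_eq_mul_inv]
    ring
  have t5 := t4.eventually (lt_mem_nhds hlt)
  filter_upwards [t5, hL1, self_mem_nhdsWithin, M1.eventually_gt_atTop 0,
    ka1.eventually_gt_atTop 0] with r h1 hL hr0 hM0 hk0
  have hr : (0 : ℝ) < r := hr0
  have hMr : (0 : ℝ) < M r := by exact_mod_cast hM0
  have hkr : (0 : ℝ) < ka G r ω := by exact_mod_cast hk0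
  simp only [Function.comp_apply] at h1
  rw [div_mul_div_cancel₀ hMr.ne', div_mul_div_cancel₀ hkr.ne', div_mul_div_cancel₀ hMr.ne',
    ← add_div, ← sub_div, lt_div_iff₀ hL] at h1
  have hqp : ∀ t, 0 < q (ω t) := fun t => hq.pos _ (hω t)
  have hcp : ∀ t, 0 < qcol q (ω t).1 := fun t => hqc _ (hω t)
  have p1 : 0 < ∏ t ∈ Finset.range (M r), q (ω t) := Finset.prod_pos fun t _ => hqp t
  have p2 : 0 < ∏ t ∈ Finset.Ico (M r) (ka G r ω), qcol q (ω t).1 :=
    Finset.prod_pos fun t _ => hcp t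
  show (∏ t ∈ Finset.range (M r), q (ω t)) *
    (∏ t ∈ Finset.Ico (M r) (ka G r ω), qcol q (ω t).1) ≤ r ^ s
  have hMk : M r ≤ ka G r ω := min_le_left _ _
  have hlog : Real.log ((∏ t ∈ Finset.range (M r), q (ω t)) *
      (∏ t ∈ Finset.Ico (M r) (ka G r ω), qcol q (ω t).1)) ≤ Real.log (r ^ s) := by
    rw [Real.log_mul p1.ne' p2.ne', Real.log_prod (fun t _ => (hqp t).ne'),
      Real.log_prod (fun t _ => (hcp t).ne'), Finset.sum_Ico_eq_sub _ hMk,
      Real.log_rpow hr]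
    rw [Finset.sum_neg_distrib, Finset.sum_neg_distrib, Finset.sum_neg_distrib] at h1
    linarith
  exact (Real.log_le_log_iff (mul_pos p1 p2) (Real.rpow_pos_of_pos hr s)).1 hlog

end Pool.Agent.Q73.CM
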