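import Pool.Agent.H352R4.CA.Vit
import Pool.Agent.H352R3.SA.Bnd

/-!
# Vitushkin localisation with a general cutoff function

This is `Pool.Agent.H352R4.CA.vit_ac` (starting files) with a general smooth cutoff function.
-/

set_option autoImplicit false

open MeasureTheory Complex Filter Topology Metric
open scoped ComplexConjugate ContDiff
open Pool.Agent.H352R3.SA
open Pool.Agent.H761R2.SV (dbar dbarR)
open Pool.Agent.H352R4.CA Pool.Agent.H352R4.CA.VitAux

namespace Q73.CM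

/-- the correction term -/
noncomputable def cor (τ h : ℂ → ℂ) (ζ : ℂ) : ℂ :=
  (Real.pi : ℂ)⁻¹ * pot (fun w => h w * dbar τ w) ζ

variable {τ h : ℂ → ℂ}

lemma dtau_cont (hτ : ContDiff ℝ ∞ τ) : Continuous (dbar τ) :=
  Pool.Agent.H761R2.SV.continuous_dbar (hτ.of_le (by simp))

lemma cor_cont (hτ : ContDiff ℝ ∞ τ) (hτc : HasCompactSupport τ) (hh : Continuous h) :
    Continuous (cor τ h) := by
  have c2 : Continuous fun w => h w * dbar τ w := hh.mul (dtau_cont hτ)
  have s2 : HasCompactSupport fun w => h w * dbar τ w := (MolAux.dbar_compact hτc).mul_left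
  exact continuous_const.mul (pot_continuous c2 s2)

lemma cor_diff_off (hτ : ContDiff ℝ ∞ τ) (hτc : HasCompactSupport τ) (hh : Continuous h)
    {ζ₀ : ℂ} (h0 : ∀ᶠ w in 𝓝 ζ₀, dbar τ w = 0) : DifferentiableAt ℂ (cor τ h) ζ₀ := by
  have c2 : Continuous fun w => h w * dbar τ w := hh.mul (dtau_cont hτ)
  have s2 : HasCompactSupport fun w => h w * dbar τ w := (MolAux.dbar_compact hτc).mul_left
  have d1 := pot_diffAt c2 s2 (z := ζ₀) (by
    filter_upwards [h0] with w hw
    rw [hw, mul_zero])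
  exact d1.const_mul _

lemma cor_diff_on (hτ : ContDiff ℝ ∞ τ) (hτc : HasCompactSupport τ) (hh : Continuous h)
    {O : Set ℂ} (hO : IsOpen O) (hhO : DifferentiableOn ℂ h O) {ζ₀ : ℂ} (hζ : ζ₀ ∈ O) :
    DifferentiableAt ℂ (fun ζ => τ ζ * h ζ - cor τ h ζ) ζ₀ := by
  have hπ : (Real.pi : ℂ) ≠ 0 := by exact_mod_cast Real.pi_ne_zero
  have c1 : Continuous τ := hτ.continuous
  obtain ⟨r, hr, hr2⟩ := Metric.isOpen_iff.1 hO ζ₀ hζ
  let b : ContDiffBump ζ₀ := ⟨r / 4, r / 2, by positivity, by linarith⟩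
  have hbd : ContDiff ℝ ∞ (fun w => b w) := b.contDiff
  have hts : tsupport (fun w => b w) ⊆ O := by
    have h1 : tsupport (fun w => b w) = closedBall ζ₀ (r / 2) := b.tsupport_eq
    rw [h1]
    exact (closedBall_subset_ball (by linarith)).trans hr2
  have hbc : HasCompactSupport (fun w => b w) := b.hasCompactSupport
  have hG0 := Pool.Agent.H761R2.SV.fS_contDiff hO hbd hts hhO 0
  set θ : ℂ → ℂ := fun w => ((b w : ℝ) : ℂ) with hθ
  have hθd : ContDiff ℝ ∞ θ := Complex.ofRealCLM.contDiff.comp hbd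
  have hθc : HasCompactSupport θ := hbc.comp_left (g := fun x : ℝ => (x : ℂ)) (by simp)
  have hθ1 : θ =ᶠ[𝓝 ζ₀] fun _ => 1 := by
    filter_upwards [b.eventuallyEq_one] with w hw
    rw [hθ]
    simp only
    rw [hw]
    simp
  -- the product
  set F : ℂ → ℂ := fun w => h w * ((b w : ℝ) : ℂ) ^ (0 + 1) with hF
  have hFd : ContDiff ℝ 1 F := hG0.of_le (by simp)
  have hFdb : ∀ w, dbar F w = h w * dbar θ w := by
    intro w
    rw [hF, Pool.Agent.H761R2.SV.fS_dbar hO hbd hts hhO 0 w, hθ,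
      Pool.Agent.H761R2.SV.dbar_ofReal ((hbd.differentiable (by simp)).differentiableAt)]
    simp
  have hFe : ∀ w, F w = h w * θ w := by
    intro w; rw [hF, hθ]; simp
  have hτ1 : ContDiff ℝ 1 τ := hτ.of_le (by simp)
  have hGd : ContDiff ℝ 1 fun w => F w * τ w := hFd.mul hτ1
  have hGc : HasCompactSupport fun w => F w * τ w := hτc.mul_left
  have hp := fun ζ => Pool.Agent.H761R2.SV.pompeiu_compact hGd hGc ζ
  have e1 : dbar (fun w => F w * τ w) = fun w =>
      h w * dbar θ w * τ w + h w * θ w * dbar τ w := by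
    funext w
    rw [Pool.Agent.H761R2.SV.dbar_mul hFd hτ1, hFdb, hFe]
  have cθ : Continuous θ := hθd.continuous
  have cdθ : Continuous (dbar θ) := Pool.Agent.H761R2.SV.continuous_dbar (hθd.of_le (by simp))
  have cdt := dtau_cont hτ
  have sdt : HasCompactSupport (dbar τ) := MolAux.dbar_compact hτc
  have cA : Continuous fun w => h w * dbar θ w * τ w := (hh.mul cdθ).mul c1
  have sA : HasCompactSupport fun w => h w * dbar θ w * τ w := hτc.mul_left
  have cB : Continuous fun w => h w * θ w * dbar τ w := (hh.mul cθ).mul cdt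
  have sB : HasCompactSupport fun w => h w * θ w * dbar τ w := sdt.mul_left
  have cE : Continuous fun w => h w * (1 - θ w) * dbar τ w :=
    (hh.mul (continuous_const.sub cθ)).mul cdt
  have sE : HasCompactSupport fun w => h w * (1 - θ w) * dbar τ w := sdt.mul_left
  have e2 : ∀ ζ, pot (fun w => h w * dbar τ w) ζ =
      pot (fun w => h w * θ w * dbar τ w) ζ +
      pot (fun w => h w * (1 - θ w) * dbar τ w) ζ := by
    intro ζ
    rw [← VitAux.pot_add cB sB cE sE]
    congr 1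
    funext w
    ring
  have e3 : ∀ ζ, (Real.pi : ℂ) * (F ζ * τ ζ) =
      pot (fun w => h w * dbar θ w * τ w) ζ +
      pot (fun w => h w * θ w * dbar τ w) ζ := by
    intro ζ
    rw [← VitAux.pot_add cA sA cB sB, ← hp ζ, e1]
    rfl
  have e4 : (fun ζ => τ ζ * h ζ - cor τ h ζ) =ᶠ[𝓝 ζ₀] fun ζ =>
      (Real.pi : ℂ)⁻¹ * pot (fun w => h w * dbar θ w * τ w) ζ -
      (Real.pi : ℂ)⁻¹ * pot (fun w => h w * (1 - θ w) * dbar τ w) ζ := by
    filter_upwards [hθ1] with ζ hζ1
    unfold cor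
    rw [e2 ζ]
    have e5 := e3 ζ
    rw [hFe, hζ1, mul_one] at e5
    have e6 : pot (fun w => h w * θ w * dbar τ w) ζ =
        (Real.pi : ℂ) * (h ζ * τ ζ) - pot (fun w => h w * dbar θ w * τ w) ζ := by
      rw [e5]; ring
    rw [e6]
    field_simp
    ring
  have hθ1' : ∀ᶠ w in 𝓝 ζ₀, dbar θ w = 0 := by
    have := eventually_eventually_nhds.2 hθ1
    filter_upwards [this] with w hw
    rw [Pool.Agent.H761R2.SV.dbar_congr hw, Pool.Agent.H761R2.SV.dbar_const]
  have dA := pot_diffAt cA sA (z := ζ₀) (by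
    filter_upwards [hθ1'] with w hw
    rw [hw]; ring)
  have dE := pot_diffAt cE sE (z := ζ₀) (by
    filter_upwards [hθ1] with w hw
    rw [hw]; ring)
  exact ((dA.const_mul _).sub (dE.const_mul _)).congr_of_eventuallyEq e4

/-- the correction term is small if `h` is small -/
lemma cor_bound (hτ : ContDiff ℝ ∞ τ) (hτc : HasCompactSupport τ) : ∃ C : ℝ, 0 ≤ C ∧
    ∀ (h : ℂ → ℂ) (M : ℝ), Continuous h → (∀ z, ‖h z‖ ≤ M) → ∀ z, ‖cor τ h z‖ ≤ C * M := by
  obtain ⟨R, hR⟩ := (MolAux.dbar_compact hτc).isCompact.isBounded.subset_closedBall (0 : ℂ)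
  obtain ⟨D, hD⟩ := (MolAux.dbar_compact hτc).exists_bound_of_continuous (dtau_cont hτ)
  obtain ⟨C, hC0, hC⟩ := pot_bound R
  have hD0 : 0 ≤ D := (norm_nonneg _).trans (hD 0)
  refine ⟨‖(Real.pi : ℂ)⁻¹‖ * (C * D), by positivity, fun h M hh hM z => ?_⟩
  have hM0 : 0 ≤ M := (norm_nonneg _).trans (hM 0)
  have h1 := hC (fun w => h w * dbar τ w) (M * D) (hh.mul (dtau_cont hτ)) (fun w hw => ?_)
    (fun w => ?_) z
  · unfold cor
    rw [norm_mul]
    calc ‖(Real.pi : ℂ)⁻¹‖ * ‖pot (fun w => h w * dbar τ w) z‖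
        ≤ ‖(Real.pi : ℂ)⁻¹‖ * (C * (M * D)) := by gcongr
      _ = ‖(Real.pi : ℂ)⁻¹‖ * (C * D) * M := by ring
  · have : w ∉ tsupport (dbar τ) := fun hc => by
      have := hR hc
      rw [mem_closedBall_zero_iff] at this
      linarith
    show h w * dbar τ w = 0
    rw [image_eq_zero_of_notMem_tsupport this, mul_zero]
  · rw [norm_mul]
    exact mul_le_mul (hM w) (hD w) (norm_nonneg _) hM0

end Q73.CM
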