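import Pool.Agent.Q73.CM.Stm

/-! # M1: covering the projections of the attractor (project CM, MP_0a98f6_an) -/

set_option autoImplicit false

namespace Pool.Agent.Q73.CM

open Set Filter Topology MeasureTheory

namespace M1

/-- Every point lies in the intervals of words of every length. -/
theorem exists_word {m : ℕ} (u a : Fin m → ℝ) (ha : ∀ j, 0 < a j) (J : Finset (Fin m)) (S : Set ℝ)
    (h01 : S ⊆ Icc 0 1) (h : ∀ z ∈ S, ∃ j ∈ J, ∃ z' ∈ S, z = a j * z' + u j) (k : ℕ) :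
    ∀ z ∈ S, ∃ w : List (Fin m), w.length = k ∧ (∀ j ∈ w, j ∈ J) ∧
      wleft u a w ≤ z ∧ z ≤ wleft u a w + wlen a w := by
  induction k with
  | zero =>
    intro z hz
    refine ⟨[], rfl, fun j hj => by simp at hj, ?_, ?_⟩
    · exact (h01 hz).1
    · have := (h01 hz).2
      simpa [wleft, wlen] using this
  | succ k ih =>
    intro z hz
    obtain ⟨j, hj, z', hz', e⟩ := h z hz
    obtain ⟨w, hw1, hw2, hw3, hw4⟩ := ih z' hz'
    refine ⟨j :: w, by simp [hw1], ?_, ?_, ?_⟩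
    · intro i hi
      rcases List.mem_cons.1 hi with rfl | hi
      · exact hj
      · exact hw2 i hi
    · show u j + a j * wleft u a w ≤ z
      have := mul_le_mul_of_nonneg_left hw3 (ha j).le
      linarith
    · show z ≤ u j + a j * wleft u a w + a j * wlen a w
      have := mul_le_mul_of_nonneg_left hw4 (ha j).le
      linarith

theorem wlen_le {m : ℕ} (a : Fin m → ℝ) (A : ℝ) (ha : ∀ j, 0 < a j) (hA : ∀ j, a j ≤ A)
    (w : List (Fin m)) : 0 ≤ wlen a w ∧ wlen a w ≤ A ^ w.length := by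
  induction w with
  | nil => simp [wlen]
  | cons j w ih =>
    refine ⟨mul_nonneg (ha j).le ih.1, ?_⟩
    show a j * wlen a w ≤ A ^ (w.length + 1)
    rw [pow_succ, mul_comm]
    exact mul_le_mul ih.2 (hA j) (ha j).le (ih.1.trans ih.2)

theorem exists_bound {m : ℕ} (a : Fin m → ℝ) (h : ∀ j, a j < 1) :
    ∃ A : ℝ, 0 ≤ A ∧ A < 1 ∧ ∀ j, a j ≤ A := by
  rcases isEmpty_or_nonempty (Fin m) with he | he
  · exact ⟨0, le_rfl, one_pos, fun j => (he.false j).elim⟩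
  · obtain ⟨j0, hj0⟩ := Finite.exists_max a
    exact ⟨max 0 (a j0), le_max_left _ _, max_lt one_pos (h j0),
      fun j => (hj0 j).trans (le_max_right _ _)⟩

theorem cov {m : ℕ} (hC1 : S_C1) (u a : Fin m → ℝ) (hI : Ints u a) (J : Finset (Fin m))
    (hJ : J.Nonempty) (S : Set ℝ) (h01 : S ⊆ Icc 0 1)
    (h : ∀ z ∈ S, ∃ j ∈ J, ∃ z' ∈ S, z = a j * z' + u j) (s : ℝ) (hs : 0 ≤ s)
    (hsum : ∑ j ∈ J, a j ^ s = 1) :
    ∃ C : ℝ, 0 < C ∧ ∀ r : ℝ, 0 < r → r ≤ 1 → ∃ T : Finset ℝ, (T.card : ℝ) ≤ C * r ^ (-s) ∧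
      ∀ z ∈ S, ∃ x ∈ T, z ∈ Icc x (x + r) := by
  obtain ⟨C, hC, hT⟩ := hC1 m u a hI J hJ s hs hsum
  obtain ⟨A, hA0, hA1, hA⟩ := exists_bound a hI.a_lt
  refine ⟨C, hC, fun r hr hr1 => ?_⟩
  obtain ⟨T, hT1, hT2⟩ := hT r hr hr1
  refine ⟨T, hT1, fun z hz => ?_⟩
  obtain ⟨k, hk⟩ := exists_pow_lt_of_lt_one hr hA1
  obtain ⟨w, hw1, hw2, hw3, hw4⟩ := exists_word u a hI.a_pos J S h01 h k z hz
  have h1 := (wlen_le a A hI.a_pos hA w).2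
  rw [hw1] at h1
  obtain ⟨x, hx, hx2⟩ := hT2 w hw2 (h1.trans hk.le)
  exact ⟨x, hx, hx2 ⟨hw3, hw4⟩⟩

end M1

theorem t_M1 : S_M1 := by
  intro hC1 m n G I F hF s hs
  obtain ⟨hne, -, h01, hFeq⟩ := hF
  have hstep : ∀ z ∈ F, ∃ i ∈ I, ∃ z' ∈ F, z = G.map i z' := by
    intro z hz
    rw [hFeq] at hz
    obtain ⟨i, hi, hz⟩ := mem_iUnion₂.1 hz
    obtain ⟨z', hz', e⟩ := hz
    exact ⟨i, hi, z', hz', e.symm⟩
  obtain ⟨z0, hz0⟩ := hne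
  obtain ⟨i0, hi0, -⟩ := hstep z0 hz0
  constructor
  · intro hsum
    obtain ⟨C, hC, h⟩ := M1.cov hC1 G.u G.a ⟨G.a_pos, G.a_lt, G.u_nonneg, G.u_le, G.u_sep⟩ (cols I)
      ⟨i0.1, Finset.mem_image_of_mem _ hi0⟩ (Prod.fst '' F)
      (by rintro _ ⟨z, hz, rfl⟩; exact (h01 hz).1)
      (by
        rintro _ ⟨z, hz, rfl⟩
        obtain ⟨i, hi, z', hz', e⟩ := hstep z hz
        refine ⟨i.1, Finset.mem_image_of_mem _ hi, z'.1, ⟨z', hz', rfl⟩, ?_⟩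
        rw [e]; rfl) s hs hsum
    refine ⟨C, hC, fun r hr hr1 => ?_⟩
    obtain ⟨T, hT1, hT2⟩ := h r hr hr1
    exact ⟨T, hT1, fun z hz => hT2 _ ⟨z, hz, rfl⟩⟩
  · intro hsum
    obtain ⟨C, hC, h⟩ := M1.cov hC1 G.v G.b ⟨G.b_pos, G.b_lt, G.v_nonneg, G.v_le, G.v_sep⟩ (rows I)
      ⟨i0.2, Finset.mem_image_of_mem _ hi0⟩ (Prod.snd '' F)
      (by rintro _ ⟨z, hz, rfl⟩; exact (h01 hz).2)
      (by
        rintro _ ⟨z, hz, rfl⟩
        obtain ⟨i, hi, z', hz', e⟩ := hstep z hz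
        refine ⟨i.2, Finset.mem_image_of_mem _ hi, z'.2, ⟨z', hz', rfl⟩, ?_⟩
        rw [e]; rfl) s hs hsum
    refine ⟨C, hC, fun r hr hr1 => ?_⟩
    obtain ⟨T, hT1, hT2⟩ := h r hr hr1
    exact ⟨T, hT1, fun z hz => hT2 _ ⟨z, hz, rfl⟩⟩

end Pool.Agent.Q73.CM
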