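import Pool.Agent.Q73.CM.Stm

/-! # M2: covering the attractor by rectangles (project CM, MP_0a98f6_an) -/

set_option autoImplicit false

namespace Pool.Agent.Q73.CM

open Set Filter Topology MeasureTheory

namespace M2

/-- `F` is covered by at most `N` rectangles of width `x` and height `y`. -/
def Cov (F : Set (ℝ × ℝ)) (x y N : ℝ) : Prop :=
  ∃ T : Finset (ℝ × ℝ), (T.card : ℝ) ≤ N ∧
    ∀ z ∈ F, ∃ p ∈ T, z.1 ∈ Icc p.1 (p.1 + x) ∧ z.2 ∈ Icc p.2 (p.2 + y)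

theorem Cov.mono {F : Set (ℝ × ℝ)} {x y N N' : ℝ} (h : Cov F x y N) (hN : N ≤ N') :
    Cov F x y N' := by
  obtain ⟨T, h1, h2⟩ := h
  exact ⟨T, h1.trans hN, h2⟩

theorem lower {m : ℕ} (f : Fin m → ℝ) (hf : ∀ j, 0 < f j) : ∃ c : ℝ, 0 < c ∧ ∀ j, c ≤ f j := by
  rcases isEmpty_or_nonempty (Fin m) with he | he
  · exact ⟨1, one_pos, fun j => (he.false j).elim⟩
  · obtain ⟨j0, hj0⟩ := Finite.exists_min f
    exact ⟨f j0, hf j0, hj0⟩

theorem upper {m : ℕ} (f : Fin m → ℝ) (hf : ∀ j, f j < 1) : ∃ c : ℝ, c < 1 ∧ ∀ j, f j ≤ c := by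
  rcases isEmpty_or_nonempty (Fin m) with he | he
  · exact ⟨0, one_pos, fun j => (he.false j).elim⟩
  · obtain ⟨j0, hj0⟩ := Finite.exists_max f
    exact ⟨f j0, hf j0, hj0⟩

/-- The first base case. -/
theorem base1 {F : Set (ℝ × ℝ)} (h01 : F ⊆ Icc (0 : ℝ) 1 ×ˢ Icc (0 : ℝ) 1) {s₁ τA C₁ X : ℝ}
    (hs₁ : 0 ≤ s₁) (hτ : 0 ≤ τA) (hX : 1 ≤ X) (hC₁ : 0 < C₁)
    (h : ∀ r : ℝ, 0 < r → r ≤ 1 → ∃ T : Finset ℝ, (T.card : ℝ) ≤ C₁ * r ^ (-s₁) ∧
      ∀ z ∈ F, ∃ x ∈ T, z.1 ∈ Icc x (x + r)) {x y : ℝ} (hx : 0 < x) (hxX : x ≤ X) (hy : 1 ≤ y)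
    (hyX : y ≤ X) :
    Cov F x y ((max C₁ 1 * X ^ s₁ * X ^ τA) * (x ^ (-s₁) * y ^ (-τA))) := by
  classical
  have hX0 : 0 < X := by linarith
  have hy0 : 0 < y := by linarith
  have hM1 : 1 ≤ max C₁ 1 := le_max_right _ _
  have e1 : 1 ≤ X ^ s₁ := Real.one_le_rpow hX hs₁
  have hyt : 1 ≤ X ^ τA * y ^ (-τA) := by
    rw [Real.rpow_neg hy0.le, ← div_eq_mul_inv, one_le_div (Real.rpow_pos_of_pos hy0 _)]
    exact Real.rpow_le_rpow hy0.le hyX hτ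
  have hx1p : 0 < x ^ (-s₁) := Real.rpow_pos_of_pos hx _
  by_cases hx1 : x ≤ 1
  · obtain ⟨T, hT1, hT2⟩ := h x hx hx1
    refine ⟨T.image fun t => (t, 0), ?_, ?_⟩
    · have h1 : ((T.image fun t : ℝ => ((t, 0) : ℝ × ℝ)).card : ℝ) ≤ T.card := by
        exact_mod_cast Finset.card_image_le
      refine h1.trans (hT1.trans ?_)
      have h2 : C₁ * 1 * 1 ≤ max C₁ 1 * X ^ s₁ * (X ^ τA * y ^ (-τA)) := by
        refine mul_le_mul (mul_le_mul (le_max_left _ _) e1 zero_le_one (by positivity)) hyt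
          zero_le_one (by positivity)
      have h3 := mul_le_mul_of_nonneg_right h2 hx1p.le
      have h4 : max C₁ 1 * X ^ s₁ * (X ^ τA * y ^ (-τA)) * x ^ (-s₁)
          = max C₁ 1 * X ^ s₁ * X ^ τA * (x ^ (-s₁) * y ^ (-τA)) := by ring
      rw [← h4]
      linarith
    · intro z hz
      obtain ⟨t, ht, hzt⟩ := hT2 z hz
      refine ⟨(t, 0), Finset.mem_image_of_mem _ ht, hzt, ?_⟩
      have := (h01 hz).2
      exact ⟨this.1, by simpa using this.2.trans hy⟩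
  · push Not at hx1
    refine ⟨{(0, 0)}, ?_, ?_⟩
    · rw [Finset.card_singleton, Nat.cast_one]
      have h2 : 1 ≤ X ^ s₁ * x ^ (-s₁) := by
        rw [Real.rpow_neg hx.le, ← div_eq_mul_inv, one_le_div (Real.rpow_pos_of_pos hx _)]
        exact Real.rpow_le_rpow hx.le hxX hs₁
      have h3 : 1 * 1 * 1 ≤ max C₁ 1 * (X ^ s₁ * x ^ (-s₁)) * (X ^ τA * y ^ (-τA)) := by
        refine mul_le_mul (mul_le_mul hM1 h2 zero_le_one (by positivity)) hyt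
          zero_le_one (by positivity)
      have h4 : max C₁ 1 * (X ^ s₁ * x ^ (-s₁)) * (X ^ τA * y ^ (-τA))
          = max C₁ 1 * X ^ s₁ * X ^ τA * (x ^ (-s₁) * y ^ (-τA)) := by ring
      rw [← h4]
      linarith
    · intro z hz
      have h1 := (h01 hz).1
      have h2 := (h01 hz).2
      refine ⟨(0, 0), Finset.mem_singleton_self _, ⟨h1.1, ?_⟩, ⟨h2.1, ?_⟩⟩
      · show z.1 ≤ 0 + x
        linarith [h1.2]
      · show z.2 ≤ 0 + y
        linarith [h2.2]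

/-- The second base case. -/
theorem base2 {F : Set (ℝ × ℝ)} (h01 : F ⊆ Icc (0 : ℝ) 1 ×ˢ Icc (0 : ℝ) 1) {s₂ τB C₂ X : ℝ}
    (hs₂ : 0 ≤ s₂) (hτ : 0 ≤ τB) (hX : 1 ≤ X) (hC₂ : 0 < C₂)
    (h : ∀ r : ℝ, 0 < r → r ≤ 1 → ∃ T : Finset ℝ, (T.card : ℝ) ≤ C₂ * r ^ (-s₂) ∧
      ∀ z ∈ F, ∃ x ∈ T, z.2 ∈ Icc x (x + r)) {x y : ℝ} (hy : 0 < y) (hyX : y ≤ X) (hx : 1 ≤ x)
    (hxX : x ≤ X) :
    Cov F x y ((max C₂ 1 * X ^ s₂ * X ^ τB) * (y ^ (-s₂) * x ^ (-τB))) := by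
  classical
  have hF' : (Prod.swap '' F) ⊆ Icc (0 : ℝ) 1 ×ˢ Icc (0 : ℝ) 1 := by
    rintro _ ⟨z, hz, rfl⟩
    exact ⟨(h01 hz).2, (h01 hz).1⟩
  have h' : ∀ r : ℝ, 0 < r → r ≤ 1 → ∃ T : Finset ℝ, (T.card : ℝ) ≤ C₂ * r ^ (-s₂) ∧
      ∀ z ∈ Prod.swap '' F, ∃ x ∈ T, z.1 ∈ Icc x (x + r) := by
    intro r hr hr1
    obtain ⟨T, h1, h2⟩ := h r hr hr1
    refine ⟨T, h1, ?_⟩
    rintro _ ⟨z, hz, rfl⟩
    exact h2 z hz
  obtain ⟨T, hT1, hT2⟩ := base1 hF' hs₂ hτ hX hC₂ h' hy hyX hx hxX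
  refine ⟨T.image Prod.swap, ?_, ?_⟩
  · have h1 : ((T.image Prod.swap).card : ℝ) ≤ T.card := by
      exact_mod_cast Finset.card_image_le
    exact h1.trans hT1
  · intro z hz
    obtain ⟨p, hp, h1, h2⟩ := hT2 (Prod.swap z) ⟨z, hz, rfl⟩
    exact ⟨p.swap, Finset.mem_image_of_mem _ hp, h2, h1⟩

/-- The recursion. -/
theorem step {m n : ℕ} (G : Grid m n) (I : Finset (Fin m × Fin n)) (F : Set (ℝ × ℝ))
    (hF : ∀ z ∈ F, ∃ i ∈ I, ∃ z' ∈ F, z = G.map i z') (x y : ℝ) (N : Fin m × Fin n → ℝ)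
    (h : ∀ i ∈ I, Cov F (x / G.a i.1) (y / G.b i.2) (N i)) : Cov F x y (∑ i ∈ I, N i) := by
  classical
  choose! T hT1 hT2 using h
  refine ⟨I.biUnion fun i => (T i).image (G.map i), ?_, ?_⟩
  · have h1 : ((I.biUnion fun i => (T i).image (G.map i)).card : ℝ) ≤
        ∑ i ∈ I, ((T i).card : ℝ) := by
      have : (I.biUnion fun i => (T i).image (G.map i)).card ≤ ∑ i ∈ I, (T i).card :=
        Finset.card_biUnion_le.trans (Finset.sum_le_sum fun i _ => Finset.card_image_le)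
      exact_mod_cast this
    exact h1.trans (Finset.sum_le_sum fun i hi => hT1 i hi)
  · intro z hz
    obtain ⟨i, hi, z', hz', e⟩ := hF z hz
    obtain ⟨p, hp, h1, h2⟩ := hT2 i hi z' hz'
    refine ⟨G.map i p, Finset.mem_biUnion.2 ⟨i, hi, Finset.mem_image_of_mem _ hp⟩, ?_, ?_⟩
    · have ha := G.a_pos i.1
      rw [e]
      show G.a i.1 * z'.1 + G.u i.1 ∈ Icc (G.a i.1 * p.1 + G.u i.1) (G.a i.1 * p.1 + G.u i.1 + x)
      have e1 := mul_le_mul_of_nonneg_left h1.1 ha.le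
      have e2 := mul_le_mul_of_nonneg_left h1.2 ha.le
      have e3 : G.a i.1 * (p.1 + x / G.a i.1) = G.a i.1 * p.1 + x := by
        rw [mul_add, mul_div_cancel₀ _ ha.ne']
      rw [e3] at e2
      exact ⟨by linarith, by linarith⟩
    · have hb := G.b_pos i.2
      rw [e]
      show G.b i.2 * z'.2 + G.v i.2 ∈ Icc (G.b i.2 * p.2 + G.v i.2) (G.b i.2 * p.2 + G.v i.2 + y)
      have e1 := mul_le_mul_of_nonneg_left h2.1 hb.le
      have e2 := mul_le_mul_of_nonneg_left h2.2 hb.le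
      have e3 : G.b i.2 * (p.2 + y / G.b i.2) = G.b i.2 * p.2 + y := by
        rw [mul_add, mul_div_cancel₀ _ hb.ne']
      rw [e3] at e2
      exact ⟨by linarith, by linarith⟩

theorem div_rpow_neg' {x a s : ℝ} (hx : 0 < x) (ha : 0 < a) :
    (x / a) ^ (-s) = x ^ (-s) * a ^ s := by
  rw [Real.div_rpow hx.le ha.le, Real.rpow_neg ha.le, div_inv_eq_mul]

end M2

theorem t_M2 : S_M2 := by
  intro m n G I F hF s₁ s₂ τA τB hs₁ hs₂ hτA hτB hc1 hc2 hsum1 hsum2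
  obtain ⟨hne, -, h01, hFeq⟩ := hF
  have hstep : ∀ z ∈ F, ∃ i ∈ I, ∃ z' ∈ F, z = G.map i z' := by
    intro z hz
    rw [hFeq] at hz
    obtain ⟨i, hi, hz⟩ := mem_iUnion₂.1 hz
    obtain ⟨z', hz', e⟩ := hz
    exact ⟨i, hi, z', hz', e.symm⟩
  obtain ⟨C₁, hC₁, h₁⟩ := hc1
  obtain ⟨C₂, hC₂, h₂⟩ := hc2
  obtain ⟨ca, hca, hca'⟩ := M2.lower G.a G.a_pos
  obtain ⟨cb, hcb, hcb'⟩ := M2.lower G.b G.b_pos
  obtain ⟨Aa, hAa, hAa'⟩ := M2.upper G.a G.a_lt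
  obtain ⟨Ab, hAb, hAb'⟩ := M2.upper G.b G.b_lt
  obtain ⟨c, hc, hc1, hcca, hccb⟩ : ∃ c : ℝ, 0 < c ∧ c ≤ 1 ∧ c ≤ ca ∧ c ≤ cb :=
    ⟨min 1 (min ca cb), lt_min one_pos (lt_min hca hcb), min_le_left _ _,
      (min_le_right _ _).trans (min_le_left _ _), (min_le_right _ _).trans (min_le_right _ _)⟩
  obtain ⟨A, hA0, hA1, hAAa, hAAb⟩ : ∃ A : ℝ, 0 < A ∧ A < 1 ∧ Aa ≤ A ∧ Ab ≤ A :=
    ⟨max (1 / 2) (max Aa Ab), lt_max_of_lt_left (by norm_num), max_lt (by norm_num) (max_lt hAa hAb),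
      (le_max_left _ _).trans (le_max_right _ _), (le_max_right _ _).trans (le_max_right _ _)⟩
  set X : ℝ := 1 / c with hX
  have hX1 : 1 ≤ X := by rw [hX, one_le_div hc]; exact hc1
  have hX0 : 0 < X := by positivity
  set C : ℝ := max C₁ 1 * X ^ s₁ * X ^ τA + max C₂ 1 * X ^ s₂ * X ^ τB with hCdef
  have hP1 : 0 < max C₁ 1 * X ^ s₁ * X ^ τA := by positivity
  have hP2 : 0 < max C₂ 1 * X ^ s₂ * X ^ τB := by positivity
  have hCpos : 0 < C := by positivity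
  have key : ∀ k : ℕ, ∀ x y : ℝ, 0 < x → x ≤ X → 0 < y → y ≤ X → (A ^ k ≤ x ∨ A ^ k ≤ y) →
      M2.Cov F x y (C * (x ^ (-s₁) * y ^ (-τA) + y ^ (-s₂) * x ^ (-τB))) := by
    have hbase : ∀ x y : ℝ, 0 < x → x ≤ X → 0 < y → y ≤ X → (1 ≤ x ∨ 1 ≤ y) →
        M2.Cov F x y (C * (x ^ (-s₁) * y ^ (-τA) + y ^ (-s₂) * x ^ (-τB))) := by
      intro x y hx hxX hy hyX hor
      have q1 : 0 < x ^ (-s₁) * y ^ (-τA) := by positivity
      have q2 : 0 < y ^ (-s₂) * x ^ (-τB) := by positivity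
      have r1 : max C₁ 1 * X ^ s₁ * X ^ τA ≤ C := by rw [hCdef]; linarith
      have r2 : max C₂ 1 * X ^ s₂ * X ^ τB ≤ C := by rw [hCdef]; linarith
      rcases hor with h | h
      · refine (M2.base2 h01 hs₂ hτB hX1 hC₂ h₂ hy hyX h hxX).mono ?_
        calc _ ≤ C * (y ^ (-s₂) * x ^ (-τB)) := mul_le_mul_of_nonneg_right r2 q2.le
          _ ≤ _ := mul_le_mul_of_nonneg_left (by linarith) hCpos.le
      · refine (M2.base1 h01 hs₁ hτA hX1 hC₁ h₁ hx hxX h hyX).mono ?_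
        calc _ ≤ C * (x ^ (-s₁) * y ^ (-τA)) := mul_le_mul_of_nonneg_right r1 q1.le
          _ ≤ _ := mul_le_mul_of_nonneg_left (by linarith) hCpos.le
    intro k
    induction k with
    | zero =>
      intro x y hx hxX hy hyX hor
      rw [pow_zero] at hor
      exact hbase x y hx hxX hy hyX hor
    | succ k ih =>
      intro x y hx hxX hy hyX hor
      by_cases hx1 : 1 ≤ x
      · exact hbase x y hx hxX hy hyX (Or.inl hx1)
      by_cases hy1 : 1 ≤ y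
      · exact hbase x y hx hxX hy hyX (Or.inr hy1)
      push Not at hx1 hy1
      have h := M2.step G I F hstep x y (fun i => C * ((x / G.a i.1) ^ (-s₁) *
        (y / G.b i.2) ^ (-τA) + (y / G.b i.2) ^ (-s₂) * (x / G.a i.1) ^ (-τB))) (by
          intro i _
          have ha := G.a_pos i.1
          have hb := G.b_pos i.2
          have ha1 : c ≤ G.a i.1 := hcca.trans (hca' _)
          have hb1 : c ≤ G.b i.2 := hccb.trans (hcb' _)
          have ha2 : G.a i.1 ≤ A := (hAa' _).trans hAAa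
          have hb2 : G.b i.2 ≤ A := (hAb' _).trans hAAb
          refine ih _ _ (by positivity) ?_ (by positivity) ?_ ?_
          · rw [hX]
            exact div_le_div₀ zero_le_one hx1.le hc ha1
          · rw [hX]
            exact div_le_div₀ zero_le_one hy1.le hc hb1
          · rcases hor with h | h
            · left
              rw [le_div_iff₀ ha]
              calc A ^ k * G.a i.1 ≤ A ^ k * A := mul_le_mul_of_nonneg_left ha2 (by positivity)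
                _ = A ^ (k + 1) := (pow_succ _ _).symm
                _ ≤ x := h
            · right
              rw [le_div_iff₀ hb]
              calc A ^ k * G.b i.2 ≤ A ^ k * A := mul_le_mul_of_nonneg_left hb2 (by positivity)
                _ = A ^ (k + 1) := (pow_succ _ _).symm
                _ ≤ y := h)
      refine h.mono (le_of_eq ?_)
      have e : ∀ i ∈ I, C * ((x / G.a i.1) ^ (-s₁) * (y / G.b i.2) ^ (-τA) +
          (y / G.b i.2) ^ (-s₂) * (x / G.a i.1) ^ (-τB)) =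
          C * (x ^ (-s₁) * y ^ (-τA)) * (G.a i.1 ^ s₁ * G.b i.2 ^ τA) +
          C * (y ^ (-s₂) * x ^ (-τB)) * (G.b i.2 ^ s₂ * G.a i.1 ^ τB) := by
        intro i _
        rw [M2.div_rpow_neg' hx (G.a_pos _), M2.div_rpow_neg' hy (G.b_pos _),
          M2.div_rpow_neg' hy (G.b_pos _), M2.div_rpow_neg' hx (G.a_pos _)]
        ring
      rw [Finset.sum_congr rfl e, Finset.sum_add_distrib, ← Finset.mul_sum, ← Finset.mul_sum,
        hsum1, hsum2]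
      ring
  refine ⟨C, hCpos, fun x y hx hx1 hy hy1 => ?_⟩
  obtain ⟨k, hk⟩ := exists_pow_lt_of_lt_one hx hA1
  obtain ⟨T, hT1, hT2⟩ := key k x y hx (hx1.trans hX1) hy (hy1.trans hX1) (Or.inl hk.le)
  exact ⟨T, hT1, hT2⟩

end Pool.Agent.Q73.CM
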