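import Pool.Agent.Q73.CM.Stm

/-!
# Mixed-type carpets: the mass distribution principle (part MD of project CM)
-/

set_option autoImplicit false

namespace Pool.Agent.Q73.CM.MD

open Set Filter Topology MeasureTheory
open scoped ENNReal NNReal

variable {m n : ℕ}

/-- the products of factors from a finite set of numbers in `(0,1)` tend to zero -/
theorem exists_prod_le {N : ℕ} (a : Fin N → ℝ) (h0 : ∀ j, 0 < a j) (h1 : ∀ j, a j < 1)
    (f : ℕ → Fin N) {r : ℝ} (hr : 0 < r) : ∃ M : ℕ, ∏ t ∈ Finset.range M, a (f t) ≤ r := by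
  have : Nonempty (Fin N) := ⟨f 0⟩
  obtain ⟨j0, hj0⟩ := Finite.exists_max a
  obtain ⟨M, hM⟩ := exists_pow_lt_of_lt_one hr (h1 j0)
  refine ⟨M, ?_⟩
  calc ∏ t ∈ Finset.range M, a (f t) ≤ ∏ _t ∈ Finset.range M, a j0 :=
        Finset.prod_le_prod (fun t _ => (h0 _).le) fun t _ => hj0 _
    _ = a j0 ^ M := by simp
    _ ≤ r := hM.le

/-- equality of the stopping times of codes with equal prefixes -/
theorem stop_eq (p p' : ℕ → ℝ) {r : ℝ} (hne : {N | p N ≤ r}.Nonempty)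
    (h : ∀ N ≤ sInf {N | p N ≤ r}, p' N = p N) : sInf {N | p' N ≤ r} = sInf {N | p N ≤ r} := by
  have h1 : p (sInf {N | p N ≤ r}) ≤ r := Nat.sInf_mem hne
  apply le_antisymm
  · apply Nat.sInf_le
    show p' _ ≤ r
    rw [h _ le_rfl]
    exact h1
  · by_contra hlt
    push Not at hlt
    have hne' : {N | p' N ≤ r}.Nonempty := ⟨sInf {N | p N ≤ r}, by
      show p' _ ≤ r
      rw [h _ le_rfl]
      exact h1⟩
    have h2 : p' (sInf {N | p' N ≤ r}) ≤ r := Nat.sInf_mem hne'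
    rw [h _ hlt.le] at h2
    exact Nat.notMem_of_lt_sInf hlt h2

theorem ka_eq (G : Grid m n) {r : ℝ} (hr : 0 < r) {ω ω' : ℕ → Fin m × Fin n}
    (h : SameSq G r ω ω') : ka G r ω' = ka G r ω := by
  unfold ka
  apply stop_eq
  · obtain ⟨M, hM⟩ := exists_prod_le G.a G.a_pos G.a_lt (fun t => (ω t).1) hr
    exact ⟨M, hM⟩
  · intro N hN
    unfold pa
    refine Finset.prod_congr rfl fun t ht => ?_
    rw [h.1 t (lt_of_lt_of_le (Finset.mem_range.1 ht) hN)]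

theorem kb_eq (G : Grid m n) {r : ℝ} (hr : 0 < r) {ω ω' : ℕ → Fin m × Fin n}
    (h : SameSq G r ω ω') : kb G r ω' = kb G r ω := by
  unfold kb
  apply stop_eq
  · obtain ⟨M, hM⟩ := exists_prod_le G.b G.b_pos G.b_lt (fun t => (ω t).2) hr
    exact ⟨M, hM⟩
  · intro N hN
    unfold pb
    refine Finset.prod_congr rfl fun t ht => ?_
    rw [h.2 t (lt_of_lt_of_le (Finset.mem_range.1 ht) hN)]

theorem sameSq_symm (G : Grid m n) {r : ℝ} (hr : 0 < r) {ω ω' : ℕ → Fin m × Fin n}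
    (h : SameSq G r ω ω') : SameSq G r ω' ω := by
  refine ⟨fun t ht => ?_, fun t ht => ?_⟩
  · rw [ka_eq G hr h] at ht
    exact (h.1 t ht).symm
  · rw [kb_eq G hr h] at ht
    exact (h.2 t ht).symm

theorem sameSq_refl (G : Grid m n) (r : ℝ) (ω : ℕ → Fin m × Fin n) : SameSq G r ω ω :=
  ⟨fun _ _ => rfl, fun _ _ => rfl⟩

/-- a set `S` of codes with bounded families of inequivalent elements is covered by few squares -/
theorem exists_cover (G : Grid m n) {r : ℝ} (hr : 0 < r) (S : Set (ℕ → Fin m × Fin n)) (K : ℕ)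
    (hK : ∀ T : Finset (ℕ → Fin m × Fin n), (∀ ω ∈ T, ω ∈ S) →
      (∀ ω ∈ T, ∀ ω' ∈ T, ω ≠ ω' → ¬ SameSq G r ω ω') → T.card ≤ K) :
    ∃ T : Finset (ℕ → Fin m × Fin n), (∀ ω ∈ T, ω ∈ S) ∧ T.card ≤ K ∧
      S ⊆ ⋃ t ∈ T, {ω' | SameSq G r t ω'} := by
  classical
  set A : Set ℕ := {c | ∃ T : Finset (ℕ → Fin m × Fin n), (∀ ω ∈ T, ω ∈ S) ∧
    (∀ ω ∈ T, ∀ ω' ∈ T, ω ≠ ω' → ¬ SameSq G r ω ω') ∧ T.card = c} with hA
  have hne : A.Nonempty := ⟨0, ∅, by simp, by simp, rfl⟩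
  have hbd : BddAbove A := ⟨K, by
    rintro c ⟨T, h1, h2, rfl⟩
    exact hK T h1 h2⟩
  obtain ⟨T, h1, h2, h3⟩ := Nat.sSup_mem hne hbd
  refine ⟨T, h1, hK T h1 h2, ?_⟩
  intro ω hω
  by_contra hcon
  have hcon' : ∀ t ∈ T, ¬ SameSq G r t ω := by
    intro t ht h
    exact hcon (mem_iUnion₂.2 ⟨t, ht, h⟩)
  have hnot : ω ∉ T := fun h => hcon' ω h (sameSq_refl G r ω)
  have hmem : (insert ω T).card ∈ A := by
    refine ⟨insert ω T, ?_, ?_, rfl⟩
    · intro x hx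
      rcases Finset.mem_insert.1 hx with rfl | hx
      · exact hω
      · exact h1 x hx
    · intro x hx y hy hxy hs
      have hx' := Finset.mem_insert.1 hx
      have hy' := Finset.mem_insert.1 hy
      rcases hx' with hx1 | hx1
      · rcases hy' with hy1 | hy1
        · exact hxy (hx1.trans hy1.symm)
        · rw [hx1] at hs
          exact hcon' y hy1 (sameSq_symm G hr hs)
      · rcases hy' with hy1 | hy1
        · rw [hy1] at hs
          exact hcon' x hx1 hs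
        · exact h2 x hx1 y hy1 hxy hs
  have hle := le_csSup hbd hmem
  rw [Finset.card_insert_of_notMem hnot, h3] at hle
  omega

/-- bound of the measure of the good codes over a small set -/
theorem small_set (G : Grid m n) (π : (ℕ → Fin m × Fin n) → ℝ × ℝ)
    (μ : Measure (ℕ → Fin m × Fin n)) {s : ℝ} (K : ℕ)
    (hK : ∀ r : ℝ, 0 < r → r < 1 → ∀ U : Set (ℝ × ℝ), Metric.ediam U ≤ ENNReal.ofReal r →
      ∀ T : Finset (ℕ → Fin m × Fin n), (∀ ω ∈ T, π ω ∈ U) →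
        (∀ ω ∈ T, ∀ ω' ∈ T, ω ≠ ω' → ¬ SameSq G r ω ω') → T.card ≤ K)
    (E : Set (ℕ → Fin m × Fin n)) {ρ : ℝ} (hρ1 : ρ ≤ 1)
    (hE : ∀ ω ∈ E, ∀ r : ℝ, 0 < r → r < ρ → μ {ω' | SameSq G r ω ω'} ≤ ENNReal.ofReal (r ^ s))
    (U : Set (ℝ × ℝ)) {r : ℝ} (hr : 0 < r) (hr1 : r < ρ) (hU : Metric.ediam U ≤ ENNReal.ofReal r) :
    μ (π ⁻¹' U ∩ E) ≤ K * ENNReal.ofReal (r ^ s) := by
  obtain ⟨T, h1, h2, h3⟩ := exists_cover G hr (π ⁻¹' U ∩ E) K fun T hT hT' =>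
    hK r hr (hr1.trans_le hρ1) U hU T (fun ω hω => (hT ω hω).1) hT'
  calc μ (π ⁻¹' U ∩ E) ≤ μ (⋃ t ∈ T, {ω' | SameSq G r t ω'}) := measure_mono h3
    _ ≤ ∑ t ∈ T, μ {ω' | SameSq G r t ω'} := measure_biUnion_finset_le _ _
    _ ≤ ∑ _t ∈ T, ENNReal.ofReal (r ^ s) :=
        Finset.sum_le_sum fun t ht => hE t (h1 t ht).2 r hr hr1
    _ = (T.card : ℝ≥0∞) * ENNReal.ofReal (r ^ s) := by rw [Finset.sum_const, nsmul_eq_mul]
    _ ≤ K * ENNReal.ofReal (r ^ s) := by gcongr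

/-- the same bound by the diameter -/
theorem small_set' (G : Grid m n) (π : (ℕ → Fin m × Fin n) → ℝ × ℝ)
    (μ : Measure (ℕ → Fin m × Fin n)) {s : ℝ} (hs : 0 < s) (K : ℕ)
    (hK : ∀ r : ℝ, 0 < r → r < 1 → ∀ U : Set (ℝ × ℝ), Metric.ediam U ≤ ENNReal.ofReal r →
      ∀ T : Finset (ℕ → Fin m × Fin n), (∀ ω ∈ T, π ω ∈ U) →
        (∀ ω ∈ T, ∀ ω' ∈ T, ω ≠ ω' → ¬ SameSq G r ω ω') → T.card ≤ K)
    (E : Set (ℕ → Fin m × Fin n)) {ρ : ℝ} (hρ0 : 0 < ρ) (hρ1 : ρ ≤ 1)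
    (hE : ∀ ω ∈ E, ∀ r : ℝ, 0 < r → r < ρ → μ {ω' | SameSq G r ω ω'} ≤ ENNReal.ofReal (r ^ s))
    (U : Set (ℝ × ℝ)) (hU : Metric.ediam U ≤ ENNReal.ofReal (ρ / 2)) :
    μ (π ⁻¹' U ∩ E) ≤ K * Metric.ediam U ^ s := by
  have hfin : Metric.ediam U ≠ ∞ := ne_top_of_le_ne_top ENNReal.ofReal_ne_top hU
  by_cases h0 : Metric.ediam U = 0
  · have h1 : ∀ r : ℝ, 0 < r → r < ρ → μ (π ⁻¹' U ∩ E) ≤ K * ENNReal.ofReal (r ^ s) := by
      intro r hr hr1
      exact small_set G π μ K hK E hρ1 hE U hr hr1 (by rw [h0]; exact zero_le)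
    have h2 : Tendsto (fun r : ℝ => (K : ℝ≥0∞) * ENNReal.ofReal (r ^ s)) (𝓝[>] 0) (𝓝 0) := by
      have h3 : Tendsto (fun r : ℝ => r ^ s) (𝓝[>] 0) (𝓝 0) := by
        have h4 : Tendsto (fun r : ℝ => r ^ s) (𝓝 0) (𝓝 ((0 : ℝ) ^ s)) :=
          (Real.continuousAt_rpow_const 0 s (Or.inr hs.le)).tendsto
        rw [Real.zero_rpow hs.ne'] at h4
        exact h4.mono_left nhdsWithin_le_nhds
      have h5 := ENNReal.Tendsto.const_mul (a := (K : ℝ≥0∞)) (ENNReal.tendsto_ofReal h3)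
        (Or.inr (ENNReal.natCast_ne_top K))
      rwa [ENNReal.ofReal_zero, mul_zero] at h5
    have h6 : μ (π ⁻¹' U ∩ E) ≤ 0 := by
      refine ge_of_tendsto h2 ?_
      filter_upwards [Ioo_mem_nhdsGT hρ0] with r hr
      exact h1 r hr.1 hr.2
    exact h6.trans zero_le
  · set d : ℝ := (Metric.ediam U).toReal with hd
    have hd0 : 0 < d := ENNReal.toReal_pos h0 hfin
    have hd1 : ENNReal.ofReal d = Metric.ediam U := ENNReal.ofReal_toReal hfin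
    have hd2 : d ≤ ρ / 2 := by
      have := ENNReal.toReal_mono ENNReal.ofReal_ne_top hU
      rwa [ENNReal.toReal_ofReal (by positivity)] at this
    have h1 := small_set G π μ K hK E hρ1 hE U hd0 (by linarith) hd1.ge
    rwa [← ENNReal.ofReal_rpow_of_pos hd0, hd1] at h1

end Pool.Agent.Q73.CM.MD

namespace Pool.Agent.Q73.CM

open Set Filter Topology MeasureTheory
open scoped ENNReal NNReal

theorem t_MD : S_MD := by
  intro hCNT m n G I F π hπ μ hμ s hs hae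
  obtain ⟨K, hK⟩ := hCNT m n G I F π hπ
  set E : ℕ → Set (ℕ → Fin m × Fin n) := fun N => {ω | (∀ t, ω t ∈ I) ∧
    ∀ r : ℝ, 0 < r → r < 1 / ((N : ℝ) + 1) → μ {ω' | SameSq G r ω ω'} ≤ ENNReal.ofReal (r ^ s)}
    with hE
  -- some `E N` has positive measure
  obtain ⟨N, hN⟩ : ∃ N, μ (E N) ≠ 0 := by
    by_contra hcon
    push Not at hcon
    have h1 : μ (⋃ N, E N) = 0 := measure_iUnion_null hcon
    have h2 : ∀ᵐ ω ∂μ, ω ∈ ⋃ N, E N := by
      filter_upwards [hae] with ω hω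
      obtain ⟨h3, h4⟩ := hω
      obtain ⟨δ, hδ, h5⟩ := mem_nhdsGT_iff_exists_Ioo_subset.1 h4
      obtain ⟨N, hN⟩ := exists_nat_one_div_lt (show (0 : ℝ) < δ from hδ)
      exact mem_iUnion.2 ⟨N, h3, fun r hr hr1 => h5 ⟨hr, hr1.trans hN⟩⟩
    have h3 : μ univ = 0 := by
      have h4 : μ (⋃ N, E N)ᶜ = 0 := h2
      have h5 : μ ((⋃ N, E N) ∪ (⋃ N, E N)ᶜ) = 0 := measure_union_null h1 h4
      rwa [union_compl_self] at h5
    rw [measure_univ] at h3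
    exact one_ne_zero h3
  set ρ : ℝ := 1 / ((N : ℝ) + 1) with hρ
  have hρ0 : 0 < ρ := by positivity
  have hρ1 : ρ ≤ 1 := by
    rw [hρ, div_le_one (by positivity)]
    linarith [Nat.cast_nonneg (α := ℝ) N]
  have key := MD.small_set' G π μ hs K hK (E N) hρ0 hρ1 (fun ω hω => hω.2)
  -- the Hausdorff measure is positive
  have hpos : μ (E N) / ((K : ℝ≥0∞) + 1) ≤ μH[s] F := by
    rw [Measure.hausdorffMeasure_apply]
    refine le_trans ?_ (le_iSup₂_of_le (ENNReal.ofReal (ρ / 2))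
      (ENNReal.ofReal_pos.2 (by positivity)) le_rfl)
    refine le_iInf fun t => le_iInf fun hF => le_iInf fun hd => ?_
    rw [ENNReal.div_le_iff (by positivity) (by finiteness)]
    have h1 : E N ⊆ ⋃ i, (π ⁻¹' t i ∩ E N) := by
      intro ω hω
      obtain ⟨i, hi⟩ := mem_iUnion.1 (hF (hπ.mem ω hω.1))
      exact mem_iUnion.2 ⟨i, hi, hω⟩
    calc μ (E N) ≤ μ (⋃ i, (π ⁻¹' t i ∩ E N)) := measure_mono h1
      _ ≤ ∑' i, μ (π ⁻¹' t i ∩ E N) := measure_iUnion_le _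
      _ ≤ ∑' i, (⨆ _ : (t i).Nonempty, Metric.ediam (t i) ^ s) * ((K : ℝ≥0∞) + 1) := by
          refine ENNReal.tsum_le_tsum fun i => ?_
          by_cases hi : (t i).Nonempty
          · rw [iSup_pos hi, mul_comm]
            refine (key (t i) (hd i)).trans ?_
            gcongr
            exact le_self_add
          · rw [not_nonempty_iff_eq_empty] at hi
            rw [hi]
            simp
      _ = (∑' i, ⨆ _ : (t i).Nonempty, Metric.ediam (t i) ^ s) * ((K : ℝ≥0∞) + 1) :=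
          ENNReal.tsum_mul_right
  have hne : μH[((s.toNNReal : ℝ≥0) : ℝ)] F ≠ 0 := by
    rw [Real.coe_toNNReal s hs.le]
    intro h0
    rw [h0] at hpos
    have h1 : μ (E N) / ((K : ℝ≥0∞) + 1) = 0 := le_antisymm hpos zero_le
    rw [ENNReal.div_eq_zero_iff] at h1
    rcases h1 with h1 | h1
    · exact hN h1
    · exact (by finiteness : ((K : ℝ≥0∞) + 1) ≠ ∞) h1
  have hfin := le_dimH_of_hausdorffMeasure_ne_zero hne
  exact hfin

end Pool.Agent.Q73.CM
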