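import Pool.Agent.Q73.CM.Sph
import Pool.Agent.Q73.CM.Loc
import Pool.Agent.Helper240.ZFM.C1

/-!
# Preparations: the sets, the cutoff function, the approximation near the poles
-/

set_option autoImplicit false

open Filter Topology Set OnePoint

namespace Q73.CM

lemma InM.fin_diffAt {L : Set ℂ} {f : ℂ → OnePoint ℂ} (hf : InM L f) {z : ℂ}
    (hz : z ∈ interior L) (hfz : f z ≠ ∞) : DifferentiableAt ℂ (fun z => fin (f z)) z := by
  have hVo : IsOpen (connectedComponentIn (interior L) z) := isOpen_interior.connectedComponentIn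
  have hzV := mem_connectedComponentIn hz
  rcases hf.comp' isPreconnected_connectedComponentIn (connectedComponentIn_subset _ z) with h | h
  · exact absurd (h z hzV) hfz
  · exact h.1.differentiableAt (hVo.mem_nhds hzV)

lemma InM.rcp_diffAt {L : Set ℂ} {f : ℂ → OnePoint ℂ} (hf : InM L f) {z : ℂ}
    (hz : z ∈ interior L) (hfz : f z ≠ ((0 : ℂ) : OnePoint ℂ)) :
    DifferentiableAt ℂ (fun z => rcp (f z)) z := by
  have hVo : IsOpen (connectedComponentIn (interior L) z) := isOpen_interior.connectedComponentIn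
  have hzV := mem_connectedComponentIn hz
  rcases hf.comp' isPreconnected_connectedComponentIn (connectedComponentIn_subset _ z) with h | h
  · refine (differentiableAt_const (0 : ℂ)).congr_of_eventuallyEq ?_
    filter_upwards [hVo.mem_nhds hzV] with w hw
    rw [h w hw, rcp_infty]
  · have h1 := h.1.differentiableAt (hVo.mem_nhds hzV)
    have h2 : fin (f z) ≠ 0 := by
      intro h0
      apply hfz
      rw [← coe_fin (h.2 z hzV), h0]
    refine (h1.inv h2).congr_of_eventuallyEq ?_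
    filter_upwards with w
    rw [rcp_eq_inv]
    rfl

/-- the approximation of `1 / f` near the poles -/
theorem approx_rcp {L : Set ℂ} {f : ℂ → OnePoint ℂ}
    (hf : InM L f) {K : Set ℂ} (hK : IsCompact K) (hKc : IsConnected Kᶜ) (hKL : K ⊆ L)
    (h0 : ∀ z ∈ K, f z ≠ ((0 : ℂ) : OnePoint ℂ)) {η : ℝ} (hη : 0 < η) :
    ∃ q : Polynomial ℂ, (∀ z ∈ K, q.eval z ≠ 0) ∧ ∀ z ∈ K, ‖q.eval z - rcp (f z)‖ < η := by
  have hc : ContinuousOn (fun z => rcp (f z)) K := fun z hz =>
    (rcp_continuousAt (h0 z hz)).comp_continuousWithinAt ((hf.cont z (hKL hz)).mono hKL)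
  have hd : DifferentiableOn ℂ (fun z => rcp (f z)) (interior K) := fun z hz =>
    (hf.rcp_diffAt (interior_mono hKL hz) (h0 z (interior_subset hz))).differentiableWithinAt
  refine Pool.Agent.Y834.UT.zero_free' hK hKc _ hc hd ?_
    (fun η hη => ZFM.mergelyan hK hKc _ hc hd η hη) η hη
  intro V hVo hVc hV
  rcases hf.comp' hVc (hV.trans (interior_mono hKL)) with h | h
  · right
    intro z hz
    show rcp (f z) = 0
    rw [h z hz, rcp_infty]
  · left
    intro z hz
    show rcp (f z) ≠ 0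
    rw [Ne, rcp_eq_zero (h0 z (interior_subset (hV hz)))]
    exact h.2 z hz

/-- the sets -/
theorem sets {L : Set ℂ} (hL : IsCompact L) (hLc : IsConnected Lᶜ) {f : ℂ → OnePoint ℂ}
    (hf : InM L f) : ∃ A B P : Set ℂ, IsCompact A ∧ IsCompact B ∧ IsCompact P ∧
      PS L f ⊆ interior A ∧ A ⊆ interior B ∧ B ⊆ interior P ∧ IsConnected (L ∩ P)ᶜ ∧
      ∀ z ∈ L ∩ P, f z ≠ ((0 : ℂ) : OnePoint ℂ) := by
  set S := PS L f with hS
  have hSc : IsCompact S := PS_compact hL hf.cont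
  have hSconn : IsConnected Sᶜ := by
    have := Pool.Agent.Y834.UT.isConnected_compl_hull hSc
    rwa [hull_PS hL hLc hf] at this
  set N : Set ℂ := L ∩ f ⁻¹' {((0 : ℂ) : OnePoint ℂ)} with hN
  have hNc : IsClosed N := hf.cont.preimage_isClosed_of_isClosed hL.isClosed isClosed_singleton
  have hSN : S ⊆ Nᶜ := by
    intro z hz hzN
    have h1 : f z = ∞ := hz.2
    have h2 : f z = ((0 : ℂ) : OnePoint ℂ) := hzN.2
    rw [h1] at h2
    exact OnePoint.infty_ne_coe _ h2
  obtain ⟨U, hU, hSU, hUN, -, -, hUh⟩ := ZFM.J_c1.good_nbhd hSc hSconn hNc.isOpen_compl hSN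
    (S := ∅) finite_empty (empty_disjoint _)
  obtain ⟨B', hB', hSB', hB'U⟩ := exists_compact_between hSc hU hSU
  obtain ⟨P, hPU, hBP, hP, hPc⟩ := hUh B' hB'U hB'
  obtain ⟨B, hB, hSB, hBiP⟩ := exists_compact_between hSc isOpen_interior
    (hSB'.trans (interior_mono hBP))
  obtain ⟨A, hA, hSA, hAB⟩ := exists_compact_between hSc isOpen_interior hSB
  refine ⟨A, B, P, hA, hB, hP, hSA, hAB, hBiP, ?_, ?_⟩
  · rw [compl_inter]
    refine IsConnected.union ?_ hLc hPc
    rw [← compl_union]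
    have hb : Bornology.IsBounded (L ∪ P) := (hL.union hP).isBounded
    by_contra hne
    rw [not_nonempty_iff_eq_empty, compl_empty_iff] at hne
    rw [hne] at hb
    exact absurd hb (NormedSpace.unbounded_univ ℂ ℂ)
  · rintro z ⟨hzL, hzP⟩ h0
    exact hUN (hPU hzP) ⟨hzL, h0⟩

/-- the cutoff function -/
theorem cutoff {A B : Set ℂ} (hA : IsCompact A) (hAB : A ⊆ interior B) :
    ∃ τ : ℂ → ℝ, ContDiff ℝ ((⊤ : ℕ∞) : WithTop ℕ∞) τ ∧ (∀ z ∈ A, ∀ᶠ w in 𝓝 z, τ w = 1) ∧ (∀ z, z ∉ B → τ z = 0) ∧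
      ∀ z, 0 ≤ τ z ∧ τ z ≤ 1 := by
  obtain ⟨χ, hχ1, hχ0, hχ2⟩ := exists_contMDiffMap_one_nhds_of_subset_interior
    (modelWithCornersSelf ℝ ℂ) (n := ⊤) hA.isClosed hAB
  refine ⟨χ, χ.contMDiff.contDiff, ?_, hχ0, fun z => hχ2 z⟩
  intro z hz
  exact hχ1.filter_mono (nhds_le_nhdsSet hz)

end Q73.CM
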