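import Pool.Agent.Q73.CM.Fwd
import Pool.Agent.Helper240.ZFM.C4

/-!
# Chordal uniform limits of polynomials lie in `M(L)`
-/

set_option autoImplicit false

open Filter Topology Set OnePoint

namespace Q73.CM

/-- stereographic embedding (sphere of radius `1/2`) -/
noncomputable def sg : OnePoint ℂ → ℂ × ℝ
  | OnePoint.infty => (0, 1)
  | OnePoint.some a => (a / ((1 + ‖a‖ ^ 2 : ℝ) : ℂ), ‖a‖ ^ 2 / (1 + ‖a‖ ^ 2))

lemma sg_infty : sg ∞ = (0, 1) := rfl
lemma sg_coe (a : ℂ) : sg (a : OnePoint ℂ) =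
  (a / ((1 + ‖a‖ ^ 2 : ℝ) : ℂ), ‖a‖ ^ 2 / (1 + ‖a‖ ^ 2)) := rfl

lemma sq_identity (a b : ℂ) :
    ‖a / ((1 + ‖a‖ ^ 2 : ℝ) : ℂ) - b / ((1 + ‖b‖ ^ 2 : ℝ) : ℂ)‖ ^ 2 +
      (‖a‖ ^ 2 / (1 + ‖a‖ ^ 2) - ‖b‖ ^ 2 / (1 + ‖b‖ ^ 2)) ^ 2 =
      ‖a - b‖ ^ 2 / ((1 + ‖a‖ ^ 2) * (1 + ‖b‖ ^ 2)) := by
  have hA : 0 < 1 + ‖a‖ ^ 2 := by positivity
  have hB : 0 < 1 + ‖b‖ ^ 2 := by positivity
  have e1 : a / ((1 + ‖a‖ ^ 2 : ℝ) : ℂ) - b / ((1 + ‖b‖ ^ 2 : ℝ) : ℂ) =
      (((1 + ‖a‖ ^ 2)⁻¹ : ℝ) : ℂ) * a - (((1 + ‖b‖ ^ 2)⁻¹ : ℝ) : ℂ) * b := by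
    push_cast
    ring
  rw [e1]
  have ha : ‖a‖ ^ 2 = a.re ^ 2 + a.im ^ 2 := by
    rw [Complex.sq_norm, Complex.normSq_apply]; ring
  have hb : ‖b‖ ^ 2 = b.re ^ 2 + b.im ^ 2 := by
    rw [Complex.sq_norm, Complex.normSq_apply]; ring
  have hab : ‖a - b‖ ^ 2 = (a.re - b.re) ^ 2 + (a.im - b.im) ^ 2 := by
    rw [Complex.sq_norm, Complex.normSq_apply, Complex.sub_re, Complex.sub_im]; ring
  have hl : ∀ s t : ℝ, ‖(s : ℂ) * a - (t : ℂ) * b‖ ^ 2 =
      (s * a.re - t * b.re) ^ 2 + (s * a.im - t * b.im) ^ 2 := by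
    intro s t
    rw [Complex.sq_norm, Complex.normSq_apply]
    simp
    ring
  rw [hl, hab]
  rw [ha] at hA ⊢
  rw [hb] at hB ⊢
  field_simp
  ring

lemma chord_nonneg (x y : OnePoint ℂ) : 0 ≤ chord x y := by
  induction x using OnePoint.rec with
  | infty =>
    induction y using OnePoint.rec with
    | infty => exact le_rfl
    | coe b => show 0 ≤ 1 / √(1 + ‖b‖ ^ 2); positivity
  | coe a =>
    induction y using OnePoint.rec with
    | infty => show 0 ≤ 1 / √(1 + ‖a‖ ^ 2); positivity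
    | coe b => rw [chord_coe]; positivity

lemma chord_comm (x y : OnePoint ℂ) : chord x y = chord y x := by
  induction x using OnePoint.rec with
  | infty =>
    induction y using OnePoint.rec with
    | infty => rfl
    | coe b => rfl
  | coe a =>
    induction y using OnePoint.rec with
    | infty => rfl
    | coe b => rw [chord_coe, chord_coe, norm_sub_rev, mul_comm]

lemma dist_sg_coe_infty (a : ℂ) : dist (sg (a : OnePoint ℂ)) (sg ∞) ≤
    chord (a : OnePoint ℂ) ∞ := by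
  rw [sg_coe, sg_infty, chord_coe_infty, Prod.dist_eq]
  have hA : 0 < 1 + ‖a‖ ^ 2 := by positivity
  have hs : √(1 + ‖a‖ ^ 2) ^ 2 = 1 + ‖a‖ ^ 2 := Real.sq_sqrt hA.le
  have hs0 : 0 < √(1 + ‖a‖ ^ 2) := by positivity
  have hs1 : (1 : ℝ) ≤ √(1 + ‖a‖ ^ 2) := by
    rw [Real.one_le_sqrt]
    nlinarith [sq_nonneg ‖a‖]
  refine max_le ?_ ?_
  · rw [dist_zero_right, norm_div, Complex.norm_real, Real.norm_of_nonneg hA.le,
      div_le_div_iff₀ hA hs0]
    have := norm_le_sqrt a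
    calc ‖a‖ * √(1 + ‖a‖ ^ 2) ≤ √(1 + ‖a‖ ^ 2) * √(1 + ‖a‖ ^ 2) :=
          mul_le_mul_of_nonneg_right this hs0.le
      _ = 1 * (1 + ‖a‖ ^ 2) := by rw [← sq, hs, one_mul]
  · rw [Real.dist_eq]
    have : ‖a‖ ^ 2 / (1 + ‖a‖ ^ 2) - 1 = -(1 / (1 + ‖a‖ ^ 2)) := by
      field_simp
      ring
    rw [this, abs_neg, abs_of_nonneg (by positivity)]
    apply one_div_le_one_div_of_le hs0
    nlinarith

lemma dist_sg_le (x y : OnePoint ℂ) : dist (sg x) (sg y) ≤ chord x y := by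
  induction x using OnePoint.rec with
  | infty =>
    induction y using OnePoint.rec with
    | infty => rw [dist_self]; exact chord_nonneg _ _
    | coe b =>
      rw [dist_comm, chord_comm]
      exact dist_sg_coe_infty b
  | coe a =>
    induction y using OnePoint.rec with
    | infty => exact dist_sg_coe_infty a
    | coe b =>
      have hid := sq_identity a b
      have hc : chord (a : OnePoint ℂ) (b : OnePoint ℂ) ^ 2 =
          ‖a - b‖ ^ 2 / ((1 + ‖a‖ ^ 2) * (1 + ‖b‖ ^ 2)) := by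
        rw [chord_coe, div_pow, mul_pow, Real.sq_sqrt (by positivity), Real.sq_sqrt (by positivity)]
      rw [← hc] at hid
      rw [sg_coe, sg_coe, Prod.dist_eq]
      have h0 := chord_nonneg (a : OnePoint ℂ) (b : OnePoint ℂ)
      refine max_le ?_ ?_
      · rw [dist_eq_norm]
        refine le_of_sq_le_sq ?_ h0
        rw [← hid]
        have := sq_nonneg (‖a‖ ^ 2 / (1 + ‖a‖ ^ 2) - ‖b‖ ^ 2 / (1 + ‖b‖ ^ 2))
        linarith
      · rw [Real.dist_eq]
        refine le_of_sq_le_sq ?_ h0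
        rw [← hid, sq_abs]
        have := sq_nonneg ‖a / ((1 + ‖a‖ ^ 2 : ℝ) : ℂ) - b / ((1 + ‖b‖ ^ 2 : ℝ) : ℂ)‖
        linarith

lemma sg_cont : Continuous sg := by
  rw [OnePoint.continuous_iff]
  constructor
  · rw [tendsto_iff_dist_tendsto_zero, Filter.coclosedCompact_eq_cocompact]
    refine squeeze_zero (fun _ => dist_nonneg) (fun a => dist_sg_le _ _) ?_
    have h1 : Tendsto (fun a : ℂ => ‖a‖⁻¹) (cocompact ℂ) (𝓝 0) :=
      tendsto_inv_atTop_zero.comp tendsto_norm_cocompact_atTop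
    refine squeeze_zero' (Eventually.of_forall fun _ => chord_nonneg _ _) ?_ h1
    have h2 : ∀ᶠ a : ℂ in cocompact ℂ, 0 < ‖a‖ :=
      (tendsto_norm_cocompact_atTop (E := ℂ)).eventually_gt_atTop 0
    filter_upwards [h2] with a ha
    rw [chord_coe_infty, one_div]
    exact inv_anti₀ ha (norm_le_sqrt a)
  · show Continuous fun a : ℂ => (a / ((1 + ‖a‖ ^ 2 : ℝ) : ℂ), ‖a‖ ^ 2 / (1 + ‖a‖ ^ 2))
    refine Continuous.prodMk ?_ ?_
    · refine continuous_id.div (Complex.continuous_ofReal.comp (by fun_prop)) fun a => ?_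
      have : (1 + ‖a‖ ^ 2 : ℝ) ≠ 0 := by positivity
      exact_mod_cast this
    · refine Continuous.div (by fun_prop) (by fun_prop) fun a => by positivity

lemma sg_inj : Function.Injective sg := by
  have key : ∀ a : ℂ, sg (a : OnePoint ℂ) ≠ sg ∞ := by
    intro a h
    rw [sg_coe, sg_infty, Prod.mk.injEq] at h
    have h2 := h.2
    have hA : 0 < 1 + ‖a‖ ^ 2 := by positivity
    rw [div_eq_one_iff_eq hA.ne'] at h2
    linarith
  intro x y h
  induction x using OnePoint.rec with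
  | infty =>
    induction y using OnePoint.rec with
    | infty => rfl
    | coe b => exact absurd h.symm (key b)
  | coe a =>
    induction y using OnePoint.rec with
    | infty => exact absurd h (key a)
    | coe b =>
      rw [sg_coe, sg_coe, Prod.mk.injEq] at h
      have hid := sq_identity a b
      rw [h.1, h.2] at hid
      rw [sub_self, sub_self, norm_zero] at hid
      have hpos : 0 < (1 + ‖a‖ ^ 2) * (1 + ‖b‖ ^ 2) := by positivity
      have h3 : ‖a - b‖ ^ 2 = 0 := by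
        have h4 : ‖a - b‖ ^ 2 / ((1 + ‖a‖ ^ 2) * (1 + ‖b‖ ^ 2)) = 0 := by
          rw [← hid]; norm_num
        rcases div_eq_zero_iff.1 h4 with h5 | h5
        · exact h5
        · exact absurd h5 hpos.ne'
      have h5 : a - b = 0 := by
        rw [← norm_eq_zero]
        exact pow_eq_zero_iff (two_ne_zero) |>.1 h3
      rw [sub_eq_zero.1 h5]

lemma sg_ind : IsInducing sg := (sg_cont.isClosedEmbedding sg_inj).isEmbedding.isInducing

/-- chordal uniform convergence -/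
def ULim (L : Set ℂ) (p : ℕ → Polynomial ℂ) (f : ℂ → OnePoint ℂ) : Prop :=
  ∀ ε : ℝ, 0 < ε → ∃ N : ℕ, ∀ n ≥ N, ∀ z ∈ L, chord (((p n).eval z : ℂ) : OnePoint ℂ) (f z) < ε

lemma ULim.cont {L : Set ℂ} {p : ℕ → Polynomial ℂ} {f : ℂ → OnePoint ℂ} (h : ULim L p f) :
    ContinuousOn f L := by
  rw [sg_ind.continuousOn_iff]
  have hu : TendstoUniformlyOn (fun n z => sg (((p n).eval z : ℂ) : OnePoint ℂ)) (sg ∘ f)
      atTop L := by
    rw [Metric.tendstoUniformlyOn_iff]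
    intro ε hε
    obtain ⟨N, hN⟩ := h ε hε
    filter_upwards [eventually_ge_atTop N] with n hn z hz
    rw [dist_comm]
    exact (dist_sg_le _ _).trans_lt (hN n hn z hz)
  refine hu.continuousOn (Eventually.frequently (Eventually.of_forall fun n => ?_))
  exact (sg_cont.comp (OnePoint.continuous_coe.comp (p n).continuous)).continuousOn

/-- comparison near `∞` -/
lemma comp_inf {a : ℂ} {x : OnePoint ℂ} (hx : x ≠ ((0 : ℂ) : OnePoint ℂ)) (hr : ‖rcp x‖ ≤ 1 / 4)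
    (hc : chord (a : OnePoint ℂ) x < 1 / 4) :
    a ≠ 0 ∧ ‖a⁻¹ - rcp x‖ ≤ 2 * chord (a : OnePoint ℂ) x := by
  have hs := norm_le_sqrt a
  have hs0 : 0 < √(1 + ‖a‖ ^ 2) := by positivity
  have hs2 : √(1 + ‖a‖ ^ 2) ^ 2 = 1 + ‖a‖ ^ 2 := Real.sq_sqrt (by positivity)
  -- the lower bound for `a`
  induction x using OnePoint.rec with
  | infty =>
    rw [chord_coe_infty] at hc ⊢
    rw [rcp_infty, sub_zero]
    have h1 : 4 < √(1 + ‖a‖ ^ 2) := by
      rw [div_lt_div_iff₀ hs0 (by norm_num)] at hc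
      linarith
    have h2 : 1 < ‖a‖ := by
      by_contra hcon
      rw [not_lt] at hcon
      nlinarith [norm_nonneg a]
    have ha : a ≠ 0 := by
      rintro rfl
      simp at h2
      linarith
    refine ⟨ha, ?_⟩
    rw [norm_inv]
    have h3 : √(1 + ‖a‖ ^ 2) ≤ 2 * ‖a‖ := by
      rw [Real.sqrt_le_left (by positivity)]
      nlinarith
    rw [inv_le_iff_one_le_mul₀ (by linarith), mul_one_div, div_mul_eq_mul_div, le_div_iff₀ hs0]
    linarith
  | coe b =>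
    have hb : b ≠ 0 := fun h => hx (congrArg _ h)
    have hb0 : 0 < ‖b‖ := norm_pos_iff.2 hb
    rw [rcp_coe] at hr ⊢
    rw [norm_inv] at hr
    have hb4 : 4 ≤ ‖b‖ := by
      rw [inv_le_iff_one_le_mul₀ hb0] at hr
      linarith
    rw [chord_coe] at hc ⊢
    have hsb := norm_le_sqrt b
    have hsb0 : 0 < √(1 + ‖b‖ ^ 2) := by positivity
    have hsb2 : √(1 + ‖b‖ ^ 2) ≤ 5 / 4 * ‖b‖ := by
      rw [Real.sqrt_le_left (by positivity)]
      nlinarith
    have h1 : ‖a - b‖ < 1 / 4 * (√(1 + ‖a‖ ^ 2) * √(1 + ‖b‖ ^ 2)) := by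
      rwa [div_lt_iff₀ (by positivity)] at hc
    have h2 : 1 < ‖a‖ := by
      by_contra hcon
      rw [not_lt] at hcon
      have h3 : √(1 + ‖a‖ ^ 2) ≤ 3 / 2 := by
        rw [Real.sqrt_le_left (by norm_num)]
        nlinarith [norm_nonneg a]
      have h4 : ‖b‖ ≤ ‖a - b‖ + ‖a‖ := by
        have := norm_sub_le a (a - b)
        rw [sub_sub_cancel] at this
        linarith
      have h5 : √(1 + ‖a‖ ^ 2) * √(1 + ‖b‖ ^ 2) ≤ 3 / 2 * (5 / 4 * ‖b‖) := by gcongr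
      nlinarith
    have ha : a ≠ 0 := by
      rintro rfl
      simp at h2
      linarith
    have ha0 : 0 < ‖a‖ := norm_pos_iff.2 ha
    refine ⟨ha, ?_⟩
    have h3 : √(1 + ‖a‖ ^ 2) ≤ 3 / 2 * ‖a‖ := by
      rw [Real.sqrt_le_left (by positivity)]
      nlinarith
    have e1 : a⁻¹ - b⁻¹ = (b - a) * (a⁻¹ * b⁻¹) := by
      field_simp
    rw [e1, norm_mul, norm_mul, norm_inv, norm_inv, norm_sub_rev]
    have h6 : √(1 + ‖a‖ ^ 2) * √(1 + ‖b‖ ^ 2) ≤ 2 * (‖a‖ * ‖b‖) := by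
      calc √(1 + ‖a‖ ^ 2) * √(1 + ‖b‖ ^ 2) ≤ (3 / 2 * ‖a‖) * (5 / 4 * ‖b‖) := by gcongr
        _ = 15 / 8 * (‖a‖ * ‖b‖) := by ring
        _ ≤ 2 * (‖a‖ * ‖b‖) := by
          have : 0 < ‖a‖ * ‖b‖ := by positivity
          linarith
    rw [← mul_inv, ← div_eq_mul_inv, ← mul_div_assoc, div_le_div_iff₀ (by positivity) (by positivity)]
    have h7 := norm_nonneg (a - b)
    calc ‖a - b‖ * (√(1 + ‖a‖ ^ 2) * √(1 + ‖b‖ ^ 2)) ≤ ‖a - b‖ * (2 * (‖a‖ * ‖b‖)) := by gcongr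
      _ = 2 * ‖a - b‖ * (‖a‖ * ‖b‖) := by ring

/-- comparison at finite points -/
lemma comp_fin {a b : ℂ} {M : ℝ} (hM : 0 ≤ M) (hb : ‖b‖ ≤ M)
    (hc : chord (a : OnePoint ℂ) (b : OnePoint ℂ) < 1 / (4 * (1 + M))) :
    ‖a - b‖ ≤ 4 * (1 + M) ^ 2 * chord (a : OnePoint ℂ) (b : OnePoint ℂ) := by
  have hs0 : 0 < √(1 + ‖a‖ ^ 2) := by positivity
  have hsb0 : 0 < √(1 + ‖b‖ ^ 2) := by positivity
  have h1 : √(1 + ‖a‖ ^ 2) ≤ 1 + ‖a‖ := by
    rw [Real.sqrt_le_left (by positivity)]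
    nlinarith [norm_nonneg a]
  have h2 : √(1 + ‖b‖ ^ 2) ≤ 1 + M := by
    rw [Real.sqrt_le_left (by positivity)]
    nlinarith [norm_nonneg b]
  rw [chord_coe] at hc ⊢
  have h3 : ‖a - b‖ < 1 / (4 * (1 + M)) * (√(1 + ‖a‖ ^ 2) * √(1 + ‖b‖ ^ 2)) := by
    rwa [div_lt_iff₀ (by positivity)] at hc
  have h4 : ‖a - b‖ < (1 + ‖a‖) / 4 := by
    refine h3.trans_le ?_
    calc 1 / (4 * (1 + M)) * (√(1 + ‖a‖ ^ 2) * √(1 + ‖b‖ ^ 2))
        ≤ 1 / (4 * (1 + M)) * ((1 + ‖a‖) * (1 + M)) := by gcongr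
      _ = (1 + ‖a‖) / 4 := by field_simp
  have h5 : ‖a‖ ≤ ‖a - b‖ + ‖b‖ := by
    have := norm_add_le (a - b) b
    rwa [sub_add_cancel] at this
  have h6 : ‖a‖ ≤ 1 + 2 * M := by linarith
  have h7 : √(1 + ‖a‖ ^ 2) * √(1 + ‖b‖ ^ 2) ≤ 4 * (1 + M) ^ 2 := by
    calc √(1 + ‖a‖ ^ 2) * √(1 + ‖b‖ ^ 2) ≤ (1 + ‖a‖) * (1 + M) := by gcongr
      _ ≤ (2 + 2 * M) * (1 + M) := mul_le_mul_of_nonneg_right (by linarith) (by linarith)
      _ ≤ 4 * (1 + M) ^ 2 := by nlinarith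
  rw [mul_div_assoc', le_div_iff₀ (by positivity)]
  calc ‖a - b‖ * (√(1 + ‖a‖ ^ 2) * √(1 + ‖b‖ ^ 2)) ≤ ‖a - b‖ * (4 * (1 + M) ^ 2) := by gcongr
    _ = 4 * (1 + M) ^ 2 * ‖a - b‖ := by ring

/-- the set where the limit is infinite is open in the interior -/
lemma ULim.inf_open {L : Set ℂ} {p : ℕ → Polynomial ℂ} {f : ℂ → OnePoint ℂ} (h : ULim L p f)
    {z : ℂ} (hz : z ∈ interior L) (hfz : f z = ∞) : ∀ᶠ w in 𝓝 z, f w = ∞ := by
  have hc : ContinuousAt f z := (h.cont z (interior_subset hz)).continuousAt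
    (mem_interior_iff_mem_nhds.1 hz)
  have h0 : f z ≠ ((0 : ℂ) : OnePoint ℂ) := by
    rw [hfz]
    exact OnePoint.infty_ne_coe _
  have hrc : ContinuousAt (fun w => rcp (f w)) z := (rcp_continuousAt h0).comp hc
  have e1 : ∀ᶠ w in 𝓝 z, ‖rcp (f w)‖ < 1 / 4 := by
    have := hrc.norm
    refine this.eventually_lt continuousAt_const ?_
    show ‖rcp (f z)‖ < 1 / 4
    rw [hfz, rcp_infty]
    norm_num
  have e2 : ∀ᶠ w in 𝓝 z, f w ≠ ((0 : ℂ) : OnePoint ℂ) := hc.eventually_ne h0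
  have e3 : ∀ᶠ w in 𝓝 z, w ∈ interior L := isOpen_interior.mem_nhds hz
  obtain ⟨U, hU, hUo, hzU⟩ := mem_nhds_iff.1 ((e1.and e2).and e3)
  obtain ⟨N, hN⟩ := h (1 / 4) (by norm_num)
  have hUL : U ⊆ L := fun w hw => interior_subset (hU hw).2
  have hcmp : ∀ n, ∀ w ∈ U, (p (n + N)).eval w ≠ 0 ∧ ‖((p (n + N)).eval w)⁻¹ - rcp (f w)‖ ≤
      2 * chord (((p (n + N)).eval w : ℂ) : OnePoint ℂ) (f w) := by
    intro n w hw
    have hw' := hU hw
    exact comp_inf hw'.1.2 hw'.1.1.le (hN (n + N) (Nat.le_add_left _ _) w (hUL hw))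
  have hlim : TendstoUniformlyOn (fun n w => ((p (n + N)).eval w)⁻¹) (fun w => rcp (f w))
      atTop U := by
    rw [Metric.tendstoUniformlyOn_iff]
    intro ε hε
    obtain ⟨N', hN'⟩ := h (ε / 2) (by positivity)
    filter_upwards [eventually_ge_atTop N'] with n hn w hw
    rw [dist_comm, dist_eq_norm]
    have := hN' (n + N) (by omega) w (hUL hw)
    have := (hcmp n w hw).2
    linarith
  have hH := ZFM.J_c4.hurwitz hUo (F := fun n w => ((p (n + N)).eval w)⁻¹)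
    (f := fun w => rcp (f w)) (l := atTop)
    (fun n w hw => ((p (n + N)).differentiable.differentiableAt.inv
      (hcmp n w hw).1).differentiableWithinAt)
    hlim.tendstoLocallyUniformlyOn (fun n w hw => inv_ne_zero (hcmp n w hw).1) hzU
    (by show rcp (f z) = 0; rw [hfz, rcp_infty])
  filter_upwards [hH, e2] with w hw1 hw2
  exact (rcp_eq_zero hw2).1 hw1

/-- the finite part of the limit is holomorphic -/
lemma ULim.fin_diff {L : Set ℂ} {p : ℕ → Polynomial ℂ} {f : ℂ → OnePoint ℂ} (h : ULim L p f)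
    {z : ℂ} (hz : z ∈ interior L) (hfz : f z ≠ ∞) :
    DifferentiableAt ℂ (fun w => fin (f w)) z := by
  have hc : ContinuousAt f z := (h.cont z (interior_subset hz)).continuousAt
    (mem_interior_iff_mem_nhds.1 hz)
  have hfc : ContinuousAt (fun w => fin (f w)) z := (fin_continuousAt hfz).comp hc
  set M : ℝ := ‖fin (f z)‖ + 1 with hM
  have hM0 : 0 ≤ M := by positivity
  have e1 : ∀ᶠ w in 𝓝 z, ‖fin (f w)‖ < M := by
    refine hfc.norm.eventually_lt continuousAt_const ?_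
    show ‖fin (f z)‖ < M
    rw [hM]
    linarith
  have e2 : ∀ᶠ w in 𝓝 z, f w ≠ ∞ := hc.eventually_ne hfz
  have e3 : ∀ᶠ w in 𝓝 z, w ∈ interior L := isOpen_interior.mem_nhds hz
  obtain ⟨U, hU, hUo, hzU⟩ := mem_nhds_iff.1 ((e1.and e2).and e3)
  have hUL : U ⊆ L := fun w hw => interior_subset (hU hw).2
  have hlim : TendstoUniformlyOn (fun n w => (p n).eval w) (fun w => fin (f w)) atTop U := by
    rw [Metric.tendstoUniformlyOn_iff]
    intro ε hε
    obtain ⟨N, hN⟩ := h (min (1 / (4 * (1 + M))) (ε / (4 * (1 + M) ^ 2))) (by positivity)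
    filter_upwards [eventually_ge_atTop N] with n hn w hw
    rw [dist_comm, dist_eq_norm]
    have h1 := hN n hn w (hUL hw)
    have hw' := hU hw
    rw [← coe_fin hw'.1.2] at h1
    have h2 := comp_fin hM0 hw'.1.1.le (h1.trans_le (min_le_left _ _))
    refine h2.trans_lt ?_
    have h3 := h1.trans_le (min_le_right _ _)
    have h4 : 0 < 4 * (1 + M) ^ 2 := by positivity
    calc 4 * (1 + M) ^ 2 * chord (((p n).eval w : ℂ) : OnePoint ℂ) ((fin (f w) : ℂ) : OnePoint ℂ)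
        < 4 * (1 + M) ^ 2 * (ε / (4 * (1 + M) ^ 2)) := by gcongr
      _ = ε := by field_simp
  have hd := hlim.tendstoLocallyUniformlyOn.differentiableOn
    (Eventually.of_forall fun n => (p n).differentiable.differentiableOn) hUo
  exact hd.differentiableAt (hUo.mem_nhds hzU)

theorem ULim.inM {L : Set ℂ} {p : ℕ → Polynomial ℂ} {f : ℂ → OnePoint ℂ} (h : ULim L p f) :
    InM L f := by
  refine ⟨h.cont, fun z hz => ?_⟩
  set V := connectedComponentIn (interior L) z with hV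
  have hVL : V ⊆ interior L := connectedComponentIn_subset _ _
  have hVc : IsPreconnected V := isPreconnected_connectedComponentIn
  have hu : IsOpen (interior L ∩ f ⁻¹' {∞}) := by
    rw [isOpen_iff_mem_nhds]
    rintro w ⟨hw, hfw⟩
    filter_upwards [isOpen_interior.mem_nhds hw, h.inf_open hw hfw] with v hv hfv
    exact ⟨hv, hfv⟩
  have hv : IsOpen (interior L ∩ f ⁻¹' {∞}ᶜ) := by
    rw [isOpen_iff_mem_nhds]
    rintro w ⟨hw, hfw⟩
    have hc : ContinuousAt f w := (h.cont w (interior_subset hw)).continuousAt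
      (mem_interior_iff_mem_nhds.1 hw)
    filter_upwards [isOpen_interior.mem_nhds hw, hc.eventually_ne hfw] with v hv hfv
    exact ⟨hv, hfv⟩
  have hdis : Disjoint (interior L ∩ f ⁻¹' {∞}) (interior L ∩ f ⁻¹' {∞}ᶜ) := by
    rw [Set.disjoint_left]
    rintro w ⟨_, h1⟩ ⟨_, h2⟩
    exact h2 h1
  have hsub : V ⊆ (interior L ∩ f ⁻¹' {∞}) ∪ (interior L ∩ f ⁻¹' {∞}ᶜ) := by
    intro w hw
    by_cases hfw : f w = ∞
    · exact Or.inl ⟨hVL hw, hfw⟩
    · exact Or.inr ⟨hVL hw, hfw⟩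
  rcases hVc.subset_or_subset hu hv hdis hsub with h1 | h1
  · left
    intro w hw
    exact (h1 hw).2
  · right
    refine ⟨fun w => fin (f w), fun w hw => ?_, fun w hw => (coe_fin (h1 hw).2).symm⟩
    exact (h.fin_diff (hVL hw) (h1 hw).2).differentiableWithinAt

/-- **Mergelyan's theorem for chordal polynomial approximation.** -/
theorem main {L : Set ℂ} (hL : IsCompact L) (hLc : IsConnected Lᶜ) (f : ℂ → OnePoint ℂ) :
    (∃ p : ℕ → Polynomial ℂ, ULim L p f) ↔ InM L f := by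
  constructor
  · rintro ⟨p, hp⟩
    exact hp.inM
  · intro hf
    have hex : ∀ n : ℕ, ∃ p : Polynomial ℂ, ∀ z ∈ L, chord ((p.eval z : ℂ) : OnePoint ℂ) (f z) <
        1 / ((n : ℝ) + 1) := fun n => approx hL hLc hf (by positivity)
    choose p hp using hex
    refine ⟨p, fun ε hε => ?_⟩
    obtain ⟨N, hN⟩ := exists_nat_one_div_lt hε
    refine ⟨N, fun n hn z hz => (hp n z hz).trans_le (le_trans ?_ hN.le)⟩
    apply one_div_le_one_div_of_le (by positivity)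
    have : (N : ℝ) ≤ n := by exact_mod_cast hn
    linarith

end Q73.CM
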