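import Pool.Agent.Q73.CM.Stm

/-!
# Project CM, job SW (helper65): exchange of the coordinates
-/

set_option autoImplicit false

namespace Pool.Agent.Q73.CM

open Set Filter Topology MeasureTheory

namespace SW

theorem iso : Isometry (Prod.swap : ℝ × ℝ → ℝ × ℝ) := by
  intro x y
  rw [Prod.edist_eq, Prod.edist_eq]
  exact max_comm _ _

theorem swap_swap_image (E : Set (ℝ × ℝ)) : Prod.swap '' (Prod.swap '' E) = E := by
  rw [image_image]
  simp

theorem covN_le (r : ℝ) (E : Set (ℝ × ℝ)) :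
    {k : ℕ | ∃ t : Fin k → Set (ℝ × ℝ), (∀ i, Metric.ediam (t i) ≤ ENNReal.ofReal r) ∧ E ⊆ ⋃ i, t i} ⊆
    {k : ℕ | ∃ t : Fin k → Set (ℝ × ℝ), (∀ i, Metric.ediam (t i) ≤ ENNReal.ofReal r) ∧
      Prod.swap '' E ⊆ ⋃ i, t i} := by
  rintro k ⟨t, h1, h2⟩
  refine ⟨fun i => Prod.swap '' t i, fun i => ?_, ?_⟩
  · rw [iso.ediam_image]
    exact h1 i
  · rw [← image_iUnion]
    exact image_mono h2

theorem covN_swap (r : ℝ) (E : Set (ℝ × ℝ)) : covN r (Prod.swap '' E) = covN r E := by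
  unfold covN
  congr 1
  apply Subset.antisymm
  · have h := covN_le r (Prod.swap '' E)
    rwa [swap_swap_image] at h
  · exact covN_le r E

theorem ball (x : ℝ × ℝ) (R : ℝ) (F : Set (ℝ × ℝ)) :
    Metric.closedBall (Prod.swap x) R ∩ Prod.swap '' F = Prod.swap '' (Metric.closedBall x R ∩ F) := by
  ext z
  constructor
  · rintro ⟨h1, w, hw, rfl⟩
    refine ⟨w, ⟨?_, hw⟩, rfl⟩
    rw [Metric.mem_closedBall] at h1 ⊢
    rwa [iso.dist_eq] at h1
  · rintro ⟨w, ⟨h1, hw⟩, rfl⟩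
    refine ⟨?_, w, hw, rfl⟩
    rw [Metric.mem_closedBall] at h1 ⊢
    rwa [iso.dist_eq]

variable {m n : ℕ}

theorem mem_sw (I : Finset (Fin m × Fin n)) (i : Fin n × Fin m) :
    i ∈ I.image Prod.swap ↔ i.swap ∈ I := by
  rw [Finset.mem_image]
  constructor
  · rintro ⟨j, hj, rfl⟩
    rwa [Prod.swap_swap]
  · intro h
    exact ⟨i.swap, h, Prod.swap_swap i⟩

theorem sum_sw (I : Finset (Fin m × Fin n)) (f : Fin n × Fin m → ℝ) :
    ∑ i ∈ I.image Prod.swap, f i = ∑ i ∈ I, f i.swap :=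
  Finset.sum_image fun _ _ _ _ h => Prod.swap_injective h

theorem map_sw (G : Grid m n) (i : Fin m × Fin n) (z : ℝ × ℝ) :
    G.swap.map i.swap z.swap = (G.map i z).swap := rfl

theorem attr (G : Grid m n) (I : Finset (Fin m × Fin n)) (F : Set (ℝ × ℝ)) (h : IsAttr G I F) :
    IsAttr G.swap (I.image Prod.swap) (Prod.swap '' F) := by
  obtain ⟨h1, h2, h3, h4⟩ := h
  refine ⟨h1.image _, h2.image continuous_swap, ?_, ?_⟩
  · rintro _ ⟨z, hz, rfl⟩
    exact ⟨(h3 hz).2, (h3 hz).1⟩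
  · ext z
    rw [mem_iUnion₂]
    constructor
    · rintro ⟨w, hw, rfl⟩
      rw [h4, mem_iUnion₂] at hw
      obtain ⟨i, hi, y, hy, rfl⟩ := hw
      exact ⟨i.swap, (mem_sw I _).2 (by rwa [Prod.swap_swap]), y.swap, ⟨y, hy, rfl⟩, rfl⟩
    · rintro ⟨i, hi, _, ⟨y, hy, rfl⟩, rfl⟩
      refine ⟨G.map i.swap y, ?_, rfl⟩
      rw [h4, mem_iUnion₂]
      exact ⟨i.swap, (mem_sw I i).1 hi, y, hy, rfl⟩

end SW

theorem t_SW : S_SW := by
  intro m n G I F
  refine ⟨SW.attr G I F, SW.iso.dimH_image F, ?_, ?_, ?_, ?_, ?_, ?_, ?_⟩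
  · rintro s ⟨c, hc, h⟩
    refine ⟨c, hc, fun δ h0 h1 => ?_⟩
    obtain ⟨_, ⟨x, hx, rfl⟩, R, hR, hle⟩ := h δ h0 h1
    rw [SW.ball, SW.covN_swap] at hle
    exact ⟨x, hx, R, hR, hle⟩
  · rintro s ⟨c, hc, h⟩
    refine ⟨c, hc, fun δ h0 h1 => ?_⟩
    obtain ⟨_, ⟨x, hx, rfl⟩, R, hR, hRd, hle⟩ := h δ h0 h1
    rw [SW.ball, SW.covN_swap] at hle
    rw [SW.iso.diam_image] at hRd
    exact ⟨x, hx, R, hR, hRd, hle⟩
  · unfold cols rows
    rw [Finset.image_image]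
    rfl
  · unfold cols rows
    rw [Finset.image_image]
    rfl
  · intro j
    unfold inRow inCol
    ext k
    rw [Finset.mem_filter, Finset.mem_filter, SW.mem_sw]
    exact Iff.rfl
  · intro j
    unfold inRow inCol
    ext k
    rw [Finset.mem_filter, Finset.mem_filter, SW.mem_sw]
    exact Iff.rfl
  · intro q hq
    refine ⟨⟨fun i hi => hq.pos _ ((SW.mem_sw I i).1 hi),
      fun i hi => hq.zero _ fun h => hi ((SW.mem_sw I i).2 h), ?_⟩, ?_, ?_, rfl, ?_⟩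
    · rw [SW.sum_sw]
      exact hq.sum
    · unfold lamA lamB
      rw [SW.sum_sw]
      rfl
    · unfold lamA lamB
      rw [SW.sum_sw]
      rfl
    · unfold ent
      rw [SW.sum_sw]
      rfl

end Pool.Agent.Q73.CM
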