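import Pool.Agent.Y834.UT.Clo

/-!
# The Riemann sphere, the chordal metric, and the class `M(L)`
-/

set_option autoImplicit false

open Filter Topology Set OnePoint
open Pool.Agent.Y834.UT (hull)

namespace Q73.CM

/-- the chordal metric on the Riemann sphere -/
noncomputable def chord : OnePoint ℂ → OnePoint ℂ → ℝ
  | OnePoint.infty, OnePoint.infty => 0
  | OnePoint.infty, OnePoint.some b => 1 / √(1 + ‖b‖ ^ 2)
  | OnePoint.some a, OnePoint.infty => 1 / √(1 + ‖a‖ ^ 2)
  | OnePoint.some a, OnePoint.some b => ‖a - b‖ / (√(1 + ‖a‖ ^ 2) * √(1 + ‖b‖ ^ 2))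

/-- finite part -/
def fin : OnePoint ℂ → ℂ
  | OnePoint.infty => 0
  | OnePoint.some a => a

/-- reciprocal -/
noncomputable def rcp : OnePoint ℂ → ℂ
  | OnePoint.infty => 0
  | OnePoint.some a => a⁻¹

@[simp] lemma fin_infty : fin ∞ = 0 := rfl
@[simp] lemma fin_coe (a : ℂ) : fin (a : OnePoint ℂ) = a := rfl
@[simp] lemma rcp_infty : rcp ∞ = 0 := rfl
@[simp] lemma rcp_coe (a : ℂ) : rcp (a : OnePoint ℂ) = a⁻¹ := rfl

lemma chord_coe (a b : ℂ) : chord (a : OnePoint ℂ) (b : OnePoint ℂ) =
    ‖a - b‖ / (√(1 + ‖a‖ ^ 2) * √(1 + ‖b‖ ^ 2)) := rfl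
lemma chord_coe_infty (a : ℂ) : chord (a : OnePoint ℂ) ∞ = 1 / √(1 + ‖a‖ ^ 2) := rfl

lemma coe_fin {x : OnePoint ℂ} (hx : x ≠ ∞) : ((fin x : ℂ) : OnePoint ℂ) = x := by
  induction x using OnePoint.rec with
  | infty => exact absurd rfl hx
  | coe a => rfl

lemma rcp_eq_inv {x : OnePoint ℂ} : rcp x = (fin x)⁻¹ := by
  induction x using OnePoint.rec with
  | infty => simp
  | coe a => rfl

lemma rcp_eq_zero {x : OnePoint ℂ} (hx : x ≠ ((0 : ℂ) : OnePoint ℂ)) : rcp x = 0 ↔ x = ∞ := by
  induction x using OnePoint.rec with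
  | infty => simp
  | coe a =>
    simp only [rcp_coe, inv_eq_zero]
    constructor
    · intro h
      exact absurd (congrArg _ h) hx
    · intro h
      exact absurd h (OnePoint.coe_ne_infty a)

lemma fin_continuousAt {x : OnePoint ℂ} (hx : x ≠ ∞) : ContinuousAt fin x := by
  induction x using OnePoint.rec with
  | infty => exact absurd rfl hx
  | coe a =>
    rw [OnePoint.continuousAt_coe]
    exact continuousAt_id

lemma rcp_continuousAt {x : OnePoint ℂ} (hx : x ≠ ((0 : ℂ) : OnePoint ℂ)) :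
    ContinuousAt rcp x := by
  induction x using OnePoint.rec with
  | infty =>
    rw [OnePoint.continuousAt_infty']
    rw [Filter.coclosedCompact_eq_cocompact]
    have : (rcp ∘ fun a : ℂ => (a : OnePoint ℂ)) = fun a => a⁻¹ := rfl
    rw [this, ← Metric.cobounded_eq_cocompact]
    exact tendsto_inv₀_cobounded
  | coe a =>
    rw [OnePoint.continuousAt_coe]
    have ha : a ≠ 0 := fun h => hx (congrArg _ h)
    exact continuousAt_inv₀ ha

/-- the class `M(L)` -/
structure InM (L : Set ℂ) (f : ℂ → OnePoint ℂ) : Prop where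
  cont : ContinuousOn f L
  comp : ∀ z ∈ interior L, (∀ w ∈ connectedComponentIn (interior L) z, f w = ∞) ∨
    (∃ g : ℂ → ℂ, DifferentiableOn ℂ g (connectedComponentIn (interior L) z) ∧
      ∀ w ∈ connectedComponentIn (interior L) z, f w = (g w : OnePoint ℂ))

lemma InM.comp' {L : Set ℂ} {f : ℂ → OnePoint ℂ} (hf : InM L f) {V : Set ℂ}
    (hVc : IsPreconnected V) (hV : V ⊆ interior L) :
    (∀ w ∈ V, f w = ∞) ∨ (DifferentiableOn ℂ (fun z => fin (f z)) V ∧ ∀ w ∈ V, f w ≠ ∞) := by
  rcases V.eq_empty_or_nonempty with h0 | ⟨z, hz⟩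
  · left
    intro z hz
    rw [h0] at hz
    exact absurd hz (notMem_empty z)
  · have hsub := hVc.subset_connectedComponentIn hz hV
    rcases hf.comp z (hV hz) with h | ⟨g, hg1, hg2⟩
    · exact Or.inl fun w hw => h w (hsub hw)
    · refine Or.inr ⟨?_, fun w hw => ?_⟩
      · refine (hg1.mono hsub).congr fun w hw => ?_
        rw [hg2 w (hsub hw), fin_coe]
      · rw [hg2 w (hsub hw)]
        exact OnePoint.coe_ne_infty _

/-- the set of poles -/
def PS (L : Set ℂ) (f : ℂ → OnePoint ℂ) : Set ℂ := L ∩ f ⁻¹' {∞}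

lemma PS_compact {L : Set ℂ} {f : ℂ → OnePoint ℂ} (hL : IsCompact L) (hf : ContinuousOn f L) :
    IsCompact (PS L f) :=
  hL.of_isClosed_subset (hf.preimage_isClosed_of_isClosed hL.isClosed isClosed_singleton)
    inter_subset_left

/-- The set of poles has connected complement. -/
theorem hull_PS {L : Set ℂ} (hL : IsCompact L) (hLc : IsConnected Lᶜ) {f : ℂ → OnePoint ℂ}
    (hf : InM L f) : hull (PS L f) = PS L f := by
  classical
  set S := PS L f with hSdef
  have hSc : IsCompact S := PS_compact hL hf.cont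
  refine Subset.antisymm (fun z hz => ?_) (Pool.Agent.Y834.UT.subset_hull S)
  by_contra hzS
  have hHL : hull S ⊆ L := Pool.Agent.Y834.UT.hull_subset hL hLc inter_subset_left
  have hzL : z ∈ L := hHL hz
  have hbd : Bornology.IsBounded (connectedComponentIn Sᶜ z) := by
    rcases hz with h | h
    · exact absurd h hzS
    · exact h.2
  set O := connectedComponentIn Sᶜ z with hO
  have hOo : IsOpen O := hSc.isClosed.isOpen_compl.connectedComponentIn
  have hzO : z ∈ O := mem_connectedComponentIn hzS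
  have hOp : IsPreconnected O := isPreconnected_connectedComponentIn
  have hOS : O ⊆ Sᶜ := connectedComponentIn_subset _ _
  have hOH : O ⊆ hull S := by
    intro w hw
    right
    refine ⟨hOS hw, ?_⟩
    rw [← connectedComponentIn_eq hw]
    exact hbd
  have hfr : frontier O ⊆ S := Pool.Agent.Y834.UT.frontier_comp hSc z
  have hclL : closure O ⊆ L := closure_minimal (hOH.trans hHL) hL.isClosed
  have hOi : O ⊆ interior L := interior_maximal (hOH.trans hHL) hOo
  obtain ⟨hgd, hfin⟩ : DifferentiableOn ℂ (fun z => fin (f z)) O ∧ ∀ w ∈ O, f w ≠ ∞ := by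
    rcases hf.comp' hOp hOi with h | h
    · exact absurd ⟨hzL, h z hzO⟩ hzS
    · exact h
  set g : ℂ → ℂ := fun z => fin (f z) with hg
  have hfg : ∀ w ∈ O, f w = (g w : OnePoint ℂ) := fun w hw => (coe_fin (hfin w hw)).symm
  have hga : AnalyticOnNhd ℂ g O := hgd.analyticOnNhd hOo
  -- a boundary point
  obtain ⟨p, hp⟩ : (frontier O).Nonempty := by
    by_contra hne
    rw [not_nonempty_iff_eq_empty] at hne
    have : IsClopen O := isClopen_iff_frontier_eq_empty.2 hne
    rcases isClopen_iff.1 this with h | h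
    · rw [h] at hzO; exact hzO
    · rw [h] at hbd
      exact absurd hbd (NormedSpace.unbounded_univ ℂ ℂ)
  -- `g` is not locally zero
  have hnz : ∀ a ∈ O, ¬ (∀ᶠ w in 𝓝 a, g w = 0) := by
    intro a ha h0
    have h1 : EqOn g 0 O := hga.eqOn_zero_of_preconnected_of_eventuallyEq_zero hOp ha h0
    have h2 : closure O ⊆ L ∩ f ⁻¹' {((0 : ℂ) : OnePoint ℂ)} := by
      refine closure_minimal (fun w hw => ⟨hclL (subset_closure hw), ?_⟩)
        (hf.cont.preimage_isClosed_of_isClosed hL.isClosed isClosed_singleton)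
      show f w = _
      rw [hfg w hw, h1 hw]
      rfl
    have h3 := (h2 (frontier_subset_closure hp)).2
    have h4 : f p = ∞ := (hfr hp).2
    rw [mem_preimage, mem_singleton_iff, h4] at h3
    exact OnePoint.infty_ne_coe _ h3
  -- zeros
  obtain ⟨Z, hZ⟩ : ∃ Z : Finset ℂ, ∀ w, w ∈ Z ↔ w ∈ O ∧ g w = 0 := by
    have hcl : closure O ∩ f ⁻¹' {((0 : ℂ) : OnePoint ℂ)} ⊆ O := by
      rintro w ⟨hw, hw0⟩
      by_contra hwO
      have h1 : w ∈ frontier O := by
        rw [hOo.frontier_eq]
        exact ⟨hw, hwO⟩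
      have h2 : f w = ∞ := (hfr h1).2
      rw [mem_preimage, mem_singleton_iff, h2] at hw0
      exact OnePoint.infty_ne_coe _ hw0
    have hcomp : IsCompact (closure O ∩ f ⁻¹' {((0 : ℂ) : OnePoint ℂ)}) :=
      (hbd.isCompact_closure).of_isClosed_subset
        ((hf.cont.mono hclL).preimage_isClosed_of_isClosed isClosed_closure isClosed_singleton)
        inter_subset_left
    set T := closure O ∩ f ⁻¹' {((0 : ℂ) : OnePoint ℂ)} with hT
    have hTi : ∀ w, w ∈ T ↔ w ∈ O ∧ g w = 0 := by
      intro w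
      constructor
      · intro hw
        refine ⟨hcl hw, ?_⟩
        have := hw.2
        rw [mem_preimage, mem_singleton_iff] at this
        show fin (f w) = 0
        rw [this]
        rfl
      · rintro ⟨hw, h0⟩
        refine ⟨subset_closure hw, ?_⟩
        rw [mem_preimage, mem_singleton_iff, hfg w hw, h0]
    have hnb : ∀ a ∈ T, {w | w ∈ T → w = a} ∈ 𝓝 a := by
      intro a ha
      have haO := (hTi a).1 ha
      rcases (hga a haO.1).eventually_eq_zero_or_eventually_ne_zero with h | h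
      · exact absurd h (hnz a haO.1)
      · rw [eventually_nhdsWithin_iff] at h
        filter_upwards [h] with w hw hwT
        by_contra hne
        exact hw hne ((hTi w).1 hwT).2
    obtain ⟨t, ht1, ht2⟩ := hcomp.elim_nhds_subcover (fun a => {w | w ∈ T → w = a}) hnb
    refine ⟨t, fun w => ?_⟩
    rw [← hTi]
    constructor
    · exact ht1 w
    · intro hw
      obtain ⟨a, ha, hwa⟩ := mem_iUnion₂.1 (ht2 hw)
      have := hwa hw
      rwa [this]
  -- orders
  have hord : ∀ a ∈ Z, ∃ n : ℕ, ∃ g₁ : ℂ → ℂ, AnalyticAt ℂ g₁ a ∧ g₁ a ≠ 0 ∧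
      ∀ᶠ w in 𝓝 a, g w = (w - a) ^ n • g₁ w := by
    intro a ha
    have haO := (hZ a).1 ha
    exact ((hga a haO.1).exists_eventuallyEq_pow_smul_nonzero_iff).2 (hnz a haO.1)
  choose! n hn using hord
  set k : ℕ := Z.sup n + 1 with hk
  set R : ℂ → ℂ := fun w => ∏ a ∈ Z, (w - a) with hR
  have hRd : Differentiable ℂ R := by
    rw [hR]
    refine Differentiable.fun_finsetProd fun a _ => ?_
    exact differentiable_id.sub_const a
  set Φ : ℂ → ℂ := fun w => R w ^ k * rcp (f w) with hΦ
  have hΦZ : ∀ a ∈ Z, DifferentiableAt ℂ Φ a := by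
    intro a ha
    obtain ⟨g₁, hg1, hg1a, hg1e⟩ := hn a ha
    have haO := (hZ a).1 ha
    have hnk : n a < k := by
      have := Finset.le_sup (f := n) ha
      omega
    obtain ⟨m, hm⟩ : ∃ m : ℕ, k = n a + (m + 1) := ⟨k - n a - 1, by omega⟩
    have hd : DifferentiableAt ℂ
        (fun w => (w - a) ^ (m + 1) * (∏ b ∈ Z.erase a, (w - b)) ^ k * (g₁ w)⁻¹) a := by
      have d1 : DifferentiableAt ℂ (fun w : ℂ => (w - a) ^ (m + 1)) a :=
        (differentiableAt_id.sub_const a).pow _
      have d2 : DifferentiableAt ℂ (fun w : ℂ => (∏ b ∈ Z.erase a, (w - b)) ^ k) a := by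
        refine DifferentiableAt.pow ?_ _
        refine DifferentiableAt.fun_finsetProd fun b _ => ?_
        exact differentiableAt_id.sub_const b
      exact (d1.mul d2).mul (hg1.differentiableAt.inv hg1a)
    refine hd.congr_of_eventuallyEq ?_
    filter_upwards [hg1e, hOo.mem_nhds haO.1, hg1.continuousAt.eventually_ne hg1a] with w hw hwO hw1
    show R w ^ k * rcp (f w) = _
    rw [hfg w hwO, rcp_coe, hw, smul_eq_mul, hR]
    simp only
    rw [← Finset.mul_prod_erase Z _ ha]
    by_cases hwa : w = a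
    · subst hwa
      simp [hk]
    · have hwa' : w - a ≠ 0 := sub_ne_zero.2 hwa
      rw [mul_pow, hm]
      field_simp
      ring
  have hrc : ∀ w ∈ closure O, w ∉ Z → ContinuousWithinAt (fun w => rcp (f w)) L w := by
    intro w hw hwZ
    have h0 : f w ≠ ((0 : ℂ) : OnePoint ℂ) := by
      intro h0
      by_cases hwO : w ∈ O
      · apply hwZ
        rw [hZ]
        refine ⟨hwO, ?_⟩
        show fin (f w) = 0
        rw [h0]
        rfl
      · have h1 : w ∈ frontier O := by
          rw [hOo.frontier_eq]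
          exact ⟨hw, hwO⟩
        have h2 : f w = ∞ := (hfr h1).2
        rw [h2] at h0
        exact OnePoint.infty_ne_coe _ h0
    exact (rcp_continuousAt h0).comp_continuousWithinAt (hf.cont w (hclL hw))
  have hΦc : DiffContOnCl ℂ Φ O := by
    constructor
    · intro w hw
      by_cases hwZ : w ∈ Z
      · exact (hΦZ w hwZ).differentiableWithinAt
      · have hgw : g w ≠ 0 := fun h => hwZ ((hZ w).2 ⟨hw, h⟩)
        have hgdw : DifferentiableAt ℂ g w := hgd.differentiableAt (hOo.mem_nhds hw)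
        have : DifferentiableAt ℂ (fun w => R w ^ k * (g w)⁻¹) w :=
          (hRd.differentiableAt.pow k).mul (hgdw.inv hgw)
        refine (this.congr_of_eventuallyEq ?_).differentiableWithinAt
        filter_upwards [hOo.mem_nhds hw] with v hv
        show R v ^ k * rcp (f v) = _
        rw [hfg v hv, rcp_coe]
    · intro w hw
      by_cases hwZ : w ∈ Z
      · exact (hΦZ w hwZ).continuousAt.continuousWithinAt
      · exact ((hRd.continuous.pow k).continuousWithinAt).mul ((hrc w hw hwZ).mono hclL)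
  have hΦ0 : ∀ w ∈ frontier O, ‖Φ w‖ ≤ 0 := by
    intro w hw
    have h2 : f w = ∞ := (hfr hw).2
    show ‖R w ^ k * rcp (f w)‖ ≤ 0
    rw [h2, rcp_infty, mul_zero, norm_zero]
  have hΦ1 : ∀ w ∈ O, Φ w = 0 := by
    intro w hw
    have := Complex.norm_le_of_forall_mem_frontier_norm_le hbd hΦc hΦ0 (subset_closure hw)
    simpa using this
  -- a point that is not a zero
  have hev : ∀ᶠ w in 𝓝[≠] z, w ∈ O ∧ g w ≠ 0 := by
    rcases (hga z hzO).eventually_eq_zero_or_eventually_ne_zero with h | h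
    · exact absurd h (hnz z hzO)
    · have h' : ∀ᶠ w in 𝓝[≠] z, w ∈ O := mem_nhdsWithin_of_mem_nhds (hOo.mem_nhds hzO)
      exact h'.and h
  obtain ⟨w, hwO, hgw⟩ := hev.exists
  have h1 := hΦ1 w hwO
  have h2 : R w ≠ 0 := by
    rw [hR]
    simp only
    rw [Finset.prod_ne_zero_iff]
    intro a ha h0
    rw [sub_eq_zero] at h0
    rw [h0] at hgw
    exact hgw ((hZ a).1 ha).2
  have h3 : rcp (f w) ≠ 0 := by
    rw [hfg w hwO, rcp_coe]
    exact inv_ne_zero hgw
  exact mul_ne_zero (pow_ne_zero k h2) h3 h1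

end Q73.CM
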