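import Pool.Agent.Q73.CM.Stm

/-!
# Project CM, job TR (helper87): from the maximum metric to the Euclidean metric
-/

set_option autoImplicit false

namespace Pool.Agent.Q73.CM

open Set Filter Topology MeasureTheory
open scoped NNReal ENNReal

namespace TR

/-- the covers with `k` sets -/
def HasCov {X : Type} [PseudoEMetricSpace X] (r : ℝ) (E : Set X) (k : ℕ) : Prop :=
  ∃ t : Fin k → Set X, (∀ i, Metric.ediam (t i) ≤ ENNReal.ofReal r) ∧ E ⊆ ⋃ i, t i

theorem covN_le {X : Type} [PseudoEMetricSpace X] {r : ℝ} {E : Set X} {k : ℕ}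
    (h : HasCov r E k) : covN r E ≤ k := Nat.sInf_le h

theorem covN_spec {X : Type} [PseudoEMetricSpace X] {r : ℝ} {E : Set X} {k : ℕ}
    (h : HasCov r E k) : HasCov r E (covN r E) := Nat.sInf_mem (s := {k | HasCov r E k}) ⟨k, h⟩

theorem HasCov.mono {X : Type} [PseudoEMetricSpace X] {r : ℝ} {E E' : Set X} {k : ℕ}
    (h : HasCov r E k) (hE : E' ⊆ E) : HasCov r E' k := by
  obtain ⟨t, h1, h2⟩ := h
  exact ⟨t, h1, hE.trans h2⟩

theorem exists_cov {X : Type} [PseudoMetricSpace X] {E : Set X} (hE : IsCompact E) {r : ℝ}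
    (hr : 0 < r) : ∃ k, HasCov r E k := by
  obtain ⟨t, -, ht, hEt⟩ := hE.finite_cover_balls (half_pos hr)
  let s := ht.toFinset
  refine ⟨s.card, fun i => Metric.ball ((s.equivFin.symm i : s) : X) (r / 2), fun i => ?_, ?_⟩
  · refine Metric.ediam_le fun x hx y hy => ?_
    rw [edist_dist]
    refine ENNReal.ofReal_le_ofReal ?_
    rw [Metric.mem_ball] at hx hy
    have := dist_triangle_right x y ((s.equivFin.symm i : s) : X)
    linarith
  · intro x hx
    obtain ⟨y, hy, hxy⟩ := mem_iUnion₂.1 (hEt hx)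
    refine mem_iUnion.2 ⟨s.equivFin ⟨y, ht.mem_toFinset.2 hy⟩, ?_⟩
    simpa using hxy

theorem one_le_covN {X : Type} [PseudoMetricSpace X] {E : Set X} {r : ℝ} (hne : E.Nonempty)
    {k : ℕ} (h : HasCov r E k) : 1 ≤ covN r E := by
  obtain ⟨t, -, h2⟩ := covN_spec h
  obtain ⟨x, hx⟩ := hne
  obtain ⟨i, -⟩ := mem_iUnion.1 (h2 hx)
  have := i.2
  omega

/-- image under a Lipschitz map -/
theorem covN_image {X Y : Type} [PseudoMetricSpace X] [PseudoMetricSpace Y] {f : X → Y}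
    (hf : LipschitzWith 1 f) {E : Set X} {E' : Set Y} (hE : E' ⊆ f '' E) {r : ℝ} {k : ℕ}
    (h : HasCov r E k) : covN r E' ≤ covN r E := by
  obtain ⟨t, h1, h2⟩ := covN_spec h
  refine covN_le ⟨fun i => f '' t i, fun i => ?_, ?_⟩
  · refine (hf.ediam_image_le (t i)).trans ?_
    simpa using h1 i
  · intro y hy
    obtain ⟨x, hx, rfl⟩ := hE hy
    obtain ⟨i, hi⟩ := mem_iUnion.1 (h2 hx)
    exact mem_iUnion.2 ⟨i, mem_image_of_mem f hi⟩

theorem hasCov_preimage {X Y : Type} [PseudoMetricSpace X] [PseudoMetricSpace Y] {f : X → Y}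
    (hf : AntilipschitzWith 2 f) {E : Set X} {E' : Set Y} (hE : f '' E ⊆ E') {r : ℝ} {k : ℕ}
    (h : HasCov r E' k) : HasCov (2 * r) E k := by
  obtain ⟨t, h1, h2⟩ := h
  refine ⟨fun i => f ⁻¹' t i, fun i => ?_, ?_⟩
  · refine Metric.ediam_le fun x hx y hy => ?_
    refine (hf x y).trans ?_
    have hx' : f x ∈ t i := hx
    have hy' : f y ∈ t i := hy
    have h3 : edist (f x) (f y) ≤ ENNReal.ofReal r :=
      (Metric.edist_le_ediam_of_mem hx' hy').trans (h1 i)
    rw [ENNReal.ofReal_mul (by norm_num)]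
    have h4 : ENNReal.ofReal 2 = ((2 : ℝ≥0) : ℝ≥0∞) := by simp
    rw [h4]
    exact mul_le_mul_right h3 _
  · intro x hx
    obtain ⟨i, hi⟩ := mem_iUnion.1 (h2 (hE (mem_image_of_mem f hx)))
    exact mem_iUnion.2 ⟨i, hi⟩

theorem dist_toPair_le (x y : EuclideanSpace ℝ (Fin 2)) :
    dist (toPair x) (toPair y) ≤ dist x y := by
  rw [Prod.dist_eq, EuclideanSpace.dist_eq, Fin.sum_univ_two]
  refine max_le (Real.le_sqrt_of_sq_le ?_) (Real.le_sqrt_of_sq_le ?_)
  · exact le_add_of_nonneg_right (sq_nonneg _)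
  · exact le_add_of_nonneg_left (sq_nonneg _)

theorem dist_le_toPair (x y : EuclideanSpace ℝ (Fin 2)) :
    dist x y ≤ 2 * dist (toPair x) (toPair y) := by
  rw [Prod.dist_eq, EuclideanSpace.dist_eq, Fin.sum_univ_two]
  have h0 : 0 ≤ dist (x 0) (y 0) := dist_nonneg
  have h1 : 0 ≤ dist (x 1) (y 1) := dist_nonneg
  have a0 : dist (x 0) (y 0) ≤ max (dist (x 0) (y 0)) (dist (x 1) (y 1)) := le_max_left _ _
  have a1 : dist (x 1) (y 1) ≤ max (dist (x 0) (y 0)) (dist (x 1) (y 1)) := le_max_right _ _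
  show √(dist (x 0) (y 0) ^ 2 + dist (x 1) (y 1) ^ 2) ≤
    2 * max (dist (x 0) (y 0)) (dist (x 1) (y 1))
  rw [Real.sqrt_le_left (by positivity)]
  nlinarith

theorem lip : LipschitzWith 1 toPair :=
  LipschitzWith.of_dist_le_mul fun x y => by simpa using dist_toPair_le x y

theorem anti : AntilipschitzWith 2 toPair :=
  AntilipschitzWith.of_le_mul_dist fun x y => by simpa using dist_le_toPair x y

theorem window {F : Set (EuclideanSpace ℝ (Fin 2))} (hF : IsCompact F)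
    (x : EuclideanSpace ℝ (Fin 2)) (R : ℝ) : IsCompact (Metric.closedBall x R ∩ F) :=
  hF.inter_left Metric.isClosed_closedBall

theorem half_rpow {δ s : ℝ} (h1 : 1 / 2 ≤ δ) (h2 : δ < 1) : δ ^ (-s) ≤ 2 ^ |s| := by
  have hδ : 0 < δ := by linarith
  rcases le_total 0 s with hs | hs
  · rw [abs_of_nonneg hs, Real.rpow_neg hδ.le, ← Real.inv_rpow hδ.le]
    refine Real.rpow_le_rpow (by positivity) ?_ hs
    rw [inv_le_comm₀ hδ (by norm_num)]
    linarith
  · have h3 : δ ^ (-s) ≤ 1 := Real.rpow_le_one hδ.le h2.le (by linarith)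
    exact h3.trans (Real.one_le_rpow (by norm_num) (abs_nonneg s))

end TR

open TR in
theorem t_TR : S_TR := by
  intro F hF
  have hF' : IsCompact (toPair '' F) := hF.image lip.continuous
  refine ⟨?_, ?_, ?_, ?_⟩
  · exact le_antisymm (anti.le_dimH_image F) (lip.dimH_image_le F)
  · rintro s ⟨c, hc, H⟩
    refine ⟨min (c * 2 ^ (-s)) ((2 ^ |s|)⁻¹), lt_min (by positivity) (by positivity), ?_⟩
    intro δ hδ hδ1
    rcases lt_or_ge δ (1 / 2) with hh | hh
    · obtain ⟨x', hx', R, hR, hcov⟩ := H (2 * δ) (by linarith) (by linarith)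
      obtain ⟨x, hx, rfl⟩ := hx'
      refine ⟨x, hx, 2 * R, by linarith, ?_⟩
      obtain ⟨k, hk⟩ := exists_cov (window hF x (2 * R)) (r := δ * (2 * R)) (by positivity)
      have hsub : Metric.closedBall (toPair x) R ∩ toPair '' F ⊆
          toPair '' (Metric.closedBall x (2 * R) ∩ F) := by
        rintro _ ⟨h1, ⟨y, hy, rfl⟩⟩
        refine ⟨y, ⟨?_, hy⟩, rfl⟩
        rw [Metric.mem_closedBall] at h1 ⊢
        exact (dist_le_toPair y x).trans (by linarith)
      have h3 := covN_image lip hsub hk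
      have e1 : 2 * δ * R = δ * (2 * R) := by ring
      rw [e1] at hcov
      have h4 : c * 2 ^ (-s) * δ ^ (-s) = c * (2 * δ) ^ (-s) := by
        rw [Real.mul_rpow (by norm_num) hδ.le]
        ring
      calc min (c * 2 ^ (-s)) ((2 ^ |s|)⁻¹) * δ ^ (-s) ≤ c * 2 ^ (-s) * δ ^ (-s) :=
            mul_le_mul_of_nonneg_right (min_le_left _ _) (Real.rpow_nonneg hδ.le _)
        _ = c * (2 * δ) ^ (-s) := h4
        _ ≤ _ := hcov
        _ ≤ _ := by exact_mod_cast h3
    · obtain ⟨x', hx', R, hR, -⟩ := H (1 / 2) (by norm_num) (by norm_num)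
      obtain ⟨x, hx, rfl⟩ := hx'
      refine ⟨x, hx, R, hR, ?_⟩
      obtain ⟨k, hk⟩ := exists_cov (window hF x R) (r := δ * R) (by positivity)
      have h1 : 1 ≤ covN (δ * R) (Metric.closedBall x R ∩ F) :=
        one_le_covN ⟨x, Metric.mem_closedBall_self hR.le, hx⟩ hk
      have h2 : (1 : ℝ) ≤ (covN (δ * R) (Metric.closedBall x R ∩ F) : ℝ) := by exact_mod_cast h1
      refine le_trans ?_ h2
      calc min (c * 2 ^ (-s)) ((2 ^ |s|)⁻¹) * δ ^ (-s) ≤ (2 ^ |s|)⁻¹ * δ ^ (-s) :=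
            mul_le_mul_of_nonneg_right (min_le_right _ _) (Real.rpow_nonneg hδ.le _)
        _ ≤ (2 ^ |s|)⁻¹ * 2 ^ |s| :=
            mul_le_mul_of_nonneg_left (half_rpow hh hδ1) (by positivity)
        _ = 1 := inv_mul_cancel₀ (by positivity)
  · rintro s ⟨C, hC, H⟩
    refine ⟨C * 2 ^ s, by positivity, ?_⟩
    intro δ hδ hδ1
    obtain ⟨x', hx', R, hR, hRd, hcov⟩ := H (δ / 2) (by linarith) (by linarith)
    obtain ⟨x, hx, rfl⟩ := hx'
    refine ⟨x, hx, R, hR, ?_, ?_⟩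
    · refine hRd.trans ?_
      refine Metric.diam_le_of_forall_dist_le Metric.diam_nonneg ?_
      rintro _ ⟨y, hy, rfl⟩ _ ⟨z, hz, rfl⟩
      exact (dist_toPair_le y z).trans (Metric.dist_le_diam_of_mem hF.isBounded hy hz)
    · obtain ⟨k, hk⟩ := exists_cov (E := Metric.closedBall (toPair x) R ∩ toPair '' F)
        (hF'.inter_left Metric.isClosed_closedBall) (r := δ / 2 * R) (by positivity)
      have hsub : toPair '' (Metric.closedBall x R ∩ F) ⊆
          Metric.closedBall (toPair x) R ∩ toPair '' F := by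
        rintro _ ⟨y, ⟨h1, h2⟩, rfl⟩
        refine ⟨?_, mem_image_of_mem _ h2⟩
        rw [Metric.mem_closedBall] at h1 ⊢
        exact (dist_toPair_le y x).trans h1
      have h3 := covN_le (hasCov_preimage anti hsub (covN_spec hk))
      have e1 : 2 * (δ / 2 * R) = δ * R := by ring
      rw [e1] at h3
      have h4 : C * (δ / 2) ^ (-s) = C * 2 ^ s * δ ^ (-s) := by
        rw [Real.div_rpow hδ.le (by norm_num), Real.rpow_neg (by norm_num : (0:ℝ) ≤ 2)]
        field_simp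
      calc (covN (δ * R) (Metric.closedBall x R ∩ F) : ℝ)
          ≤ (covN (δ / 2 * R) (Metric.closedBall (toPair x) R ∩ toPair '' F) : ℝ) := by
            exact_mod_cast h3
        _ ≤ C * (δ / 2) ^ (-s) := hcov
        _ = C * 2 ^ s * δ ^ (-s) := h4
  · rintro s hs ⟨C, hC, H⟩
    refine ⟨C * 2 ^ s, by positivity, ?_⟩
    intro r hr hr1
    obtain ⟨T, hT, hT2⟩ := H (r / 2) (by linarith) (by linarith)
    have hcv : HasCov (r / 2) (toPair '' F) T.card := by
      refine ⟨fun i => Icc ((T.equivFin.symm i : T) : ℝ × ℝ).1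
        (((T.equivFin.symm i : T) : ℝ × ℝ).1 + r / 2) ×ˢ
        Icc ((T.equivFin.symm i : T) : ℝ × ℝ).2
        (((T.equivFin.symm i : T) : ℝ × ℝ).2 + r / 2), fun i => ?_, ?_⟩
      · refine Metric.ediam_le fun y hy z hz => ?_
        rw [edist_dist]
        refine ENNReal.ofReal_le_ofReal ?_
        rw [Prod.dist_eq, Real.dist_eq, Real.dist_eq]
        obtain ⟨⟨a1, a2⟩, ⟨a3, a4⟩⟩ := hy
        obtain ⟨⟨b1, b2⟩, ⟨b3, b4⟩⟩ := hz
        refine max_le (abs_le.2 ⟨by linarith, by linarith⟩) (abs_le.2 ⟨by linarith, by linarith⟩)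
      · intro z hz
        obtain ⟨p, hp, h1, h2⟩ := hT2 z hz
        refine mem_iUnion.2 ⟨T.equivFin ⟨p, hp⟩, ?_⟩
        rw [Equiv.symm_apply_apply]
        exact ⟨h1, h2⟩
    have h3 := covN_le (hasCov_preimage anti (le_refl (toPair '' F)) hcv)
    have e1 : 2 * (r / 2) = r := by ring
    rw [e1] at h3
    have h4 : C * (r / 2) ^ (-s) = C * 2 ^ s * r ^ (-s) := by
      rw [Real.div_rpow hr.le (by norm_num), Real.rpow_neg (by norm_num : (0:ℝ) ≤ 2)]
      field_simp
    calc (covN r F : ℝ) ≤ (T.card : ℝ) := by exact_mod_cast h3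
      _ ≤ C * (r / 2) ^ (-s) := hT
      _ = C * 2 ^ s * r ^ (-s) := h4

end Pool.Agent.Q73.CM
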